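import Pool.Agent.H303.NP.Sph

/-!
# The statement: power means of the doubling indices on closed surfaces
-/

set_option autoImplicit false
open MeasureTheory Filter Topology Complex Bundle
open scoped ContDiff Manifold

namespace Pool.Agent.H303.NP.Pub

noncomputable section

universe u v

/-- the Laplacian of the plane `ℂ`: `∂_x² + ∂_y²` -/
def laplacian (f : ℂ → ℝ) (z : ℂ) : ℝ :=
  fderiv ℝ (fun w => fderiv ℝ f w 1) z 1 + fderiv ℝ (fun w => fderiv ℝ f w I) z I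

/-- The lengths of the piecewise `C¹` curves from `x` to `y` on a surface with charts
`φ i : U i → M` and the metric `ρ i |dz|²` in the `i`-th chart: the `k`-th piece of the curve is
`φ (i k) ∘ γ k` on `[0, 1]`, it goes from `P k` to `P (k + 1)`. -/
def curveLengths {M : Type u} {ι : Type v} (U : ι → Set ℂ) (φ : ι → ℂ → M) (ρ : ι → ℂ → ℝ)
    (x y : M) : Set ℝ :=
  {l | ∃ (n : ℕ) (i : ℕ → ι) (γ : ℕ → ℝ → ℂ) (P : ℕ → M), P 0 = x ∧ P n = y ∧
    (∀ k < n, ContDiff ℝ 1 (γ k) ∧ (∀ t ∈ Set.Icc (0 : ℝ) 1, γ k t ∈ U (i k)) ∧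
      φ (i k) (γ k 0) = P k ∧ φ (i k) (γ k 1) = P (k + 1)) ∧
    l = ∑ k ∈ Finset.range n, ∫ t in (0 : ℝ)..1, Real.sqrt (ρ (i k) (γ k t)) * ‖deriv (γ k) t‖}

/-- A Riemannian surface given by isothermal charts: the charts `φ i`, defined on the open subsets `U i`
of the plane, are homeomorphisms onto open sets that cover `M`; in the `i`-th chart the metric is
`ρ i |dz|²` with `ρ i > 0` of class `C¹`; the transition maps are isometries for these metrics; the
distance of `M` is the geodesic distance, the infimum of the lengths of curves. -/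
structure RiemannianSurface {M : Type u} {ι : Type v} [MetricSpace M] (U : ι → Set ℂ)
    (φ : ι → ℂ → M) (ρ : ι → ℂ → ℝ) : Prop where
  isOpen_domain : ∀ i, IsOpen (U i)
  injective_chart : ∀ i, Set.InjOn (φ i) (U i)
  continuous_chart : ∀ i, ContinuousOn (φ i) (U i)
  open_chart : ∀ i (S : Set ℂ), IsOpen S → S ⊆ U i → IsOpen (φ i '' S)
  cover : ∀ x : M, ∃ i, x ∈ φ i '' U i
  density_pos : ∀ i, ∀ z ∈ U i, 0 < ρ i z
  density_smooth : ∀ i, ContDiffOn ℝ 1 (ρ i) (U i)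
  transition : ∀ i j, ∀ z ∈ U i, ∀ w ∈ U j, φ i z = φ j w → ∃ τ : ℂ → ℂ, τ z = w ∧
    (∀ᶠ z' in 𝓝 z, τ z' ∈ U j ∧ φ j (τ z') = φ i z') ∧ DifferentiableAt ℝ τ z ∧
    ∀ v : ℂ, ρ j w * ‖fderiv ℝ τ z v‖ ^ 2 = ρ i z * ‖v‖ ^ 2
  geodesic : ∀ x y : M, dist x y = sInf (curveLengths U φ ρ x y)

/-- `f` is a real smooth eigenfunction on `M`, `Δ_g f + lam f = 0`, `f ≢ 0`: in the chart `φ i` the
Laplace-Beltrami operator is `Δ / ρ i` -/
structure IsEigenfunction {M : Type u} {ι : Type v} (U : ι → Set ℂ) (φ : ι → ℂ → M)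
    (ρ : ι → ℂ → ℝ) (lam : ℝ) (f : M → ℝ) : Prop where
  smooth : ∀ i, ContDiffOn ℝ ∞ (fun z => f (φ i z)) (U i)
  eq : ∀ i, ∀ z ∈ U i, laplacian (fun z => f (φ i z)) z + lam * ρ i z * f (φ i z) = 0
  ne : ∃ x, f x ≠ 0

/-! ### Riemannian manifolds of dimension two in the sense of Mathlib, modelled on a real normed space `E`
with a basis `b` of two vectors (for instance the Euclidean plane) -/

section

variable {E : Type v} [NormedAddCommGroup E] [NormedSpace ℝ E] (b : Module.Basis (Fin 2) ℝ E)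
  {M : Type u} [TopologicalSpace M] [ChartedSpace E M]

/-- the coordinate vector `∂_i` of the chart at `x₀`, at the point with coordinates `z` -/
def coordVec (x₀ : M) (z : E) (i : Fin 2) :
    TangentSpace 𝓘(ℝ, E) ((extChartAt 𝓘(ℝ, E) x₀).symm z) :=
  mfderiv 𝓘(ℝ, E) 𝓘(ℝ, E) (extChartAt 𝓘(ℝ, E) x₀).symm z (b i)

/-- the matrix `g_ij = ⟨∂_i, ∂_j⟩` of the metric in the chart at `x₀` -/
def metricMatrix [RiemannianBundle (fun x : M => TangentSpace 𝓘(ℝ, E) x)] (x₀ : M) (z : E) :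
    Matrix (Fin 2) (Fin 2) ℝ :=
  Matrix.of fun i j => inner ℝ (coordVec b x₀ z i) (coordVec b x₀ z j)

/-- the Laplace-Beltrami operator in coordinates: `(det g)^(-1/2) ∑_i ∂_i ((det g)^(1/2) ∑_j g^ij ∂_j h)` -/
def laplaceBeltrami (g : E → Matrix (Fin 2) (Fin 2) ℝ) (h : E → ℝ) (z : E) : ℝ :=
  (√((g z).det))⁻¹ * ∑ i, fderiv ℝ (fun y => √((g y).det) *
    ∑ j, (g y)⁻¹ i j * fderiv ℝ h y (b j)) z (b i)

/-- `f` is a real smooth eigenfunction on the Riemannian manifold `M`: `Δ_g f + lam f = 0`, `f ≢ 0` -/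
structure IsEigenfunctionOn [RiemannianBundle (fun x : M => TangentSpace 𝓘(ℝ, E) x)] (lam : ℝ)
    (f : M → ℝ) : Prop where
  smooth : ContMDiff 𝓘(ℝ, E) 𝓘(ℝ, ℝ) ∞ f
  eq : ∀ x₀ : M, ∀ z ∈ (extChartAt 𝓘(ℝ, E) x₀).target,
    laplaceBeltrami b (metricMatrix b x₀) (fun y => f ((extChartAt 𝓘(ℝ, E) x₀).symm y)) z
      + lam * f ((extChartAt 𝓘(ℝ, E) x₀).symm z) = 0
  ne : ∃ x, f x ≠ 0

end

/-- the doubling index of `f` on the geodesic disc with centre `x` and radius `r` -/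
def doubling {M : Type u} [MetricSpace M] (f : M → ℝ) (x : M) (r : ℝ) : ℝ :=
  Real.logb 2 (sSup ((fun y => |f y|) '' Metric.ball x (2 * r)) /
    sSup ((fun y => |f y|) '' Metric.ball x r))

/-- the geodesic discs of radius `C / √lam` with centres `x i` are an admissible covering for `f` with
constants `C`, `C₁`, `C₂` -/
structure Admissible {M : Type u} [MetricSpace M] (f : M → ℝ) (lam C C₁ C₂ : ℝ) {κ : Type}
    [Fintype κ] (x : κ → M) : Prop where
  cover : ∀ y : M, ∃ i, y ∈ Metric.ball (x i) (C / Real.sqrt lam)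
  lower : C₂⁻¹ * lam ≤ Fintype.card κ
  upper : (Fintype.card κ : ℝ) ≤ C₂ * lam
  mult : ∀ y : M, ({i | y ∈ Metric.ball (x i) (C / Real.sqrt lam)}.ncard : ℝ) ≤ C₁
  zero : ∀ i, f (x i) = 0

/-- the mean of the `p`-th powers of the doubling indices of the discs of radius `C / √lam` with
centres `x i` -/
def powerMean {M : Type u} [MetricSpace M] (f : M → ℝ) (lam C p : ℝ) {κ : Type} [Fintype κ]
    (x : κ → M) : ℝ :=
  (∑ i, doubling f (x i) (C / Real.sqrt lam) ^ p) / Fintype.card κ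

/-- The bounds for the power means, for the eigenfunctions `f` with eigenvalue `lam`, `Eigen lam f`, on
the surface `M`: for `0 < p < 2` the means of the `p`-th powers over admissible coverings are bounded; for
`p ≥ 2` they are `O((1 + lam) ^ (p / 2 - 1 + ε))` for every `ε > 0`. -/
def PowerMeanBounds {M : Type u} [MetricSpace M] (Eigen : ℝ → (M → ℝ) → Prop) : Prop :=
  ∀ C C₁ C₂ : ℝ, 0 < C → 0 < C₁ → 0 < C₂ →
    (∀ p : ℝ, 0 < p → p < 2 → ∃ A : ℝ, ∀ (lam : ℝ) (f : M → ℝ), 0 < lam → Eigen lam f →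
      ∀ (κ : Type) [Fintype κ] (x : κ → M), Admissible f lam C C₁ C₂ x →
        powerMean f lam C p x ≤ A) ∧
    ∀ p ε : ℝ, 2 ≤ p → 0 < ε → ∃ A : ℝ, ∀ (lam : ℝ) (f : M → ℝ), 0 < lam → Eigen lam f →
      ∀ (κ : Type) [Fintype κ] (x : κ → M), Admissible f lam C C₁ C₂ x →
        powerMean f lam C p x ≤ A * (1 + lam) ^ (p / 2 - 1 + ε)

/-! ### The round sphere -/

/-- The eigenfunctions `Re (x₀ + i x₁) ^ l` of the round sphere, with eigenvalue `ev l = l (l + 1)`, show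
that the exponents are sharp: the charts are isothermal charts of the round sphere with its geodesic
distance (the angle), the functions are eigenfunctions, admissible coverings exist, and for every
admissible covering the mean of the squares is `≥ c log lam` and the mean of the `p`-th powers is
`≥ c lam ^ (p / 2 - 1)` for `p ≥ 2`. -/
def SphereSharp : Prop :=
  RiemannianSurface stU stc stρ ∧ (∀ l : ℕ, IsEigenfunction stU stc stρ (ev l) (har l)) ∧
  (∃ C C₁ C₂ : ℝ, 0 < C ∧ 0 < C₁ ∧ 0 < C₂ ∧ ∀ l : ℕ, 1 ≤ l → ∃ (n : ℕ) (x : Fin n → GS),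
    Admissible (har l) (ev l) C C₁ C₂ x) ∧
  ∀ C C₁ C₂ : ℝ, 0 < C → 0 < C₁ → 0 < C₂ →
    (∃ c : ℝ, 0 < c ∧ ∃ l₀ : ℕ, ∀ l : ℕ, l₀ ≤ l → ∀ (κ : Type) [Fintype κ] (x : κ → GS),
      Admissible (har l) (ev l) C C₁ C₂ x → c * Real.log (ev l) ≤ powerMean (har l) (ev l) C 2 x) ∧
    ∀ p : ℝ, 2 ≤ p → ∃ c : ℝ, 0 < c ∧ ∃ l₀ : ℕ, ∀ l : ℕ, l₀ ≤ l → ∀ (κ : Type) [Fintype κ]
      (x : κ → GS), Admissible (har l) (ev l) C C₁ C₂ x →
        c * ev l ^ (p / 2 - 1) ≤ powerMean (har l) (ev l) C p x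

end

end Pool.Agent.H303.NP.Pub
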