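import Pool.Agent.H303.NP.Stm
import Pool.Graph.R_pool_sql_team_seeded_3997aac3.Q73.AD.YPC

/-! Project NP (helper303), task T1: sums of powers over separated points in the plane. -/

set_option autoImplicit false

open MeasureTheory Filter Topology Complex Metric

namespace Pool.Agent.H303.NP

open Pool.Agent.Q73.AD

theorem tpcp {α : ℝ} (h1 : 1 ≤ α) (h2 : α < 2) : PCp α := by
  classical
  obtain ⟨ρ, hρ⟩ : ∃ ρ : ℝ, ρ = (2 : ℝ) ^ (2 - α) := ⟨_, rfl⟩
  have hα0 : 0 ≤ α := by linarith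
  have hρ1 : 1 < ρ := by
    rw [hρ]
    exact Real.one_lt_rpow (by norm_num) (by linarith)
  have hρ0 : 0 < ρ := by linarith
  have hρm : 0 < ρ - 1 := by linarith
  obtain ⟨C, hC⟩ : ∃ C : ℝ, C = 36 + 9 * 2 ^ α * ρ * 16 ^ (2 - α) / (ρ - 1) := ⟨_, rfl⟩
  have hC' : 0 ≤ 9 * 2 ^ α * ρ * 16 ^ (2 - α) / (ρ - 1) := by positivity
  refine ⟨C, by linarith, ?_⟩
  intro M S p hM hp hsep y
  have hM1 : (1 : ℝ) ≤ M := by exact_mod_cast hM
  have hM0 : (0 : ℝ) < M := by linarith
  have hM2 : (0 : ℝ) ≤ (M : ℝ) ^ 2 := by positivity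
  obtain ⟨Q, hQ⟩ : ∃ Q : ℕ × ℕ → ℂ, Q = fun a => (M : ℂ) * p a := ⟨_, rfl⟩
  have hn : ∀ a (y : ℂ), ‖Q a - (M : ℂ) * y‖ = M * ‖p a - y‖ := by
    intro a y
    rw [hQ, ← mul_sub, norm_mul, Complex.norm_natCast]
  have hsepQ : ∀ a ∈ S, ∀ b ∈ S, a ≠ b → 1 ≤ ‖Q a - Q b‖ := by
    intro a ha b hb hab
    have h1 := hsep a ha b hb hab
    have h2 : ‖Q a - Q b‖ = M * ‖p a - p b‖ := by
      have := hn a (p b)
      rw [← this, hQ]
    rw [h2]
    rw [div_le_iff₀ hM0] at h1
    linarith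
  have hcard : (S.card : ℝ) ≤ 36 * M ^ 2 := by
    have := pc_count S Q 0 (2 * M) (by linarith) hsepQ (by
      intro a ha
      have h1 := hn a 0
      simp only [mul_zero, sub_zero] at h1 ⊢
      rw [h1]
      have := hp a ha
      nlinarith)
    nlinarith
  -- dyadic scale
  obtain ⟨K, hK1, hK2⟩ : ∃ K : ℕ, (2 : ℝ) ^ K ≤ 16 * M ∧ 8 * (M : ℝ) ≤ 2 ^ K := by
    have hex : ∃ k : ℕ, 8 * (M : ℝ) ≤ 2 ^ k := by
      obtain ⟨k, hk⟩ := pow_unbounded_of_one_lt (8 * (M : ℝ)) (by norm_num : (1 : ℝ) < 2)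
      exact ⟨k, hk.le⟩
    refine ⟨Nat.find hex, ?_, Nat.find_spec hex⟩
    rcases Nat.eq_zero_or_pos (Nat.find hex) with h | h
    · rw [h, pow_zero]
      linarith
    · have h1 := Nat.find_min hex (m := Nat.find hex - 1) (by omega)
      push Not at h1
      have h2 : (2 : ℝ) ^ (Nat.find hex) = 2 ^ (Nat.find hex - 1) * 2 := by
        rw [← pow_succ]
        congr 1
        omega
      rw [h2]
      linarith
  by_cases hy : ‖y‖ ≤ 4
  · have hnear : ∀ a ∈ S, ‖Q a - (M : ℂ) * y‖ ≤ 2 ^ K := by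
      intro a ha
      rw [hn]
      have h1 : ‖p a - y‖ ≤ 6 := by
        have := norm_sub_le (p a) y
        have := hp a ha
        linarith
      nlinarith
    have k1 := pc_sum S Q ((M : ℂ) * y) K (fun t => ((M : ℝ) / (1 + t)) ^ α)
      (fun k => (2 * (M : ℝ) * (2 ^ k)⁻¹) ^ α) hsepQ
      (fun k => by positivity) (by
        intro t ht k h1 h2
        refine Real.rpow_le_rpow (by positivity) ?_ hα0
        rcases Nat.eq_zero_or_pos k with h3 | h3
        · rw [h3, pow_zero, inv_one, mul_one, div_le_iff₀ (by positivity)]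
          nlinarith
        · have h2' : (2 : ℝ) ^ (k - 1) < t := by
            rcases h2 with h2 | h2
            · omega
            · exact h2
          obtain ⟨m, rfl⟩ : ∃ m, k = m + 1 := ⟨k - 1, by omega⟩
          simp only [Nat.add_sub_cancel] at h2'
          have h4 : 2 * (M : ℝ) * (2 ^ (m + 1))⁻¹ = M / 2 ^ m := by
            rw [pow_succ]
            field_simp
          rw [h4]
          apply div_le_div_of_nonneg_left hM0.le (by positivity)
          linarith)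
      hnear
    have k2 : ∑ k ∈ Finset.range (K + 1), ((2 * (M : ℝ) * ((2 : ℝ) ^ k)⁻¹) ^ α) * (9 * 4 ^ k) =
        9 * (2 * (M : ℝ)) ^ α * ((ρ ^ (K + 1) - 1) / (ρ - 1)) := by
      have h3 : ∀ k ∈ Finset.range (K + 1), ((2 * (M : ℝ) * ((2 : ℝ) ^ k)⁻¹) ^ α) * (9 * 4 ^ k) =
          9 * (2 * (M : ℝ)) ^ α * ρ ^ k := by
        intro k _
        rw [Real.mul_rpow (by positivity) (by positivity)]
        have h5 : ((2 : ℝ) ^ k)⁻¹ ^ α * 4 ^ k = ρ ^ k := by
          rw [hρ, ← Real.rpow_natCast (2 : ℝ) k, ← Real.rpow_neg (by norm_num),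
            ← Real.rpow_mul (by norm_num), ← Real.rpow_natCast ((2 : ℝ) ^ (2 - α)) k,
            ← Real.rpow_mul (by norm_num)]
          have h6 : (4 : ℝ) ^ k = (2 : ℝ) ^ (2 * (k : ℝ)) := by
            rw [Real.rpow_mul (by norm_num), Real.rpow_natCast]
            norm_num
          rw [h6, ← Real.rpow_add (by norm_num)]
          congr 1
          ring
        rw [← h5]
        ring
      rw [Finset.sum_congr rfl h3, ← Finset.mul_sum, geom_sum_eq hρ1.ne' (K + 1)]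
    rw [k2] at k1
    have k3 : ∑ a ∈ S, ((M : ℝ) / (1 + M * ‖p a - y‖)) ^ α =
        ∑ a ∈ S, ((M : ℝ) / (1 + ‖Q a - (M : ℂ) * y‖)) ^ α :=
      Finset.sum_congr rfl fun a _ => by rw [hn]
    rw [k3]
    refine k1.trans ?_
    have k4 : ρ ^ K ≤ (16 * (M : ℝ)) ^ (2 - α) := by
      have h5 : ρ ^ K = ((2 : ℝ) ^ K) ^ (2 - α) := by
        rw [hρ, ← Real.rpow_natCast ((2 : ℝ) ^ (2 - α)) K, ← Real.rpow_mul (by norm_num),
          ← Real.rpow_natCast (2 : ℝ) K, ← Real.rpow_mul (by norm_num)]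
        congr 1
        ring
      rw [h5]
      exact Real.rpow_le_rpow (by positivity) hK1 (by linarith)
    have k5 : (2 * (M : ℝ)) ^ α * (16 * (M : ℝ)) ^ (2 - α) = 2 ^ α * 16 ^ (2 - α) * (M : ℝ) ^ 2 := by
      rw [Real.mul_rpow (by norm_num) hM0.le, Real.mul_rpow (by norm_num) hM0.le]
      have h6 : (M : ℝ) ^ α * (M : ℝ) ^ (2 - α) = (M : ℝ) ^ 2 := by
        rw [← Real.rpow_add hM0]
        have : α + (2 - α) = ((2 : ℕ) : ℝ) := by
          push_cast
          ring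
        rw [this, Real.rpow_natCast]
      rw [← h6]
      ring
    calc 9 * (2 * (M : ℝ)) ^ α * ((ρ ^ (K + 1) - 1) / (ρ - 1))
        ≤ 9 * (2 * (M : ℝ)) ^ α * (ρ * (16 * (M : ℝ)) ^ (2 - α) / (ρ - 1)) := by
          refine mul_le_mul_of_nonneg_left ?_ (by positivity)
          apply div_le_div_of_nonneg_right _ hρm.le
          rw [pow_succ]
          nlinarith
      _ = 9 * ρ / (ρ - 1) * ((2 * (M : ℝ)) ^ α * (16 * (M : ℝ)) ^ (2 - α)) := by ring
      _ = 9 * 2 ^ α * ρ * 16 ^ (2 - α) / (ρ - 1) * (M : ℝ) ^ 2 := by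
          rw [k5]
          ring
      _ ≤ C * (M : ℝ) ^ 2 := by
          rw [hC]
          exact mul_le_mul_of_nonneg_right (by linarith) hM2
  · have hfar : ∀ a ∈ S, 2 * (M : ℝ) ≤ M * ‖p a - y‖ := by
      intro a ha
      push Not at hy
      have h1 : 2 ≤ ‖p a - y‖ := by
        have := norm_sub_norm_le y (p a)
        rw [norm_sub_rev] at this
        have := hp a ha
        linarith
      nlinarith
    have k1 : ∑ a ∈ S, ((M : ℝ) / (1 + M * ‖p a - y‖)) ^ α ≤ ∑ a ∈ S, (1 : ℝ) := by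
      apply Finset.sum_le_sum
      intro a ha
      have h3 := hfar a ha
      refine Real.rpow_le_one (by positivity) ?_ hα0
      rw [div_le_iff₀ (by positivity)]
      linarith
    refine k1.trans ?_
    rw [Finset.sum_const, nsmul_eq_mul, mul_one]
    refine hcard.trans ?_
    rw [hC]
    exact mul_le_mul_of_nonneg_right (by linarith) hM2

end Pool.Agent.H303.NP
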