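import Pool.Agent.H303.NP.Stm
import Pool.Graph.R_pool_sql_team_seeded_3997aac3.Q73.AD.YZ4
import Pool.Graph.R_pool_sql_team_seeded_3997aac3.Q73.AD.YZ5

/-! # Z4p and Z5p: the global part -/

set_option autoImplicit false
open MeasureTheory Filter Topology Complex Metric
open scoped ContDiff ComplexConjugate

namespace Pool.Agent.H303.NP

open Pool.Agent.Q73.NL Pool.Agent.Q73.AD Pool.Agent.Q73.AD.TG4

universe u v

theorem tz4p {α : ℝ} (hα1 : 1 ≤ α) (h6 : Z6p α) : Z4p.{u} α := by
  intro M _ φ ρ V z R c L δ C C₁ hG hρ hC hC₁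
  classical
  obtain ⟨s₁, hs₁, H6⟩ := h6
  have hc := hG.c_pos
  have hc1 := hG.c_le
  have hR := hG.R_pos
  have hR1 := hG.R_le
  have hδ := hG.δ_pos
  set s : ℝ := min s₁ (R / 100) with hsdef
  have hs0 : 0 < s := lt_min hs₁ (by positivity)
  have hss₁ : s ≤ s₁ := min_le_left _ _
  have hsR : 100 * s ≤ R := by
    have : s ≤ R / 100 := min_le_right _ _
    linarith
  refine ⟨min δ (c * (2 * s)), by positivity, fun Cg hCg => ?_⟩
  obtain ⟨A, lam₀, hA, hlam₀, H⟩ := H6 s L (2 * Cg / s) (c * C / 2) (2 * C / c) C₁ hs0 hss₁ hG.L_ge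
    (by positivity) (by positivity) (by positivity) hC₁
  have hlog2 : 0 < Real.log 2 := Real.log_pos (by norm_num)
  set Q : ℕ := ⌈R / (2 * s) + 1⌉₊ with hQ
  refine ⟨(2 * Q + 1) ^ 2 * A / Real.log 2 ^ α, by positivity,
    max lam₀ (max 1 (max ((C / R) ^ 2) ((2 * C / δ) ^ 2))), by positivity, ?_⟩
  intro lam f κ _ b hlam hsm heq hbdd hpos hgrow hcard hb
  have hlam0 : lam₀ ≤ lam := (le_max_left _ _).trans hlam
  have hlam1 : 1 ≤ lam := (le_max_left _ _).trans ((le_max_right _ _).trans hlam)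
  have hlam2 : (C / R) ^ 2 ≤ lam :=
    (le_max_left _ _).trans ((le_max_right _ _).trans ((le_max_right _ _).trans hlam))
  have hlam3 : (2 * C / δ) ^ 2 ≤ lam :=
    (le_max_right _ _).trans ((le_max_right _ _).trans ((le_max_right _ _).trans hlam))
  set sl : ℝ := Real.sqrt lam with hsl
  have hsl1 : 1 ≤ sl := Real.one_le_sqrt.2 hlam1
  have hsl0 : 0 < sl := by linarith
  have hsl2 : C / R ≤ sl := Real.le_sqrt_of_sq_le hlam2
  have hsl3 : 2 * C / δ ≤ sl := Real.le_sqrt_of_sq_le hlam3
  have hCR : C / sl ≤ R := by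
    rw [div_le_iff₀ hsl0]
    rw [div_le_iff₀ hR] at hsl2
    linarith
  have h2Cδ : 2 * (C / sl) ≤ δ := by
    rw [div_le_iff₀ hδ] at hsl3
    have e : 2 * (C / sl) = 2 * C / sl := by ring
    rw [e, div_le_iff₀ hsl0]
    linarith
  -- boundedness
  obtain ⟨Bf, hBf⟩ := hbdd
  have hBf' : ∀ x, |f x| ≤ Bf := fun x => hBf ⟨x, Set.mem_univ _, rfl⟩
  have hVn : ∀ y ∈ V, V ∈ 𝓝 y := fun y hy => hG.opn.mem_nhds hy
  -- a disc contains the preimage of a small metric ball
  have hsmall : ∀ w ∈ closedBall z (3 * R / 2), ∀ t, 0 < t →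
      sn f (ball (φ w) (min δ (c * t))) ≤ sn (fun w => f (φ w)) (closedBall w t) := by
    intro w hw t ht
    refine sn_le2 (sn_nonneg2 _ _) fun x hx => ?_
    have hx1 : x ∈ ball (φ w) δ := ball_subset_ball (min_le_left _ _) hx
    obtain ⟨w', hw', rfl⟩ := hG.surj w hw hx1
    have h3 := (hG.lip w' hw' w (closedBall_subset_closedBall (by linarith) hw)).1
    have h4 : dist (φ w') (φ w) < c * t := lt_of_lt_of_le hx (min_le_right _ _)
    have h5 : ‖w' - w‖ < t := lt_of_mul_lt_mul_left (h3.trans_lt h4) hc.le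
    have h6 : w' ∈ closedBall w t := by
      rw [mem_closedBall, dist_eq_norm]
      exact h5.le
    exact le_sn2 (f := fun w => f (φ w)) (fun w' _ => hBf' (φ w')) h6
  have hposd : ∀ w ∈ closedBall z (3 * R / 2), ∀ t, 0 < t →
      0 < sn (fun w => f (φ w)) (closedBall w t) := by
    intro w hw t ht
    exact (hpos (φ w) _ (lt_min hδ (by positivity))).trans_le (hsmall w hw t ht)
  -- the position of the discs
  choose y hyR hyb using hb
  have hyR' : ∀ i, ‖y i - z‖ ≤ R := fun i => by
    have := hyR i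
    rwa [mem_closedBall, dist_eq_norm] at this
  have hy2R : ∀ i, y i ∈ closedBall z (2 * R) := fun i =>
    closedBall_subset_closedBall (by linarith) (hyR i)
  have hy32R : ∀ i, y i ∈ closedBall z (3 * R / 2) := fun i =>
    closedBall_subset_closedBall (by linarith) (hyR i)
  -- small discs
  have hin : ∀ i, ∀ w ∈ closedBall (y i) (c * C / 2 / sl), φ w ∈ ball (b i) (C / sl) := by
    intro i w hw
    rw [mem_closedBall, dist_eq_norm] at hw
    have hcs : c * C / 2 / sl ≤ C / sl := by
      refine div_le_div_of_nonneg_right ?_ hsl0.le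
      nlinarith
    have hw2 : w ∈ closedBall z (2 * R) := by
      rw [mem_closedBall, dist_eq_norm]
      have e : w - z = (w - y i) + (y i - z) := by ring
      rw [e]
      refine (norm_add_le _ _).trans ?_
      linarith [hyR' i]
    have h1 := (hG.lip w hw2 (y i) (hy2R i)).2
    rw [mem_ball, ← hyb i]
    have h2 : c * dist (φ w) (φ (y i)) ≤ c * (C / sl / 2) := by
      refine (h1.trans hw).trans (le_of_eq ?_)
      ring
    have h3 : dist (φ w) (φ (y i)) ≤ C / sl / 2 := le_of_mul_le_mul_left h2 hc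
    have h4 : 0 < C / sl := by positivity
    linarith
  -- large discs
  have hout : ∀ i, ∀ x ∈ ball (b i) (2 * (C / sl)), ∃ w ∈ closedBall (y i) (2 * C / c / sl), φ w = x := by
    intro i x hx
    rw [← hyb i] at hx
    obtain ⟨w, hw, rfl⟩ := hG.surj (y i) (hy32R i) (ball_subset_ball h2Cδ hx)
    refine ⟨w, ?_, rfl⟩
    have h1 := (hG.lip w hw (y i) (hy2R i)).1
    rw [mem_ball] at hx
    rw [mem_closedBall, dist_eq_norm]
    have h3 : c * ‖w - y i‖ ≤ c * (2 * C / c / sl) := by
      refine (h1.trans hx.le).trans (le_of_eq ?_)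
      field_simp
    exact le_of_mul_le_mul_left h3 hc
  -- the doubling index of one disc
  set F : κ → ℝ := fun i => Real.log (sn (fun w => f (φ w)) (closedBall (y i) (2 * C / c / sl)) /
    sn (fun w => f (φ w)) (closedBall (y i) (c * C / 2 / sl))) with hF
  have hdbl : ∀ i, dbl f (b i) (C / sl) ≤ F i / Real.log 2 := by
    intro i
    have hr0 : 0 < C / sl := by positivity
    have h2 : sn f (ball (b i) (2 * (C / sl))) ≤
        sn (fun w => f (φ w)) (closedBall (y i) (2 * C / c / sl)) := by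
      refine sn_le2 (sn_nonneg2 _ _) fun x hx => ?_
      obtain ⟨w, hw, rfl⟩ := hout i x hx
      exact le_sn2 (f := fun w => f (φ w)) (fun w' _ => hBf' (φ w')) hw
    have h3 : sn (fun w => f (φ w)) (closedBall (y i) (c * C / 2 / sl)) ≤
        sn f (ball (b i) (C / sl)) := by
      refine sn_le2 (sn_nonneg2 _ _) fun w hw => ?_
      exact le_sn2 (fun x _ => hBf' x) (hin i w hw)
    have hp := hpos (b i) (C / sl) hr0
    have hp2 := hpos (b i) (2 * (C / sl)) (by linarith)
    have hp3 := hposd (y i) (hy32R i) (c * C / 2 / sl) (by positivity)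
    unfold dbl Real.logb
    refine div_le_div_of_nonneg_right ?_ hlog2.le
    refine Real.log_le_log (div_pos hp2 hp) ?_
    exact div_le_div₀ (sn_nonneg2 _ _) h2 hp3 h3
  choose m hm1 hm2 hm3 hm4 using fun i => locate2 hs0 (hyR' i)
  set IS : Finset (ℤ × ℤ) := Finset.Icc (-(Q : ℤ)) Q ×ˢ Finset.Icc (-(Q : ℤ)) Q with hIS
  have hIScard : (IS.card : ℝ) = (2 * Q + 1) ^ 2 := by
    rw [hIS, Finset.card_product, Int.card_Icc]
    have : ((Q : ℤ) + 1 - -(Q : ℤ)).toNat = 2 * Q + 1 := by omega
    rw [this]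
    push_cast
    ring
  have hmIS : ∀ i, m i ∈ IS := by
    intro i
    have hQr : R / (2 * s) + 1 ≤ Q := Nat.le_ceil _
    have key : ∀ k : ℤ, |(k : ℝ)| ≤ R / (2 * s) + 1 → k ∈ Finset.Icc (-(Q : ℤ)) Q := by
      intro k hk
      have h1 := abs_le.1 (hk.trans hQr)
      rw [Finset.mem_Icc]
      constructor
      · have : ((-(Q : ℤ) : ℤ) : ℝ) ≤ k := by push_cast; linarith [h1.1]
        exact_mod_cast this
      · have : (k : ℝ) ≤ ((Q : ℤ) : ℝ) := by push_cast; linarith [h1.2]
        exact_mod_cast this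
    rw [hIS, Finset.mem_product]
    exact ⟨key _ (hm3 i), key _ (hm4 i)⟩
  -- one square
  have hone : ∀ m₀ : ℤ × ℤ, ∑ i ∈ Finset.univ.filter (fun i => m i = m₀), max (F i) 0 ^ α ≤ A * lam := by
    intro m₀
    rcases (Finset.univ.filter (fun i => m i = m₀)).eq_empty_or_nonempty with he | ⟨i₀, hi₀⟩
    · rw [he, Finset.sum_empty]
      positivity
    have hi₀' : m i₀ = m₀ := by simpa using hi₀
    set p : ℂ := rt z s m₀ with hp
    have hyp : ‖y i₀ - p‖ ≤ 2 * s := by
      refine (Complex.norm_le_abs_re_add_abs_im _).trans ?_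
      have h1 := hm1 i₀
      have h2 := hm2 i₀
      rw [hi₀'] at h1 h2
      linarith
    have hpz : ‖p - z‖ ≤ R + 2 * s := by
      have e : p - z = (y i₀ - z) - (y i₀ - p) := by ring
      rw [e]
      refine (norm_sub_le _ _).trans ?_
      linarith [hyR' i₀]
    have hpz' : p ∈ closedBall z (3 * R / 2) := by
      rw [mem_closedBall, dist_eq_norm]
      linarith
    have hsub32 : closedBall p (32 * s) ⊆ closedBall z (3 * R / 2) := by
      refine closedBall_subset_closedBall' ?_
      rw [dist_eq_norm]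
      linarith
    have hsub2 : closedBall p (32 * s) ⊆ closedBall z (2 * R) :=
      hsub32.trans (closedBall_subset_closedBall (by linarith))
    have hloc : Loc lam L s p ρ (fun w => f (φ w)) := by
      refine ⟨by linarith, hs0, by linarith, ?_, ?_⟩
      · intro w hw
        have hw2 := hsub2 hw
        have hwV := hG.sub hw2
        exact ⟨(hsm w hwV).contDiffAt (hVn w hwV), (hG.smooth w hwV).contDiffAt (hVn w hwV), hρ w hwV,
          (le_abs_self _).trans (hG.bd w hw2).1, (hG.bd w hw2).2, heq w hwV⟩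
      · intro w t ht hwt
        exact hposd w (hsub32 (hwt (mem_closedBall_self ht.le))) t ht
    have hgr : gr (fun w => f (φ w)) p s ≤ 2 * Cg / s * (sl * s) := by
      have h1 : sn (fun w => f (φ w)) (closedBall p (32 * s)) ≤ sn f Set.univ :=
        sn_le2 (sn_nonneg2 _ _) fun w _ => le_sn2 (fun x _ => hBf' x) (Set.mem_univ (φ w))
      have h2 := hsmall p hpz' (2 * s) (by linarith)
      have h3 := hgrow (φ p)
      have hp2 := hposd p hpz' (2 * s) (by linarith)
      have hp32 := hposd p hpz' (32 * s) (by linarith)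
      have h4 : sn (fun w => f (φ w)) (closedBall p (32 * s)) / sn (fun w => f (φ w)) (closedBall p (2 * s)) ≤
          Real.exp (Cg * (1 + sl)) := by
        rw [div_le_iff₀ hp2]
        calc _ ≤ _ := h1
          _ ≤ _ := h3
          _ ≤ _ := mul_le_mul_of_nonneg_left h2 (Real.exp_pos _).le
      have h5 := Real.log_le_log (div_pos hp32 hp2) h4
      rw [Real.log_exp] at h5
      unfold gr
      refine h5.trans ?_
      have e : 2 * Cg / s * (sl * s) = 2 * Cg * sl := by field_simp
      rw [e]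
      nlinarith
    have hsum := H lam p ρ (fun w => f (φ w)) {i // m i = m₀} (fun i => y i.1) hlam0 hloc hgr
      (fun i => by
        have h1 := hm1 i.1
        have h2 := hm2 i.1
        rw [i.2] at h1 h2
        exact ⟨h1, h2⟩)
      (fun x => by
        rcases Set.eq_empty_or_nonempty {i : {i // m i = m₀} | ‖x - y i.1‖ ≤ c * C / 2 / sl} with he | hne
        · rw [he, Set.ncard_empty]
          simpa using hC₁.le
        · refine le_trans ?_ (hcard (φ x))
          have h1 : (Subtype.val '' {i : {i // m i = m₀} | ‖x - y i.1‖ ≤ c * C / 2 / sl}) ⊆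
              {i | φ x ∈ ball (b i) (C / sl)} := by
            rintro _ ⟨i, hi, rfl⟩
            exact hin i.1 x (by rw [mem_closedBall, dist_eq_norm]; exact hi)
          have h2 := Set.ncard_le_ncard h1 (Set.toFinite _)
          rw [Set.ncard_image_of_injective _ Subtype.val_injective] at h2
          exact_mod_cast h2)
    have e : ∑ i ∈ Finset.univ.filter (fun i => m i = m₀), max (F i) 0 ^ α =
        ∑ i : {i // m i = m₀}, max (F i.1) 0 ^ α := by
      rw [← Finset.sum_subtype_eq_sum_filter, Finset.subtype_univ]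
    rw [e]
    exact hsum
  have hFsum : ∑ i, max (F i) 0 ^ α ≤ (2 * Q + 1) ^ 2 * (A * lam) := by
    have e1 : ∑ i, max (F i) 0 ^ α =
        ∑ x ∈ IS, ∑ i ∈ Finset.univ.filter (fun i => m i = x), max (F i) 0 ^ α :=
      (Finset.sum_fiberwise_of_maps_to (fun i _ => hmIS i) _).symm
    rw [e1]
    refine (Finset.sum_le_sum fun x _ => hone x).trans (le_of_eq ?_)
    rw [Finset.sum_const, nsmul_eq_mul, hIScard]
  have hdbl' : ∀ i, max (dbl f (b i) (C / sl)) 0 ^ α ≤ max (F i) 0 ^ α / Real.log 2 ^ α := by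
    intro i
    rw [← Real.div_rpow (le_max_right _ _) hlog2.le]
    refine Real.rpow_le_rpow (le_max_right _ _) ?_ (by linarith)
    refine max_le ((hdbl i).trans ?_) (div_nonneg (le_max_right _ _) hlog2.le)
    exact div_le_div_of_nonneg_right (le_max_left _ _) hlog2.le
  have hl2 : 0 ≤ Real.log 2 ^ α := Real.rpow_nonneg hlog2.le _
  calc ∑ i, max (dbl f (b i) (C / sl)) 0 ^ α ≤ ∑ i, max (F i) 0 ^ α / Real.log 2 ^ α :=
        Finset.sum_le_sum fun i _ => hdbl' i
    _ = (∑ i, max (F i) 0 ^ α) / Real.log 2 ^ α := (Finset.sum_div _ _ _).symm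
    _ ≤ ((2 * Q + 1) ^ 2 * (A * lam)) / Real.log 2 ^ α := div_le_div_of_nonneg_right hFsum hl2
    _ = _ := by ring


/-- Z5 -/
theorem tz5p {α : ℝ} (hα1 : 1 ≤ α) (h1 : G1.{u, v}) (h2 : G2.{u, v}) (h4 : Z4p.{u} α) : Z5p.{u, v} α := by
  classical
  intro M ι _ _ _ U φ ρ hA hρ C C₁ C₂ hC hC₁ hC₂
  obtain ⟨n, i, z, R, c, L, δ, hG, hcov⟩ := h2 M ι U φ ρ hA
  choose r₀ hr₀ h3' using fun a => h4 M (φ (i a)) (ρ (i a)) (U (i a)) (z a) (R a) c L δ C C₁ (hG a)
    (hρ (i a)) hC hC₁
  choose Cg hCg hgr using fun a => h1 M ι U φ ρ hA (r₀ a) (hr₀ a)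
  choose A hA0 lam₀ hlam₀ hfin using fun a => h3' a (Cg a) (hCg a)
  obtain ⟨Λ, hΛ⟩ : ∃ Λ : ℝ, Λ = 1 + ∑ a, lam₀ a := ⟨_, rfl⟩
  have hΛ0 : 0 < Λ := by
    rw [hΛ]
    have := Finset.sum_nonneg fun a (_ : a ∈ Finset.univ) => (hlam₀ a).le
    linarith
  have hsΛ : 0 < √Λ := Real.sqrt_pos.2 hΛ0
  obtain ⟨Cg', hCg', hgr'⟩ := h1 M ι U φ ρ hA (C / √Λ) (by positivity)
  have hAs : 0 ≤ ∑ a, A a := Finset.sum_nonneg fun a _ => (hA0 a).le
  have hlog : 0 < Real.log 2 := Real.log_pos (by norm_num)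
  obtain ⟨E, hE⟩ : ∃ E : ℝ, E = Cg' * (1 + √Λ) / Real.log 2 := ⟨_, rfl⟩
  have hE0 : 0 ≤ E := by rw [hE]; positivity
  have hEα : 0 ≤ E ^ α := Real.rpow_nonneg hE0 _
  refine ⟨C₂ * (∑ a, A a) + E ^ α + 1, by positivity, ?_⟩
  intro lam f κ _ b hlam hf hne hnc hcard
  have hb : BddAbove ((fun x => |f x|) '' Set.univ) :=
    isCompact_univ.bddAbove_image (cont hA hf).abs.continuousOn
  have hpos : ∀ (x : M) (r : ℝ), 0 < r → 0 < sn f (ball x r) := by
    intro x r hr
    obtain ⟨Cr, -, hgrr⟩ := h1 M ι U φ ρ hA r hr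
    obtain ⟨x₀, hx₀⟩ := hne
    have h4 := (abs_pos.2 hx₀).trans_le ((le_sn hb x₀).trans (hgrr lam f hlam.le hf x))
    exact (mul_pos_iff_of_pos_left (Real.exp_pos _)).1 h4
  have hcardp : (0 : ℝ) < Fintype.card κ := lt_of_lt_of_le (by positivity) hcard
  have hsl : 0 < √lam := Real.sqrt_pos.2 hlam
  rcases le_or_gt Λ lam with hcase | hcase
  · -- large eigenvalues
    choose asg hasg using fun j => hcov (b j)
    have hpart : ∀ a : Fin n, ∑ j : {j : κ // asg j = a}, max (dbl f (b j) (C / √lam)) 0 ^ α ≤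
        A a * lam := by
      intro a
      apply hfin a lam f {j : κ // asg j = a} (fun j => b j)
      · refine le_trans ?_ hcase
        rw [hΛ]
        exact le_sum_of lam₀ hlam₀ a
      · exact (hf (i a)).1
      · exact (hf (i a)).2
      · exact hb
      · exact hpos
      · exact fun x => hgr a lam f hlam.le hf x
      · intro x
        refine le_trans ?_ (hnc x)
        have h5 : Set.ncard {j : {j : κ // asg j = a} | x ∈ ball (b j) (C / √lam)} ≤
            Set.ncard {j : κ | x ∈ ball (b j) (C / √lam)} := by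
          rw [← Set.ncard_image_of_injective _ (Subtype.val_injective (p := fun j : κ => asg j = a))]
          apply Set.ncard_le_ncard _ (Set.toFinite _)
          rintro y ⟨w, hw, rfl⟩
          exact hw
        exact_mod_cast h5
      · rintro ⟨j, hj⟩
        have := hasg j
        rw [hj] at this
        exact this
    have hsum : ∑ j, max (dbl f (b j) (C / √lam)) 0 ^ α ≤ (∑ a, A a) * lam := by
      rw [← Finset.sum_fiberwise Finset.univ asg, Finset.sum_mul]
      refine Finset.sum_le_sum fun a _ => ?_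
      refine le_trans (le_of_eq ?_) (hpart a)
      rw [Finset.sum_subtype (Finset.univ.filter fun j => asg j = a) (p := fun j => asg j = a) (by simp)]
    rw [div_le_iff₀ hcardp]
    calc ∑ j, max (dbl f (b j) (C / √lam)) 0 ^ α ≤ (∑ a, A a) * lam := hsum
      _ = (C₂ * ∑ a, A a) * (C₂⁻¹ * lam) := by
          field_simp
      _ ≤ (C₂ * (∑ a, A a) + E ^ α + 1) * Fintype.card κ := by
          gcongr
          linarith
  · -- small eigenvalues
    have hd : ∀ j, dbl f (b j) (C / √lam) ≤ E := by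
      intro j
      rw [hE]
      apply dbl_le hb (r' := C / √Λ) (by positivity)
        (div_le_div_of_nonneg_left hC.le hsl (Real.sqrt_le_sqrt hcase.le)) (hpos (b j))
      refine (hgr' lam f hlam.le hf (b j)).trans ?_
      apply mul_le_mul_of_nonneg_right _ (hpos (b j) _ (by positivity)).le
      apply Real.exp_le_exp.2
      apply mul_le_mul_of_nonneg_left _ hCg'.le
      have := Real.sqrt_le_sqrt hcase.le
      linarith
    have hd' : ∀ j, max (dbl f (b j) (C / √lam)) 0 ^ α ≤ E ^ α := fun j =>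
      Real.rpow_le_rpow (le_max_right _ _) (max_le (hd j) hE0) (by linarith)
    have hsum : ∑ j, max (dbl f (b j) (C / √lam)) 0 ^ α ≤ Fintype.card κ * E ^ α := by
      refine (Finset.sum_le_card_nsmul _ _ _ fun j _ => hd' j).trans ?_
      rw [nsmul_eq_mul, Finset.card_univ]
    rw [div_le_iff₀ hcardp]
    refine hsum.trans ?_
    rw [mul_comm]
    apply mul_le_mul_of_nonneg_right _ hcardp.le
    have h7 : 0 ≤ C₂ * ∑ a, A a := by positivity
    linarith

end Pool.Agent.H303.NP
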