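import Pool.Agent.H303.NP.Stm
import Pool.Graph.R_pool_sql_team_seeded_3997aac3.Q73.AD.YTR

/-!
# Oscillation of a subharmonic function on small discs after subtracting linear functions, with power sums

The proof of `tptrp` is that of `Pool.Agent.Q73.AD.tptr` with the power sum added.
-/

set_option autoImplicit false
open MeasureTheory Filter Topology Complex Metric
open scoped ContDiff ComplexConjugate

namespace Pool.Agent.H303.NP

open Pool.Agent.Q73.NL Pool.Agent.Q73.AD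

namespace T2

theorem split_pow {α x y : ℝ} (h1 : 1 ≤ α) (h2 : α ≤ 2) (hx : 0 ≤ x) (hy : 0 ≤ y) :
    (2 * x + y) ^ α ≤ 16 * x ^ α + 4 * y ^ α := by
  have h0 : 0 ≤ α := by linarith
  have hxa : 0 ≤ x ^ α := Real.rpow_nonneg hx _
  have hya : 0 ≤ y ^ α := Real.rpow_nonneg hy _
  have h4 : (2 : ℝ) ^ α ≤ 4 := by
    calc (2 : ℝ) ^ α ≤ 2 ^ (2 : ℝ) := Real.rpow_le_rpow_of_exponent_le (by norm_num) h2
      _ = 4 := by rw [Real.rpow_two]; norm_num
  have h40 : 0 ≤ (2 : ℝ) ^ α := by positivity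
  rcases le_total (2 * x) y with h | h
  · calc (2 * x + y) ^ α ≤ (2 * y) ^ α := Real.rpow_le_rpow (by positivity) (by linarith) h0
      _ = 2 ^ α * y ^ α := Real.mul_rpow (by norm_num) hy
      _ ≤ 4 * y ^ α := mul_le_mul_of_nonneg_right h4 hya
      _ ≤ _ := by linarith
  · calc (2 * x + y) ^ α ≤ (2 * (2 * x)) ^ α := Real.rpow_le_rpow (by positivity) (by linarith) h0
      _ = 2 ^ α * (2 ^ α * x ^ α) := by
          rw [Real.mul_rpow (by norm_num) (by positivity), Real.mul_rpow (by norm_num) hx]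
      _ ≤ 4 * (4 * x ^ α) := by gcongr
      _ ≤ _ := by linarith

theorem tangent {α t c : ℝ} (h1 : 1 ≤ α) (ht : 0 ≤ t) (hc : 0 < c) :
    c ^ α + α * c ^ (α - 1) * (t - c) ≤ t ^ α := by
  have h := one_add_mul_self_le_rpow_one_add (s := t / c - 1)
    (by have : 0 ≤ t / c := by positivity
        linarith) h1
  have e1 : (1 + (t / c - 1)) ^ α = t ^ α / c ^ α := by
    rw [add_sub_cancel, Real.div_rpow ht hc.le]
  rw [e1, le_div_iff₀ (Real.rpow_pos_of_pos hc α)] at h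
  have e2 : c ^ α = c ^ (α - 1) * c := by
    rw [← Real.rpow_add_one hc.ne']; ring_nf
  calc c ^ α + α * c ^ (α - 1) * (t - c) = (1 + α * (t / c - 1)) * c ^ α := by
        rw [e2]; field_simp
    _ ≤ _ := h

theorem lp_int {m : ℂ → ℝ} (hm : Continuous m) (hs : HasCompactSupport m) (M : ℕ) (p : ℂ) {α : ℝ}
    (h1 : 1 ≤ α) : Integrable (fun y => ((M : ℝ) / (1 + M * ‖p - y‖)) ^ α * m y) := by
  refine Continuous.integrable_of_hasCompactSupport ?_ (HasCompactSupport.mul_left hs)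
  refine Continuous.mul (Continuous.rpow_const ?_ fun _ => Or.inr (by linarith)) hm
  exact Continuous.div (by fun_prop) (by fun_prop) fun y => by positivity

theorem jensen {m : ℂ → ℝ} (hm : Continuous m) (hs : HasCompactSupport m) (hm0 : ∀ y, 0 ≤ m y)
    (M : ℕ) (p : ℂ) {α : ℝ} (h1 : 1 ≤ α) (hμ : 0 < ∫ y, m y) :
    (∫ y, (M : ℝ) / (1 + M * ‖p - y‖) * m y) ^ α ≤
      (∫ y, m y) ^ (α - 1) * ∫ y, ((M : ℝ) / (1 + M * ‖p - y‖)) ^ α * m y := by
  have hmi : Integrable m := hm.integrable_of_hasCompactSupport hs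
  have i1 := Pool.Agent.Q73.AD.YTR.l_int hm hs M p
  have i2 := lp_int hm hs M p h1
  set μ := ∫ y, m y with hμd
  set L := ∫ y, (M : ℝ) / (1 + M * ‖p - y‖) * m y with hL
  have hK0 : ∀ y : ℂ, 0 ≤ (M : ℝ) / (1 + M * ‖p - y‖) := fun y => by positivity
  have hL0 : 0 ≤ L := integral_nonneg fun y => mul_nonneg (hK0 y) (hm0 y)
  rcases hL0.eq_or_lt with h | h
  · rw [← h, Real.zero_rpow (by linarith)]
    refine mul_nonneg (Real.rpow_nonneg hμ.le _) (integral_nonneg fun y => ?_)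
    exact mul_nonneg (Real.rpow_nonneg (hK0 y) _) (hm0 y)
  · have hc : 0 < L / μ := by positivity
    have i3 : Integrable (fun y => (M : ℝ) / (1 + M * ‖p - y‖) * m y - (L / μ) * m y) :=
      i1.sub (hmi.const_mul _)
    have i4 : Integrable (fun y => α * (L / μ) ^ (α - 1) *
        ((M : ℝ) / (1 + M * ‖p - y‖) * m y - (L / μ) * m y)) := i3.const_mul _
    have h3 : ∫ y, ((L / μ) ^ α * m y + α * (L / μ) ^ (α - 1) *
        ((M : ℝ) / (1 + M * ‖p - y‖) * m y - (L / μ) * m y)) ≤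
        ∫ y, ((M : ℝ) / (1 + M * ‖p - y‖)) ^ α * m y := by
      refine integral_mono ?_ i2 fun y => ?_
      · exact (hmi.const_mul _).add i4
      · have := mul_le_mul_of_nonneg_right (tangent h1 (hK0 y) hc) (hm0 y)
        simp only
        calc _ = ((L / μ) ^ α + α * (L / μ) ^ (α - 1) * ((M : ℝ) / (1 + M * ‖p - y‖) - L / μ)) *
              m y := by ring
          _ ≤ _ := this
    rw [integral_add (hmi.const_mul _) i4,
      integral_const_mul, integral_const_mul, integral_sub i1 (hmi.const_mul _),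
      integral_const_mul, ← hμd, ← hL, div_mul_cancel₀ _ hμ.ne', sub_self, mul_zero, add_zero] at h3
    have e2 : μ ^ α = μ ^ (α - 1) * μ := by
      rw [← Real.rpow_add_one hμ.ne']; ring_nf
    have hμα : 0 < μ ^ (α - 1) := Real.rpow_pos_of_pos hμ _
    calc L ^ α = μ ^ (α - 1) * ((L / μ) ^ α * μ) := by
          rw [Real.div_rpow hL0 hμ.le, e2]; field_simp
      _ ≤ _ := mul_le_mul_of_nonneg_left h3 hμα.le

theorem sum_Lp {m : ℂ → ℝ} {α : ℝ} (h1 : 1 ≤ α) (hm : Continuous m) (hs : HasCompactSupport m)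
    (hm0 : ∀ y, 0 ≤ m y) {M : ℕ}
    {S : Finset (ℕ × ℕ)} {p : ℕ × ℕ → ℂ} {c B : ℝ} (hc : 0 ≤ c) (hB : ∫ y, m y ≤ B)
    (h : ∀ y : ℂ, ∑ a ∈ S, ((M : ℝ) / (1 + M * ‖p a - y‖)) ^ α ≤ c) :
    ∑ a ∈ S, (∫ y, (M : ℝ) / (1 + M * ‖p a - y‖) * m y) ^ α ≤ c * B ^ α := by
  have hmi : Integrable m := hm.integrable_of_hasCompactSupport hs
  have hK0 : ∀ a, ∀ y : ℂ, 0 ≤ (M : ℝ) / (1 + M * ‖p a - y‖) := fun a y => by positivity
  have hμ0 : 0 ≤ ∫ y, m y := integral_nonneg hm0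
  have hB0 : 0 ≤ B := hμ0.trans hB
  rcases hμ0.eq_or_lt with h0 | h0
  · -- `m = 0` almost everywhere
    have hae : m =ᵐ[volume] 0 := (integral_eq_zero_iff_of_nonneg hm0 hmi).1 h0.symm
    have hz : ∀ a, ∫ y, (M : ℝ) / (1 + M * ‖p a - y‖) * m y = 0 := by
      intro a
      refine integral_eq_zero_of_ae ?_
      filter_upwards [hae] with y hy
      rw [hy]; simp
    rw [Finset.sum_eq_zero fun a _ => by rw [hz a, Real.zero_rpow (by linarith)]]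
    exact mul_nonneg hc (Real.rpow_nonneg hB0 _)
  · have e2 : (∫ y, m y) ^ α = (∫ y, m y) ^ (α - 1) * ∫ y, m y := by
      rw [← Real.rpow_add_one h0.ne']; ring_nf
    calc ∑ a ∈ S, (∫ y, (M : ℝ) / (1 + M * ‖p a - y‖) * m y) ^ α
        ≤ ∑ a ∈ S, (∫ y, m y) ^ (α - 1) * ∫ y, ((M : ℝ) / (1 + M * ‖p a - y‖)) ^ α * m y :=
          Finset.sum_le_sum fun a _ => jensen hm hs hm0 M (p a) h1 h0
      _ = (∫ y, m y) ^ (α - 1) * ∫ y, (∑ a ∈ S, ((M : ℝ) / (1 + M * ‖p a - y‖)) ^ α) * m y := by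
          rw [← Finset.mul_sum, ← integral_finsetSum S fun a _ => lp_int hm hs M (p a) h1]
          simp only [Finset.sum_mul]
      _ ≤ (∫ y, m y) ^ (α - 1) * ∫ y, c * m y := by
          refine mul_le_mul_of_nonneg_left ?_ (Real.rpow_nonneg hμ0 _)
          refine integral_mono ?_ (hmi.const_mul c) fun y => mul_le_mul_of_nonneg_right (h y) (hm0 y)
          simp only [Finset.sum_mul]
          exact integrable_finsetSum S fun a _ => lp_int hm hs M (p a) h1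
      _ = c * (∫ y, m y) ^ α := by rw [integral_const_mul, e2]; ring
      _ ≤ c * B ^ α := mul_le_mul_of_nonneg_left (Real.rpow_le_rpow hμ0 hB (by linarith)) hc

end T2

open Pool.Agent.Q73.AD.YTR in
/-- oscillation on small discs after subtracting linear functions -/
theorem tptrp {α : ℝ} (h1 : 1 ≤ α) (h2 : α < 2) (hA : PA) (hB : PB) (hC : PC) (hp : PCp α) :
    PTRp α := by
  have hα1 := h1
  have hα2 := h2
  clear h1 h2
  obtain ⟨C₃, hC3, hpc⟩ := hp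
  intro D hD
  obtain ⟨C₁, hC1, hB⟩ := hB
  obtain ⟨C₂, hC2, hC⟩ := hC
  obtain ⟨K, hK⟩ : ∃ K : ℝ, K = KK / Real.pi := ⟨_, rfl⟩
  have hK0 : 0 ≤ K := by rw [hK]; exact div_nonneg KK_nonneg Real.pi_pos.le
  have hlD : 0 ≤ Real.log (6 * D) := Real.log_nonneg (by linarith)
  obtain ⟨Q, hQ⟩ : ∃ Q : ℝ, Q = (Real.log (6 * D) + K) * (1 + 4 * D ^ 2) := ⟨_, rfl⟩
  have hQ0 : 0 ≤ Q := by rw [hQ]; positivity
  have hC12 : 1 ≤ C₁ * C₂ := by nlinarith
  obtain ⟨R, hR⟩ : ∃ R : ℝ, R = 16 * C₃ * C₁ ^ 2 + 4 * C₂ * C₁ ^ 2 := ⟨_, rfl⟩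
  have hR0 : 0 ≤ R := by rw [hR]; positivity
  refine ⟨4 * D + C₁ * C₂ * (Q + 6 * D ^ 2 + 1) + 3 * (C₁ * C₂) + R, ?_, ?_⟩
  · have : 0 ≤ C₁ * C₂ * (Q + 6 * D ^ 2 + 1) := by positivity
    linarith
  intro M A b v S p hCM hA1 hvm hvb hsub hvint hp hsep
  have hbig : 0 ≤ C₁ * C₂ * (Q + 6 * D ^ 2 + 1) := by positivity
  have hM4 : 4 * D ≤ M := by linarith
  have hM0 : (0 : ℝ) < M := by linarith
  have hM1 : 1 ≤ M := by
    have : (0 : ℝ) < M := hM0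
    exact_mod_cast this
  have hM1' : (1 : ℝ) ≤ M := by exact_mod_cast hM1
  have hlM : 0 ≤ Real.log M := Real.log_nonneg hM1'
  obtain ⟨δ, hδ⟩ : ∃ δ : ℝ, δ = 1 / (4 * M) := ⟨_, rfl⟩
  have hδ0 : 0 < δ := by rw [hδ]; positivity
  have hδ1 : δ ≤ 1 / 2 := by
    rw [hδ]
    exact one_div_le_one_div_of_le two_pos (by linarith)
  obtain ⟨V, hVs, hV0, hV1, hV2, hV3⟩ := hA v b δ hδ0 hδ1 hvm hvb hsub
  obtain ⟨m, H, hm, hs, hm0, hmA, hVr, hH⟩ := hB V A hVs hV0 (fun x hx => (hV1 x hx).2)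
    (hV2.trans hvint)
  obtain ⟨hc1, hc2, hc3, _⟩ := hC M S p hM1 hp hsep
  have hξ : ∀ a : ℕ × ℕ, ∃ ξ : ℂ, a ∈ S → ‖ξ‖ ≤ C₁ * A ∧
      ∀ x ∈ ball (0 : ℂ) 3, |H x - H (p a) - (conj ξ * (x - p a)).re| ≤ C₁ * A * ‖x - p a‖ ^ 2 := by
    intro a
    by_cases ha : a ∈ S
    · obtain ⟨ξ, h1, h2⟩ := hH (p a) (by rw [mem_ball_zero_iff]; linarith [hp a ha])
      exact ⟨ξ, fun _ => ⟨h1, h2⟩⟩
    · exact ⟨0, fun h => absurd h ha⟩
  choose ξ hξ using hξ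
  obtain ⟨ρ, hρ⟩ : ∃ ρ : ℝ, ρ = D / M := ⟨_, rfl⟩
  have hρ0 : 0 < ρ := by rw [hρ]; positivity
  have hρ4 : ρ ≤ 1 / 4 := by rw [hρ, div_le_iff₀ hM0]; linarith
  obtain ⟨W, hW⟩ : ∃ W : ℕ × ℕ → ℝ, W = fun a => ∫ y, kk M (p a) y * m y := ⟨_, rfl⟩
  have hW0 : ∀ a, 0 ≤ W a := fun a => by
    rw [hW]
    exact integral_nonneg fun y => mul_nonneg (kk_nonneg M (p a) y) (hm0 y)
  have hC1A : 0 ≤ C₁ * A := by positivity
  have hWs : ∑ a ∈ S, W a ≤ C₂ * (1 + Real.log M) * (C₁ * A) := by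
    rw [hW]
    exact sum_W hm hs hm0 (by positivity) hmA hc2
  have hLs := sum_L hm hs hm0 (by positivity : (0:ℝ) ≤ C₂ * (M : ℝ) ^ 2) hmA hc3
  refine ⟨fun a => conj (ZZ m (p a) ρ) + ξ a,
    fun a => Q * W a + 2 * (2 * D ^ 2 * W a + C₁ * A * ρ ^ 2) + 1 / (M : ℝ) ^ 2, ?_, ?_, ?_, ?_, ?_⟩
  · intro a _
    have := hW0 a
    positivity
  · rw [Finset.sum_add_distrib, Finset.sum_add_distrib, ← Finset.mul_sum, ← Finset.mul_sum,
      Finset.sum_add_distrib, ← Finset.mul_sum, Finset.sum_const, Finset.sum_const, nsmul_eq_mul,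
      nsmul_eq_mul]
    have h1 : (S.card : ℝ) * (C₁ * A * ρ ^ 2) ≤ C₂ * (C₁ * A) * D ^ 2 := by
      calc (S.card : ℝ) * (C₁ * A * ρ ^ 2) ≤ C₂ * M ^ 2 * (C₁ * A * ρ ^ 2) := by gcongr
        _ = C₂ * (C₁ * A) * D ^ 2 := by rw [hρ]; field_simp
    have h2 : (S.card : ℝ) * (1 / (M : ℝ) ^ 2) ≤ C₂ := by
      calc (S.card : ℝ) * (1 / (M : ℝ) ^ 2) ≤ C₂ * M ^ 2 * (1 / (M : ℝ) ^ 2) := by gcongr
        _ = C₂ := by field_simp
    have h3 : (Q + 4 * D ^ 2) * ∑ a ∈ S, W a ≤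
        (Q + 4 * D ^ 2) * (C₂ * (1 + Real.log M) * (C₁ * A)) := by gcongr
    have h4 : C₂ * (C₁ * A) * D ^ 2 ≤ C₂ * (C₁ * A) * D ^ 2 * (1 + Real.log M) :=
      le_mul_of_one_le_right (by positivity) (by linarith)
    have h5 : C₂ ≤ C₂ * (C₁ * A) * (1 + Real.log M) := by
      have h6 : 1 ≤ C₁ * A * (1 + Real.log M) := by
        have : 1 ≤ C₁ * A := by nlinarith
        nlinarith
      calc C₂ = C₂ * 1 := (mul_one _).symm
        _ ≤ C₂ * (C₁ * A * (1 + Real.log M)) := mul_le_mul_of_nonneg_left h6 (by linarith)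
        _ = _ := by ring
    have h6 : 0 ≤ (4 * D + 3 * (C₁ * C₂) + R) * A * (1 + Real.log M) := by positivity
    calc Q * ∑ a ∈ S, W a + 2 * (2 * D ^ 2 * ∑ a ∈ S, W a + (S.card : ℝ) * (C₁ * A * ρ ^ 2)) +
          (S.card : ℝ) * (1 / (M : ℝ) ^ 2)
        = (Q + 4 * D ^ 2) * ∑ a ∈ S, W a + 2 * ((S.card : ℝ) * (C₁ * A * ρ ^ 2)) +
          (S.card : ℝ) * (1 / (M : ℝ) ^ 2) := by ring
      _ ≤ (Q + 4 * D ^ 2) * (C₂ * (1 + Real.log M) * (C₁ * A)) +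
          2 * (C₂ * (C₁ * A) * D ^ 2 * (1 + Real.log M)) + C₂ * (C₁ * A) * (1 + Real.log M) := by
          linarith
      _ = C₁ * C₂ * (Q + 6 * D ^ 2 + 1) * A * (1 + Real.log M) := by ring
      _ ≤ C₁ * C₂ * (Q + 6 * D ^ 2 + 1) * A * (1 + Real.log M) +
          (4 * D + 3 * (C₁ * C₂) + R) * A * (1 + Real.log M) := by linarith
      _ = _ := by ring
  · have h1 : ∑ a ∈ S, ‖conj (ZZ m (p a) ρ) + ξ a‖ ≤
        ∑ a ∈ S, (2 * (∫ y, (M : ℝ) / (1 + M * ‖p a - y‖) * m y) + C₁ * A) := by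
      refine Finset.sum_le_sum fun a ha => ?_
      refine (norm_add_le _ _).trans (add_le_add ?_ (hξ a ha).1)
      rw [RCLike.norm_conj, hρ]
      exact ZZ_le hm hs hm0 hM1 hD (p a)
    rw [Finset.sum_add_distrib, ← Finset.mul_sum, Finset.sum_const, nsmul_eq_mul] at h1
    have h2 : (S.card : ℝ) * (C₁ * A) ≤ C₂ * M ^ 2 * (C₁ * A) := by gcongr
    have h3 : 0 ≤ (4 * D + C₁ * C₂ * (Q + 6 * D ^ 2 + 1) + R) * A * M ^ 2 := by positivity
    calc ∑ a ∈ S, ‖conj (ZZ m (p a) ρ) + ξ a‖ ≤ _ := h1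
      _ ≤ 2 * (C₂ * M ^ 2 * (C₁ * A)) + C₂ * M ^ 2 * (C₁ * A) := by linarith
      _ = 3 * (C₁ * C₂) * A * M ^ 2 := by ring
      _ ≤ 3 * (C₁ * C₂) * A * M ^ 2 + (4 * D + C₁ * C₂ * (Q + 6 * D ^ 2 + 1) + R) * A * M ^ 2 := by
          linarith
      _ = _ := by ring
  · -- the new part
    have hB1 : 1 ≤ C₁ * A := by nlinarith
    have hB0 : 0 ≤ C₁ * A := by linarith
    have h1 : ∑ a ∈ S, ‖conj (ZZ m (p a) ρ) + ξ a‖ ^ α ≤
        ∑ a ∈ S, (16 * (∫ y, (M : ℝ) / (1 + M * ‖p a - y‖) * m y) ^ α + 4 * (C₁ * A) ^ α) := by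
      refine Finset.sum_le_sum fun a ha => ?_
      have g1 : ‖conj (ZZ m (p a) ρ) + ξ a‖ ≤
          2 * (∫ y, (M : ℝ) / (1 + M * ‖p a - y‖) * m y) + C₁ * A := by
        refine (norm_add_le _ _).trans (add_le_add ?_ (hξ a ha).1)
        rw [RCLike.norm_conj, hρ]
        exact ZZ_le hm hs hm0 hM1 hD (p a)
      refine (Real.rpow_le_rpow (norm_nonneg _) g1 (by linarith)).trans ?_
      refine T2.split_pow hα1 hα2.le ?_ hB0
      exact integral_nonneg fun y => mul_nonneg (by positivity) (hm0 y)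
    rw [Finset.sum_add_distrib, ← Finset.mul_sum, Finset.sum_const, nsmul_eq_mul] at h1
    have h2 : ∑ a ∈ S, (∫ y, (M : ℝ) / (1 + M * ‖p a - y‖) * m y) ^ α ≤
        C₃ * M ^ 2 * (C₁ * A) ^ α :=
      T2.sum_Lp hα1 hm hs hm0 (by positivity) hmA (hpc M S p hM1 hp hsep)
    have h3 : (C₁ * A) ^ α ≤ C₁ ^ 2 * A ^ α := by
      rw [Real.mul_rpow (by linarith) (by linarith)]
      refine mul_le_mul_of_nonneg_right ?_ (Real.rpow_nonneg (by linarith) _)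
      rw [← Real.rpow_natCast]
      exact Real.rpow_le_rpow_of_exponent_le hC1 (by simpa using hα2.le)
    have hAα : 0 ≤ A ^ α := Real.rpow_nonneg (by linarith) _
    have hCA : 0 ≤ (C₁ * A) ^ α := Real.rpow_nonneg hB0 _
    have h4 : (S.card : ℝ) * (4 * (C₁ * A) ^ α) ≤ C₂ * M ^ 2 * (4 * (C₁ * A) ^ α) := by gcongr
    have h5 : (16 * C₃ + 4 * C₂) * M ^ 2 * (C₁ * A) ^ α ≤
        (16 * C₃ + 4 * C₂) * M ^ 2 * (C₁ ^ 2 * A ^ α) := by gcongr
    have h6 : 0 ≤ (4 * D + C₁ * C₂ * (Q + 6 * D ^ 2 + 1) + 3 * (C₁ * C₂)) * A ^ α * M ^ 2 := by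
      positivity
    calc ∑ a ∈ S, ‖conj (ZZ m (p a) ρ) + ξ a‖ ^ α ≤ _ := h1
      _ ≤ (16 * C₃ + 4 * C₂) * M ^ 2 * (C₁ * A) ^ α := by linarith
      _ ≤ (16 * C₃ + 4 * C₂) * M ^ 2 * (C₁ ^ 2 * A ^ α) := h5
      _ = R * A ^ α * M ^ 2 := by rw [hR]; ring
      _ ≤ R * A ^ α * M ^ 2 +
          (4 * D + C₁ * C₂ * (Q + 6 * D ^ 2 + 1) + 3 * (C₁ * C₂)) * A ^ α * M ^ 2 := by linarith
      _ = _ := by ring
  · intro a ha
    obtain ⟨k, hk⟩ := local_est hm hs hm0 hVr (p := p a) (ξ := ξ a) (c := C₁ * A) (ρ := ρ) hC1A hρ0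
      (by linarith [hp a ha]) (hξ a ha).2
    obtain ⟨ζ, hζ⟩ : ∃ ζ : ℂ, ζ = conj (ZZ m (p a) ρ) + ξ a := ⟨_, rfl⟩
    simp only [← hζ] at hk ⊢
    obtain ⟨x', hx', hx2⟩ := near_lower hm hs hm0 (r := 1 / (2 * M)) (by positivity)
      (by rw [div_le_one (by positivity)]; linarith) (p a) (N := ball (p a) (2 * ρ))
    rw [← hK] at hx2
    have hx'n : ‖x' - p a‖ < 1 / (2 * M) := by rw [← dist_eq_norm]; exact hx'
    have hrρ : 1 / (2 * (M : ℝ)) ≤ ρ := by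
      rw [hρ, div_le_div_iff₀ (by positivity) hM0]
      nlinarith
    have hx'ρ : ‖x' - p a‖ ≤ ρ := by linarith
    have in5 : ∀ x : ℂ, ‖x - p a‖ ≤ ρ → x ∈ ball (0 : ℂ) 5 := by
      intro x hx
      rw [mem_ball_zero_iff]
      calc ‖x‖ = ‖p a + (x - p a)‖ := by congr 1; ring
        _ ≤ ‖p a‖ + ‖x - p a‖ := norm_add_le _ _
        _ < 5 := by linarith [hp a ha]
    -- the point y
    have hy : ∃ y ∈ ball x' δ, V x' - (conj ζ * x').re - 1 / (M : ℝ) ^ 2 ≤ v y - (conj ζ * y).re := by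
      by_contra hcon
      push Not at hcon
      have h1 := hV3 x' (in5 x' hx'ρ) ζ (V x' - (conj ζ * x').re - 1 / (M : ℝ) ^ 2)
        fun y hy => (hcon y hy).le
      have h2 : 0 < 1 / (M : ℝ) ^ 2 := by positivity
      linarith
    obtain ⟨y, hyb, hy⟩ := hy
    refine ⟨y, ?_, fun x hx => ?_⟩
    · rw [mem_ball, dist_eq_norm] at hyb ⊢
      have h1 : δ + 1 / (2 * M) ≤ 1 / (M : ℝ) := by
        rw [hδ]
        have : 1 / (M : ℝ) - (1 / (4 * M) + 1 / (2 * M)) = 1 / (4 * M) := by field_simp; ring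
        have h2 : 0 < 1 / (4 * (M : ℝ)) := by positivity
        linarith
      calc ‖y - p a‖ = ‖(y - x') + (x' - p a)‖ := by congr 1; ring
        _ ≤ ‖y - x'‖ + ‖x' - p a‖ := norm_add_le _ _
        _ < 1 / M := by linarith
    · rw [mem_closedBall, dist_eq_norm, ← hρ] at hx
      have e1 := hk x hx
      have e2 := hk x' hx'ρ
      have e3 := near_upper hm hs hm0 hx
      have e4 := (hV1 x (in5 x hx)).1
      have e5 : ∫ y in ball (p a) (2 * ρ), m y ≤ (1 + 4 * D ^ 2) * W a := by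
        rw [hρ, hW]
        exact near_mass hm hs hm0 hM1 hD (p a)
      have e6 : ρ ^ 2 * ∫ y in (ball (p a) (2 * ρ))ᶜ, m y / ‖p a - y‖ ^ 2 ≤ 2 * D ^ 2 * W a := by
        rw [hρ, hW]
        exact far_mass hm hs hm0 hM1 hD (p a)
      have e7 : Real.log (3 * ρ) = Real.log (6 * D) + Real.log (1 / (2 * M)) := by
        rw [← Real.log_mul (by positivity) (by positivity), hρ]
        congr 1
        field_simp
        ring
      have e8 : (Real.log (6 * D) + K) * ∫ y in ball (p a) (2 * ρ), m y ≤ Q * W a := by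
        rw [hQ]
        calc (Real.log (6 * D) + K) * ∫ y in ball (p a) (2 * ρ), m y ≤
              (Real.log (6 * D) + K) * ((1 + 4 * D ^ 2) * W a) :=
              mul_le_mul_of_nonneg_left e5 (by linarith)
          _ = _ := by ring
      rw [e7] at e3
      rw [abs_le] at e1 e2
      have e9 : (Real.log (6 * D) + Real.log (1 / (2 * M))) * (∫ y in ball (p a) (2 * ρ), m y) -
          (Real.log (1 / (2 * M)) - K) * (∫ y in ball (p a) (2 * ρ), m y) =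
          (Real.log (6 * D) + K) * ∫ y in ball (p a) (2 * ρ), m y := by ring
      linarith [e1.1, e1.2, e2.1, e2.2]

end Pool.Agent.H303.NP
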