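import Pool.Agent.H303.NP.Stm
import Pool.Graph.R_pool_sql_team_seeded_3997aac3.Q73.AD.YYL

/-! # YLp: the limit form of the one-step lemmas -/

set_option autoImplicit false
open MeasureTheory Filter Topology Complex Metric
open scoped ContDiff ComplexConjugate

namespace Pool.Agent.H303.NP

open Pool.Agent.Q73.NL Pool.Agent.Q73.AD Pool.Agent.Q73.AD.YLaux

/-- **YLp**: the limit form of the one-step lemmas -/
theorem tylp {α : ℝ} (hα1 : 1 ≤ α) (hP : PTRp α) (h4 : C4) (h5 : C5) : YLp α := by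
  classical
  obtain ⟨CP, hCP, hP⟩ := hP 33 (by norm_num)
  set A : ℝ := 144 * Real.pi with hA
  have hpi := Real.pi_gt_three
  have hA1 : 1 ≤ A := by rw [hA]; linarith
  have hCPA : CP ≤ CP * A := by nlinarith
  have hAα : 0 < A ^ α := Real.rpow_pos_of_pos (by linarith) α
  have hCPAα : 0 < CP * A ^ α := by positivity
  refine ⟨40 + CP * A + CP * A ^ α, by nlinarith, fun M σ w x₁ hM hσ1 hσ2 hw husc hNC hx₁ hwx₁ => ?_⟩
  have hσ0 : 0 < σ := by linarith
  have hCPA0 : 0 < CP * A := by positivity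
  have hMr : (40 : ℝ) ≤ M := by linarith
  have hM0 : (0 : ℝ) < M := by linarith
  have hlM : 0 ≤ Real.log M := Real.log_nonneg (by linarith)
  -- the stretched function
  obtain ⟨u, hu⟩ : ∃ u : ℂ → ℝ, ∀ z, u z = w (st σ z) := ⟨_, fun _ => rfl⟩
  have hNC : NC {z | st σ z ∈ ball (0 : ℂ) 32} u := by
    rw [show u = fun z => w (st σ z) from funext hu]
    exact hNC
  obtain ⟨D, hDdef⟩ : ∃ D : Set ℂ, D = {z | st σ z ∈ ball (0 : ℂ) 32} := ⟨_, rfl⟩
  rw [← hDdef] at hNC
  have hD' : ∀ z, z ∈ D ↔ st σ z ∈ ball (0 : ℂ) 32 := fun z => by rw [hDdef]; rfl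
  have hDo : IsOpen D := by rw [hDdef]; exact isOpen_ball.preimage (st_cont σ)
  have hmemD : ∀ z : ℂ, ‖z‖ ≤ 22 → z ∈ D := fun z hz => by
    rw [hD', mem_ball, dist_zero_right]
    have := norm_st_le hσ1 hσ2 z
    linarith
  have hu01 : ∀ x ∈ D, 0 ≤ u x ∧ u x ≤ 1 := fun x hx => by
    rw [hu]
    exact hw _ ((hD' x).1 hx)
  have husc' : UpperSemicontinuousOn u D := by
    intro x hx t ht
    rw [hu] at ht
    have h1 := husc (st σ x) ((hD' x).1 hx) t ht
    have h2 : Tendsto (st σ) (𝓝[D] x) (𝓝[ball (0 : ℂ) 32] (st σ x)) :=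
      ((st_cont σ).continuousWithinAt).tendsto_nhdsWithin fun y hy => (hD' y).1 hy
    filter_upwards [h2.eventually h1] with y hy
    rw [hu]
    exact hy
  obtain ⟨z₁, hz₁⟩ : ∃ z₁ : ℂ, z₁ = st σ⁻¹ x₁ := ⟨_, rfl⟩
  have hz₁n : ‖z₁‖ ≤ 2 := by rw [hz₁]; exact (norm_st_inv_le hσ1 x₁).trans hx₁
  have huz₁ : Real.exp (-1) ≤ u z₁ := by
    rw [hu, hz₁, st_st hσ0]
    exact hwx₁
  -- points where `u` is not small
  have key : ∀ z : ℂ, ‖z‖ ≤ 8 → ∀ r : ℝ, 0 < r → r ≤ 1 → ∃ y ∈ closedBall z r,
      Real.exp (-(3 * Real.log (14 / r) + 1)) < u y := by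
    intro z hz r hr hr1
    refine three h4 hDo hu01 husc' hNC hr hr1 (fun y hy => hmemD y ?_) ?_ huz₁
    · rw [mem_closedBall, dist_eq_norm] at hy
      calc ‖y‖ = ‖(y - z) + z‖ := by rw [sub_add_cancel]
        _ ≤ ‖y - z‖ + ‖z‖ := norm_add_le _ _
        _ ≤ 22 := by linarith
    · calc ‖z₁ - z‖ ≤ ‖z₁‖ + ‖z‖ := norm_sub_le _ _
        _ ≤ 10 := by linarith
  have hl42 := log42
  refine ⟨fun z hz => ?_, fun z hz => ?_, fun S p hp hsep => ?_⟩
  · -- (i)
    obtain ⟨y, hy, hwy⟩ := key (st σ⁻¹ z) ((norm_st_inv_le hσ1 z).trans hz) (1 / 3) (by norm_num)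
      (by norm_num)
    rw [mem_closedBall, dist_eq_norm] at hy
    rw [hu] at hwy
    refine ⟨st σ y, ?_, le_trans ?_ hwy.le⟩
    · rw [mem_ball, dist_eq_norm]
      have h1 : st σ y - z = st σ (y - st σ⁻¹ z) := by rw [st_sub, st_st hσ0]
      rw [h1]
      have := norm_st_le hσ1 hσ2 (y - st σ⁻¹ z)
      linarith
    · apply Real.exp_le_exp.2
      rw [show (14 : ℝ) / (1 / 3) = 42 by norm_num]
      linarith
  · -- (ii)
    have hr0 : (0 : ℝ) < 1 / (3 * M) := by positivity
    have hr1 : (1 : ℝ) / (3 * M) ≤ 1 := by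
      rw [div_le_one (by positivity)]
      linarith
    obtain ⟨y, hy, hwy⟩ := key (st σ⁻¹ z) ((norm_st_inv_le hσ1 z).trans (by linarith)) (1 / (3 * M)) hr0 hr1
    rw [mem_closedBall, dist_eq_norm] at hy
    rw [hu] at hwy
    refine ⟨st σ y, ?_, le_trans ?_ hwy.le⟩
    · rw [mem_ball, dist_eq_norm]
      have h1 : st σ y - z = st σ (y - st σ⁻¹ z) := by rw [st_sub, st_st hσ0]
      rw [h1]
      have h2 := norm_st_le hσ1 hσ2 (y - st σ⁻¹ z)
      have h3 : 29 / 20 * (1 / (3 * (M : ℝ))) < 1 / (2 * M) := by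
        rw [div_mul_div_comm, div_lt_div_iff₀ (by positivity) (by positivity)]
        nlinarith
      have h4 : 29 / 20 * ‖y - st σ⁻¹ z‖ ≤ 29 / 20 * (1 / (3 * (M : ℝ))) := by linarith
      linarith
    · apply Real.exp_le_exp.2
      have h1 : (14 : ℝ) / (1 / (3 * M)) = 42 * M := by field_simp; norm_num
      rw [h1, Real.log_mul (by norm_num) hM0.ne']
      nlinarith
  · -- (iii)
    obtain ⟨DM, hDM⟩ : ∃ DM : ℝ, DM = 13 * (1 + Real.log M) + CP * A * (1 + Real.log M) +
      2 * (CP * A * M ^ 2) := ⟨_, rfl⟩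
    have hDM0 : 0 < DM := by rw [hDM]; positivity
    obtain ⟨T, hT⟩ : ∃ T : ℝ, T = 2 * DM ^ 2 * (S.card + 1) + 2 * DM := ⟨_, rfl⟩
    have hT0 : 0 < T := by rw [hT]; positivity
    obtain ⟨v, hv⟩ : ∃ v : ℂ → ℝ, v = fun x => T * (om D u T x - 1) := ⟨_, rfl⟩
    have hom0 := fun x => om_nonneg (T := T) hu01 x
    have hom1 := fun x => om_le hT0 hu01 x
    have hmeas : Measurable v := by
      rw [hv]
      exact ((om_meas hDo hT0 hu01 husc').sub_const 1).const_mul T
    have hvb : ∀ z, -T ≤ v z ∧ v z ≤ 0 := fun z => by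
      constructor
      · have := mul_nonneg hT0.le (hom0 z)
        simp only [hv]
        linarith
      · have := mul_nonneg hT0.le (sub_nonneg.2 (hom1 z))
        simp only [hv]
        linarith
    have hmv : ∀ (x : ℂ) (r : ℝ), 0 < r → closedBall x r ⊆ D →
        v x * (Real.pi * r ^ 2) ≤ ∫ y in ball x r, v y := fun x r hr hx => by
      have h1 := h5 D (om D u T) hDo (fun x _ => ⟨hom0 x, hom1 x⟩) (om_usc hT0 hu01 husc')
        (om_NC hT0 hu01 hNC) x r hr hx
      simp only [hv]
      rw [int_v hDo hT0 hu01 husc' x hr]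
      nlinarith
    -- relation between `u` and `v`
    have hlow : ∀ x ∈ D, 0 < u x → Real.log (u x) ≤ v x := fun x hx h0 => by
      simp only [hv]
      rw [om_mem hx, Real.rpow_def_of_pos h0]
      have h1 := Real.add_one_le_exp (Real.log (u x) * (1 / T))
      have h2 : T * (Real.log (u x) * (1 / T)) = Real.log (u x) := by field_simp
      nlinarith [mul_le_mul_of_nonneg_left h1 hT0.le]
    have hback : ∀ x ∈ D, u x = (1 + v x / T) ^ T := fun x hx => by
      have h1 : 1 + v x / T = om D u T x := by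
        simp only [hv]
        field_simp
        ring
      rw [h1, om_mem hx, ← Real.rpow_mul (hu01 x hx).1, one_div_mul_cancel hT0.ne', Real.rpow_one]
    have hupp : ∀ x ∈ D, u x ≤ Real.exp (v x) := fun x hx => by
      rw [hback x hx]
      have h0 : 0 ≤ 1 + v x / T := by
        have h1 : 1 + v x / T = om D u T x := by
          simp only [hv]
          field_simp
          ring
        rw [h1]
        exact hom0 x
      have h1 := Real.add_one_le_exp (v x / T)
      calc (1 + v x / T) ^ T ≤ Real.exp (v x / T) ^ T := Real.rpow_le_rpow h0 (by linarith) hT0.le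
        _ = Real.exp (v x) := by
          rw [← Real.exp_mul]
          congr 1
          field_simp
    have hvz₁ : -1 ≤ v z₁ := by
      refine le_trans ?_ (hlow z₁ (hmemD _ (by linarith)) ((Real.exp_pos _).trans_le huz₁))
      rw [Real.le_log_iff_exp_le ((Real.exp_pos _).trans_le huz₁)]
      exact huz₁
    have hint : ∫ x in ball (0 : ℂ) 8, -v x ≤ A := by
      have h1 := hmv z₁ 12 (by norm_num) (fun y hy => hmemD y (by
        rw [mem_closedBall, dist_eq_norm] at hy
        calc ‖y‖ = ‖(y - z₁) + z₁‖ := by rw [sub_add_cancel]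
          _ ≤ ‖y - z₁‖ + ‖z₁‖ := norm_add_le _ _
          _ ≤ 22 := by linarith))
      have hvint : IntegrableOn v (ball z₁ 12) := by
        have := ((int_om hDo hT0 hu01 husc' z₁ 12).sub
          (integrableOn_const (C := (1 : ℝ)) (hs := measure_ball_lt_top.ne))).const_mul T
        rw [hv]
        exact this
      have hsub : ball (0 : ℂ) 8 ⊆ ball z₁ 12 := by
        intro y hy
        rw [mem_ball, dist_zero_right] at hy
        rw [mem_ball, dist_eq_norm]
        calc ‖y - z₁‖ ≤ ‖y‖ + ‖z₁‖ := norm_sub_le _ _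
          _ < 12 := by linarith
      calc ∫ x in ball (0 : ℂ) 8, -v x ≤ ∫ x in ball z₁ 12, -v x := by
            refine setIntegral_mono_set hvint.neg ?_ (Filter.Eventually.of_forall hsub)
            filter_upwards with x
            simp only [Pi.zero_apply]
            linarith [(hvb x).2]
        _ = -∫ x in ball z₁ 12, v x := integral_neg _
        _ ≤ A := by
          rw [hA]
          nlinarith
    -- the centres
    obtain ⟨p', hp'⟩ : ∃ p' : ℕ × ℕ → ℂ, ∀ a, p' a = st σ⁻¹ (p a) := ⟨_, fun _ => rfl⟩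
    have hp'n : ∀ a ∈ S, ‖p' a‖ ≤ 2 := fun a ha => by
      rw [hp']
      exact (norm_st_inv_le hσ1 _).trans (hp a ha)
    have hp'sep : ∀ a ∈ S, ∀ b ∈ S, a ≠ b → 1 / (M : ℝ) ≤ ‖p' a - p' b‖ := by
      intro a ha b hb hab
      have h1 := hsep a ha b hb hab
      have h2 := le_norm_st_inv hσ1 hσ2 (p a - p b)
      rw [st_sub] at h2
      have h3 : 2 / (M : ℝ) = 2 * (1 / M) := by ring
      rw [h3] at h1
      have h4 : 0 < 1 / (M : ℝ) := by positivity
      rw [hp', hp']
      linarith
    obtain ⟨ζ', n, hn0, hnsum, hζsum, hζα, hmain⟩ := hP M A T v S p' (by linarith) hA1 hmeas hvb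
      (fun x hx r hr hr1 => hmv x r hr (fun y hy => hmemD y (by
        rw [mem_closedBall, dist_eq_norm] at hy
        rw [mem_ball, dist_zero_right] at hx
        calc ‖y‖ = ‖(y - x) + x‖ := by rw [sub_add_cancel]
          _ ≤ ‖y - x‖ + ‖x‖ := norm_add_le _ _
          _ ≤ 22 := by linarith))) hint hp'n hp'sep
    have hδ0 : (0 : ℝ) < 1 / (S.card + 1) := by positivity
    refine ⟨fun a => st σ⁻¹ (ζ' a), fun a => n a + 1 / (S.card + 1), fun a ha => ?_, ?_, ?_,
      fun a ha => ?_⟩
    · have := hn0 a ha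
      show 0 ≤ n a + 1 / ((S.card : ℝ) + 1)
      linarith
    · rw [Finset.sum_add_distrib, Finset.sum_const, nsmul_eq_mul]
      have h1 : (S.card : ℝ) * (1 / (S.card + 1)) ≤ 1 := by
        rw [mul_one_div, div_le_one (by positivity)]
        linarith
      nlinarith
    · calc ∑ a ∈ S, ‖st σ⁻¹ (ζ' a)‖ ^ α ≤ ∑ a ∈ S, ‖ζ' a‖ ^ α :=
            Finset.sum_le_sum fun a _ => Real.rpow_le_rpow (norm_nonneg _) (norm_st_inv_le hσ1 _)
              (by linarith)
        _ ≤ CP * A ^ α * M ^ 2 := hζα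
        _ ≤ (40 + CP * A + CP * A ^ α) * M ^ 2 := by
          have : (0 : ℝ) ≤ M ^ 2 := by positivity
          nlinarith
    · obtain ⟨y', hy', hmain⟩ := hmain a ha
      rw [mem_ball, dist_eq_norm] at hy'
      have h1M : 1 / (M : ℝ) ≤ 1 / 40 := one_div_le_one_div_of_le (by norm_num) hMr
      have h33 : 33 / (M : ℝ) ≤ 1 := by
        rw [div_le_one hM0]
        linarith
      have hp'a := hp'n a ha
      have hy'n : ‖y'‖ ≤ 3 := by
        calc ‖y'‖ = ‖(y' - p' a) + p' a‖ := by rw [sub_add_cancel]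
          _ ≤ ‖y' - p' a‖ + ‖p' a‖ := norm_add_le _ _
          _ ≤ 3 := by linarith
      have hy'D : y' ∈ D := hmemD y' (by linarith)
      -- lower bound of `v y'`
      have hvy : -DM ≤ v y' := by
        have hr0 : (0 : ℝ) < 1 / (3 * M) := by positivity
        have hr1 : (1 : ℝ) / (3 * M) ≤ 1 / M := by
          apply one_div_le_one_div_of_le hM0
          linarith
        obtain ⟨x, hx, hwx⟩ := key (p' a) (by linarith) (1 / (3 * M)) hr0 (by linarith)
        have hx33 : x ∈ closedBall (p' a) (33 / M) := by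
          refine closedBall_subset_closedBall ?_ hx
          have : 33 / (M : ℝ) = 33 * (1 / M) := by ring
          rw [this]
          linarith
        rw [mem_closedBall, dist_eq_norm] at hx
        have hxD : x ∈ D := hmemD x (by
          calc ‖x‖ = ‖(x - p' a) + p' a‖ := by rw [sub_add_cancel]
            _ ≤ ‖x - p' a‖ + ‖p' a‖ := norm_add_le _ _
            _ ≤ 22 := by linarith)
        have h1 := hlow x hxD ((Real.exp_pos _).trans hwx)
        have h2 : -(3 * Real.log (14 / (1 / (3 * M))) + 1) ≤ Real.log (u x) := by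
          rw [Real.le_log_iff_exp_le ((Real.exp_pos _).trans hwx)]
          exact hwx.le
        have h3 : (14 : ℝ) / (1 / (3 * M)) = 42 * M := by field_simp; norm_num
        rw [h3, Real.log_mul (by norm_num) hM0.ne'] at h2
        have h4 := hmain x hx33
        have h5 : (conj (ζ' a) * x).re - (conj (ζ' a) * y').re ≤ ‖ζ' a‖ * 2 := by
          have h6 : (conj (ζ' a) * x).re - (conj (ζ' a) * y').re = (conj (ζ' a) * (x - y')).re := by
            rw [mul_sub, Complex.sub_re]
          rw [h6]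
          refine (Complex.re_le_norm _).trans ?_
          rw [norm_mul, Complex.norm_conj]
          refine mul_le_mul_of_nonneg_left ?_ (norm_nonneg _)
          calc ‖x - y'‖ = ‖(x - p' a) - (y' - p' a)‖ := by congr 1; ring
            _ ≤ ‖x - p' a‖ + ‖y' - p' a‖ := norm_sub_le _ _
            _ ≤ 2 := by linarith
        have h6 : ‖ζ' a‖ ≤ CP * A * M ^ 2 :=
          (Finset.single_le_sum (f := fun a => ‖ζ' a‖) (fun _ _ => norm_nonneg _) ha).trans hζsum
        have h7 : n a ≤ CP * A * (1 + Real.log M) :=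
          (Finset.single_le_sum (f := n) hn0 ha).trans hnsum
        rw [hDM]
        linarith
      -- the value `u y'`
      have huy : Real.exp (v y' - 1 / (S.card + 1)) ≤ u y' := by
        rw [hback y' hy'D]
        exact pow_lower (Nat.cast_nonneg _) hDM0 hT hvy (hvb y').2
      have hupos : 0 < u y' := (Real.exp_pos _).trans_le huy
      refine ⟨st σ y', ?_, by rw [← hu]; exact hupos, fun x hx => ?_⟩
      · rw [mem_ball, dist_eq_norm]
        have h1 : st σ y' - p a = st σ (y' - p' a) := by rw [st_sub, hp', st_st hσ0]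
        rw [h1]
        have h2 := norm_st_le hσ1 hσ2 (y' - p' a)
        have h3 : 19 / (10 * (M : ℝ)) = 19 / 10 * (1 / M) := by field_simp
        rw [h3]
        have : 0 < 1 / (M : ℝ) := by positivity
        linarith
      · obtain ⟨x', hx'⟩ : ∃ x' : ℂ, x' = st σ⁻¹ x := ⟨_, rfl⟩
        have hxx : st σ x' = x := by rw [hx']; exact st_st hσ0 x
        have hx'33 : x' ∈ closedBall (p' a) (33 / M) := by
          rw [mem_closedBall, dist_eq_norm] at hx ⊢
          have h1 : x' - p' a = st σ⁻¹ (x - p a) := by rw [st_sub, hx', hp']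
          rw [h1]
          exact (norm_st_inv_le hσ1 _).trans hx
        have hx'D : x' ∈ D := by
          rw [hD', hxx]
          rw [mem_closedBall, dist_eq_norm] at hx
          rw [mem_ball, dist_zero_right]
          calc ‖x‖ = ‖(x - p a) + p a‖ := by rw [sub_add_cancel]
            _ ≤ ‖x - p a‖ + ‖p a‖ := norm_add_le _ _
            _ < 32 := by linarith [hp a ha]
        have h1 := hmain x' hx'33
        have h2 := hupp x' hx'D
        have h3 : w x = u x' := by
          rw [hu, hxx]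
        have e1 : (conj (st σ⁻¹ (ζ' a)) * x).re = (conj (ζ' a) * x').re := by
          have := st_inner hσ0 (ζ' a) x'
          rwa [hxx] at this
        have e2 : (conj (st σ⁻¹ (ζ' a)) * st σ y').re = (conj (ζ' a) * y').re := st_inner hσ0 (ζ' a) y'
        have e3 : w (st σ y') = u y' := by rw [hu]
        rw [h3, e1, e2, e3]
        exact fin_step h2 h1 huy

end Pool.Agent.H303.NP
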