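import Pool.Agent.H303.NP.Stm
import Pool.Graph.R_pool_sql_team_seeded_3997aac3.Q73.AD.YY6

/-! # Y5p and Y6p: the one-step lemmas -/

set_option autoImplicit false
open MeasureTheory Filter Topology Complex Metric
open scoped ContDiff ComplexConjugate

namespace Pool.Agent.H303.NP

open Pool.Agent.Q73.NL Pool.Agent.Q73.AD Pool.Agent.Q73.AD.Y5L

namespace T4

/-- the conclusion of Y5p -/
def Con5p (α C : ℝ) (M : ℕ) (N : ℝ) (φ : ℂ → ℝ) : Prop :=
  (∀ z : ℂ, ‖z‖ ≤ 2 → sn φ (closedBall 0 32) ≤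
    Real.exp (C * (1 + Real.log M) * N) * sn φ (closedBall z (1 / M))) ∧
  ∃ (ζ : ℕ × ℕ → ℂ) (n : ℕ × ℕ → ℝ), (∀ a ∈ gd M, 0 ≤ n a ∧
      SS (N * ζ a) φ (ct M a) (32 / M) ≤ Real.exp (n a) * SS (N * ζ a) φ (ct M a) (2 / M)) ∧
    ∑ a ∈ gd M, n a ≤ C * (1 + Real.log M) * N ∧ ∑ a ∈ gd M, ‖ζ a‖ ^ α ≤ C * M ^ 2

/-- the conclusion of Y6p -/
def Con6p (α C : ℝ) (M : ℕ) (K N : ℝ) (φ : ℂ → ℝ) (p : ℕ × ℕ → ℂ) : Prop :=
  (∀ z : ℂ, ‖z‖ ≤ 8 → SS K φ 0 32 ≤ Real.exp (C * N) * SS K φ z 1) ∧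
  ∃ (ζ : ℕ × ℕ → ℂ) (n : ℕ × ℕ → ℝ), (∀ a ∈ gd M, 0 ≤ n a ∧
      SS (K + N * ζ a) φ (p a) (32 / M) ≤ Real.exp (n a) * SS (K + N * ζ a) φ (p a) (2 / M)) ∧
    ∑ a ∈ gd M, n a ≤ C * (1 + Real.log M) * N ∧ ∑ a ∈ gd M, ‖ζ a‖ ^ α ≤ C * M ^ 2

end T4

open T4

/-- **Y5** -/
theorem ty5p {α : ℝ} (hα1 : 1 ≤ α) (hL : YLp α) (hB1 : B1.{0}) (hB2 : B2.{0}) (hC1 : C1) (hC2 : C2) (hJ : CJ) :
    Y5p α := by
  classical
  obtain ⟨CL, hCL, hYL⟩ := hL
  refine ⟨CL + 40, by linarith, fun M hM => ?_⟩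
  have hMr : (40 : ℝ) ≤ M := by linarith
  have hM0 : (0 : ℝ) < M := by linarith
  have hMN : 0 < M := by exact_mod_cast hM0
  have hlM : 0 ≤ Real.log M := Real.log_nonneg (by linarith)
  by_contra hcon
  have hex : ∀ j : ℕ, ∃ (κ N : ℝ) (q φ : ℂ → ℝ), 1 ≤ κ ∧ ((j : ℝ) + 1) * κ ≤ N ∧
      (∀ z ∈ closedBall (0 : ℂ) 32, ContDiffAt ℝ ∞ φ z ∧ ContDiffAt ℝ 1 q z ∧ |q z| ≤ κ ^ 2 ∧
        ‖fderiv ℝ q z‖ ≤ κ ^ 2 ∧ lap φ z + q z * φ z = 0) ∧
      sn φ (closedBall 0 32) ≤ Real.exp N * sn φ (closedBall 0 2) ∧ ¬ Con5p α (CL + 40) M N φ := by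
    intro j
    by_contra h
    refine hcon ⟨(j : ℝ) + 1, by linarith [(Nat.cast_nonneg j : (0 : ℝ) ≤ j)],
      fun κ N q φ h1 h2 h3 h4 => ?_⟩
    by_contra h5
    exact h ⟨κ, N, q, φ, h1, h2, h3, h4, h5⟩
  choose κ N q φ hκ hN heq hsn hn using hex
  have hκ0 : ∀ j, 0 < κ j := fun j => by linarith [hκ j]
  have hN0 : ∀ j, 0 < N j := fun j => by
    have h1 := hN j
    have h2 : 0 < ((j : ℝ) + 1) * κ j := mul_pos (by positivity) (hκ0 j)
    linarith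
  obtain ⟨D, hD⟩ : ∃ D : Set ℂ, D = ball (0 : ℂ) 32 := ⟨_, rfl⟩
  have hDK : D ⊆ closedBall 0 32 := by rw [hD]; exact ball_subset_closedBall
  have h2sub : closedBall (0 : ℂ) 2 ⊆ D := by rw [hD]; exact closedBall_subset_ball (by norm_num)
  -- boundedness
  have hbd : ∀ j, ∃ B : ℝ, ∀ x ∈ closedBall (0 : ℂ) 32, |φ j x| ≤ B := fun j => by
    have h1 : ContinuousOn (φ j) (closedBall (0 : ℂ) 32) := fun x hx =>
      (heq j x hx).1.continuousAt.continuousWithinAt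
    obtain ⟨B, hB⟩ := (isCompact_closedBall (0 : ℂ) 32).exists_bound_of_continuousOn h1
    exact ⟨B, fun x hx => hB x hx⟩
  obtain ⟨S, hS⟩ : ∃ S : ℕ → ℝ, ∀ j, S j = sn (φ j) (closedBall 0 32) := ⟨_, fun _ => rfl⟩
  have hφS : ∀ j, ∀ x ∈ closedBall (0 : ℂ) 32, |φ j x| ≤ S j := fun j x hx => by
    obtain ⟨B, hB⟩ := hbd j
    rw [hS]
    exact le_sn2 hB hx
  have hctsub : ∀ a ∈ gd M, ∀ r : ℝ, r ≤ 32 / M → closedBall (ct M a) r ⊆ D := fun a ha r hr => by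
    intro x hx
    rw [mem_closedBall, dist_eq_norm] at hx
    rw [hD, mem_ball, dist_zero_right]
    have h1 := ct_norm ha
    have h2 : Real.sqrt 2 ≤ 2 := by
      rw [Real.sqrt_le_left (by norm_num)]
      norm_num
    have h3 : 32 / (M : ℝ) ≤ 1 := by
      rw [div_le_one hM0]
      linarith
    calc ‖x‖ = ‖(x - ct M a) + ct M a‖ := by rw [sub_add_cancel]
      _ ≤ ‖x - ct M a‖ + ‖ct M a‖ := norm_add_le _ _
      _ < 32 := by linarith
  have hS0 : ∀ j, 0 < S j := fun j => by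
    by_contra hneg
    rw [not_lt] at hneg
    have h1 : ∀ x ∈ closedBall (0 : ℂ) 32, |φ j x| ≤ 0 := fun x hx => (hφS j x hx).trans hneg
    refine hn j ⟨fun z _ => ?_, fun _ => 0, fun _ => 0, fun a ha => ⟨le_rfl, ?_⟩, ?_, ?_⟩
    · rw [← hS]
      refine hneg.trans (mul_nonneg (Real.exp_pos _).le (sn_nonneg2 _ _))
    · refine le_trans (sn_le2 le_rfl fun x hx => ?_) (mul_nonneg (Real.exp_pos _).le (sn_nonneg2 _ _))
      have h2 := h1 x (hDK (hctsub a ha _ le_rfl hx))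
      have h3 : φ j x = 0 := abs_nonpos_iff.1 h2
      simp [cj, h3]
    · rw [Finset.sum_const_zero]
      have := (hN0 j).le
      positivity
    · rw [Finset.sum_congr rfl (fun _ _ => by rw [norm_zero, Real.zero_rpow (by linarith)]),
        Finset.sum_const_zero]
      positivity
  obtain ⟨ψ, hψ⟩ : ∃ ψ : ℕ → ℂ → ℝ, ψ = fun j x => (S j)⁻¹ * φ j x := ⟨_, rfl⟩
  have hψ1 : ∀ j, ∀ x ∈ closedBall (0 : ℂ) 32, |ψ j x| ≤ 1 := fun j x hx => by
    simp only [hψ]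
    rw [abs_mul, abs_of_pos (inv_pos.2 (hS0 j)), inv_mul_le_iff₀ (hS0 j), mul_one]
    exact hφS j x hx
  have hsnψ : ∀ j (E : Set ℂ), sn (ψ j) E = (S j)⁻¹ * sn (φ j) E := fun j E => by
    rw [hψ]
    exact sn_const_mul' (inv_pos.2 (hS0 j)).le (φ j) E
  -- the sequence
  have hseq : Seq D N κ q ψ := by
    refine ⟨hκ, ?_, fun j z hz => ?_, fun j z hz => ?_, fun j z hz => ?_, fun j z hz => ?_, fun j z hz => ?_,
      fun j z hz => hψ1 j z (hDK hz)⟩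
    · refine tendsto_atTop_mono (fun j => ?_) (tendsto_natCast_atTop_atTop (R := ℝ))
      rw [le_div_iff₀ (hκ0 j)]
      refine le_trans ?_ (hN j)
      exact mul_le_mul_of_nonneg_right (by linarith) (hκ0 j).le
    · rw [hψ]
      exact (contDiffAt_const.mul (heq j z (hDK hz)).1).contDiffWithinAt
    · exact (heq j z (hDK hz)).2.1.contDiffWithinAt
    · exact (heq j z (hDK hz)).2.2.1
    · exact (heq j z (hDK hz)).2.2.2.1
    · have h1 := (heq j z (hDK hz)).2.2.2.2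
      simp only [hψ]
      rw [lap_const_mul']
      calc _ = (S j)⁻¹ * (lap (φ j) z + q j z * φ j z) := by ring
        _ = 0 := by rw [h1, mul_zero]
  have hDo : IsOpen D := by rw [hD]; exact isOpen_ball
  -- the limit
  obtain ⟨𝒰, h𝒰⟩ : ∃ 𝒰 : Ultrafilter ℕ, 𝒰 = Filter.hyperfilter ℕ := ⟨_, rfl⟩
  have h𝒰le : (𝒰 : Filter ℕ) ≤ atTop := by rw [h𝒰]; exact Nat.hyperfilter_le_atTop
  obtain ⟨⟨W, hW⟩, hLP⟩ := hB1 ℂ 𝒰 N ψ D hN0 (fun j x hx => hψ1 j x (hDK hx))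
  have hL := hLP W hW
  obtain ⟨⟨w, hw⟩, hprops⟩ := hB2 ℂ 𝒰 N ψ D W hDo hL
  obtain ⟨hw01, husc, -, -, hcomp⟩ := hprops w hw
  have hNC : NC D w := hC2 D w hDo (fun x hx => (hw01 x hx).1) husc
    (hC1 𝒰 D N κ q ψ W w h𝒰le hDo hseq hL hw)
  have hW1 : Real.exp (-1) ≤ W (closedBall 0 2) := by
    refine ge_of_tendsto' (hW _ h2sub) fun j => ?_
    have h1 : Real.exp (-N j) ≤ sn (ψ j) (closedBall 0 2) := by
      rw [hsnψ, Real.exp_neg, ← one_div, ← one_div, one_div_mul_eq_div, div_le_div_iff₀ (Real.exp_pos _) (hS0 j), one_mul,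
        mul_comm, hS]
      exact hsn j
    have h2 := Real.rpow_le_rpow (Real.exp_pos _).le h1 (one_div_pos.2 (hN0 j)).le
    rw [← Real.exp_mul] at h2
    have h3 : -N j * (1 / N j) = -1 := by
      have := (hN0 j).ne'
      field_simp
    rwa [h3] at h2
  obtain ⟨x₁, hx₁, hwx₁⟩ := hcomp _ h2sub (isCompact_closedBall _ _) ((Real.exp_pos _).trans_le hW1)
  rw [mem_closedBall, dist_zero_right] at hx₁
  subst hD
  have e1 : (fun z => w (st 1 z)) = w := funext fun z => by rw [st_one]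
  have e2 : {z : ℂ | st 1 z ∈ ball (0 : ℂ) 32} = ball 0 32 := by
    ext z
    show st 1 z ∈ ball (0 : ℂ) 32 ↔ _
    rw [st_one]
  obtain ⟨-, hii, hiii⟩ := hYL M 1 w x₁ (by linarith) le_rfl (by norm_num) hw01 husc
    (by rw [e1, e2]; exact hNC) hx₁ (hW1.trans hwx₁)
  have hct2 : ∀ a ∈ gd M, ‖ct M a‖ ≤ 2 := fun a ha => (ct_norm ha).trans (by
    rw [Real.sqrt_le_left (by norm_num)]
    norm_num)
  obtain ⟨ζ, n, hn0, hnsum, hζsum, hy⟩ := hiii (gd M) (ct M) hct2 (fun a _ b _ hab => ct_sep hMN hab)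
  have hψb : ∀ j, ∀ z ∈ ball (0 : ℂ) 32, |ψ j z| ≤ 1 := fun j z hz => hψ1 j z (hDK hz)
  -- second part
  have hev1 : ∀ᶠ j in (𝒰 : Filter ℕ), ∀ a ∈ gd M,
      sn (fun z => Real.exp (-(N j * (conj (ζ a) * z).re)) * ψ j z) (closedBall (ct M a) (32 / M)) ≤
        Real.exp (N j * (n a + 1 / (M : ℝ) ^ 2)) *
          sn (fun z => Real.exp (-(N j * (conj (ζ a) * z).re)) * ψ j z) (closedBall (ct M a) (2 / M)) := by
    rw [Filter.eventually_all_finset]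
    intro a ha
    obtain ⟨y, hy, hwy, hmain⟩ := hy a ha
    exact ev_comp (pj := fun _ => ct M a) hB1 hB2 hJ hN0 hψb hL hw hMr (hct2 a ha) tendsto_const_nhds hy hwy
      hmain (by positivity)
  -- first part
  have hev2 := ev_low (R := 2) (c := CL * (1 + Real.log M)) (ρ := 1 / (4 * M)) hψb hL hw hN0 (by norm_num)
    (by
      have : 4 * (1 / (4 * (M : ℝ))) ≤ 1 := by
        rw [show 4 * (1 / (4 * (M : ℝ))) = 1 / M by field_simp, div_le_one hM0]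
        linarith
      linarith) (by positivity) (by
      rw [show 2 * (1 / (4 * (M : ℝ))) = 1 / (2 * M) by field_simp; norm_num]
      exact hii)
  obtain ⟨j, h1, h2⟩ := (hev1.and hev2).exists
  refine hn j ⟨fun z hz => ?_, ζ, fun a => N j * (n a + 1 / (M : ℝ) ^ 2), fun a ha => ⟨?_, ?_⟩, ?_, ?_⟩
  · have h3 := h2 z hz
    rw [show 4 * (1 / (4 * (M : ℝ))) = 1 / M by field_simp, hsnψ, Real.exp_neg, inv_mul_eq_div,
      le_div_iff₀ (hS0 j), inv_mul_le_iff₀ (Real.exp_pos _)] at h3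
    rw [← hS]
    refine h3.trans (mul_le_mul_of_nonneg_right (Real.exp_le_exp.2 ?_) (sn_nonneg2 _ _))
    refine mul_le_mul_of_nonneg_right ?_ (hN0 j).le
    nlinarith
  · have := hn0 a ha
    have := (hN0 j).le
    positivity
  · have h3 := h1 a ha
    have hfac : cj ((N j : ℂ) * ζ a) (φ j) =
        fun z => S j * (Real.exp (-(N j * (conj (ζ a) * z).re)) * ψ j z) := by
      funext z
      unfold cj
      rw [cmul_re, hψ]
      simp only
      have := (hS0 j).ne'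
      field_simp
    show sn (cj ((N j : ℂ) * ζ a) (φ j)) _ ≤ _ * sn (cj ((N j : ℂ) * ζ a) (φ j)) _
    rw [hfac, sn_const_mul' (hS0 j).le, sn_const_mul' (hS0 j).le, mul_left_comm (Real.exp _)]
    exact mul_le_mul_of_nonneg_left h3 (hS0 j).le
  · exact sum_new (by linarith) (hN0 j).le (by linarith) hnsum
  · refine hζsum.trans (mul_le_mul_of_nonneg_right (by linarith) (by positivity))


/-- **Y6** -/
theorem ty6p {α : ℝ} (hα1 : 1 ≤ α) (hL : YLp α) (hB1 : B1.{0}) (hB2 : B2.{0}) (h4 : Y4) (hJ : CJ) : Y6p α := by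
  classical
  obtain ⟨CL, hCL, hYL⟩ := hL
  refine ⟨CL + 40, by linarith, fun M hM => ?_⟩
  have hMr : (40 : ℝ) ≤ M := by linarith
  have hM0 : (0 : ℝ) < M := by linarith
  have hMN : 0 < M := by exact_mod_cast hM0
  have hlM : 0 ≤ Real.log M := Real.log_nonneg (by linarith)
  by_contra hcon
  have hex : ∀ j : ℕ, ∃ (K N η : ℝ) (q φ : ℂ → ℝ) (p : ℕ × ℕ → ℂ), 1 ≤ K ∧ 0 ≤ η ∧
      ((j : ℝ) + 1) * (1 + Real.log K + η * K) ≤ N ∧ N ≤ 1 / ((j : ℝ) + 1) * K ∧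
      (∀ z ∈ closedBall (0 : ℂ) 32, ContDiffAt ℝ ∞ φ z ∧ ContDiffAt ℝ 1 q z ∧ 0 ≤ q z ∧ q z ≤ K ^ 2 ∧
        ‖fderiv ℝ q z‖ ≤ η * K ^ 2 ∧ lap φ z + q z * φ z = 0) ∧
      (∀ a ∈ gd M, ‖p a‖ ≤ 2) ∧
      (∀ a ∈ gd M, ∀ b ∈ gd M, a ≠ b → 2 / (M : ℝ) ≤ ‖p a - p b‖) ∧
      SS K φ 0 32 ≤ Real.exp N * SS K φ 0 2 ∧ ¬ Con6p α (CL + 40) M K N φ p := by
    intro j
    by_contra h
    have hj0 : (0 : ℝ) ≤ j := Nat.cast_nonneg j
    refine hcon ⟨(j : ℝ) + 1, 1 / ((j : ℝ) + 1), by linarith, by positivity, ?_,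
      fun K N η q φ p h1 h2 h3 h4 h5 h6 h7 h8 => ?_⟩
    · rw [div_le_one (by linarith)]
      linarith
    by_contra h9
    exact h ⟨K, N, η, q, φ, p, h1, h2, h3, h4, h5, h6, h7, h8, h9⟩
  choose K N η q φ p hK hη hN hNK heq hp hsep hsn hn using hex
  have hK0 : ∀ j, 0 < K j := fun j => by linarith [hK j]
  have hlogK : ∀ j, 0 ≤ Real.log (K j) := fun j => Real.log_nonneg (hK j)
  have hden : ∀ j, 1 ≤ 1 + Real.log (K j) + η j * K j := fun j => by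
    have := mul_nonneg (hη j) (hK0 j).le
    linarith [hlogK j]
  have hN1 : ∀ j, 1 ≤ N j := fun j => by
    have h1 := hN j
    have h2 : (1 : ℝ) * 1 ≤ ((j : ℝ) + 1) * (1 + Real.log (K j) + η j * K j) :=
      mul_le_mul (by linarith [(Nat.cast_nonneg j : (0 : ℝ) ≤ j)]) (hden j) zero_le_one (by positivity)
    linarith
  have hN0 : ∀ j, 0 < N j := fun j => by linarith [hN1 j]
  obtain ⟨D, hD⟩ : ∃ D : Set ℂ, D = ball (0 : ℂ) 32 := ⟨_, rfl⟩
  have hDK : D ⊆ closedBall 0 32 := by rw [hD]; exact ball_subset_closedBall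
  have h2sub : closedBall (0 : ℂ) 2 ⊆ D := by rw [hD]; exact closedBall_subset_ball (by norm_num)
  -- boundedness
  have hcj : ∀ (ν : ℂ) j, ∀ x ∈ closedBall (0 : ℂ) 32, ContDiffAt ℝ ∞ (cj ν (φ j)) x := fun ν j x hx => by
    have h1 := (heq j x hx).1
    unfold cj
    refine ContDiffAt.mul ?_ h1
    refine ContDiffAt.exp (ContDiffAt.neg ?_)
    have h2 : ContDiff ℝ ∞ fun y : ℂ => (conj ν * y).re := by
      have : (fun y : ℂ => (conj ν * y).re) = fun y => Complex.reCLM (conj ν * y) := rfl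
      rw [this]
      exact Complex.reCLM.contDiff.comp (contDiff_const.mul contDiff_id)
    exact h2.contDiffAt
  have hbd : ∀ j, ∃ B : ℝ, ∀ x ∈ closedBall (0 : ℂ) 32, |cj (K j) (φ j) x| ≤ B := fun j => by
    have h1 : ContinuousOn (cj (K j) (φ j)) (closedBall (0 : ℂ) 32) := fun x hx =>
      (hcj _ j x hx).continuousAt.continuousWithinAt
    obtain ⟨B, hB⟩ := (isCompact_closedBall (0 : ℂ) 32).exists_bound_of_continuousOn h1
    exact ⟨B, fun x hx => hB x hx⟩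
  obtain ⟨S, hS⟩ : ∃ S : ℕ → ℝ, ∀ j, S j = SS (K j) (φ j) 0 32 := ⟨_, fun _ => rfl⟩
  have hφS : ∀ j, ∀ x ∈ closedBall (0 : ℂ) 32, |cj (K j) (φ j) x| ≤ S j := fun j x hx => by
    obtain ⟨B, hB⟩ := hbd j
    rw [hS]
    exact le_sn2 hB hx
  have hpsub : ∀ j, ∀ a ∈ gd M, ∀ r : ℝ, r ≤ 32 / M → closedBall (p j a) r ⊆ D := fun j a ha r hr => by
    intro x hx
    rw [mem_closedBall, dist_eq_norm] at hx
    rw [hD, mem_ball, dist_zero_right]
    have h1 := hp j a ha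
    have h3 : 32 / (M : ℝ) ≤ 1 := by
      rw [div_le_one hM0]
      linarith
    calc ‖x‖ = ‖(x - p j a) + p j a‖ := by rw [sub_add_cancel]
      _ ≤ ‖x - p j a‖ + ‖p j a‖ := norm_add_le _ _
      _ < 32 := by linarith
  have hS0 : ∀ j, 0 < S j := fun j => by
    by_contra hneg
    rw [not_lt] at hneg
    have h1 : ∀ x ∈ closedBall (0 : ℂ) 32, |cj (K j) (φ j) x| ≤ 0 := fun x hx => (hφS j x hx).trans hneg
    have h1' : ∀ x ∈ closedBall (0 : ℂ) 32, φ j x = 0 := fun x hx => by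
      have h2 := abs_nonpos_iff.1 (h1 x hx)
      unfold cj at h2
      exact (mul_eq_zero.1 h2).resolve_left (Real.exp_pos _).ne'
    refine hn j ⟨fun z _ => ?_, fun _ => 0, fun _ => 0, fun a ha => ⟨le_rfl, ?_⟩, ?_, ?_⟩
    · rw [← hS]
      refine hneg.trans (mul_nonneg (Real.exp_pos _).le (sn_nonneg2 _ _))
    · refine le_trans (sn_le2 le_rfl fun x hx => ?_) (mul_nonneg (Real.exp_pos _).le (sn_nonneg2 _ _))
      have h3 := h1' x (hDK (hpsub j a ha _ le_rfl hx))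
      simp [cj, h3]
    · rw [Finset.sum_const_zero]
      have := (hN0 j).le
      positivity
    · rw [Finset.sum_congr rfl (fun _ _ => by rw [norm_zero, Real.zero_rpow (by linarith)]),
        Finset.sum_const_zero]
      positivity
  obtain ⟨χ, hχ⟩ : ∃ χ : ℕ → ℂ → ℝ, χ = fun j x => (S j)⁻¹ * φ j x := ⟨_, rfl⟩
  obtain ⟨ψ, hψ⟩ : ∃ ψ : ℕ → ℂ → ℝ, ψ = fun j => cj (K j) (χ j) := ⟨_, rfl⟩
  have hψφ : ∀ j, ψ j = fun z => (S j)⁻¹ * cj (K j) (φ j) z := fun j => by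
    rw [hψ, hχ]
    exact cj_smul _ _ _
  have hψ1 : ∀ j, ∀ x ∈ closedBall (0 : ℂ) 32, |ψ j x| ≤ 1 := fun j x hx => by
    rw [hψφ]
    simp only
    rw [abs_mul, abs_of_pos (inv_pos.2 (hS0 j)), inv_mul_le_iff₀ (hS0 j), mul_one]
    exact hφS j x hx
  have hsnψ : ∀ j (E : Set ℂ), sn (ψ j) E = (S j)⁻¹ * sn (cj (K j) (φ j)) E := fun j E => by
    rw [hψφ]
    exact sn_const_mul' (inv_pos.2 (hS0 j)).le _ E
  -- the sequence
  have hseq : SeqZ 32 N K η q χ := by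
    refine ⟨hK, hN1, hη, ?_, ?_, fun j z hz => ?_, fun j z hz => ?_, fun j z hz => ?_, fun j z hz => ?_,
      fun j z hz => ?_, fun j z hz => ?_⟩
    · refine squeeze_zero (fun j => div_nonneg (hN0 j).le (hK0 j).le) (fun j => ?_)
        (tendsto_one_div_add_atTop_nhds_zero_nat (𝕜 := ℝ))
      rw [div_le_iff₀ (hK0 j)]
      exact hNK j
    · refine tendsto_atTop_mono (fun j => ?_) (tendsto_natCast_atTop_atTop (R := ℝ))
      have h1 : 0 < 1 + Real.log (K j) + η j * K j := by linarith [hden j]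
      rw [le_div_iff₀ h1]
      refine le_trans ?_ (hN j)
      exact mul_le_mul_of_nonneg_right (by linarith) h1.le
    · rw [hχ]
      exact (contDiffAt_const.mul (heq j z (ball_subset_closedBall hz)).1).contDiffWithinAt
    · exact (heq j z (ball_subset_closedBall hz)).2.1.contDiffWithinAt
    · exact ⟨(heq j z (ball_subset_closedBall hz)).2.2.1, (heq j z (ball_subset_closedBall hz)).2.2.2.1⟩
    · exact (heq j z (ball_subset_closedBall hz)).2.2.2.2.1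
    · have h1 := (heq j z (ball_subset_closedBall hz)).2.2.2.2.2
      simp only [hχ]
      rw [lap_const_mul']
      calc _ = (S j)⁻¹ * (lap (φ j) z + q j z * φ j z) := by ring
        _ = 0 := by rw [h1, mul_zero]
    · have := hψ1 j z (ball_subset_closedBall hz)
      rw [hψ] at this
      exact this
  have hDo : IsOpen D := by rw [hD]; exact isOpen_ball
  -- the limit
  obtain ⟨𝒰, h𝒰⟩ : ∃ 𝒰 : Ultrafilter ℕ, 𝒰 = Filter.hyperfilter ℕ := ⟨_, rfl⟩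
  have h𝒰le : (𝒰 : Filter ℕ) ≤ atTop := by rw [h𝒰]; exact Nat.hyperfilter_le_atTop
  obtain ⟨t, ht, htlim⟩ := compact_lim (𝒰 := 𝒰) (isCompact_Icc (a := (0 : ℝ)) (b := 1))
    (x := fun j => q j 0 / K j ^ 2) (fun j => by
      have h1 := heq j 0 (mem_closedBall_self (by norm_num))
      exact ⟨div_nonneg h1.2.2.1 (sq_nonneg _), by
        rw [div_le_one (by have := hK0 j; positivity)]
        exact h1.2.2.2.1⟩)
  obtain ⟨σ, hσ⟩ : ∃ σ : ℝ, σ = Real.sqrt (1 + t) := ⟨_, rfl⟩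
  have hσ2 : σ ^ 2 = 1 + t := by rw [hσ]; exact Real.sq_sqrt (by linarith [ht.1])
  have hσ1 : 1 ≤ σ := by
    rw [hσ]
    exact Real.one_le_sqrt.2 (by linarith [ht.1])
  obtain ⟨⟨W, hW⟩, hLP⟩ := hB1 ℂ 𝒰 N ψ D hN0 (fun j x hx => hψ1 j x (hDK hx))
  have hL := hLP W hW
  obtain ⟨⟨w, hw⟩, hprops⟩ := hB2 ℂ 𝒰 N ψ D W hDo hL
  obtain ⟨hw01, husc, -, -, hcomp⟩ := hprops w hw
  subst hD
  have hNC : NC {z | st σ z ∈ ball (0 : ℂ) 32} (fun z => w (st σ z)) := by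
    refine h4 𝒰 32 N K η q χ W w σ h𝒰le (by norm_num) hseq hσ1 ?_ (by rw [← hψ]; exact hL) hw
    rw [hσ2]
    exact htlim.const_add 1
  have hW1 : Real.exp (-1) ≤ W (closedBall 0 2) := by
    refine ge_of_tendsto' (hW _ h2sub) fun j => ?_
    have h1 : Real.exp (-N j) ≤ sn (ψ j) (closedBall 0 2) := by
      rw [hsnψ, Real.exp_neg, ← one_div, ← one_div, one_div_mul_eq_div, div_le_div_iff₀ (Real.exp_pos _) (hS0 j), one_mul,
        mul_comm, hS]
      exact hsn j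
    have h2 := Real.rpow_le_rpow (Real.exp_pos _).le h1 (one_div_pos.2 (hN0 j)).le
    rw [← Real.exp_mul] at h2
    have h3 : -N j * (1 / N j) = -1 := by
      have := (hN0 j).ne'
      field_simp
    rwa [h3] at h2
  obtain ⟨x₁, hx₁, hwx₁⟩ := hcomp _ h2sub (isCompact_closedBall _ _) ((Real.exp_pos _).trans_le hW1)
  rw [mem_closedBall, dist_zero_right] at hx₁
  -- the centres
  have hcen : ∀ a : ℕ × ℕ, ∃ c : ℂ, a ∈ gd M → (‖c‖ ≤ 2 ∧ Tendsto (fun j => p j a) 𝒰 (𝓝 c)) := by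
    intro a
    by_cases ha : a ∈ gd M
    · obtain ⟨c, hc, hlim⟩ := compact_lim (𝒰 := 𝒰) (isCompact_closedBall (0 : ℂ) 2)
        (x := fun j => p j a) (fun j => by
          rw [mem_closedBall, dist_zero_right]
          exact hp j a ha)
      rw [mem_closedBall, dist_zero_right] at hc
      exact ⟨c, fun _ => ⟨hc, hlim⟩⟩
    · exact ⟨0, fun h => absurd h ha⟩
  choose P hP using hcen
  have hPsep : ∀ a ∈ gd M, ∀ b ∈ gd M, a ≠ b → 2 / (M : ℝ) ≤ ‖P a - P b‖ := by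
    intro a ha b hb hab
    have h1 := (((hP a ha).2).sub ((hP b hb).2)).norm
    exact ge_of_tendsto' h1 fun j => hsep j a ha b hb hab
  obtain ⟨hi, -, hiii⟩ := hYL M σ w x₁ (by linarith) hσ1 (by rw [hσ2]; linarith [ht.2]) hw01 husc
    hNC hx₁ (hW1.trans hwx₁)
  obtain ⟨ζ, n, hn0, hnsum, hζsum, hy⟩ := hiii (gd M) P (fun a ha => (hP a ha).1) hPsep
  have hψb : ∀ j, ∀ z ∈ ball (0 : ℂ) 32, |ψ j z| ≤ 1 := fun j z hz => hψ1 j z (hDK hz)
  -- second part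
  have hev1 : ∀ᶠ j in (𝒰 : Filter ℕ), ∀ a ∈ gd M,
      sn (fun z => Real.exp (-(N j * (conj (ζ a) * z).re)) * ψ j z) (closedBall (p j a) (32 / M)) ≤
        Real.exp (N j * (n a + 1 / (M : ℝ) ^ 2)) *
          sn (fun z => Real.exp (-(N j * (conj (ζ a) * z).re)) * ψ j z) (closedBall (p j a) (2 / M)) := by
    rw [Filter.eventually_all_finset]
    intro a ha
    obtain ⟨y, hy, hwy, hmain⟩ := hy a ha
    exact ev_comp (pj := fun j => p j a) hB1 hB2 hJ hN0 hψb hL hw hMr (hP a ha).1 (hP a ha).2 hy hwy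
      hmain (by positivity)
  -- first part
  have hev2 := ev_low (R := 8) (c := CL) (ρ := 1 / 4) hψb hL hw hN0 (by norm_num) (by norm_num)
    (by norm_num) (by
      rw [show 2 * (1 / 4 : ℝ) = 1 / 2 by norm_num]
      exact hi)
  obtain ⟨j, h1, h2⟩ := (hev1.and hev2).exists
  refine hn j ⟨fun z hz => ?_, ζ, fun a => N j * (n a + 1 / (M : ℝ) ^ 2), fun a ha => ⟨?_, ?_⟩, ?_, ?_⟩
  · have h3 := h2 z hz
    rw [show 4 * (1 / 4 : ℝ) = 1 by norm_num, hsnψ, Real.exp_neg, inv_mul_eq_div,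
      le_div_iff₀ (hS0 j), inv_mul_le_iff₀ (Real.exp_pos _)] at h3
    rw [← hS]
    refine h3.trans (mul_le_mul_of_nonneg_right (Real.exp_le_exp.2 ?_) (sn_nonneg2 _ _))
    exact mul_le_mul_of_nonneg_right (by linarith) (hN0 j).le
  · have := hn0 a ha
    have := (hN0 j).le
    positivity
  · have h3 := h1 a ha
    have hfac : cj ((K j : ℂ) + (N j : ℂ) * ζ a) (φ j) =
        fun z => S j * (Real.exp (-(N j * (conj (ζ a) * z).re)) * ψ j z) := by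
      funext z
      rw [cj_add, hψφ]
      simp only
      have := (hS0 j).ne'
      field_simp
    show sn (cj ((K j : ℂ) + (N j : ℂ) * ζ a) (φ j)) _ ≤ _ * sn (cj ((K j : ℂ) + (N j : ℂ) * ζ a) (φ j)) _
    rw [hfac, sn_const_mul' (hS0 j).le, sn_const_mul' (hS0 j).le, mul_left_comm (Real.exp _)]
    exact mul_le_mul_of_nonneg_left h3 (hS0 j).le
  · exact sum_new (by linarith) (hN0 j).le (by linarith) hnsum
  · refine hζsum.trans (mul_le_mul_of_nonneg_right (by linarith) (by positivity))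

end Pool.Agent.H303.NP
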