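import Pool.Agent.H303.NP.Stm
import Pool.Graph.R_pool_sql_team_seeded_3997aac3.Q73.AD.YAf

/-! # Y7p and Y8p: the one-step lemmas, scaled -/

set_option autoImplicit false
open MeasureTheory Filter Topology Complex Metric
open scoped ContDiff ComplexConjugate

namespace Pool.Agent.H303.NP

open Pool.Agent.Q73.NL Pool.Agent.Q73.AD

theorem ty7p {α : ℝ} (h : Y5p α) : Y7p α := by
  obtain ⟨C, hC, h1⟩ := h
  refine ⟨C, hC, fun M hM L hL => ?_⟩
  obtain ⟨T, hT, h2⟩ := h1 M hM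
  have hM0 : (0 : ℝ) < M := by linarith
  have hL0 : 0 < L := by linarith
  have hsL : 1 ≤ Real.sqrt L := Real.one_le_sqrt.2 hL
  refine ⟨T * Real.sqrt L, one_le_mul_of_one_le_of_one_le hT hsL, ?_⟩
  intro lam s N p ρ φ hl hN hsn
  have hs := hl.s_pos
  have hlam := hl.lam_pos
  set κ : ℝ := Real.sqrt (1 + lam * s ^ 2 * L) with hκ
  have hκ2 : κ ^ 2 = 1 + lam * s ^ 2 * L := Real.sq_sqrt (by positivity)
  have hκ1 : 1 ≤ κ := by
    rw [hκ]
    refine Real.one_le_sqrt.2 ?_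
    have : 0 ≤ lam * s ^ 2 * L := by positivity
    linarith
  have hκle : κ ≤ Real.sqrt L * (1 + Real.sqrt lam * s) := by
    rw [hκ]
    refine Real.sqrt_le_iff.2 ⟨by positivity, ?_⟩
    rw [mul_pow, Real.sq_sqrt hL0.le]
    have e : (1 + Real.sqrt lam * s) ^ 2 = 1 + 2 * (Real.sqrt lam * s) + lam * s ^ 2 := by
      have := Real.sq_sqrt hlam.le
      calc _ = 1 + 2 * (Real.sqrt lam * s) + (Real.sqrt lam) ^ 2 * s ^ 2 := by ring
        _ = _ := by rw [this]
    rw [e]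
    have h3 : 0 ≤ L * (2 * (Real.sqrt lam * s)) := by positivity
    nlinarith
  have hα : ‖(s : ℂ)‖ = s := by rw [Complex.norm_real, Real.norm_eq_abs, abs_of_pos hs]
  have hα0 : (s : ℂ) ≠ 0 := by exact_mod_cast hs.ne'
  have hNκ : T * κ ≤ N := by
    refine le_trans ?_ hN
    calc T * κ ≤ T * (Real.sqrt L * (1 + Real.sqrt lam * s)) :=
          mul_le_mul_of_nonneg_left hκle (by linarith)
      _ = _ := by ring
  have hN0 : 0 < N := by nlinarith
  have hs1 : s * (lam * s ^ 2 * L) ≤ lam * s ^ 2 * L := by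
    have h3 : 0 ≤ lam * s ^ 2 * L := by positivity
    have h4 := mul_le_mul_of_nonneg_right hl.s_le h3
    linarith
  obtain ⟨g1, ζ, n, g2, g3, g4⟩ := h2 κ N (fun y => lam * s ^ 2 * ρ (p + s * y))
    (fun y => φ (p + s * y)) hκ1 hNκ (by
      intro y hy
      obtain ⟨b1, b2, b3, b4, b5, b6⟩ := afc_sol hl hα hy
      refine ⟨b1, b2, ?_, ?_, b6⟩
      · rw [abs_of_nonneg b3, hκ2]
        linarith
      · rw [hκ2]
        linarith) (by
      rw [afc_sn φ hα0, afc_sn φ hα0, mul_zero, add_zero, hα, mul_comm s 32, mul_comm s 2]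
      exact hsn)
  refine ⟨?_, fun a => ((N / s : ℝ) : ℂ) * ζ a, n, ?_, g3, ?_⟩
  · intro z hz
    have e : z = p + s * ((z - p) / s) := by field_simp; ring
    have hy : ‖(z - p) / (s : ℂ)‖ ≤ 2 := by
      rw [norm_div, hα, div_le_iff₀ hs]
      rwa [mem_closedBall, dist_eq_norm] at hz
    have h3 := g1 _ hy
    rw [afc_sn φ hα0, afc_sn φ hα0, mul_zero, add_zero, hα, mul_comm s 32, ← e] at h3
    have e2 : s * (1 / (M : ℝ)) = s / M := by ring
    rwa [e2] at h3
  · intro a ha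
    obtain ⟨h3, h4⟩ := g2 a ha
    refine ⟨h3, ?_⟩
    have e1 : 32 * (s / (M : ℝ)) = ‖(s : ℂ)‖ * (32 / M) := by rw [hα]; ring
    have e2 : 2 * (s / (M : ℝ)) = ‖(s : ℂ)‖ * (2 / M) := by rw [hα]; ring
    have e3 : conj (s : ℂ) * (((N / s : ℝ) : ℂ) * ζ a) = (N : ℂ) * ζ a := by
      rw [Complex.conj_ofReal, ← mul_assoc, ← Complex.ofReal_mul]
      congr 2
      field_simp
    rw [e1, e2, afc_SS _ φ hα0, afc_SS _ φ hα0, e3]
    have h5 := mul_le_mul_of_nonneg_left h4
      (Real.exp_pos (-(conj (((N / s : ℝ) : ℂ) * ζ a) * p).re)).le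
    calc _ ≤ _ := h5
      _ = _ := by ring
  · have h3 : ∀ a, ‖((N / s : ℝ) : ℂ) * ζ a‖ = N / s * ‖ζ a‖ := by
      intro a
      rw [norm_mul, Complex.norm_real, Real.norm_eq_abs, abs_of_pos (by positivity)]
    have hNs : 0 ≤ N / s := by positivity
    have h3' : ∀ a, ‖((N / s : ℝ) : ℂ) * ζ a‖ ^ α = (N / s) ^ α * ‖ζ a‖ ^ α := by
      intro a
      rw [h3, Real.mul_rpow hNs (norm_nonneg _)]
    simp only [h3']
    rw [← Finset.mul_sum]
    calc (N / s) ^ α * ∑ a ∈ gd M, ‖ζ a‖ ^ α ≤ (N / s) ^ α * (C * M ^ 2) :=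
          mul_le_mul_of_nonneg_left g4 (Real.rpow_nonneg hNs _)
      _ = _ := by ring


theorem ty8p {α : ℝ} (h : Y6p α) : Y8p α := by
  obtain ⟨C, hC, h1⟩ := h
  refine ⟨C, hC, fun M hM => ?_⟩
  obtain ⟨T, ε₀, hT, hε, hε1, h2⟩ := h1 M hM
  have hM0 : (0 : ℝ) < M := by linarith
  have hMn : 0 < M := by exact_mod_cast hM0
  refine ⟨T, ε₀, hT, hε, hε1, ?_⟩
  intro lam L s N p ν ρ φ hl hlL hν1 hN hNε hSS
  have hs := hl.s_pos
  have hlam := hl.lam_pos
  have hν0 : 0 < ‖ν‖ := by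
    rcases (norm_nonneg ν).eq_or_lt with h0 | h0
    · rw [← h0] at hν1
      linarith
    · exact h0
  have hνc : (‖ν‖ : ℂ) ≠ 0 := by exact_mod_cast hν0.ne'
  have hν : ν ≠ 0 := norm_pos_iff.1 hν0
  set e : ℂ := ν / (‖ν‖ : ℂ) with he
  have hen : ‖e‖ = 1 := by
    rw [he, norm_div, Complex.norm_real, Real.norm_eq_abs, abs_of_pos hν0, div_self hν0.ne']
  have he0 : e ≠ 0 := by
    intro h0
    rw [h0, norm_zero] at hen
    exact zero_ne_one hen
  have hee : conj e * e = 1 := by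
    rw [mul_comm, Complex.mul_conj, Complex.normSq_eq_norm_sq, hen]
    norm_num
  have heν : conj e * ν = (‖ν‖ : ℂ) := by
    have h3 : ν = (‖ν‖ : ℂ) * e := by rw [he]; field_simp
    calc conj e * ν = conj e * ((‖ν‖ : ℂ) * e) := by rw [← h3]
      _ = (‖ν‖ : ℂ) * (conj e * e) := by ring
      _ = _ := by rw [hee, mul_one]
  set β : ℂ := s * e with hβd
  have hβ : ‖β‖ = s := by
    rw [hβd, norm_mul, hen, mul_one, Complex.norm_real, Real.norm_eq_abs, abs_of_pos hs]
  have hβ0 : β ≠ 0 := by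
    intro h0
    rw [h0, norm_zero] at hβ
    exact hs.ne hβ
  have hcβ : conj β = s * conj e := by rw [hβd, map_mul, Complex.conj_ofReal]
  have hcβ0 : conj β ≠ 0 := by
    intro h0
    exact hβ0 ((map_eq_zero _).1 h0)
  set K : ℝ := ‖ν‖ * s with hK
  have hK0 : 0 < K := by positivity
  have hβν : conj β * ν = (K : ℂ) := by
    rw [hcβ, mul_assoc, heν, hK]
    push_cast
    ring
  have hlL2 : lam * s ^ 2 * L ≤ K ^ 2 := by
    have h3 := mul_le_mul_of_nonneg_right hlL (sq_nonneg s)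
    rw [hK]
    nlinarith
  have hN0 : 0 < N := by
    have h3 : 0 ≤ Real.log K := Real.log_nonneg hν1
    have h4 : 0 ≤ s * K := by positivity
    nlinarith
  have hpa : ∀ a, p + s * ct M a = p + β * (conj e * ct M a) := by
    intro a
    rw [hβd]
    have : (s : ℂ) * e * (conj e * ct M a) = s * (conj e * e) * ct M a := by ring
    rw [this, hee, mul_one]
  have hcen : ‖conj e‖ = 1 := by rw [Complex.norm_conj, hen]
  obtain ⟨g1, ζ, n, g2, g3, g4⟩ := h2 K N s (fun y => lam * s ^ 2 * ρ (p + β * y))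
    (fun y => φ (p + β * y)) (fun a => conj e * ct M a) hν1 hs.le hN hNε (by
      intro y hy
      obtain ⟨b1, b2, b3, b4, b5, b6⟩ := afc_sol hl hβ hy
      refine ⟨b1, b2, b3, b4.trans hlL2, b5.trans ?_, b6⟩
      exact mul_le_mul_of_nonneg_left hlL2 hs.le) (by
      intro a ha
      rw [norm_mul, hcen, one_mul]
      refine (ct_norm ha).trans ?_
      rw [Real.sqrt_le_left (by norm_num)]
      norm_num) (by
      intro a _ b _ hab
      have h3 : conj e * ct M a - conj e * ct M b = conj e * (ct M a - ct M b) := by ring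
      rw [h3, norm_mul, hcen, one_mul]
      exact ct_sep hMn hab) (by
      have e1 : p = p + β * 0 := by ring
      have e2 : 32 * s = ‖β‖ * 32 := by rw [hβ]; ring
      have e3 : 2 * s = ‖β‖ * 2 := by rw [hβ]; ring
      rw [e2, e3] at hSS
      have h3 : SS ν φ (p + β * 0) (‖β‖ * 32) ≤ Real.exp N * SS ν φ (p + β * 0) (‖β‖ * 2) := by
        rwa [← e1]
      rw [afc_SS ν φ hβ0, afc_SS ν φ hβ0, hβν] at h3
      have h4 := Real.exp_pos (-(conj ν * p).re)
      refine le_of_mul_le_mul_left ?_ h4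
      calc _ ≤ _ := h3
        _ = _ := by ring)
  refine ⟨?_, fun a => ν + N * ζ a / conj β, n, ?_, g3, ?_⟩
  · intro z hz
    have e1 : z = p + β * ((z - p) / β) := by field_simp; ring
    have hy : ‖(z - p) / β‖ ≤ 8 := by
      rw [norm_div, hβ, div_le_iff₀ hs]
      exact hz
    have h3 := g1 _ hy
    have e2 : SS ν φ p (32 * s) = Real.exp (-(conj ν * p).re) * SS K (fun y => φ (p + β * y)) 0 32 := by
      have h4 := afc_SS ν φ (p := p) (c := 0) (r := 32) hβ0
      rw [hβν, hβ, mul_zero, add_zero, mul_comm s 32] at h4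
      exact h4
    have e3 : SS ν φ z s = Real.exp (-(conj ν * p).re) * SS K (fun y => φ (p + β * y)) ((z - p) / β) 1 := by
      have h4 := afc_SS ν φ (p := p) (c := (z - p) / β) (r := 1) hβ0
      rw [hβν, hβ, ← e1, mul_one] at h4
      exact h4
    rw [e2, e3]
    have h4 := mul_le_mul_of_nonneg_left h3 (Real.exp_pos (-(conj ν * p).re)).le
    calc _ ≤ _ := h4
      _ = _ := by ring
  · intro a ha
    obtain ⟨h3, h4⟩ := g2 a ha
    refine ⟨h3, ?_⟩
    have e1 : 32 * (s / (M : ℝ)) = ‖β‖ * (32 / M) := by rw [hβ]; ring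
    have e2 : 2 * (s / (M : ℝ)) = ‖β‖ * (2 / M) := by rw [hβ]; ring
    have e3 : conj β * (ν + N * ζ a / conj β) = (K : ℂ) + N * ζ a := by
      rw [mul_add, hβν]
      congr 1
      field_simp
    rw [e1, e2, hpa, afc_SS _ φ hβ0, afc_SS _ φ hβ0, e3]
    have h5 := mul_le_mul_of_nonneg_left h4
      (Real.exp_pos (-(conj (ν + N * ζ a / conj β) * p).re)).le
    calc _ ≤ _ := h5
      _ = _ := by ring
  · have h3 : ∀ a, ‖ν + N * ζ a / conj β - ν‖ = N / s * ‖ζ a‖ := by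
      intro a
      have h4 : ν + N * ζ a / conj β - ν = N * ζ a / conj β := by ring
      rw [h4, norm_div, norm_mul, Complex.norm_conj, hβ, Complex.norm_real, Real.norm_eq_abs,
        abs_of_pos hN0]
      ring
    have hNs : 0 ≤ N / s := by positivity
    have h3' : ∀ a, ‖ν + N * ζ a / conj β - ν‖ ^ α = (N / s) ^ α * ‖ζ a‖ ^ α := by
      intro a
      rw [h3, Real.mul_rpow hNs (norm_nonneg _)]
    simp only [h3']
    rw [← Finset.mul_sum]
    calc (N / s) ^ α * ∑ a ∈ gd M, ‖ζ a‖ ^ α ≤ (N / s) ^ α * (C * M ^ 2) :=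
          mul_le_mul_of_nonneg_left g4 (Real.rpow_nonneg hNs _)
      _ = _ := by ring

end Pool.Agent.H303.NP
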