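import Pool.Agent.H303.NP.Stm
import Pool.Graph.R_pool_sql_team_seeded_3997aac3.Q73.AD.YY9

/-!
# Linear squares: stopping by induction over the levels, power version (`Y8p → Y9p`)
-/

set_option autoImplicit false
open MeasureTheory Filter Topology Complex Metric
open scoped ContDiff ComplexConjugate

namespace Pool.Agent.H303.NP

open Pool.Agent.Q73.NL Pool.Agent.Q73.AD

namespace T7

open Pool.Agent.Q73.AD.Y9P

/-! ### Elementary inequalities -/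

lemma sum_rpow_le {ι : Type*} (S : Finset ι) (n : ι → ℝ) {α : ℝ} (h1 : 1 ≤ α)
    (hn : ∀ a ∈ S, 0 ≤ n a) : ∑ a ∈ S, n a ^ α ≤ (∑ a ∈ S, n a) ^ α := by
  classical
  induction S using Finset.induction_on with
  | empty =>
    simp only [Finset.sum_empty]
    exact Real.rpow_nonneg le_rfl _
  | insert a t ha ih =>
    rw [Finset.sum_insert ha, Finset.sum_insert ha]
    have h2 := ih fun x hx => hn x (Finset.mem_insert_of_mem hx)
    have h3 : 0 ≤ ∑ a ∈ t, n a := Finset.sum_nonneg fun x hx => hn x (Finset.mem_insert_of_mem hx)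
    have h4 := Real.add_rpow_le_rpow_add (hn a (Finset.mem_insert_self a t)) h3 h1
    linarith

/-- Minkowski inequality for means -/
lemma mink {ι : Type*} (S : Finset ι) (f g : ι → ℝ) {α m X Y c : ℝ} (h1 : 1 ≤ α) (hm : 0 < m)
    (hS : (S.card : ℝ) = m) (hf : ∀ a ∈ S, 0 ≤ f a) (hg : ∀ a ∈ S, 0 ≤ g a) (hc : 0 ≤ c)
    (hX : 0 ≤ X) (hY : 0 ≤ Y) (h2 : m⁻¹ * ∑ a ∈ S, f a ^ α ≤ X ^ α)
    (h3 : m⁻¹ * ∑ a ∈ S, g a ^ α ≤ Y ^ α) :
    m⁻¹ * ∑ a ∈ S, (f a + g a + c) ^ α ≤ (X + Y + c) ^ α := by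
  have hα : 0 < α := by linarith
  have hα' : α ≠ 0 := hα.ne'
  obtain ⟨w, hw⟩ : ∃ w : ℝ, w = m ^ (1 / α) := ⟨_, rfl⟩
  have hw0 : 0 < w := by rw [hw]; exact Real.rpow_pos_of_pos hm _
  have hwα : w ^ α = m := by
    rw [hw, ← Real.rpow_mul hm.le, one_div, inv_mul_cancel₀ hα', Real.rpow_one]
  have key : ∀ (x : ι → ℝ) (Z : ℝ), (∀ a ∈ S, 0 ≤ x a) → 0 ≤ Z → m⁻¹ * ∑ a ∈ S, x a ^ α ≤ Z ^ α →
      (∑ a ∈ S, x a ^ α) ^ (1 / α) ≤ w * Z := by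
    intro x Z hx hZ h
    have h4 : 0 ≤ ∑ a ∈ S, x a ^ α := Finset.sum_nonneg fun a ha => Real.rpow_nonneg (hx a ha) _
    have h5 : ∑ a ∈ S, x a ^ α ≤ (w * Z) ^ α := by
      rw [Real.mul_rpow hw0.le hZ, hwα]
      calc ∑ a ∈ S, x a ^ α = m * (m⁻¹ * ∑ a ∈ S, x a ^ α) := by field_simp
        _ ≤ m * Z ^ α := mul_le_mul_of_nonneg_left h hm.le
    calc (∑ a ∈ S, x a ^ α) ^ (1 / α) ≤ ((w * Z) ^ α) ^ (1 / α) :=
          Real.rpow_le_rpow h4 h5 (by positivity)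
      _ = w * Z := by
          rw [← Real.rpow_mul (by positivity), mul_one_div_cancel hα', Real.rpow_one]
  have k1 := key f X hf hX h2
  have k2 := key g Y hg hY h3
  have k3 := key (fun _ => c) c (fun _ _ => hc) hc (by
    rw [Finset.sum_const, nsmul_eq_mul, hS]
    refine le_of_eq ?_
    field_simp)
  have m1 := Real.Lp_add_le_of_nonneg S h1 (f := fun a => f a + g a) (g := fun _ => c)
    (fun a ha => add_nonneg (hf a ha) (hg a ha)) (fun _ _ => hc)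
  have m2 := Real.Lp_add_le_of_nonneg S h1 hf hg
  have m3 : (∑ a ∈ S, (f a + g a + c) ^ α) ^ (1 / α) ≤ w * (X + Y + c) := by
    calc _ ≤ _ := m1
      _ ≤ _ := by
        rw [mul_add, mul_add]
        linarith
  have h4 : 0 ≤ ∑ a ∈ S, (f a + g a + c) ^ α :=
    Finset.sum_nonneg fun a ha => Real.rpow_nonneg (by linarith [hf a ha, hg a ha]) _
  have m4 : ∑ a ∈ S, (f a + g a + c) ^ α ≤ (w * (X + Y + c)) ^ α := by
    have h5 := Real.rpow_le_rpow (Real.rpow_nonneg h4 _) m3 hα.le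
    rwa [← Real.rpow_mul h4, one_div_mul_cancel hα', Real.rpow_one] at h5
  rw [Real.mul_rpow hw0.le (by linarith), hwα] at m4
  rw [inv_mul_le_iff₀ hm]
  exact m4

/-! ### The term of a released square -/

/-- the contribution of a released square -/
noncomputable def tmp (α : ℝ) (M : ℕ) (ν₀ : ℂ) (φ : ℂ → ℝ) (p : ℂ) (s : ℝ) (r : ℕ × (ℕ × ℕ)) : ℝ :=
  ((M : ℝ) ^ (2 * r.1))⁻¹ *
    (1 + gr φ (p + s * ct (M ^ r.1) r.2) (s / M ^ r.1) / (‖ν₀‖ * (s / M ^ r.1))) ^ α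

lemma tmp_sh (α : ℝ) {M : ℕ} (hM : 0 < M) (ν₀ : ℂ) (φ : ℂ → ℝ) (p : ℂ) (s : ℝ) (a : ℕ × ℕ)
    (r : ℕ × (ℕ × ℕ)) :
    tmp α M ν₀ φ p s (sh M a r) = ((M : ℝ) ^ 2)⁻¹ * tmp α M ν₀ φ (p + s * ct M a) (s / M) r := by
  have hM' : (M : ℝ) ≠ 0 := by positivity
  have h1 : s / (M : ℝ) ^ (r.1 + 1) = s / M / M ^ r.1 := by
    rw [pow_succ']
    field_simp
  simp only [tmp, sh]
  rw [ct_sh hM, h1, show 2 * (r.1 + 1) = 2 + 2 * r.1 by ring, pow_add, mul_inv]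
  ring

lemma tmp_nonneg {lam L s : ℝ} {p : ℂ} {ρ φ : ℂ → ℝ} (h : Loc lam L s p ρ φ) (α : ℝ) {M : ℕ} (ν₀ : ℂ)
    {r : ℕ × (ℕ × ℕ)} (hr : r.2 ∈ gd (M ^ r.1)) : 0 ≤ tmp α M ν₀ φ p s r := by
  have h1 := loc_sub h hr
  have h2 := gr_nonneg h1
  have h3 := h1.s_pos
  push_cast at h2 h3
  unfold tmp
  have h4 : 0 ≤ gr φ (p + s * ct (M ^ r.1) r.2) (s / M ^ r.1) / (‖ν₀‖ * (s / M ^ r.1)) := by positivity
  exact mul_nonneg (by positivity) (Real.rpow_nonneg (by linarith) _)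

/-- the conclusion of the one-step lemma -/
def Stepp (α C T ε₀ : ℝ) (M : ℕ) : Prop :=
  ∀ (lam L s N : ℝ) (p ν : ℂ) (ρ φ : ℂ → ℝ), Loc lam L s p ρ φ → lam * L ≤ ‖ν‖ ^ 2 →
  1 ≤ ‖ν‖ * s → T * (1 + Real.log (‖ν‖ * s) + s * (‖ν‖ * s)) ≤ N → N ≤ ε₀ * (‖ν‖ * s) →
  SS ν φ p (32 * s) ≤ Real.exp N * SS ν φ p (2 * s) →
  (∀ z : ℂ, ‖z - p‖ ≤ 8 * s → SS ν φ p (32 * s) ≤ Real.exp (C * N) * SS ν φ z s) ∧
  ∃ (ν' : ℕ × ℕ → ℂ) (n : ℕ × ℕ → ℝ), (∀ a ∈ gd M, 0 ≤ n a ∧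
      SS (ν' a) φ (p + s * ct M a) (32 * (s / M)) ≤
        Real.exp (n a) * SS (ν' a) φ (p + s * ct M a) (2 * (s / M))) ∧
    ∑ a ∈ gd M, n a ≤ C * (1 + Real.log M) * N ∧
    ∑ a ∈ gd M, ‖ν' a - ν‖ ^ α ≤ C * M ^ 2 * (N / s) ^ α

/-- the one-step lemma for the data of a good square -/
lemma good_step {α C T ε₀ ε₁ : ℝ} {M : ℕ} (hC : 1 ≤ C) (hT : 1 ≤ T) (hε1 : 0 < ε₁) (hε2 : ε₁ ≤ ε₀ / 2)
    (hε3 : ε₁ * (8 * C) ≤ 1) (h8 : Stepp α C T ε₀ M) {lam L : ℝ} {ν₀ : ℂ} {ρ φ : ℂ → ℝ}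
    (hν : 4 * (lam * L) ≤ ‖ν₀‖ ^ 2) {s N : ℝ} {p ν : ℂ} (hL : Loc lam L s p ρ φ)
    (hN : thr T ‖ν₀‖ s ≤ N) (hB : 2 ≤ ‖ν₀‖ * s)
    (hS : SS ν φ p (32 * s) ≤ Real.exp N * SS ν φ p (2 * s)) (h1 : N ≤ ε₁ * (‖ν₀‖ * s))
    (h2 : ‖ν - ν₀‖ ≤ ‖ν₀‖ / 2) :
    (‖ν₀‖ * s ≤ gr φ p s ∧ gr φ p s ≤ 52 * (‖ν₀‖ * s)) ∧
    ∃ (ν' : ℕ × ℕ → ℂ) (n : ℕ × ℕ → ℝ), (∀ a ∈ gd M, 0 ≤ n a ∧
      SS (ν' a) φ (p + s * ct M a) (32 * (s / M)) ≤
        Real.exp (n a) * SS (ν' a) φ (p + s * ct M a) (2 * (s / M))) ∧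
    ∑ a ∈ gd M, n a ≤ C * (1 + Real.log M) * N ∧
    ∑ a ∈ gd M, ‖ν' a - ν‖ ^ α ≤ C * M ^ 2 * (N / s) ^ α := by
  have hs := hL.s_pos
  have hx : 0 < ‖ν₀‖ * s := by linarith
  have hx0 : 0 < ‖ν₀‖ := pos_of_mul_pos_left hx hs.le
  have h3 : ‖ν‖ ≤ 3 / 2 * ‖ν₀‖ := by
    calc ‖ν‖ = ‖(ν - ν₀) + ν₀‖ := by congr 1; ring
      _ ≤ ‖ν - ν₀‖ + ‖ν₀‖ := norm_add_le _ _
      _ ≤ _ := by linarith
  have h4 : ‖ν₀‖ / 2 ≤ ‖ν‖ := by
    have : ‖ν₀‖ ≤ ‖ν - ν₀‖ + ‖ν‖ := by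
      calc ‖ν₀‖ = ‖ν - (ν - ν₀)‖ := by congr 1; ring
        _ ≤ ‖ν‖ + ‖ν - ν₀‖ := norm_sub_le _ _
        _ = _ := by ring
    linarith
  have hν0 : 0 < ‖ν‖ := by linarith
  have h5 : ‖ν‖ * s ≤ 3 / 2 * (‖ν₀‖ * s) := by nlinarith
  have h6 : (‖ν₀‖ * s) / 2 ≤ ‖ν‖ * s := by nlinarith
  have h7 : lam * L ≤ ‖ν‖ ^ 2 := by nlinarith
  have h9 : T * (1 + Real.log (‖ν‖ * s) + s * (‖ν‖ * s)) ≤ N := by
    refine le_trans ?_ hN
    unfold thr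
    refine mul_le_mul_of_nonneg_left ?_ (by linarith)
    have h10 : Real.log (‖ν‖ * s) ≤ Real.log (2 * (‖ν₀‖ * s)) :=
      Real.log_le_log (by positivity) (by linarith)
    have h11 : s * (‖ν‖ * s) ≤ s * (2 * (‖ν₀‖ * s)) := mul_le_mul_of_nonneg_left (by linarith) hs.le
    linarith
  have h10 : N ≤ ε₀ * (‖ν‖ * s) := by
    refine h1.trans ?_
    have : ε₁ * (‖ν₀‖ * s) ≤ ε₀ / 2 * (‖ν₀‖ * s) := mul_le_mul_of_nonneg_right hε2 hx.le
    have h12 : ε₀ * ((‖ν₀‖ * s) / 2) ≤ ε₀ * (‖ν‖ * s) := mul_le_mul_of_nonneg_left h6 (by linarith)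
    linarith
  obtain ⟨ha, hb⟩ := h8 lam L s N p ν ρ φ hL h7 (by linarith) h9 h10 hS
  refine ⟨⟨?_, ?_⟩, hb⟩
  · have h11 := le_gr hL (norm_pos_iff.1 hν0) ha
    have h12 : C * N ≤ C * (ε₁ * (‖ν₀‖ * s)) := mul_le_mul_of_nonneg_left h1 (by linarith)
    have h13 : C * (ε₁ * (‖ν₀‖ * s)) ≤ 1 / 8 * (‖ν₀‖ * s) := by
      have : C * ε₁ ≤ 1 / 8 := by linarith
      calc C * (ε₁ * (‖ν₀‖ * s)) = C * ε₁ * (‖ν₀‖ * s) := by ring
        _ ≤ _ := mul_le_mul_of_nonneg_right this hx.le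
    linarith
  · have h11 := gr_le hL hS
    have h12 : ε₁ ≤ 1 := by nlinarith
    have h13 : ε₁ * (‖ν₀‖ * s) ≤ 1 * (‖ν₀‖ * s) := mul_le_mul_of_nonneg_right h12 hx.le
    linarith

/-- a bad square is released at once -/
lemma bad_case {α ε₁ T B A : ℝ} (hα : 1 ≤ α) {M : ℕ} (hT : 1 ≤ T) (hε1 : 0 < ε₁) (hA : A = 35 / ε₁ + 1)
    {lam L : ℝ} {ν₀ : ℂ} {ρ φ : ℂ → ℝ} (J : ℕ) {s N : ℝ} {p ν : ℂ} (hL : Loc lam L s p ρ φ)
    (hN : 0 ≤ N) (hx : 0 < ‖ν₀‖ * s) (hS : SS ν φ p (32 * s) ≤ Real.exp N * SS ν φ p (2 * s))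
    (hg : ¬ (N ≤ ε₁ * (‖ν₀‖ * s) ∧ ‖ν - ν₀‖ ≤ ‖ν₀‖ / 2)) :
    ∃ R : Finset (ℕ × (ℕ × ℕ)), (∀ r ∈ R, r.1 ≤ J ∧ r.2 ∈ gd (M ^ r.1)) ∧
      ∑ r ∈ R, tmp α M ν₀ φ p s r ≤
        (A * (N / (‖ν₀‖ * s)) + 104 * (‖ν - ν₀‖ / ‖ν₀‖) + er A T B J s) ^ α ∧
      (∀ k ≤ J, ∀ b ∈ gd (M ^ k), (∀ k' ≤ k, (k', anc (M ^ (k - k')) b) ∉ R) →
        ‖ν₀‖ * (s / M ^ k) ≤ gr φ (p + s * ct (M ^ k) b) (s / M ^ k) ∧
        gr φ (p + s * ct (M ^ k) b) (s / M ^ k) ≤ 52 * (‖ν₀‖ * (s / M ^ k))) ∧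
      (N ≤ ε₁ * (‖ν₀‖ * s) → ‖ν - ν₀‖ ≤ ‖ν₀‖ / 2 → ∀ r ∈ R, 1 ≤ r.1) := by
  have hs := hL.s_pos
  have hx0 : 0 < ‖ν₀‖ := pos_of_mul_pos_left hx hs.le
  have hA0 : 0 ≤ A := by rw [hA]; positivity
  refine ⟨{(0, (0, 0))}, ?_, ?_, ?_, ?_⟩
  · intro r hr
    rw [Finset.mem_singleton] at hr
    subst hr
    refine ⟨Nat.zero_le _, ?_⟩
    rw [mem_gd]
    simp
  · rw [Finset.sum_singleton]
    have hmem : ((0 : ℕ), (0 : ℕ)) ∈ gd 1 := by rw [mem_gd]; simp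
    have h1 : tmp α M ν₀ φ p s (0, (0, 0)) = (1 + gr φ p s / (‖ν₀‖ * s)) ^ α := by
      simp only [tmp]
      rw [mul_zero, pow_zero, pow_zero, ct_one _ hmem, mul_zero, add_zero, div_one, inv_one,
        one_mul]
    rw [h1]
    obtain ⟨e, he⟩ : ∃ e : ℝ, e = N / (‖ν₀‖ * s) := ⟨_, rfl⟩
    obtain ⟨d, hd⟩ : ∃ d : ℝ, d = ‖ν - ν₀‖ / ‖ν₀‖ := ⟨_, rfl⟩
    have he0 : 0 ≤ e := by rw [he]; positivity
    have hd0 : 0 ≤ d := by rw [hd]; positivity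
    have h2 := gr_le hL hS
    have h3 : ‖ν‖ ≤ (1 + d) * ‖ν₀‖ := by
      have h4 : d * ‖ν₀‖ = ‖ν - ν₀‖ := by rw [hd]; field_simp
      calc ‖ν‖ = ‖(ν - ν₀) + ν₀‖ := by congr 1; ring
        _ ≤ ‖ν - ν₀‖ + ‖ν₀‖ := norm_add_le _ _
        _ = _ := by rw [← h4]; ring
    have h5 : gr φ p s / (‖ν₀‖ * s) ≤ e + 34 * (1 + d) := by
      rw [div_le_iff₀ hx]
      have h6 : e * (‖ν₀‖ * s) = N := by rw [he]; field_simp
      have h7 : ‖ν‖ * s ≤ (1 + d) * ‖ν₀‖ * s := mul_le_mul_of_nonneg_right h3 hs.le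
      calc gr φ p s ≤ N + 34 * (‖ν‖ * s) := h2
        _ ≤ e * (‖ν₀‖ * s) + 34 * ((1 + d) * ‖ν₀‖ * s) := by linarith
        _ = _ := by ring
    have h8 : 1 ≤ e / ε₁ + 2 * d := by
      by_contra hcon
      push Not at hcon
      refine hg ⟨?_, ?_⟩
      · have h9 : e / ε₁ < 1 := by linarith
        rw [div_lt_one hε1, he, div_lt_iff₀ hx] at h9
        exact h9.le
      · have h9 : 0 ≤ e / ε₁ := by positivity
        have h10 : d < 1 / 2 := by linarith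
        rw [hd, div_lt_iff₀ hx0] at h10
        linarith
    have h9 := er_nonneg (B := B) J hA0 hT hs.le
    have h10 : A * e = 35 * (e / ε₁) + e := by rw [hA]; ring
    have h11 : 0 ≤ gr φ p s / (‖ν₀‖ * s) := div_nonneg (gr_nonneg hL) hx.le
    refine Real.rpow_le_rpow (by linarith) ?_ (by linarith)
    rw [← he, ← hd, h10]
    linarith
  · intro k _ b hb hR
    exfalso
    refine hR 0 (Nat.zero_le _) ?_
    rw [Finset.mem_singleton, Nat.sub_zero]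
    have h1 : anc (M ^ k) b = (0, 0) := by
      rw [mem_gd] at hb
      ext
      · exact Nat.div_eq_of_lt hb.1
      · exact Nat.div_eq_of_lt hb.2
    rw [h1]
  · intro h1 h2
    exact absurd ⟨h1, h2⟩ hg

/-- the induction over the levels -/
lemma main {α C T ε₀ ε₁ B : ℝ} (hα : 1 ≤ α) {M : ℕ} (hC : 1 ≤ C) (hM : 16 ≤ M)
    (hMC : ((M : ℝ) ^ 2)⁻¹ * (C * (1 + Real.log M) * M) ^ α ≤ (1 / 4) ^ α) (hT : 1 ≤ T) (hε1 : 0 < ε₁) (hε2 : ε₁ ≤ ε₀ / 2)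
    (hε3 : ε₁ * (8 * C) ≤ 1) (hB : 2 ≤ B) (h8 : Stepp α C T ε₀ M) {lam L : ℝ} {ν₀ : ℂ} {ρ φ : ℂ → ℝ}
    (hν : 4 * (lam * L) ≤ ‖ν₀‖ ^ 2) (J : ℕ) :
    ∀ (s N : ℝ) (p ν : ℂ), Loc lam L s p ρ φ → thr T ‖ν₀‖ s ≤ N → B * M ^ J ≤ ‖ν₀‖ * s →
    SS ν φ p (32 * s) ≤ Real.exp N * SS ν φ p (2 * s) →
    ∃ R : Finset (ℕ × (ℕ × ℕ)), (∀ r ∈ R, r.1 ≤ J ∧ r.2 ∈ gd (M ^ r.1)) ∧
      ∑ r ∈ R, tmp α M ν₀ φ p s r ≤ ((35 / ε₁ + 1) * (N / (‖ν₀‖ * s)) + 104 * (‖ν - ν₀‖ / ‖ν₀‖) +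
        er (35 / ε₁ + 1) T B J s) ^ α ∧
      (∀ k ≤ J, ∀ b ∈ gd (M ^ k), (∀ k' ≤ k, (k', anc (M ^ (k - k')) b) ∉ R) →
        ‖ν₀‖ * (s / M ^ k) ≤ gr φ (p + s * ct (M ^ k) b) (s / M ^ k) ∧
        gr φ (p + s * ct (M ^ k) b) (s / M ^ k) ≤ 52 * (‖ν₀‖ * (s / M ^ k))) ∧
      (N ≤ ε₁ * (‖ν₀‖ * s) → ‖ν - ν₀‖ ≤ ‖ν₀‖ / 2 → ∀ r ∈ R, 1 ≤ r.1) := by
  classical
  have hM0 : 0 < M := by omega
  have hM' : (16 : ℝ) ≤ M := by exact_mod_cast hM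
  have hMr : (0 : ℝ) < M := by linarith
  obtain ⟨A, hA⟩ : ∃ A : ℝ, A = 35 / ε₁ + 1 := ⟨_, rfl⟩
  rw [← hA]
  have hA1 : 280 * C ≤ A := by
    have h1 : 8 * C ≤ 1 / ε₁ := by rw [le_div_iff₀ hε1]; linarith
    have h2 : 35 / ε₁ = 35 * (1 / ε₁) := by ring
    rw [hA, h2]
    linarith
  have hA0 : 0 ≤ A := by linarith
  have hC' : ε₁ ≤ 1 := by nlinarith
  induction J with
  | zero =>
    intro s N p ν hL hN hBs hS
    have hs := hL.s_pos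
    have hB2 : 2 ≤ ‖ν₀‖ * s := by
      rw [pow_zero, mul_one] at hBs
      linarith
    have hx : 0 < ‖ν₀‖ * s := by linarith
    have hx0 : 0 < ‖ν₀‖ := pos_of_mul_pos_left hx hs.le
    have hN0 : 0 ≤ N := (thr_nonneg hT hs.le (by linarith)).trans hN
    have her : 0 ≤ er A T B 0 s := er_nonneg 0 hA0 hT hs.le
    by_cases hg : N ≤ ε₁ * (‖ν₀‖ * s) ∧ ‖ν - ν₀‖ ≤ ‖ν₀‖ / 2
    · obtain ⟨h1, _⟩ := good_step hC hT hε1 hε2 hε3 h8 hν hL hN hB2 hS hg.1 hg.2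
      refine ⟨∅, fun r hr => absurd hr (Finset.notMem_empty r), ?_, ?_, ?_⟩
      · rw [Finset.sum_empty]
        exact Real.rpow_nonneg (by positivity) _
      · intro k hk b hb _
        have hk0 : k = 0 := by omega
        subst hk0
        rw [pow_zero] at *
        rw [pow_zero, ct_one b hb, mul_zero, add_zero, div_one]
        exact h1
      · intro _ _ r hr
        exact absurd hr (Finset.notMem_empty r)
    · exact bad_case hα hT hε1 hA 0 hL hN0 hx hS hg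
  | succ J ih =>
    intro s N p ν hL hN hBs hS
    have hs := hL.s_pos
    have hpow : (1 : ℝ) ≤ (M : ℝ) ^ (J + 1) := one_le_pow₀ (by linarith)
    have hB2 : 2 ≤ ‖ν₀‖ * s := by nlinarith
    have hx : 0 < ‖ν₀‖ * s := by linarith
    have hx0 : 0 < ‖ν₀‖ := pos_of_mul_pos_left hx hs.le
    have hN0 : 0 ≤ N := (thr_nonneg hT hs.le (by linarith)).trans hN
    by_cases hg : N ≤ ε₁ * (‖ν₀‖ * s) ∧ ‖ν - ν₀‖ ≤ ‖ν₀‖ / 2
    swap
    · exact bad_case hα hT hε1 hA (J + 1) hL hN0 hx hS hg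
    obtain ⟨h0, ν', n, hn, hn1, hn2⟩ := good_step hC hT hε1 hε2 hε3 h8 hν hL hN hB2 hS hg.1 hg.2
    have hBs' : B * (M : ℝ) ^ J ≤ ‖ν₀‖ * (s / M) := by
      rw [pow_succ] at hBs
      calc B * (M : ℝ) ^ J = B * ((M : ℝ) ^ J * M) / M := by field_simp
        _ ≤ ‖ν₀‖ * s / M := div_le_div_of_nonneg_right hBs hMr.le
        _ = _ := by ring
    have hsM : 0 < s / M := by positivity
    have hch : ∀ a : ℕ × ℕ, ∃ R : Finset (ℕ × (ℕ × ℕ)), a ∈ gd M →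
        (∀ r ∈ R, r.1 ≤ J ∧ r.2 ∈ gd (M ^ r.1)) ∧
        ∑ r ∈ R, tmp α M ν₀ φ (p + s * ct M a) (s / M) r ≤
          (A * (max (n a) (thr T ‖ν₀‖ (s / M)) / (‖ν₀‖ * (s / M))) + 104 * (‖ν' a - ν₀‖ / ‖ν₀‖) +
          er A T B J (s / M)) ^ α ∧
        (∀ k ≤ J, ∀ b ∈ gd (M ^ k), (∀ k' ≤ k, (k', anc (M ^ (k - k')) b) ∉ R) →
          ‖ν₀‖ * (s / M / M ^ k) ≤
            gr φ (p + s * ct M a + ((s / M : ℝ) : ℂ) * ct (M ^ k) b) (s / M / M ^ k) ∧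
          gr φ (p + s * ct M a + ((s / M : ℝ) : ℂ) * ct (M ^ k) b) (s / M / M ^ k) ≤
            52 * (‖ν₀‖ * (s / M / M ^ k))) := by
      intro a
      by_cases ha : a ∈ gd M
      · obtain ⟨R, hR1, hR2, hR3, _⟩ := ih (s / M) (max (n a) (thr T ‖ν₀‖ (s / M)))
          (p + s * ct M a) (ν' a) (loc_sub hL ha) (le_max_right _ _) hBs'
          ((hn a ha).2.trans (mul_le_mul_of_nonneg_right (Real.exp_le_exp.2 (le_max_left _ _))
            (sn_nonneg' _ _)))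
        exact ⟨R, fun _ => ⟨hR1, hR2, hR3⟩⟩
      · exact ⟨∅, fun h => absurd h ha⟩
    choose R hR using hch
    refine ⟨(gd M).biUnion fun a => (R a).image (sh M a), ?_, ?_, ?_, ?_⟩
    · intro r hr
      rw [Finset.mem_biUnion] at hr
      obtain ⟨a, ha, hr⟩ := hr
      rw [Finset.mem_image] at hr
      obtain ⟨r', hr', rfl⟩ := hr
      obtain ⟨h1, h2⟩ := (hR a ha).1 r' hr'
      refine ⟨Nat.succ_le_succ h1, ?_⟩
      show ch (M ^ r'.1) a r'.2 ∈ gd (M ^ (r'.1 + 1))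
      rw [pow_succ']
      exact ch_mem ha h2
    · have hnn : ∀ a ∈ gd M, ∀ b ∈ (R a).image (sh M a), 0 ≤ tmp α M ν₀ φ p s b := by
        intro a ha b hb
        rw [Finset.mem_image] at hb
        obtain ⟨r', hr', rfl⟩ := hb
        refine tmp_nonneg hL α ν₀ ?_
        show ch (M ^ r'.1) a r'.2 ∈ gd (M ^ (r'.1 + 1))
        rw [pow_succ']
        exact ch_mem ha ((hR a ha).1 r' hr').2
      have hthr0 : 0 ≤ thr T ‖ν₀‖ (s / M) := by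
        refine thr_nonneg hT hsM.le (le_trans ?_ hBs')
        have : (1 : ℝ) ≤ (M : ℝ) ^ J := one_le_pow₀ (by linarith)
        nlinarith
      have hxM : 0 < ‖ν₀‖ * (s / M) := by positivity
      obtain ⟨c, hc⟩ : ∃ c : ℝ, c = A * (thr T ‖ν₀‖ (s / M) / (‖ν₀‖ * (s / M))) +
        104 * (‖ν - ν₀‖ / ‖ν₀‖) + er A T B J (s / M) := ⟨_, rfl⟩
      have hc0 : 0 ≤ c := by
        have := er_nonneg (B := B) J hA0 hT hsM.le
        rw [hc]
        positivity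
      have h1 := sum_biUnion_le' (gd M) (fun a => (R a).image (sh M a)) (tmp α M ν₀ φ p s) hnn
      have h2 : ∑ a ∈ gd M, ∑ b ∈ (R a).image (sh M a), tmp α M ν₀ φ p s b ≤
          ((M : ℝ) ^ 2)⁻¹ * ∑ a ∈ gd M, (A * (n a / (‖ν₀‖ * (s / M))) +
            104 * (‖ν' a - ν‖ / ‖ν₀‖) + c) ^ α := by
        rw [Finset.mul_sum]
        refine Finset.sum_le_sum fun a ha => ?_
        rw [Finset.sum_image fun r hr r' hr' h => sh_inj ((hR a ha).1 r hr).2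
          ((hR a ha).1 r' hr').2 h]
        rw [Finset.sum_congr rfl fun r _ => tmp_sh α hM0 ν₀ φ p s a r, ← Finset.mul_sum]
        refine mul_le_mul_of_nonneg_left ((hR a ha).2.1.trans ?_) (by positivity)
        have h3 : max (n a) (thr T ‖ν₀‖ (s / M)) ≤ n a + thr T ‖ν₀‖ (s / M) :=
          max_le (by linarith) (by linarith [(hn a ha).1])
        have h5 : ‖ν' a - ν₀‖ ≤ ‖ν' a - ν‖ + ‖ν - ν₀‖ := by
          calc ‖ν' a - ν₀‖ = ‖(ν' a - ν) + (ν - ν₀)‖ := by congr 1; ring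
            _ ≤ _ := norm_add_le _ _
        have h6 := er_nonneg (B := B) J hA0 hT hsM.le
        have h7 : 0 ≤ max (n a) (thr T ‖ν₀‖ (s / M)) := (hn a ha).1.trans (le_max_left _ _)
        refine Real.rpow_le_rpow (by positivity) ?_ (by linarith)
        have h8 : A * (max (n a) (thr T ‖ν₀‖ (s / M)) / (‖ν₀‖ * (s / M))) ≤
            A * ((n a + thr T ‖ν₀‖ (s / M)) / (‖ν₀‖ * (s / M))) := by gcongr
        have h9 : 104 * (‖ν' a - ν₀‖ / ‖ν₀‖) ≤ 104 * ((‖ν' a - ν‖ + ‖ν - ν₀‖) / ‖ν₀‖) := by gcongr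
        rw [add_div, mul_add] at h8 h9
        rw [hc]
        linarith
      have hN1 : 0 ≤ N / (‖ν₀‖ * s) := by positivity
      have hlog : 0 ≤ Real.log M := Real.log_nonneg (by linarith)
      have h4 : ((M : ℝ) ^ 2)⁻¹ * ∑ a ∈ gd M, (A * (n a / (‖ν₀‖ * (s / M)))) ^ α ≤
          (1 / 4 * (A * (N / (‖ν₀‖ * s)))) ^ α := by
        have e1 : ∀ a ∈ gd M, (A * (n a / (‖ν₀‖ * (s / M)))) ^ α =
            (A / (‖ν₀‖ * (s / M))) ^ α * n a ^ α := by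
          intro a ha
          rw [← Real.mul_rpow (by positivity) (hn a ha).1]
          congr 1
          ring
        rw [Finset.sum_congr rfl e1, ← Finset.mul_sum]
        have e2 : ∑ a ∈ gd M, n a ^ α ≤ (C * (1 + Real.log M) * N) ^ α :=
          (sum_rpow_le _ _ hα fun a ha => (hn a ha).1).trans
            (Real.rpow_le_rpow (Finset.sum_nonneg fun a ha => (hn a ha).1) hn1 (by linarith))
        calc ((M : ℝ) ^ 2)⁻¹ * ((A / (‖ν₀‖ * (s / M))) ^ α * ∑ a ∈ gd M, n a ^ α)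
            ≤ ((M : ℝ) ^ 2)⁻¹ * ((A / (‖ν₀‖ * (s / M))) ^ α * (C * (1 + Real.log M) * N) ^ α) := by
              gcongr
          _ = ((M : ℝ) ^ 2)⁻¹ * ((C * (1 + Real.log M) * M) * (A * (N / (‖ν₀‖ * s)))) ^ α := by
              rw [← Real.mul_rpow (by positivity) (by positivity)]
              congr 2
              field_simp
          _ = (((M : ℝ) ^ 2)⁻¹ * (C * (1 + Real.log M) * M) ^ α) * (A * (N / (‖ν₀‖ * s))) ^ α := by
              rw [Real.mul_rpow (by positivity) (by positivity)]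
              ring
          _ ≤ (1 / 4) ^ α * (A * (N / (‖ν₀‖ * s))) ^ α :=
              mul_le_mul_of_nonneg_right hMC (Real.rpow_nonneg (by positivity) _)
          _ = _ := (Real.mul_rpow (by positivity) (by positivity)).symm
      have h5 : ((M : ℝ) ^ 2)⁻¹ * ∑ a ∈ gd M, (104 * (‖ν' a - ν‖ / ‖ν₀‖)) ^ α ≤
          (3 / 4 * (A * (N / (‖ν₀‖ * s)))) ^ α := by
        have e1 : ∀ a ∈ gd M, (104 * (‖ν' a - ν‖ / ‖ν₀‖)) ^ α =
            (104 / ‖ν₀‖) ^ α * ‖ν' a - ν‖ ^ α := by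
          intro a _
          rw [← Real.mul_rpow (by positivity) (norm_nonneg _)]
          congr 1
          ring
        rw [Finset.sum_congr rfl e1, ← Finset.mul_sum]
        calc ((M : ℝ) ^ 2)⁻¹ * ((104 / ‖ν₀‖) ^ α * ∑ a ∈ gd M, ‖ν' a - ν‖ ^ α)
            ≤ ((M : ℝ) ^ 2)⁻¹ * ((104 / ‖ν₀‖) ^ α * (C * M ^ 2 * (N / s) ^ α)) := by gcongr
          _ = C * ((104 / ‖ν₀‖) ^ α * (N / s) ^ α) := by field_simp
          _ ≤ C ^ α * ((104 / ‖ν₀‖) ^ α * (N / s) ^ α) := by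
              refine mul_le_mul_of_nonneg_right ?_ (by positivity)
              calc C = C ^ (1 : ℝ) := (Real.rpow_one C).symm
                _ ≤ C ^ α := Real.rpow_le_rpow_of_exponent_le hC hα
          _ = (104 * C * (N / (‖ν₀‖ * s))) ^ α := by
              rw [← Real.mul_rpow (by positivity) (by positivity),
                ← Real.mul_rpow (by positivity) (by positivity)]
              congr 1
              field_simp
          _ ≤ _ := by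
              refine Real.rpow_le_rpow (by positivity) ?_ (by linarith)
              calc 104 * C * (N / (‖ν₀‖ * s)) ≤ 3 / 4 * A * (N / (‖ν₀‖ * s)) :=
                    mul_le_mul_of_nonneg_right (by linarith) hN1
                _ = _ := by ring
      have hcard : (((gd M).card : ℕ) : ℝ) = (M : ℝ) ^ 2 := by
        rw [gd_card]
        push_cast
        ring
      have h3 := mink (gd M) (fun a => A * (n a / (‖ν₀‖ * (s / M))))
        (fun a => 104 * (‖ν' a - ν‖ / ‖ν₀‖)) hα (by positivity : (0 : ℝ) < (M : ℝ) ^ 2) hcard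
        (fun a ha => by
          have := (hn a ha).1
          positivity) (fun a _ => by positivity) hc0 (by positivity) (by positivity) h4 h5
      have h6 := er_step (A := A) (T := T) (B := B) (J := J) hA0 hT (by linarith : (1:ℝ) ≤ B) hs hx0 hM
        hBs'
      calc _ ≤ _ := h1
        _ ≤ _ := h2
        _ ≤ _ := h3
        _ ≤ _ := by
            refine Real.rpow_le_rpow (by positivity) ?_ (by linarith)
            rw [hc]
            linarith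
    · intro k hk b hb hno
      rcases Nat.eq_zero_or_pos k with hk0 | hk0
      · subst hk0
        rw [pow_zero] at *
        rw [pow_zero, ct_one b hb, mul_zero, add_zero, div_one]
        exact h0
      · obtain ⟨k, rfl⟩ : ∃ k', k = k' + 1 := ⟨k - 1, by omega⟩
        obtain ⟨a, ha⟩ : ∃ a, a = anc (M ^ k) b := ⟨_, rfl⟩
        obtain ⟨c, hc⟩ : ∃ c, c = md (M ^ k) b := ⟨_, rfl⟩
        have hb1 : b = ch (M ^ k) a c := by rw [ha, hc, ch_anc_md]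
        have hcm : c ∈ gd (M ^ k) := by rw [hc]; exact md_mem (pow_pos hM0 k) b
        have ham : a ∈ gd M := by
          rw [ha]
          refine anc_mem ?_
          rwa [← pow_succ']
        have h1 := (hR a ham).2.2 k (by omega) c hcm ?_
        · have h2 : s / (M : ℝ) ^ (k + 1) = s / M / M ^ k := by
            rw [pow_succ']
            field_simp
          rw [hb1, ct_sh hM0, h2]
          exact h1
        · intro k' hk' hmem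
          refine hno (k' + 1) (by omega) ?_
          rw [Finset.mem_biUnion]
          refine ⟨a, ham, ?_⟩
          rw [Finset.mem_image]
          refine ⟨_, hmem, ?_⟩
          show (k' + 1, ch (M ^ k') a (anc (M ^ (k - k')) c)) = (k' + 1, anc (M ^ (k + 1 - (k' + 1))) b)
          rw [show k + 1 - (k' + 1) = k - k' by omega, hb1, anc_sh hM0 hk']
    · intro _ _ r hr
      rw [Finset.mem_biUnion] at hr
      obtain ⟨a, ha, hr⟩ := hr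
      rw [Finset.mem_image] at hr
      obtain ⟨r', hr', rfl⟩ := hr
      show 1 ≤ r'.1 + 1
      omega


/-- the choice of the number of subsquares -/
lemma exists_M {α C : ℝ} (hα : 1 ≤ α) (hα2 : α < 2) (hC : 1 ≤ C) : ∃ M₁ : ℕ, ∀ M : ℕ, M₁ ≤ M →
    (0 : ℝ) < M → ((M : ℝ) ^ 2)⁻¹ * (C * (1 + Real.log M) * M) ^ α ≤ (1 / 4) ^ α := by
  have hα0 : 0 < α := by linarith
  obtain ⟨b, hb⟩ : ∃ b : ℝ, b = 2 / α - 1 := ⟨_, rfl⟩
  have hb0 : 0 < b := by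
    rw [hb, sub_pos, lt_div_iff₀ hα0]
    linarith
  have h1 : Tendsto (fun x : ℝ => C * (1 + Real.log x) / x ^ b) atTop (𝓝 0) := by
    have h2 : Tendsto (fun x : ℝ => Real.log x / x ^ b) atTop (𝓝 0) :=
      (isLittleO_log_rpow_atTop hb0).tendsto_div_nhds_zero
    have h3 : Tendsto (fun x : ℝ => 1 / x ^ b) atTop (𝓝 0) :=
      (tendsto_rpow_atTop hb0).const_div_atTop 1
    have h4 := (h3.add h2).const_mul C
    rw [add_zero, mul_zero] at h4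
    refine h4.congr fun x => ?_
    ring
  have h5 := (h1.eventually_le_const (by norm_num : (0 : ℝ) < 1 / 4)).and (eventually_ge_atTop (1 : ℝ))
  obtain ⟨x₀, hx₀⟩ := eventually_atTop.1 h5
  refine ⟨⌈x₀⌉₊, fun M hM hM0 => ?_⟩
  have h6 : x₀ ≤ M := (Nat.le_ceil x₀).trans (by exact_mod_cast hM)
  obtain ⟨h7, h8⟩ := hx₀ M h6
  have hlog : 0 ≤ Real.log M := Real.log_nonneg h8
  have e1 : ((M : ℝ) ^ 2)⁻¹ = ((M : ℝ) ^ (-(2 / α))) ^ α := by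
    rw [← Real.rpow_mul hM0.le, neg_mul, div_mul_cancel₀ _ hα0.ne', Real.rpow_neg hM0.le,
      Real.rpow_two]
  have e2 : (M : ℝ) ^ (-(2 / α)) * (C * (1 + Real.log M) * M) = C * (1 + Real.log M) / (M : ℝ) ^ b := by
    have e3 : (M : ℝ) ^ b = (M : ℝ) ^ (2 / α) / M := by
      rw [hb, Real.rpow_sub hM0, Real.rpow_one]
    have hp : 0 < (M : ℝ) ^ (2 / α) := Real.rpow_pos_of_pos hM0 _
    rw [e3, Real.rpow_neg hM0.le]
    field_simp
  rw [e1, ← Real.mul_rpow (by positivity) (by positivity), e2]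
  exact Real.rpow_le_rpow (by positivity) h7 hα0.le

end T7

open T7 Pool.Agent.Q73.AD.Y9P in
/-- descendants of a linear square -/
theorem ty9p {α : ℝ} (h1 : 1 ≤ α) (h2 : α < 2) (h : Y8p α) : Y9p α := by
  have hα := h1
  have hα0 : 0 < α := by linarith
  have hα2 := h2
  clear h1 h2
  obtain ⟨C, hC, h8⟩ := h
  obtain ⟨M₁, hM₁⟩ := exists_M hα hα2 hC
  obtain ⟨M₀, hM₀⟩ : ∃ M₀ : ℕ, M₀ = ⌈144 * C ^ 2⌉₊ + 16 + M₁ := ⟨_, rfl⟩
  refine ⟨M₀, by omega, fun θ M hθ hθ1 hM => ?_⟩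
  have hM16 : 16 ≤ M := by omega
  have hM' : (16 : ℝ) ≤ M := by exact_mod_cast hM16
  have hMr : (0 : ℝ) < M := by linarith
  have hMC2 : 144 * C ^ 2 ≤ M := by
    have h1 : 144 * C ^ 2 ≤ (⌈144 * C ^ 2⌉₊ : ℝ) := Nat.le_ceil _
    have h2 : ((⌈144 * C ^ 2⌉₊ : ℕ) : ℝ) ≤ M := by
      have : ⌈144 * C ^ 2⌉₊ ≤ M := by omega
      exact_mod_cast this
    exact h1.trans h2
  have hCM : C ≤ M := by nlinarith
  have hMC : ((M : ℝ) ^ 2)⁻¹ * (C * (1 + Real.log M) * M) ^ α ≤ (1 / 4) ^ α := hM₁ M (by omega) hMr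
  obtain ⟨T, ε₀, hT, hε0, hε01, hst⟩ := h8 M hCM
  obtain ⟨ε₁, hε1⟩ : ∃ ε₁ : ℝ, ε₁ = min (ε₀ / 2) (1 / (8 * C)) := ⟨_, rfl⟩
  have hε1p : 0 < ε₁ := by rw [hε1]; exact lt_min (by linarith) (by positivity)
  have hε2 : ε₁ ≤ ε₀ / 2 := by rw [hε1]; exact min_le_left _ _
  have hε3 : ε₁ * (8 * C) ≤ 1 := by
    have : ε₁ ≤ 1 / (8 * C) := by rw [hε1]; exact min_le_right _ _
    rwa [le_div_iff₀ (by linarith)] at this
  obtain ⟨A, hA⟩ : ∃ A : ℝ, A = 35 / ε₁ + 1 := ⟨_, rfl⟩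
  have hA1 : 1 ≤ A := by
    have : 0 < 35 / ε₁ := by positivity
    linarith
  obtain ⟨ε, hε⟩ : ∃ ε : ℝ, ε = min ε₁ (θ / (4 * A)) := ⟨_, rfl⟩
  have hεp : 0 < ε := by rw [hε]; exact lt_min hε1p (by positivity)
  have hεle : ε ≤ ε₁ := by rw [hε]; exact min_le_left _ _
  have hεA : A * ε ≤ θ / 4 := by
    have h1 : ε ≤ θ / (4 * A) := by rw [hε]; exact min_le_right _ _
    calc A * ε ≤ A * (θ / (4 * A)) := mul_le_mul_of_nonneg_left h1 (by linarith)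
      _ = θ / 4 := by field_simp
  obtain ⟨B, hB⟩ : ∃ B : ℝ, B = max 2 (max ((32 * (A * T) / θ) ^ 2) ((6 * T / ε) ^ 2)) := ⟨_, rfl⟩
  have hB2 : 2 ≤ B := by rw [hB]; exact le_max_left _ _
  have hB3 : 32 * (A * T) / θ ≤ Real.sqrt B := by
    refine Real.le_sqrt_of_sq_le ?_
    rw [hB]
    exact (le_max_left _ _).trans (le_max_right _ _)
  have hB4 : 6 * T / ε ≤ Real.sqrt B := by
    refine Real.le_sqrt_of_sq_le ?_
    rw [hB]
    exact (le_max_right _ _).trans (le_max_right _ _)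
  have hBs : 0 < Real.sqrt B := Real.sqrt_pos.2 (by linarith)
  refine ⟨ε, B, min (θ / (32 * (A * T))) (ε / (4 * T)), hεp, ?_, by linarith,
    lt_min (by positivity) (by positivity), ?_⟩
  · have : ε₁ ≤ 1 := by nlinarith
    linarith
  intro lam L s p ν₀ ρ φ J hL hs1 hν hBJ hS
  have hs := hL.s_pos
  have hMJ : (0 : ℝ) < (M : ℝ) ^ J := by positivity
  have hMJ1 : (1 : ℝ) ≤ (M : ℝ) ^ J := one_le_pow₀ (by linarith)
  have hBJ' : B * (M : ℝ) ^ J ≤ ‖ν₀‖ * s := by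
    calc B * (M : ℝ) ^ J ≤ ‖ν₀‖ * (s / M ^ J) * (M : ℝ) ^ J :=
          mul_le_mul_of_nonneg_right hBJ hMJ.le
      _ = _ := by field_simp
  have hBx : B ≤ ‖ν₀‖ * s := by
    have : B * 1 ≤ B * (M : ℝ) ^ J := mul_le_mul_of_nonneg_left hMJ1 (by linarith)
    linarith
  have hx : 0 < ‖ν₀‖ * s := by linarith
  have hx0 : 0 < ‖ν₀‖ := pos_of_mul_pos_left hx hs.le
  have hthr : thr T ‖ν₀‖ s ≤ ε * (‖ν₀‖ * s) := by
    refine (thr_le hT (by linarith : (1:ℝ) ≤ B) hBx).trans (mul_le_mul_of_nonneg_right ?_ hx.le)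
    have h1 : 3 * T / Real.sqrt B ≤ ε / 2 := by
      rw [div_le_iff₀ hBs]
      rw [div_le_iff₀ hεp] at hB4
      linarith
    have h2 : s ≤ ε / (4 * T) := hs1.trans (min_le_right _ _)
    rw [le_div_iff₀ (by linarith)] at h2
    linarith
  obtain ⟨R, hR1, hR2, hR3, hR4⟩ := T7.main (B := B) hα hC hM16 hMC hT hε1p hε2 hε3 hB2 hst hν J s
    (ε * (‖ν₀‖ * s)) p ν₀ hL hthr hBJ' hS
  rw [← hA] at hR2
  have htot : ∑ r ∈ R, tmp α M ν₀ φ p s r ≤ θ := by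
    refine hR2.trans ?_
    have hθα : θ ^ α ≤ θ := by
      calc θ ^ α ≤ θ ^ (1 : ℝ) := Real.rpow_le_rpow_of_exponent_ge hθ hθ1 hα
        _ = θ := Real.rpow_one θ
    refine le_trans (Real.rpow_le_rpow ?_ ?_ hα0.le) hθα
    · have := er_nonneg (B := B) J (by linarith : 0 ≤ A) hT hs.le
      positivity
    have h1 : ε * (‖ν₀‖ * s) / (‖ν₀‖ * s) = ε := by field_simp
    rw [h1, sub_self, norm_zero, zero_div, mul_zero, add_zero]
    have h2 : er A T B J s ≤ θ / 4 := by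
      unfold er
      have h3 : 3 / Real.sqrt B * gs J ≤ 4 / Real.sqrt B := by
        calc 3 / Real.sqrt B * gs J ≤ 3 / Real.sqrt B * (4 / 3) :=
              mul_le_mul_of_nonneg_left (gs_le J) (by positivity)
          _ = _ := by ring
      have h4 : A * T * (4 / Real.sqrt B) ≤ θ / 8 := by
        rw [div_le_iff₀ hθ] at hB3
        calc A * T * (4 / Real.sqrt B) = 32 * (A * T) / (8 * Real.sqrt B) := by ring
          _ ≤ Real.sqrt B * θ / (8 * Real.sqrt B) := by gcongr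
          _ = θ / 8 := by field_simp
      have h5 : A * T * (4 * s) ≤ θ / 8 := by
        have h6 : s ≤ θ / (32 * (A * T)) := hs1.trans (min_le_left _ _)
        rw [le_div_iff₀ (by positivity)] at h6
        linarith
      have h7 : 0 < A * T := by positivity
      calc A * T * (3 / Real.sqrt B * gs J + 4 * s) ≤ A * T * (4 / Real.sqrt B + 4 * s) :=
            mul_le_mul_of_nonneg_left (by linarith) h7.le
        _ = A * T * (4 / Real.sqrt B) + A * T * (4 * s) := by ring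
        _ ≤ _ := by linarith
    linarith
  have hg : ∀ r ∈ R, 0 ≤ gr φ (p + s * ct (M ^ r.1) r.2) (s / M ^ r.1) := by
    intro r hr
    have h1 := gr_nonneg (loc_sub hL (hR1 r hr).2)
    push_cast at h1
    exact h1
  refine ⟨R, fun r hr => ⟨hR4 (mul_le_mul_of_nonneg_right hεle hx.le)
    (by rw [sub_self, norm_zero]; positivity) r hr, (hR1 r hr).1, (hR1 r hr).2⟩, ?_, ?_, hR3⟩
  · refine le_trans (Finset.sum_le_sum fun r hr => ?_) htot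
    have h1 := hg r hr
    unfold tmp
    have h2 : 0 ≤ gr φ (p + s * ct (M ^ r.1) r.2) (s / M ^ r.1) / (‖ν₀‖ * (s / M ^ r.1)) := by
      positivity
    have h3 : 0 ≤ ((M : ℝ) ^ (2 * r.1))⁻¹ := by positivity
    exact le_mul_of_one_le_right h3 (Real.one_le_rpow (by linarith) hα0.le)
  · have h1 : (∑ r ∈ R, tmp α M ν₀ φ p s r) * ‖ν₀‖ ^ α ≤ θ * ‖ν₀‖ ^ α :=
      mul_le_mul_of_nonneg_right htot (Real.rpow_nonneg hx0.le _)
    refine le_trans ?_ h1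
    rw [Finset.sum_mul]
    refine Finset.sum_le_sum fun r hr => ?_
    have h2 := hg r hr
    unfold tmp
    have h4 : 0 < s / (M : ℝ) ^ r.1 := by positivity
    rw [mul_assoc]
    refine mul_le_mul_of_nonneg_left ?_ (by positivity)
    have h6 : 0 ≤ gr φ (p + s * ct (M ^ r.1) r.2) (s / M ^ r.1) / (‖ν₀‖ * (s / M ^ r.1)) := by
      positivity
    have h5 : gr φ (p + s * ct (M ^ r.1) r.2) (s / M ^ r.1) / (s / M ^ r.1) =
        gr φ (p + s * ct (M ^ r.1) r.2) (s / M ^ r.1) / (‖ν₀‖ * (s / M ^ r.1)) * ‖ν₀‖ := by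
      field_simp
    rw [h5, Real.mul_rpow h6 hx0.le]
    refine mul_le_mul_of_nonneg_right ?_ (Real.rpow_nonneg hx0.le _)
    exact Real.rpow_le_rpow h6 (by linarith) hα0.le

end Pool.Agent.H303.NP
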