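import Pool.Agent.H303.NP.Stm
import Pool.Graph.R_pool_sql_team_seeded_3997aac3.Q73.AD.YZ2
import Pool.Graph.R_pool_sql_team_seeded_3997aac3.Q73.AD.YZ6

/-!
# NP-T8: the sum of the powers of the growth exponents of the subsquares
-/

set_option autoImplicit false
open MeasureTheory Filter Topology Complex Metric
open scoped ContDiff ComplexConjugate

namespace Pool.Agent.H303.NP

open Pool.Agent.Q73.NL Pool.Agent.Q73.AD

namespace T8

lemma add_rpow_le {a b α : ℝ} (ha : 0 ≤ a) (hb : 0 ≤ b) (h1 : 1 ≤ α) :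
    (a + b) ^ α ≤ 2 ^ (α - 1) * (a ^ α + b ^ α) := by
  have := NNReal.rpow_add_le_mul_rpow_add_rpow ⟨a, ha⟩ ⟨b, hb⟩ h1
  exact_mod_cast this

lemma sum_rpow_le {ι : Type} (S : Finset ι) (n : ι → ℝ) {α : ℝ} (h1 : 1 ≤ α) (hn : ∀ a ∈ S, 0 ≤ n a) :
    ∑ a ∈ S, n a ^ α ≤ (∑ a ∈ S, n a) ^ α := by
  have hα : α ≠ 0 := by linarith
  have hT : 0 ≤ ∑ a ∈ S, n a := Finset.sum_nonneg hn
  have h2 : ∀ x : ℝ, 0 ≤ x → x ^ α = x ^ (α - 1) * x := by
    intro x hx
    rcases hx.eq_or_lt with h | h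
    · rw [← h, Real.zero_rpow hα, mul_zero]
    · rw [← Real.rpow_add_one h.ne']
      congr 1
      ring
  calc ∑ a ∈ S, n a ^ α ≤ ∑ a ∈ S, (∑ a ∈ S, n a) ^ (α - 1) * n a := by
        refine Finset.sum_le_sum fun a ha => ?_
        rw [h2 _ (hn a ha)]
        refine mul_le_mul_of_nonneg_right ?_ (hn a ha)
        exact Real.rpow_le_rpow (hn a ha) (Finset.single_le_sum hn ha) (by linarith)
    _ = (∑ a ∈ S, n a) ^ α := by rw [← Finset.mul_sum, ← h2 _ hT]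

/-- the logarithm against a power -/
lemma log_bd {α M : ℝ} (h1 : 1 ≤ α) (h2 : α < 2) (hM : 1 ≤ M) :
    (1 + Real.log M) ^ α ≤ (1 + α / (2 - α)) ^ α * M ^ (2 - α) := by
  have hα : 0 < α := by linarith
  have hε : 0 < (2 - α) / α := div_pos (by linarith) hα
  have h3 := Real.log_le_rpow_div (by linarith : 0 ≤ M) hε
  have h4 : 1 ≤ M ^ ((2 - α) / α) := Real.one_le_rpow hM hε.le
  have h5 : 1 + Real.log M ≤ (1 + α / (2 - α)) * M ^ ((2 - α) / α) := by
    have e : M ^ ((2 - α) / α) / ((2 - α) / α) = α / (2 - α) * M ^ ((2 - α) / α) := by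
      have : (2 - α) ≠ 0 := by linarith
      field_simp
    rw [e] at h3
    linarith
  have h6 : 0 ≤ 1 + Real.log M := by have := Real.log_nonneg hM; linarith
  have h7 : 0 ≤ 1 + α / (2 - α) := by
    have : 0 < α / (2 - α) := div_pos hα (by linarith)
    linarith
  calc (1 + Real.log M) ^ α ≤ ((1 + α / (2 - α)) * M ^ ((2 - α) / α)) ^ α := Real.rpow_le_rpow h6 h5 hα.le
    _ = (1 + α / (2 - α)) ^ α * M ^ (2 - α) := by
      rw [Real.mul_rpow h7 (by positivity), ← Real.rpow_mul (by linarith)]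
      congr 2
      field_simp

end T8

open T8 in
theorem tz2p {α : ℝ} (h1 : 1 ≤ α) (h2 : α < 2) (h : Y7p α) : Z2p α := by
  obtain ⟨C₇, hC₇, H7⟩ := h
  have hα0 : (0 : ℝ) < α := by linarith
  set K : ℝ := (1 + α / (2 - α)) ^ α with hK
  have hK0 : 0 ≤ K := by
    have : 0 < α / (2 - α) := div_pos hα0 (by linarith)
    positivity
  set C' : ℝ := 2 ^ (α - 1) * (C₇ ^ α * K + 34 ^ α * C₇) with hC'
  refine ⟨max (max C₇ 2) C', le_max_of_le_left (le_max_of_le_left hC₇), fun M hM L hL => ?_⟩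
  have hM7 : C₇ ≤ M := ((le_max_left _ _).trans (le_max_left _ _)).trans hM
  have hM2 : (2 : ℝ) ≤ M := ((le_max_right _ _).trans (le_max_left _ _)).trans hM
  have hM0 : (0 : ℝ) < M := by linarith
  have hMn : 0 < M := by exact_mod_cast hM0
  obtain ⟨T, hT, H⟩ := H7 M hM7 L hL
  refine ⟨T, hT, ?_⟩
  intro lam s N p ρ φ hloc hTN hgr
  have hs := hloc.s_pos
  have hsl : 0 ≤ Real.sqrt lam * s := mul_nonneg (Real.sqrt_nonneg _) hs.le
  have hN0 : 0 ≤ N := by nlinarith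
  have hlog : 0 ≤ Real.log M := Real.log_nonneg (by linarith)
  obtain ⟨B, hB0, hB⟩ := loc_bd hloc
  have hposp : 0 < sn φ (closedBall p (2 * s)) :=
    hloc.pos p (2 * s) (by linarith) (closedBall_subset_closedBall (by linarith))
  have hposP : 0 < sn φ (closedBall p (32 * s)) := hloc.pos p (32 * s) (by linarith) subset_rfl
  have hstart : sn φ (closedBall p (32 * s)) ≤ Real.exp N * sn φ (closedBall p (2 * s)) := by
    rw [← div_le_iff₀ hposp]
    have h1 := Real.exp_le_exp.2 hgr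
    unfold gr at h1
    rwa [Real.exp_log (div_pos hposP hposp)] at h1
  obtain ⟨-, ν, n, H2, H3, H4⟩ := H lam s N p ρ φ hloc hTN hstart
  set r : ℝ := s / M with hr
  have hr0 : 0 < r := div_pos hs hM0
  have hrs : 2 * r ≤ s := by
    rw [hr, ← mul_div_assoc, div_le_iff₀ hM0]
    nlinarith
  have hsq2 : Real.sqrt 2 ≤ 2 := by
    rw [show (2 : ℝ) = Real.sqrt 4 by
      rw [show (4 : ℝ) = 2 ^ 2 by norm_num]; exact (Real.sqrt_sq (by norm_num)).symm]
    exact Real.sqrt_le_sqrt (by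
      rw [show (4 : ℝ) = 2 ^ 2 by norm_num, Real.sqrt_sq (by norm_num)]; norm_num)
  have hcn : ∀ c ∈ gd M, ‖(s : ℂ) * ct M c‖ ≤ 2 * s := by
    intro c hc
    rw [norm_mul, Complex.norm_real, Real.norm_of_nonneg hs.le]
    have := (ct_norm hc).trans hsq2
    nlinarith
  have hcin : ∀ c ∈ gd M, p + s * ct M c ∈ closedBall p (2 * s) := by
    intro c hc
    rw [mem_closedBall, dist_eq_norm]
    have e : p + s * ct M c - p = s * ct M c := by ring
    rw [e]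
    exact hcn c hc
  have hcsub : ∀ c ∈ gd M, closedBall (p + s * ct M c) (32 * r) ⊆ closedBall p (32 * s) := by
    intro c hc
    refine closedBall_subset_closedBall' ?_
    have := hcin c hc
    rw [mem_closedBall] at this
    linarith
  have hcpos : ∀ c ∈ gd M, ∀ t, 0 < t → t ≤ 32 * r → 0 < sn φ (closedBall (p + s * ct M c) t) := by
    intro c hc t ht ht'
    exact hloc.pos _ t ht ((closedBall_subset_closedBall ht').trans (hcsub c hc))
  have hsingle : ∀ c ∈ gd M, gr φ (p + s * ct M c) r ≤ n c + 34 * ‖ν c‖ * r := by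
    intro c hc
    exact gr_le hr0 (fun x hx => hB x (hcsub c hc hx)) (hcpos c hc _ (by linarith) (by linarith))
      (hcpos c hc _ (by linarith) le_rfl) (H2 c hc).2
  have hgr0 : ∀ c ∈ gd M, 0 ≤ gr φ (p + s * ct M c) r := fun c hc =>
    TZ6.gr_nonneg (TZ6.loc_sub hloc hc)
  -- the power of the sum
  have hpow : ∀ c ∈ gd M, gr φ (p + s * ct M c) r ^ α ≤
      2 ^ (α - 1) * (n c ^ α + (34 * r) ^ α * ‖ν c‖ ^ α) := by
    intro c hc
    have hn0 := (H2 c hc).1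
    have e : (34 * ‖ν c‖ * r) ^ α = (34 * r) ^ α * ‖ν c‖ ^ α := by
      rw [← Real.mul_rpow (by positivity) (norm_nonneg _)]
      congr 1
      ring
    rw [← e]
    exact (Real.rpow_le_rpow (hgr0 c hc) (hsingle c hc) hα0.le).trans (add_rpow_le hn0 (by positivity) h1)
  have hn : ∑ c ∈ gd M, n c ^ α ≤ C₇ ^ α * K * (M : ℝ) ^ (2 - α) * N ^ α := by
    calc ∑ c ∈ gd M, n c ^ α ≤ (∑ c ∈ gd M, n c) ^ α := sum_rpow_le _ _ h1 fun c hc => (H2 c hc).1
      _ ≤ (C₇ * (1 + Real.log M) * N) ^ α :=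
        Real.rpow_le_rpow (Finset.sum_nonneg fun c hc => (H2 c hc).1) H3 hα0.le
      _ = C₇ ^ α * (1 + Real.log M) ^ α * N ^ α := by
        rw [Real.mul_rpow (by positivity) hN0, Real.mul_rpow (by linarith) (by positivity)]
      _ ≤ C₇ ^ α * (K * (M : ℝ) ^ (2 - α)) * N ^ α := by
        have := log_bd h1 h2 (by linarith : (1 : ℝ) ≤ M)
        gcongr
      _ = _ := by ring
  have hν : (34 * r) ^ α * ∑ c ∈ gd M, ‖ν c‖ ^ α ≤ 34 ^ α * C₇ * (M : ℝ) ^ (2 - α) * N ^ α := by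
    calc (34 * r) ^ α * ∑ c ∈ gd M, ‖ν c‖ ^ α ≤ (34 * r) ^ α * (C₇ * M ^ 2 * (N / s) ^ α) :=
          mul_le_mul_of_nonneg_left H4 (by positivity)
      _ = 34 ^ α * C₇ * (M : ℝ) ^ (2 - α) * N ^ α := by
        rw [hr, Real.mul_rpow (by norm_num) (by positivity), Real.div_rpow hs.le hM0.le,
          Real.div_rpow hN0 hs.le, Real.rpow_sub hM0, Real.rpow_two]
        have h3 : (s : ℝ) ^ α ≠ 0 := (Real.rpow_pos_of_pos hs _).ne'
        have h4 : (M : ℝ) ^ α ≠ 0 := (Real.rpow_pos_of_pos hM0 _).ne'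
        field_simp
  have hMN : 0 ≤ (M : ℝ) ^ (2 - α) * N ^ α := by positivity
  calc ∑ c ∈ gd M, gr φ (p + s * ct M c) r ^ α
      ≤ ∑ c ∈ gd M, 2 ^ (α - 1) * (n c ^ α + (34 * r) ^ α * ‖ν c‖ ^ α) := Finset.sum_le_sum hpow
    _ = 2 ^ (α - 1) * (∑ c ∈ gd M, n c ^ α + (34 * r) ^ α * ∑ c ∈ gd M, ‖ν c‖ ^ α) := by
      rw [← Finset.mul_sum, Finset.sum_add_distrib, ← Finset.mul_sum]
    _ ≤ 2 ^ (α - 1) * (C₇ ^ α * K * (M : ℝ) ^ (2 - α) * N ^ α + 34 ^ α * C₇ * (M : ℝ) ^ (2 - α) * N ^ α) := by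
      gcongr
    _ = C' * ((M : ℝ) ^ (2 - α) * N ^ α) := by rw [hC']; ring
    _ ≤ max (max C₇ 2) C' * ((M : ℝ) ^ (2 - α) * N ^ α) :=
      mul_le_mul_of_nonneg_right (le_max_right _ _) hMN
    _ = _ := by ring

end Pool.Agent.H303.NP
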