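import Pool.Agent.H303.NP.Stm
import Pool.Graph.R_pool_sql_team_seeded_3997aac3.Q73.AD.YZ1

/-!
# Assembly of the local theorem for the power sums (`tz1p`, by helper967)

Adapted from `Q73.AD.YZ1`.
-/

set_option autoImplicit false
open MeasureTheory Filter Topology Complex Metric
open scoped ContDiff ComplexConjugate

namespace Pool.Agent.H303.NP

open Pool.Agent.Q73.NL Pool.Agent.Q73.AD

namespace T9

open YZ1

/-- the conclusion of `Z2p` -/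
def Z2pP (α C : ℝ) (m : ℕ) (L T : ℝ) : Prop :=
  ∀ (lam s N : ℝ) (p : ℂ) (ρ φ : ℂ → ℝ), Loc lam L s p ρ φ → T * (1 + Real.sqrt lam * s) ≤ N →
  gr φ p s ≤ N →
  ∑ c ∈ gd m, gr φ (p + s * ct m c) (s / m) ^ α ≤ C * (m : ℝ) ^ (2 - α) * N ^ α

/-- the conclusion of `Y9p` -/
def Y9pP (α θ : ℝ) (M : ℕ) (ε B s₁ : ℝ) : Prop :=
  ∀ (lam L s : ℝ) (p ν₀ : ℂ) (ρ φ : ℂ → ℝ) (J : ℕ), Loc lam L s p ρ φ → s ≤ s₁ →
  4 * (lam * L) ≤ ‖ν₀‖ ^ 2 → B ≤ ‖ν₀‖ * (s / M ^ J) →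
  SS ν₀ φ p (32 * s) ≤ Real.exp (ε * (‖ν₀‖ * s)) * SS ν₀ φ p (2 * s) →
  ∃ Rel : Finset (ℕ × (ℕ × ℕ)), (∀ r ∈ Rel, 1 ≤ r.1 ∧ r.1 ≤ J ∧ r.2 ∈ gd (M ^ r.1)) ∧
    ∑ r ∈ Rel, ((M : ℝ) ^ (2 * r.1))⁻¹ ≤ θ ∧
    ∑ r ∈ Rel, ((M : ℝ) ^ (2 * r.1))⁻¹ *
      (gr φ (p + s * ct (M ^ r.1) r.2) (s / M ^ r.1) / (s / M ^ r.1)) ^ α ≤ θ * ‖ν₀‖ ^ α ∧
    ∀ k ≤ J, ∀ b ∈ gd (M ^ k), (∀ k' ≤ k, (k', anc (M ^ (k - k')) b) ∉ Rel) →
      ‖ν₀‖ * (s / M ^ k) ≤ gr φ (p + s * ct (M ^ k) b) (s / M ^ k) ∧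
      gr φ (p + s * ct (M ^ k) b) (s / M ^ k) ≤ 52 * (‖ν₀‖ * (s / M ^ k))

/-- the sum of the powers is at most the power of the sum -/
lemma sum_rpow_le {ι : Type} {α : ℝ} (hα : 1 ≤ α) (S : Finset ι) (f : ι → ℝ)
    (hf : ∀ c ∈ S, 0 ≤ f c) : ∑ c ∈ S, f c ^ α ≤ (∑ c ∈ S, f c) ^ α := by
  classical
  induction S using Finset.induction_on with
  | empty =>
    rw [Finset.sum_empty, Finset.sum_empty]
    exact Real.rpow_nonneg le_rfl _
  | insert c S hc ih =>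
    rw [Finset.sum_insert hc, Finset.sum_insert hc]
    have h1 := ih fun b hb => hf b (Finset.mem_insert_of_mem hb)
    have h2 : 0 ≤ ∑ b ∈ S, f b := Finset.sum_nonneg fun b hb => hf b (Finset.mem_insert_of_mem hb)
    have h3 : 0 ≤ f c := hf c (Finset.mem_insert_self _ _)
    have h4 := Real.add_rpow_le_rpow_add h3 h2 hα
    linarith

section

variable {α lam L s G T C ε : ℝ} {p : ℂ} {ρ φ : ℂ → ℝ} {M J : ℕ}

lemma superp_ (h : Loc lam L s p ρ φ) (hM : 2 ≤ M) (hκ : 1 ≤ Real.sqrt lam * sc s M J)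
    (hT : 1 ≤ T) (hG : 2 * T ≤ G) {i k : ℕ} (hZ : Z2pP α C (M ^ k) L T) {a : ℕ × ℕ}
    (ha : a ∈ gd (M ^ i)) (hg : G < gg lam s p φ M J i a) (hik : i + k ≤ J) :
    ∑ c ∈ gd (M ^ k), gg lam s p φ M J (i + k) (ch (M ^ k) a c) ^ α ≤
      C * (M : ℝ) ^ (2 * k) * gg lam s p φ M J i a ^ α := by
  have hM0 : (0 : ℝ) < M := by
    have : 0 < M := by omega
    exact_mod_cast this
  have hloc := loc h hM ha
  have hi : i ≤ J := by omega
  have hk := kone h hM hκ hi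
  have h2 := hZ lam (sc s M i) (gr φ (pp p s M i a) (sc s M i)) (pp p s M i a) ρ φ hloc
    (by
      rw [← gg_mul h hM hi ha]
      exact (Nbig hT hG hk).trans (mul_le_mul_of_nonneg_right hg.le (by linarith))) le_rfl
  have h5 := sc_add (s := s) (M := M) i k
  push_cast at h2
  have hkp := kpos h hM (i + k)
  have h3 : ∑ c ∈ gd (M ^ k), gg lam s p φ M J (i + k) (ch (M ^ k) a c) ^ α =
      (∑ c ∈ gd (M ^ k), gr φ (pp p s M i a + (sc s M i : ℝ) * ct (M ^ k) c)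
        (sc s M i / (M : ℝ) ^ k) ^ α) / (Real.sqrt lam * sc s M (i + k)) ^ α := by
    rw [Finset.sum_div]
    apply Finset.sum_congr rfl
    intro c hc
    have hmem : ch (M ^ k) a c ∈ gd (M ^ (i + k)) := by
      rw [pow_add]; exact ch_mem ha hc
    rw [gg_eq hik hmem, pp_ch (by omega), h5, Real.div_rpow (gr_nonneg (loc h hM hmem)) hkp.le]
  rw [h3, div_le_iff₀ (Real.rpow_pos_of_pos hkp _)]
  refine h2.trans (le_of_eq ?_)
  have hMk : (0 : ℝ) < (M : ℝ) ^ k := pow_pos hM0 k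
  have h6 : gr φ (pp p s M i a) (sc s M i) =
      gg lam s p φ M J i a * ((Real.sqrt lam * sc s M (i + k)) * (M : ℝ) ^ k) := by
    rw [← gg_mul h hM hi ha, ← h5]
    field_simp
  have h7 : ((M : ℝ) ^ k) ^ (2 - α) * ((M : ℝ) ^ k) ^ α = (M : ℝ) ^ (2 * k) := by
    rw [← Real.rpow_add hMk, sub_add_cancel, Real.rpow_two, ← pow_mul, mul_comm k 2]
  rw [h6, Real.mul_rpow (gg_nonneg h hM i a) (by positivity), Real.mul_rpow hkp.le hMk.le, ← h7]
  ring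

lemma super'p_ (hα : 1 ≤ α) (h : Loc lam L s p ρ φ) (hM : 2 ≤ M)
    (hκ : 1 ≤ Real.sqrt lam * sc s M J)
    (hT : 1 ≤ T) (hG : 2 * T ≤ G) {i l : ℕ} (hZ : Z2P C (M ^ l) L T) {a : ℕ × ℕ}
    (hε : 0 < ε) (hε1 : ε ≤ 1)
    (hl : ((2 + 34 / ε) * C) * (1 + Real.log ((M ^ l : ℕ) : ℝ)) ≤
      ((M ^ l : ℕ) : ℝ) ^ (2 / α - 1) / 2)
    (ha : a ∈ gd (M ^ i)) (hg : G < gg lam s p φ M J i a) (hik : i + l ≤ J)
    (S : Finset (ℕ × ℕ)) (hS : S ⊆ gd (M ^ l))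
    (hSc : ∀ c ∈ S, G < gg lam s p φ M J (i + l) (ch (M ^ l) a c) ∧
      ¬ LL lam s G ε p φ M J (i + l) (ch (M ^ l) a c)) :
    ∑ c ∈ S, gg lam s p φ M J (i + l) (ch (M ^ l) a c) ^ α ≤
      1 / 2 * (M : ℝ) ^ (2 * l) * gg lam s p φ M J i a ^ α := by
  have hM0 : (0 : ℝ) < M := by
    have : 0 < M := by omega
    exact_mod_cast this
  have hG0 : 0 < G := by linarith
  have hloc := loc h hM ha
  have hi : i ≤ J := by omega
  have hk := kone h hM hκ hi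
  obtain ⟨-, -, -, h2⟩ := hZ lam (sc s M i) (gr φ (pp p s M i a) (sc s M i)) (pp p s M i a) ρ φ hloc
    (by
      rw [← gg_mul h hM hi ha]
      exact (Nbig hT hG hk).trans (mul_le_mul_of_nonneg_right hg.le (by linarith))) le_rfl
  have h5 := sc_add (s := s) (M := M) i l
  have hk0 := Real.sqrt_pos.2 h.lam_pos
  have hscl : 0 < sc s M (i + l) := sc_pos h.s_pos (by omega) _
  have hlogM : 0 ≤ Real.log ((M ^ l : ℕ) : ℝ) := Real.log_natCast_nonneg _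
  have h2' := h2 ε (G * Real.sqrt lam / 512) hε hε1 (by positivity) S hS (by
    intro c hc
    have hmem : ch (M ^ l) a c ∈ gd (M ^ (i + l)) := by
      rw [pow_add]; exact ch_mem ha (hS hc)
    obtain ⟨h6, h7⟩ := hSc c hc
    push_cast
    rw [pp_ch (by omega), h5]
    constructor
    · rw [← gg_mul h hM hik hmem]
      have h8 : G * (Real.sqrt lam * sc s M (i + l)) <
          gg lam s p φ M J (i + l) (ch (M ^ l) a c) * (Real.sqrt lam * sc s M (i + l)) :=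
        mul_lt_mul_of_pos_right h6 (by positivity)
      refine lt_of_le_of_lt ?_ h8
      have h9 : 0 ≤ G * (Real.sqrt lam * sc s M (i + l)) := by positivity
      nlinarith
    · intro ν hν
      by_contra hcon
      push Not at hcon
      exact h7 ⟨hik, hmem, ν, hν, hcon⟩)
  push_cast at h2'
  have h3 : ∑ c ∈ S, gg lam s p φ M J (i + l) (ch (M ^ l) a c) =
      (∑ c ∈ S, gr φ (pp p s M i a + (sc s M i : ℝ) * ct (M ^ l) c)
        (sc s M i / (M : ℝ) ^ l)) / (Real.sqrt lam * sc s M (i + l)) := by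
    rw [Finset.sum_div]
    apply Finset.sum_congr rfl
    intro c hc
    have hmem : ch (M ^ l) a c ∈ gd (M ^ (i + l)) := by
      rw [pow_add]; exact ch_mem ha (hS hc)
    rw [gg_eq hik hmem, pp_ch (by omega), h5]
  have hgg := gg_nonneg (J := J) h hM i a
  have hMl : (0 : ℝ) < (M : ℝ) ^ l := pow_pos hM0 l
  -- the sum of the rates
  have h4 : ∑ c ∈ S, gg lam s p φ M J (i + l) (ch (M ^ l) a c) ≤
      (((2 + 34 / ε) * C) * (1 + Real.log ((M ^ l : ℕ) : ℝ))) *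
        ((M : ℝ) ^ l * gg lam s p φ M J i a) := by
    rw [h3, div_le_iff₀ (kpos h hM _)]
    refine h2'.trans (le_of_eq ?_)
    rw [← gg_mul h hM hi ha, ← h5]
    push_cast
    field_simp
  have h6 : ∑ c ∈ S, gg lam s p φ M J (i + l) (ch (M ^ l) a c) ≤
      1 / 2 * ((M : ℝ) ^ l) ^ (2 / α) * gg lam s p φ M J i a := by
    refine h4.trans ?_
    have h7 := mul_le_mul_of_nonneg_right hl
      (show 0 ≤ (M : ℝ) ^ l * gg lam s p φ M J i a from mul_nonneg hMl.le hgg)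
    refine h7.trans (le_of_eq ?_)
    push_cast
    rw [Real.rpow_sub_one hMl.ne']
    field_simp
  have hα0 : 0 < α := by linarith
  calc ∑ c ∈ S, gg lam s p φ M J (i + l) (ch (M ^ l) a c) ^ α
      ≤ (∑ c ∈ S, gg lam s p φ M J (i + l) (ch (M ^ l) a c)) ^ α :=
        sum_rpow_le hα S _ fun c _ => gg_nonneg h hM _ _
    _ ≤ (1 / 2 * ((M : ℝ) ^ l) ^ (2 / α) * gg lam s p φ M J i a) ^ α :=
        Real.rpow_le_rpow (Finset.sum_nonneg fun c _ => gg_nonneg h hM _ _) h6 hα0.le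
    _ = (1 / 2 : ℝ) ^ α * (M : ℝ) ^ (2 * l) * gg lam s p φ M J i a ^ α := by
        rw [Real.mul_rpow (by positivity) hgg, Real.mul_rpow (by norm_num) (by positivity),
          ← Real.rpow_mul hMl.le, div_mul_cancel₀ _ hα0.ne', Real.rpow_two, ← pow_mul,
          mul_comm l 2]
    _ ≤ _ := by
        have h8 : (1 / 2 : ℝ) ^ α ≤ 1 / 2 := by
          calc (1 / 2 : ℝ) ^ α ≤ (1 / 2 : ℝ) ^ (1 : ℝ) :=
                Real.rpow_le_rpow_of_exponent_ge (by norm_num) (by norm_num) hα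
            _ = 1 / 2 := Real.rpow_one _
        have h9 : 0 ≤ gg lam s p φ M J i a ^ α := Real.rpow_nonneg hgg _
        gcongr

lemma linp_ {θ B s₁ : ℝ} (hα : 1 ≤ α) (h : Loc lam L s p ρ φ) (hs1 : s ≤ s₁) (hM : 2 ≤ M)
    (hL1 : 1 ≤ L) (hG1 : 1 ≤ G) (hGL : 1024 * Real.sqrt L ≤ G)
    (hB : 512 * B ≤ Real.sqrt lam * sc s M J) (hY : Y9pP α θ M ε B s₁) (_hB1 : 1 ≤ B)
    {i : ℕ} {a : ℕ × ℕ} (hLin : LL lam s G ε p φ M J i a) :
    ∃ (x : ℝ) (R : Finset (ℕ × (ℕ × ℕ))), 0 ≤ x ∧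
      (∀ r ∈ R, 1 ≤ r.1 ∧ i + r.1 ≤ J ∧ r.2 ∈ gd (M ^ r.1)) ∧
      ∑ r ∈ R, ((M : ℝ) ^ (2 * r.1))⁻¹ ≤ θ ∧
      ∑ r ∈ R, ((M : ℝ) ^ (2 * r.1))⁻¹ *
        gg lam s p φ M J (i + r.1) (ch (M ^ r.1) a r.2) ^ α ≤ θ * x ∧
      ∀ j, i ≤ j → j ≤ J → ∀ b ∈ gd (M ^ j), anc (M ^ (j - i)) b = a →
        (∀ k, i < k → k ≤ j → (k - i, md (M ^ (k - i)) (anc (M ^ (j - k)) b)) ∉ R) →
        x ≤ gg lam s p φ M J j b ^ α ∧ gg lam s p φ M J j b ^ α ≤ 52 ^ α * x := by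
  have hα0 : 0 < α := by linarith
  obtain ⟨hi, ha, ν, hν, hS⟩ := hLin
  have hloc := loc h hM ha
  have hk0 : 0 < Real.sqrt lam := Real.sqrt_pos.2 h.lam_pos
  have hJ : sc s M i / (M : ℝ) ^ (J - i) = sc s M J := by
    rw [sc_add]; congr 1; omega
  have hM0 : (0 : ℝ) < M := by
    have : 0 < M := by omega
    exact_mod_cast this
  have hscJ : 0 < sc s M J := sc_pos h.s_pos (by omega) _
  have h1 : 4 * (lam * L) ≤ ‖ν‖ ^ 2 := by
    have h2 : 2 * (Real.sqrt L * Real.sqrt lam) ≤ ‖ν‖ := by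
      refine le_trans ?_ hν
      have : 2 * Real.sqrt L ≤ G / 512 := by linarith
      have h3 := mul_le_mul_of_nonneg_right this hk0.le
      linarith
    have h3 : (2 * (Real.sqrt L * Real.sqrt lam)) ^ 2 ≤ ‖ν‖ ^ 2 := by
      apply pow_le_pow_left₀ (by positivity) h2
    refine le_trans (le_of_eq ?_) h3
    have h4 := Real.sq_sqrt (show 0 ≤ L by linarith)
    have h5 := Real.sq_sqrt h.lam_pos.le
    calc 4 * (lam * L) = 4 * (Real.sqrt lam ^ 2 * Real.sqrt L ^ 2) := by rw [h4, h5]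
      _ = _ := by ring
  have h2 : B ≤ ‖ν‖ * (sc s M i / (M : ℝ) ^ (J - i)) := by
    rw [hJ]
    have h3 : Real.sqrt lam / 512 ≤ ‖ν‖ := by
      refine le_trans ?_ hν
      have := mul_le_mul_of_nonneg_right hG1 hk0.le
      linarith
    have h4 := mul_le_mul_of_nonneg_right h3 hscJ.le
    have h5 : Real.sqrt lam / 512 * sc s M J = (Real.sqrt lam * sc s M J) / 512 := by ring
    rw [h5] at h4
    linarith
  have h3 : sc s M i ≤ s₁ := by
    refine le_trans (sc_anti h.s_pos hM (Nat.zero_le i)) ?_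
    simpa [sc] using hs1
  obtain ⟨R, hR1, hR2, hR3, hR4⟩ := hY lam L (sc s M i) (pp p s M i a) ν ρ φ (J - i) hloc h3 h1 h2 hS
  have hRm : ∀ r ∈ R, 1 ≤ r.1 ∧ i + r.1 ≤ J ∧ r.2 ∈ gd (M ^ r.1) := by
    intro r hr
    obtain ⟨h4, h5, h6⟩ := hR1 r hr
    exact ⟨h4, by omega, h6⟩
  have hx0 : 0 ≤ ‖ν‖ / Real.sqrt lam := by positivity
  refine ⟨(‖ν‖ / Real.sqrt lam) ^ α, R, Real.rpow_nonneg hx0 _, hRm, hR2, ?_, ?_⟩
  · have h4 : ∑ r ∈ R, ((M : ℝ) ^ (2 * r.1))⁻¹ *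
        gg lam s p φ M J (i + r.1) (ch (M ^ r.1) a r.2) ^ α =
        (∑ r ∈ R, ((M : ℝ) ^ (2 * r.1))⁻¹ *
      (gr φ (pp p s M i a + (sc s M i : ℝ) * ct (M ^ r.1) r.2) (sc s M i / M ^ r.1) /
        (sc s M i / M ^ r.1)) ^ α) / Real.sqrt lam ^ α := by
      rw [Finset.sum_div]
      apply Finset.sum_congr rfl
      intro r hr
      obtain ⟨h4, h5, h6⟩ := hRm r hr
      have hmem : ch (M ^ r.1) a r.2 ∈ gd (M ^ (i + r.1)) := by
        rw [pow_add]; exact ch_mem ha h6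
      have h7 : 0 < sc s M (i + r.1) := sc_pos h.s_pos (by omega) _
      have h8 := gr_nonneg (loc h hM hmem)
      have h9 : gg lam s p φ M J (i + r.1) (ch (M ^ r.1) a r.2) =
          (gr φ (pp p s M (i + r.1) (ch (M ^ r.1) a r.2)) (sc s M (i + r.1)) /
            sc s M (i + r.1)) / Real.sqrt lam := by
        rw [gg_eq h5 hmem]
        field_simp
      rw [h9, pp_ch (by omega), sc_add, Real.div_rpow (div_nonneg h8 h7.le) hk0.le, mul_div_assoc]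
    rw [h4, div_le_iff₀ (Real.rpow_pos_of_pos hk0 _)]
    refine hR3.trans (le_of_eq ?_)
    rw [Real.div_rpow (norm_nonneg _) hk0.le, mul_assoc,
      div_mul_cancel₀ _ (Real.rpow_pos_of_pos hk0 _).ne']
  · intro j hij hjJ b hb hanc hnot
    have hpos : 0 < M ^ (j - i) := pow_pos (by omega) _
    have hb' : md (M ^ (j - i)) b ∈ gd (M ^ (j - i)) := md_mem hpos b
    have h4 := hR4 (j - i) (by omega) (md (M ^ (j - i)) b) hb' (by
      intro k' hk' hmem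
      rcases Nat.eq_zero_or_pos k' with rfl | hk0'
      · have := (hR1 _ hmem).1
        simp at this
      · apply hnot (i + k') (by omega) (by omega)
        have e1 : i + k' - i = k' := by omega
        have e2 : j - i = (j - (i + k')) + k' := by omega
        have e3 : j - i - k' = j - (i + k') := by omega
        rw [e1, ← anc_md_comm, ← e2, ← e3]
        exact hmem)
    have h5 : ch (M ^ (j - i)) a (md (M ^ (j - i)) b) = b := by
      rw [← hanc]; exact ch_anc_md _ b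
    have h6 := pp_ch (p := p) (s := s) (M := M) (by omega) i (j - i) a (md (M ^ (j - i)) b)
    have h7 := sc_add (s := s) (M := M) i (j - i)
    have h8 : i + (j - i) = j := by omega
    rw [h5] at h6
    rw [h8] at h6 h7
    rw [h6, h7] at h4
    have hscj : 0 < sc s M j := sc_pos h.s_pos (by omega) _
    have h10 : ‖ν‖ / Real.sqrt lam ≤ gg lam s p φ M J j b := by
      rw [gg_eq hjJ hb, div_le_div_iff₀ hk0 (by positivity)]
      nlinarith [mul_le_mul_of_nonneg_right h4.1 hk0.le]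
    have h11 : gg lam s p φ M J j b ≤ 52 * (‖ν‖ / Real.sqrt lam) := by
      rw [gg_eq hjJ hb, div_le_iff₀ (by positivity)]
      refine h4.2.trans (le_of_eq ?_)
      field_simp
    constructor
    · exact Real.rpow_le_rpow hx0 h10 hα0.le
    · rw [← Real.mul_rpow (by norm_num) hx0]
      exact Real.rpow_le_rpow (gg_nonneg h hM j b) h11 hα0.le

end

/-! ### Existence of the constants -/

lemma log_small_rpow (K : ℝ) {r : ℝ} (hr : 0 < r) :
    ∀ᶠ n : ℕ in atTop, K * (1 + Real.log n) ≤ (n : ℝ) ^ r / 2 := by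
  have h1 : Tendsto (fun x : ℝ => (1 + Real.log x) / x ^ r) atTop (𝓝 0) := by
    have h2 : Tendsto (fun x : ℝ => (x ^ r)⁻¹ + Real.log x / x ^ r) atTop (𝓝 (0 + 0)) := by
      apply Tendsto.add
      · exact (tendsto_rpow_atTop hr).inv_tendsto_atTop
      · exact (isLittleO_log_rpow_atTop hr).tendsto_div_nhds_zero
    rw [add_zero] at h2
    refine h2.congr (fun x => ?_)
    rw [add_div, one_div]
  have h3 : Tendsto (fun n : ℕ => (1 + Real.log n) / (n : ℝ) ^ r) atTop (𝓝 0) :=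
    h1.comp tendsto_natCast_atTop_atTop
  have h4 : Tendsto (fun n : ℕ => K * ((1 + Real.log n) / (n : ℝ) ^ r)) atTop (𝓝 0) := by
    have := h3.const_mul K
    rwa [mul_zero] at this
  filter_upwards [h4.eventually_lt_const (show (0 : ℝ) < 1 / 2 by norm_num), eventually_gt_atTop 0]
    with n hn hn0
  have hn0' : (0 : ℝ) < (n : ℝ) ^ r := Real.rpow_pos_of_pos (by exact_mod_cast hn0) _
  rw [← mul_div_assoc, div_lt_iff₀ hn0'] at hn
  linarith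

lemma ex_lp (K : ℝ) {r : ℝ} (hr : 0 < r) {M : ℕ} (hM : 2 ≤ M) : ∃ l : ℕ, 1 ≤ l ∧
    K * (1 + Real.log ((M ^ l : ℕ) : ℝ)) ≤ ((M ^ l : ℕ) : ℝ) ^ r / 2 := by
  have h1 : Tendsto (fun l : ℕ => M ^ l) atTop atTop :=
    tendsto_pow_atTop_atTop_of_one_lt (show 1 < M by omega)
  obtain ⟨l, h2, h3⟩ := ((h1.eventually (log_small_rpow K hr)).and (eventually_ge_atTop 1)).exists
  exact ⟨l, h3, h2⟩

end T9

open YZ1 T9 in
/-- assembly of the local theorem for the power sums -/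
theorem tz1p {α : ℝ} (h1 : 1 ≤ α) (h2 : α < 2) (hZ2 : Z2) (hZ2p : Z2p α) (h9 : Y9p α)
    (h10 : Y10) (h3 : Z3) (h7 : K7) : Z1p α := by
  have hα0 : 0 < α := by linarith
  obtain ⟨C, hC1, hZ2⟩ := hZ2
  obtain ⟨Cp, hCp1, hZ2p⟩ := hZ2p
  obtain ⟨M₀, hM₀, h9⟩ := h9
  set θ : ℝ := 1 / (2 * (4 * Cp + 1)) with hθ
  have hθ0 : 0 < θ := by positivity
  have hθ1 : θ ≤ 1 := by
    rw [hθ, div_le_one (by positivity)]
    linarith
  have hθ2 : θ * (4 * Cp + 1) ≤ 1 / 2 := by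
    rw [hθ]
    have : (4 * Cp + 1) ≠ 0 := by positivity
    field_simp
    exact le_refl _
  obtain ⟨M, hM0, hMC', hM8, hMl'⟩ := ex_M (max C Cp) M₀
  have hM2 : 2 ≤ M := by omega
  have hM1' : (1 : ℝ) ≤ M := by
    have : 1 ≤ M := by omega
    exact_mod_cast this
  have hlog : 0 ≤ Real.log (M : ℝ) := Real.log_natCast_nonneg _
  have hMC : C ≤ M := (le_max_left _ _).trans hMC'
  have hMCp : Cp ≤ M := (le_max_right _ _).trans hMC'
  have hMl : C * (1 + Real.log M) ≤ M / 64 :=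
    (mul_le_mul_of_nonneg_right (le_max_left _ _) (by linarith)).trans hMl'
  obtain ⟨ε, B, s₁, hε, hε1, hB1, hs₁, hY9⟩ := h9 θ M hθ0 hθ1 hM0
  have hr : 0 < 2 / α - 1 := by
    rw [sub_pos, lt_div_iff₀ hα0]
    linarith
  obtain ⟨l, hl1, hl⟩ := ex_lp ((2 + 34 / ε) * C) hr hM2
  obtain ⟨l₁, hl₁⟩ := ex_l₁ (289 / ε) hM2
  refine ⟨M, s₁, hM2, hs₁, fun L G₀ hL hG₀ => ?_⟩
  have hMpow : ∀ k : ℕ, 1 ≤ k → (M : ℝ) ≤ ((M ^ k : ℕ) : ℝ) := by
    intro k hk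
    push_cast
    calc (M : ℝ) = (M : ℝ) ^ 1 := (pow_one _).symm
      _ ≤ (M : ℝ) ^ k := pow_le_pow_right₀ hM1' hk
  -- the constants T for the powers of M
  have hT : ∀ k : ℕ, ∃ T : ℝ, 1 ≤ T ∧ (1 ≤ k → Z2P C (M ^ k) L T) := by
    intro k
    rcases Nat.eq_zero_or_pos k with rfl | hk
    · exact ⟨1, le_rfl, fun h => absurd h (by norm_num)⟩
    · obtain ⟨T, hT1, hT⟩ := hZ2 (M ^ k) (hMC.trans (hMpow k hk)) L hL
      exact ⟨T, hT1, fun _ => hT⟩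
  have hT' : ∀ k : ℕ, ∃ T : ℝ, 1 ≤ T ∧ (1 ≤ k → Z2pP α Cp (M ^ k) L T) := by
    intro k
    rcases Nat.eq_zero_or_pos k with rfl | hk
    · exact ⟨1, le_rfl, fun h => absurd h (by norm_num)⟩
    · obtain ⟨T, hT1, hT⟩ := hZ2p (M ^ k) (hMCp.trans (hMpow k hk)) L hL
      exact ⟨T, hT1, fun _ => hT⟩
  choose T hT1 hTZ using hT
  choose T' hT1' hTZ' using hT'
  set TT : ℝ := ∑ k ∈ Finset.range (l + 1), (T k + T' k) with hTT
  have hTsum : ∀ k, k ≤ l → T k + T' k ≤ TT := by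
    intro k hk
    exact Finset.single_le_sum (f := fun k => T k + T' k)
      (fun j _ => by linarith [hT1 j, hT1' j]) (Finset.mem_range.2 (by omega))
  have hTle : ∀ k, k ≤ l → T k ≤ TT := fun k hk => by linarith [hTsum k hk, hT1' k]
  have hTle' : ∀ k, k ≤ l → T' k ≤ TT := fun k hk => by linarith [hTsum k hk, hT1 k]
  have hTT1 : 1 ≤ TT := (hT1 0).trans (hTle 0 (Nat.zero_le _))
  have hsL := Real.sqrt_nonneg L
  set G : ℝ := 2 * TT + G₀ + 1024 * Real.sqrt L + 1 with hG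
  have hG0 : 0 ≤ G := by positivity
  set G₂ : ℝ := C * (1 + Real.log M) * M * G with hG₂
  have hGG : G ≤ G₂ := by
    have h1 : 1 ≤ C * (1 + Real.log M) * M := by
      have h4 : 1 ≤ C * (1 + Real.log M) := by nlinarith
      nlinarith
    rw [hG₂]
    nlinarith
  obtain ⟨Cf, hCf⟩ := h7 M (5 * M) l l₁ (G ^ α) (G₂ ^ α) Cp (52 ^ α) θ (1 / 2)
  refine ⟨512 * B, max 1 Cf, by linarith, le_max_left _ _, ?_⟩
  intro lam s p ρ φ J hloc hs hκ hroot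
  have hκ' : 512 * B ≤ Real.sqrt lam * sc s M J := hκ
  have hκ1 : 1 ≤ Real.sqrt lam * sc s M J := by linarith
  have hZk : ∀ k, 1 ≤ k → k ≤ l → ∃ T', 1 ≤ T' ∧ 2 * T' ≤ G ∧ Z2P C (M ^ k) L T' := by
    intro k hk hkl
    refine ⟨T k, hT1 k, ?_, hTZ k hk⟩
    have := hTle k hkl
    rw [hG]; linarith
  have hZk' : ∀ k, 1 ≤ k → k ≤ l → ∃ T'', 1 ≤ T'' ∧ 2 * T'' ≤ G ∧ Z2pP α Cp (M ^ k) L T'' := by
    intro k hk hkl
    refine ⟨T' k, hT1' k, ?_, hTZ' k hk⟩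
    have := hTle' k hkl
    rw [hG]; linarith
  obtain ⟨T₁, hT₁1, hT₁G, hT₁Z⟩ := hZk 1 le_rfl hl1
  rw [pow_one] at hT₁Z
  -- powers
  have hle : ∀ i a, gg lam s p φ M J i a ^ α ≤ G ^ α → gg lam s p φ M J i a ≤ G :=
    fun i a h => (Real.rpow_le_rpow_iff (gg_nonneg hloc hM2 i a) hG0 hα0).1 h
  have hlt : ∀ i a, G ^ α < gg lam s p φ M J i a ^ α → G < gg lam s p φ M J i a :=
    fun i a h => (Real.rpow_lt_rpow_iff hG0 (gg_nonneg hloc hM2 i a) hα0).1 h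
  have hlin : ∀ (i : ℕ) (a : ℕ × ℕ), ∃ (x : ℝ) (R : Finset (ℕ × (ℕ × ℕ))),
      LL lam s G ε p φ M J i a → 0 ≤ x ∧
      (∀ r ∈ R, 1 ≤ r.1 ∧ i + r.1 ≤ J ∧ r.2 ∈ gd (M ^ r.1)) ∧
      ∑ r ∈ R, ((M : ℝ) ^ (2 * r.1))⁻¹ ≤ θ ∧
      ∑ r ∈ R, ((M : ℝ) ^ (2 * r.1))⁻¹ *
        gg lam s p φ M J (i + r.1) (ch (M ^ r.1) a r.2) ^ α ≤ θ * x ∧
      ∀ j, i ≤ j → j ≤ J → ∀ b ∈ gd (M ^ j), anc (M ^ (j - i)) b = a →
        (∀ k, i < k → k ≤ j → (k - i, md (M ^ (k - i)) (anc (M ^ (j - k)) b)) ∉ R) →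
        x ≤ gg lam s p φ M J j b ^ α ∧ gg lam s p φ M J j b ^ α ≤ 52 ^ α * x := by
    intro i a
    by_cases hL' : LL lam s G ε p φ M J i a
    · obtain ⟨x, R, hx⟩ := linp_ (B := B) (s₁ := s₁) (θ := θ) h1 hloc hs hM2 hL
        (by rw [hG]; linarith) (by rw [hG]; linarith) hκ' hY9 hB1 hL'
      exact ⟨x, R, fun _ => hx⟩
    · exact ⟨0, ∅, fun h => absurd h hL'⟩
  choose x R hxR using hlin
  have htree : Tree M (5 * M) l l₁ J (G ^ α) (G₂ ^ α) Cp (52 ^ α) θ (1 / 2)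
      (fun i a => gg lam s p φ M J i a ^ α) (LL lam s G ε p φ M J) x R := by
    refine ⟨hM2, by omega, hl1, Real.rpow_nonneg hG0 _, Real.rpow_le_rpow hG0 hGG hα0.le, hCp1,
      Real.one_le_rpow (by norm_num) hα0.le, hθ0.le, hθ2,
      by norm_num, le_rfl, fun i a => Real.rpow_nonneg (gg_nonneg hloc hM2 i a) _,
      ?_, ?_, ?_, ?_, ?_, ?_, ?_, ?_, ?_, ?_⟩
    · -- root
      apply Real.rpow_le_rpow (gg_nonneg hloc hM2 _ _) _ hα0.le
      have hmem : ((0, 0) : ℕ × ℕ) ∈ gd (M ^ 0) := by rw [pow_zero, mem_gd]; simp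
      rw [gg_eq (Nat.zero_le _) hmem, pp_zero hmem]
      have h0 : sc s M 0 = s := by simp [sc]
      have h1 := kpos hloc hM2 0
      rw [h0] at h1 ⊢
      rw [div_le_iff₀ h1]
      refine hroot.trans (mul_le_mul_of_nonneg_right ?_ h1.le)
      refine le_trans ?_ hGG
      rw [hG]; linarith
    · intro i hi a ha hg c hc
      exact Real.rpow_le_rpow (gg_nonneg hloc hM2 _ _)
        (child_ hloc hM2 hκ1 hT₁1 hT₁G hT₁Z hi ha (hle i a hg) hc) hα0.le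
    · intro i a ha hg k hk hkl hik
      obtain ⟨T', h4, h5, h6⟩ := hZk' k hk hkl
      exact superp_ hloc hM2 hκ1 h4 h5 h6 ha (hlt i a hg) hik
    · intro i a ha hg hik S hS hSc
      obtain ⟨T', h4, h5, h6⟩ := hZk l hl1 le_rfl
      exact super'p_ h1 hloc hM2 hκ1 h4 h5 h6 hε hε1 hl ha (hlt i a hg) hik S hS
        (fun c hc => ⟨hlt _ _ (hSc c hc).1, (hSc c hc).2⟩)
    · intro i _ a _ hL'
      exact (hxR i a hL').1
    · intro i _ a _ hL'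
      exact (hxR i a hL').2.1
    · intro i _ a _ hL'
      exact (hxR i a hL').2.2.1
    · intro i _ a _ hL'
      exact (hxR i a hL').2.2.2.1
    · intro i a _ hL'
      exact (hxR i a hL').2.2.2.2
    · intro i hi a ha hg c hc hgc h4 h5 h6 h8
      have := birth_ hloc hM8 hκ1 hT₁1 hT₁G hT₁Z h10 h3 hε hε1 hMl hl₁ hi ha (hle i a hg) hc
        (hlt _ _ hgc) h4 h5 h6 h8
      push_cast
      exact this
  have hfin := hCf J _ _ _ _ htree
  have h4 : ∑ a ∈ gd (M ^ J), gr φ (p + s * ct (M ^ J) a) (s / M ^ J) ^ α =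
      (∑ a ∈ gd (M ^ J), gg lam s p φ M J J a ^ α) * (Real.sqrt lam * sc s M J) ^ α := by
    rw [Finset.sum_mul]
    apply Finset.sum_congr rfl
    intro a ha
    rw [← Real.mul_rpow (gg_nonneg hloc hM2 _ _) (kpos hloc hM2 J).le, gg_mul hloc hM2 le_rfl ha]
    rfl
  rw [h4]
  show _ ≤ max 1 Cf * (M : ℝ) ^ (2 * J) * (Real.sqrt lam * sc s M J) ^ α
  apply mul_le_mul_of_nonneg_right _ (Real.rpow_nonneg (kpos hloc hM2 J).le _)
  exact hfin.trans (mul_le_mul_of_nonneg_right (le_max_right _ _) (by positivity))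

end Pool.Agent.H303.NP
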