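import Pool.Agent.H303.NP.Fin0
import Pool.Agent.H303.NP.T1
import Pool.Agent.H303.NP.T2
import Pool.Agent.H303.NP.T3
import Pool.Agent.H303.NP.T4
import Pool.Agent.H303.NP.T6
import Pool.Agent.H303.NP.T7
import Pool.Agent.H303.NP.T8
import Pool.Agent.H303.NP.T9
import Pool.Agent.H303.NP.T10
import Pool.Agent.H303.NP.T11

/-! # Assembly -/

set_option autoImplicit false
open MeasureTheory Filter Topology Complex Metric

namespace Pool.Agent.H303.NP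

open Pool.Agent.Q73.AD

universe u v

section
variable {α : ℝ} (h1 : 1 ≤ α) (h2 : α < 2)
include h1 h2

theorem f_yl : YLp α := tylp h1 (tptrp h1 h2 tpa tpb tpc (tpcp h1 h2)) tc4 fin_c5

theorem f_y7 : Y7p α := ty7p (ty5p h1 (f_yl h1 h2) tb1.{0} tb2.{0} fin_c1 tc2 tcj)

theorem f_y8 : Y8p α := ty8p (ty6p h1 (f_yl h1 h2) tb1.{0} tb2.{0} fin_y4 tcj)

theorem f_z1 : Z1p α :=
  tz1p h1 h2 fin_z2 (tz2p h1 h2 (f_y7 h1 h2)) (ty9p h1 h2 (f_y8 h1 h2)) ty10 tz3 fin_k7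

theorem f_z5 : Z5p.{u, v} α :=
  tz5p h1 fin_g1.{u, v} tg2.{u, v} (tz4p.{u} h1 (tz6p h1 h2 (f_z1 h1 h2) fin_z2))

end

end Pool.Agent.H303.NP
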