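import Pool.Graph.R_pool_sql_team_seeded_3997aac3.Q73.AD.StmZ

/-!
# Power means of the doubling indices on smooth surfaces: statements of the lemmas

The statements are the versions, for the exponent `α`, `1 ≤ α < 2`, of the statements `PC`, `PTR`, `YL`,
`Y5`, ..., `Y9`, `Z1`, `Z2`, `Z4`, `Z5`, `Z6` of the library (`Q73.AD.StmY`, `Q73.AD.StmZ`).
-/

set_option autoImplicit false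
open MeasureTheory Filter Topology Complex Metric
open scoped ContDiff ComplexConjugate

namespace Pool.Agent.H303.NP

open Pool.Agent.Q73.NL Pool.Agent.Q73.AD

noncomputable section

universe u v

/-- sums of powers over separated points -/
def PCp (α : ℝ) : Prop := ∃ C : ℝ, 1 ≤ C ∧ ∀ (M : ℕ) (S : Finset (ℕ × ℕ)) (p : ℕ × ℕ → ℂ), 1 ≤ M →
  (∀ a ∈ S, ‖p a‖ ≤ 2) → (∀ a ∈ S, ∀ b ∈ S, a ≠ b → 1 / (M : ℝ) ≤ ‖p a - p b‖) →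
  ∀ y : ℂ, ∑ a ∈ S, ((M : ℝ) / (1 + M * ‖p a - y‖)) ^ α ≤ C * M ^ 2

/-- oscillation of a subharmonic function minus suitable linear functions on small discs -/
def PTRp (α : ℝ) : Prop := ∀ D : ℝ, 1 ≤ D → ∃ C : ℝ, 1 ≤ C ∧ ∀ (M : ℕ) (A b : ℝ) (v : ℂ → ℝ)
  (S : Finset (ℕ × ℕ)) (p : ℕ × ℕ → ℂ), C ≤ M → 1 ≤ A → Measurable v →
  (∀ z, -b ≤ v z ∧ v z ≤ 0) →
  (∀ x ∈ ball (0 : ℂ) 6, ∀ r : ℝ, 0 < r → r ≤ 1 →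
    v x * (Real.pi * r ^ 2) ≤ ∫ y in ball x r, v y) →
  ∫ x in ball (0 : ℂ) 8, -v x ≤ A →
  (∀ a ∈ S, ‖p a‖ ≤ 2) → (∀ a ∈ S, ∀ b ∈ S, a ≠ b → 1 / (M : ℝ) ≤ ‖p a - p b‖) →
  ∃ (ζ : ℕ × ℕ → ℂ) (n : ℕ × ℕ → ℝ), (∀ a ∈ S, 0 ≤ n a) ∧
    ∑ a ∈ S, n a ≤ C * A * (1 + Real.log M) ∧ ∑ a ∈ S, ‖ζ a‖ ≤ C * A * M ^ 2 ∧
    ∑ a ∈ S, ‖ζ a‖ ^ α ≤ C * A ^ α * M ^ 2 ∧
    ∀ a ∈ S, ∃ y ∈ ball (p a) (1 / M), ∀ x ∈ closedBall (p a) (D / M),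
      v x - (conj (ζ a) * x).re ≤ n a + (v y - (conj (ζ a) * y).re)

/-- the limit form of the one-step lemmas -/
def YLp (α : ℝ) : Prop := ∃ C : ℝ, 1 ≤ C ∧ ∀ (M : ℕ) (σ : ℝ) (w : ℂ → ℝ) (x₁ : ℂ), C ≤ M → 1 ≤ σ →
  σ ^ 2 ≤ 2 →
  (∀ x ∈ ball (0 : ℂ) 32, 0 ≤ w x ∧ w x ≤ 1) → UpperSemicontinuousOn w (ball 0 32) →
  NC {z | st σ z ∈ ball (0 : ℂ) 32} (fun z => w (st σ z)) →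
  ‖x₁‖ ≤ 2 → Real.exp (-1) ≤ w x₁ →
  (∀ z : ℂ, ‖z‖ ≤ 8 → ∃ x ∈ ball z (1 / 2), Real.exp (-C) ≤ w x) ∧
  (∀ z : ℂ, ‖z‖ ≤ 2 → ∃ x ∈ ball z (1 / (2 * M)), Real.exp (-(C * (1 + Real.log M))) ≤ w x) ∧
  ∀ (S : Finset (ℕ × ℕ)) (p : ℕ × ℕ → ℂ), (∀ a ∈ S, ‖p a‖ ≤ 2) →
    (∀ a ∈ S, ∀ b ∈ S, a ≠ b → 2 / (M : ℝ) ≤ ‖p a - p b‖) →
    ∃ (ζ : ℕ × ℕ → ℂ) (n : ℕ × ℕ → ℝ), (∀ a ∈ S, 0 ≤ n a) ∧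
      ∑ a ∈ S, n a ≤ C * (1 + Real.log M) ∧ ∑ a ∈ S, ‖ζ a‖ ^ α ≤ C * M ^ 2 ∧
      ∀ a ∈ S, ∃ y ∈ ball (p a) (19 / (10 * M)), 0 < w y ∧ ∀ x ∈ closedBall (p a) (33 / M),
        w x * Real.exp (-(conj (ζ a) * x).re) ≤
          Real.exp (n a) * (w y * Real.exp (-(conj (ζ a) * y).re))

/-- one step for a solution with growth exponent `N ≫ κ` -/
def Y5p (α : ℝ) : Prop := ∃ C : ℝ, 1 ≤ C ∧ ∀ M : ℕ, C ≤ M → ∃ T : ℝ, 1 ≤ T ∧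
  ∀ (κ N : ℝ) (q φ : ℂ → ℝ), 1 ≤ κ → T * κ ≤ N →
  (∀ z ∈ closedBall (0 : ℂ) 32, ContDiffAt ℝ ∞ φ z ∧ ContDiffAt ℝ 1 q z ∧ |q z| ≤ κ ^ 2 ∧
    ‖fderiv ℝ q z‖ ≤ κ ^ 2 ∧ lap φ z + q z * φ z = 0) →
  sn φ (closedBall 0 32) ≤ Real.exp N * sn φ (closedBall 0 2) →
  (∀ z : ℂ, ‖z‖ ≤ 2 → sn φ (closedBall 0 32) ≤
    Real.exp (C * (1 + Real.log M) * N) * sn φ (closedBall z (1 / M))) ∧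
  ∃ (ζ : ℕ × ℕ → ℂ) (n : ℕ × ℕ → ℝ), (∀ a ∈ gd M, 0 ≤ n a ∧
      SS (N * ζ a) φ (ct M a) (32 / M) ≤ Real.exp (n a) * SS (N * ζ a) φ (ct M a) (2 / M)) ∧
    ∑ a ∈ gd M, n a ≤ C * (1 + Real.log M) * N ∧ ∑ a ∈ gd M, ‖ζ a‖ ^ α ≤ C * M ^ 2

/-- one step for a solution of the form `exp (K x) h`, `h` with growth exponent `N`,
`1 + log K + η K ≪ N ≪ K` -/
def Y6p (α : ℝ) : Prop := ∃ C : ℝ, 1 ≤ C ∧ ∀ M : ℕ, C ≤ M → ∃ T ε₀ : ℝ, 1 ≤ T ∧ 0 < ε₀ ∧ ε₀ ≤ 1 ∧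
  ∀ (K N η : ℝ) (q φ : ℂ → ℝ) (p : ℕ × ℕ → ℂ), 1 ≤ K → 0 ≤ η →
  T * (1 + Real.log K + η * K) ≤ N → N ≤ ε₀ * K →
  (∀ z ∈ closedBall (0 : ℂ) 32, ContDiffAt ℝ ∞ φ z ∧ ContDiffAt ℝ 1 q z ∧ 0 ≤ q z ∧ q z ≤ K ^ 2 ∧
    ‖fderiv ℝ q z‖ ≤ η * K ^ 2 ∧ lap φ z + q z * φ z = 0) →
  (∀ a ∈ gd M, ‖p a‖ ≤ 2) → (∀ a ∈ gd M, ∀ b ∈ gd M, a ≠ b → 2 / (M : ℝ) ≤ ‖p a - p b‖) →
  SS K φ 0 32 ≤ Real.exp N * SS K φ 0 2 →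
  (∀ z : ℂ, ‖z‖ ≤ 8 → SS K φ 0 32 ≤ Real.exp (C * N) * SS K φ z 1) ∧
  ∃ (ζ : ℕ × ℕ → ℂ) (n : ℕ × ℕ → ℝ), (∀ a ∈ gd M, 0 ≤ n a ∧
      SS (K + N * ζ a) φ (p a) (32 / M) ≤ Real.exp (n a) * SS (K + N * ζ a) φ (p a) (2 / M)) ∧
    ∑ a ∈ gd M, n a ≤ C * (1 + Real.log M) * N ∧ ∑ a ∈ gd M, ‖ζ a‖ ^ α ≤ C * M ^ 2

/-- `Y5p`, scaled -/
def Y7p (α : ℝ) : Prop := ∃ C : ℝ, 1 ≤ C ∧ ∀ M : ℕ, C ≤ M → ∀ L : ℝ, 1 ≤ L → ∃ T : ℝ, 1 ≤ T ∧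
  ∀ (lam s N : ℝ) (p : ℂ) (ρ φ : ℂ → ℝ), Loc lam L s p ρ φ → T * (1 + Real.sqrt lam * s) ≤ N →
  sn φ (closedBall p (32 * s)) ≤ Real.exp N * sn φ (closedBall p (2 * s)) →
  (∀ z ∈ closedBall p (2 * s), sn φ (closedBall p (32 * s)) ≤
    Real.exp (C * (1 + Real.log M) * N) * sn φ (closedBall z (s / M))) ∧
  ∃ (ν : ℕ × ℕ → ℂ) (n : ℕ × ℕ → ℝ), (∀ a ∈ gd M, 0 ≤ n a ∧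
      SS (ν a) φ (p + s * ct M a) (32 * (s / M)) ≤
        Real.exp (n a) * SS (ν a) φ (p + s * ct M a) (2 * (s / M))) ∧
    ∑ a ∈ gd M, n a ≤ C * (1 + Real.log M) * N ∧
    ∑ a ∈ gd M, ‖ν a‖ ^ α ≤ C * M ^ 2 * (N / s) ^ α

/-- `Y6p`, scaled and rotated -/
def Y8p (α : ℝ) : Prop := ∃ C : ℝ, 1 ≤ C ∧ ∀ M : ℕ, C ≤ M → ∃ T ε₀ : ℝ, 1 ≤ T ∧ 0 < ε₀ ∧ ε₀ ≤ 1 ∧
  ∀ (lam L s N : ℝ) (p ν : ℂ) (ρ φ : ℂ → ℝ), Loc lam L s p ρ φ → lam * L ≤ ‖ν‖ ^ 2 →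
  1 ≤ ‖ν‖ * s → T * (1 + Real.log (‖ν‖ * s) + s * (‖ν‖ * s)) ≤ N → N ≤ ε₀ * (‖ν‖ * s) →
  SS ν φ p (32 * s) ≤ Real.exp N * SS ν φ p (2 * s) →
  (∀ z : ℂ, ‖z - p‖ ≤ 8 * s → SS ν φ p (32 * s) ≤ Real.exp (C * N) * SS ν φ z s) ∧
  ∃ (ν' : ℕ × ℕ → ℂ) (n : ℕ × ℕ → ℝ), (∀ a ∈ gd M, 0 ≤ n a ∧
      SS (ν' a) φ (p + s * ct M a) (32 * (s / M)) ≤
        Real.exp (n a) * SS (ν' a) φ (p + s * ct M a) (2 * (s / M))) ∧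
    ∑ a ∈ gd M, n a ≤ C * (1 + Real.log M) * N ∧
    ∑ a ∈ gd M, ‖ν' a - ν‖ ^ α ≤ C * M ^ 2 * (N / s) ^ α

/-- descendants of a linear square: most of them have rate comparable with `‖ν₀‖`; the total `α`-th power
of the rates of the others is small -/
def Y9p (α : ℝ) : Prop := ∃ M₀ : ℕ, 2 ≤ M₀ ∧ ∀ (θ : ℝ) (M : ℕ), 0 < θ → θ ≤ 1 → M₀ ≤ M →
  ∃ ε B s₁ : ℝ, 0 < ε ∧ ε ≤ 1 ∧ 1 ≤ B ∧ 0 < s₁ ∧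
  ∀ (lam L s : ℝ) (p ν₀ : ℂ) (ρ φ : ℂ → ℝ) (J : ℕ), Loc lam L s p ρ φ → s ≤ s₁ →
  4 * (lam * L) ≤ ‖ν₀‖ ^ 2 → B ≤ ‖ν₀‖ * (s / M ^ J) →
  SS ν₀ φ p (32 * s) ≤ Real.exp (ε * (‖ν₀‖ * s)) * SS ν₀ φ p (2 * s) →
  ∃ Rel : Finset (ℕ × (ℕ × ℕ)), (∀ r ∈ Rel, 1 ≤ r.1 ∧ r.1 ≤ J ∧ r.2 ∈ gd (M ^ r.1)) ∧
    ∑ r ∈ Rel, ((M : ℝ) ^ (2 * r.1))⁻¹ ≤ θ ∧
    ∑ r ∈ Rel, ((M : ℝ) ^ (2 * r.1))⁻¹ *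
      (gr φ (p + s * ct (M ^ r.1) r.2) (s / M ^ r.1) / (s / M ^ r.1)) ^ α ≤ θ * ‖ν₀‖ ^ α ∧
    ∀ k ≤ J, ∀ b ∈ gd (M ^ k), (∀ k' ≤ k, (k', anc (M ^ (k - k')) b) ∉ Rel) →
      ‖ν₀‖ * (s / M ^ k) ≤ gr φ (p + s * ct (M ^ k) b) (s / M ^ k) ∧
      gr φ (p + s * ct (M ^ k) b) (s / M ^ k) ≤ 52 * (‖ν₀‖ * (s / M ^ k))

/-- the sum of the powers of the growth exponents of the subsquares -/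
def Z2p (α : ℝ) : Prop := ∃ C : ℝ, 1 ≤ C ∧ ∀ M : ℕ, C ≤ M → ∀ L : ℝ, 1 ≤ L → ∃ T : ℝ, 1 ≤ T ∧
  ∀ (lam s N : ℝ) (p : ℂ) (ρ φ : ℂ → ℝ), Loc lam L s p ρ φ → T * (1 + Real.sqrt lam * s) ≤ N →
  gr φ p s ≤ N →
  ∑ c ∈ gd M, gr φ (p + s * ct M c) (s / M) ^ α ≤ C * (M : ℝ) ^ (2 - α) * N ^ α

/-- the total power of the growth exponents of the squares at the wavelength scale -/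
def Z1p (α : ℝ) : Prop := ∃ (M : ℕ) (s₁ : ℝ), 2 ≤ M ∧ 0 < s₁ ∧ ∀ L G₀ : ℝ, 1 ≤ L → 0 ≤ G₀ →
  ∃ C A : ℝ, 1 ≤ C ∧ 1 ≤ A ∧ ∀ (lam s : ℝ) (p : ℂ) (ρ φ : ℂ → ℝ) (J : ℕ), Loc lam L s p ρ φ →
  s ≤ s₁ → C ≤ Real.sqrt lam * (s / M ^ J) → gr φ p s ≤ G₀ * (Real.sqrt lam * s) →
  ∑ a ∈ gd (M ^ J), gr φ (p + s * ct (M ^ J) a) (s / M ^ J) ^ α ≤
    A * (M : ℝ) ^ (2 * J) * (Real.sqrt lam * (s / M ^ J)) ^ α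

/-- the sum of the powers of the doubling exponents of the discs of radius `≍ 1 / √lam` with centres in
a square -/
def Z6p (α : ℝ) : Prop := ∃ s₁ : ℝ, 0 < s₁ ∧ ∀ s L G₀ r R C₁ : ℝ, 0 < s → s ≤ s₁ → 1 ≤ L → 0 ≤ G₀ →
  0 < r → 0 < R → 0 < C₁ → ∃ A lam₀ : ℝ, 0 < A ∧ 0 < lam₀ ∧
  ∀ (lam : ℝ) (p : ℂ) (ρ φ : ℂ → ℝ) (κ : Type) [Fintype κ] (w : κ → ℂ), lam₀ ≤ lam →
    Loc lam L s p ρ φ → gr φ p s ≤ G₀ * (Real.sqrt lam * s) →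
    (∀ i, |(w i - p).re| ≤ s ∧ |(w i - p).im| ≤ s) →
    (∀ x : ℂ, (Set.ncard {i | ‖x - w i‖ ≤ r / Real.sqrt lam} : ℝ) ≤ C₁) →
    ∑ i, max (Real.log (sn φ (closedBall (w i) (R / Real.sqrt lam)) /
      sn φ (closedBall (w i) (r / Real.sqrt lam)))) 0 ^ α ≤ A * lam

/-- the sum of the powers of the doubling indices over the discs with centres in a good piece -/
def Z4p (α : ℝ) : Prop := ∀ (M : Type u) [MetricSpace M] (φ : ℂ → M) (ρ : ℂ → ℝ) (V : Set ℂ) (z : ℂ)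
  (R c L δ C C₁ : ℝ), Good φ ρ V z R c L δ → (∀ w ∈ V, 0 ≤ ρ w) → 0 < C → 0 < C₁ →
  ∃ r₀ : ℝ, 0 < r₀ ∧ ∀ Cg : ℝ, 0 < Cg → ∃ A : ℝ, 0 < A ∧ ∃ lam₀ : ℝ, 0 < lam₀ ∧
  ∀ (lam : ℝ) (f : M → ℝ) (κ : Type) [Fintype κ] (b : κ → M), lam₀ ≤ lam →
    ContDiffOn ℝ ∞ (fun w => f (φ w)) V →
    (∀ w ∈ V, lap (fun w => f (φ w)) w + lam * ρ w * f (φ w) = 0) →
    BddAbove ((fun x => |f x|) '' Set.univ) → (∀ x r, 0 < r → 0 < sn f (ball x r)) →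
    (∀ x : M, sn f Set.univ ≤ Real.exp (Cg * (1 + Real.sqrt lam)) * sn f (ball x r₀)) →
    (∀ x : M, (Set.ncard {i | x ∈ ball (b i) (C / Real.sqrt lam)} : ℝ) ≤ C₁) →
    (∀ i, b i ∈ φ '' closedBall z R) →
    ∑ i, max (dbl f (b i) (C / Real.sqrt lam)) 0 ^ α ≤ A * lam

/-- the power mean of the doubling indices -/
def Z5p (α : ℝ) : Prop := ∀ (M : Type u) (ι : Type v) [MetricSpace M] [CompactSpace M] [ConnectedSpace M]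
  (U : ι → Set ℂ) (φ : ι → ℂ → M) (ρ : ι → ℂ → ℝ), Atl U φ ρ → (∀ i, ∀ z ∈ U i, 0 ≤ ρ i z) →
  ∀ C C₁ C₂ : ℝ, 0 < C → 0 < C₁ → 0 < C₂ → ∃ A : ℝ, 0 < A ∧
  ∀ (lam : ℝ) (f : M → ℝ) (κ : Type) [Fintype κ] (b : κ → M), 0 < lam → Eig U φ ρ lam f →
    (∃ x, f x ≠ 0) →
    (∀ x : M, (Set.ncard {i | x ∈ ball (b i) (C / Real.sqrt lam)} : ℝ) ≤ C₁) →
    C₂⁻¹ * lam ≤ Fintype.card κ →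
    (∑ i, max (dbl f (b i) (C / Real.sqrt lam)) 0 ^ α) / Fintype.card κ ≤ A

end

end Pool.Agent.H303.NP
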