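import Pool.Agent.H303.NP.Def
import Pool.Agent.H303.NP.Stm
import Pool.Graph.R_pool_sql_team_seeded_3997aac3.Q73.AD.Fin
import Pool.Graph.R_pool_sql_team_seeded_3997aac3.Q73.AD.TR1
import Pool.Graph.R_pool_sql_team_seeded_3997aac3.Q63.ISE.Man

/-!
# Power means: from `Z5p` to the bounds of the public statement
-/

set_option autoImplicit false
open MeasureTheory Filter Topology Complex Bundle
open scoped ContDiff Manifold

namespace Pool.Agent.H303.NP

open Pub Pool.Agent.Q73.AD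

universe u v

/-- abstract form: nonnegative numbers with bounded means of the powers `q ∈ [1, 2)` -/
lemma powers_lt_one {κ : Type} [Fintype κ] (d : κ → ℝ) (hd : ∀ i, 0 ≤ d i) {p A : ℝ} (hp : 0 < p)
    (hp1 : p < 1) (hc : 0 < Fintype.card κ) (h : (∑ i, d i ^ (1 : ℝ)) / Fintype.card κ ≤ A) :
    (∑ i, d i ^ p) / Fintype.card κ ≤ 1 + A := by
  have hc' : (0 : ℝ) < Fintype.card κ := by exact_mod_cast hc
  have h1 : ∀ i, d i ^ p ≤ 1 + d i ^ (1 : ℝ) := by
    intro i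
    rw [Real.rpow_one]
    rcases le_or_gt (d i) 1 with h1 | h1
    · have := Real.rpow_le_one (hd i) h1 hp.le
      linarith [hd i]
    · have h2 := Real.rpow_le_rpow_of_exponent_le h1.le hp1.le
      rw [Real.rpow_one] at h2
      linarith
  rw [div_le_iff₀ hc'] at h ⊢
  calc ∑ i, d i ^ p ≤ ∑ i, (1 + d i ^ (1 : ℝ)) := Finset.sum_le_sum fun i _ => h1 i
    _ = Fintype.card κ + ∑ i, d i ^ (1 : ℝ) := by
        rw [Finset.sum_add_distrib, Finset.sum_const, nsmul_eq_mul, mul_one, Finset.card_univ]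
    _ ≤ _ := by linarith

lemma powers_ge_two {κ : Type} [Fintype κ] (d : κ → ℝ) (hd : ∀ i, 0 ≤ d i) {p q A B lam : ℝ}
    (hq : 1 ≤ q) (hqp : q ≤ p) (hA : 0 ≤ A) (hB : 0 ≤ B) (hlam : 0 < lam)
    (hc : (0 : ℝ) < Fintype.card κ)
    (hcard : (Fintype.card κ : ℝ) ≤ B * lam) (h : (∑ i, d i ^ q) / Fintype.card κ ≤ A) :
    (∑ i, d i ^ p) / Fintype.card κ ≤ A * (A * B) ^ (p / q - 1) * lam ^ (p / q - 1) := by
  have hq0 : 0 < q := by linarith
  have he : 0 ≤ p / q - 1 := by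
    rw [sub_nonneg, le_div_iff₀ hq0]
    linarith
  have hS : ∑ i, d i ^ q ≤ A * Fintype.card κ := by rwa [div_le_iff₀ hc] at h
  have hX : ∑ i, d i ^ q ≤ A * B * lam := by
    calc _ ≤ _ := hS
      _ ≤ A * (B * lam) := mul_le_mul_of_nonneg_left hcard hA
      _ = _ := by ring
  have hi : ∀ i, d i ^ q ≤ A * B * lam := fun i =>
    (Finset.single_le_sum (f := fun i => d i ^ q) (fun j _ => Real.rpow_nonneg (hd j) q)
      (Finset.mem_univ i)).trans hX
  have h1 : ∀ i, d i ^ p ≤ (A * B * lam) ^ (p / q - 1) * d i ^ q := by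
    intro i
    have e1 : d i ^ p = (d i ^ q) ^ (p / q) := by
      rw [← Real.rpow_mul (hd i)]
      congr 1
      field_simp
    have hx : 0 ≤ d i ^ q := Real.rpow_nonneg (hd i) q
    rcases hx.eq_or_lt with h0 | h0
    · rw [e1, ← h0, Real.zero_rpow (by
        have : 0 < p / q := div_pos (by linarith) hq0
        exact this.ne'), mul_zero]
    · have e2 : (d i ^ q) ^ (p / q) = (d i ^ q) ^ (p / q - 1) * d i ^ q := by
        rw [Real.rpow_sub_one h0.ne']
        field_simp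
      rw [e1, e2]
      exact mul_le_mul_of_nonneg_right (Real.rpow_le_rpow hx (hi i) he) hx
  rw [div_le_iff₀ hc]
  calc ∑ i, d i ^ p ≤ ∑ i, (A * B * lam) ^ (p / q - 1) * d i ^ q := Finset.sum_le_sum fun i _ => h1 i
    _ = (A * B * lam) ^ (p / q - 1) * ∑ i, d i ^ q := (Finset.mul_sum _ _ _).symm
    _ ≤ (A * B * lam) ^ (p / q - 1) * (A * Fintype.card κ) :=
        mul_le_mul_of_nonneg_left hS (Real.rpow_nonneg (by positivity) _)
    _ = _ := by
        rw [Real.mul_rpow (by positivity) hlam.le]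
        ring

/-- the choice of the exponent below `2` -/
lemma exp_choice {p ε : ℝ} (hp : 2 ≤ p) (hε : 0 < ε) :
    ∃ q : ℝ, 1 ≤ q ∧ q < 2 ∧ p / q ≤ p / 2 + ε := by
  refine ⟨max 1 (2 * p / (p + 2 * ε)), le_max_left _ _, ?_, ?_⟩
  · refine max_lt (by norm_num) ?_
    rw [div_lt_iff₀ (by positivity)]
    linarith
  · have h0 : 0 < 2 * p / (p + 2 * ε) := by positivity
    have h1 : p / max 1 (2 * p / (p + 2 * ε)) ≤ p / (2 * p / (p + 2 * ε)) :=
      div_le_div_of_nonneg_left (by linarith) h0 (le_max_right _ _)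
    refine h1.trans (le_of_eq ?_)
    field_simp

theorem isothermal_bounds (hZ : ∀ α : ℝ, 1 ≤ α → α < 2 → Z5p.{u, v} α) (M : Type u) (ι : Type v)
    [MetricSpace M] [CompactSpace M] [ConnectedSpace M] (U : ι → Set ℂ) (φ : ι → ℂ → M)
    (ρ : ι → ℂ → ℝ) (h : RiemannianSurface U φ ρ) : PowerMeanBounds (IsEigenfunction U φ ρ) := by
  intro C C₁ C₂ hC hC₁ hC₂
  have hR : Pool.Agent.Q73.AD.Riem U φ ρ := ⟨h.isOpen_domain, h.injective_chart, h.continuous_chart,
    h.open_chart, h.cover, h.density_pos, h.density_smooth, h.transition, h.geodesic⟩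
  have hatl := Pool.Agent.Q73.AD.tr1 M ι U φ ρ hR
  have hnn : ∀ (lam : ℝ) (f : M → ℝ), 0 < lam → IsEigenfunction U φ ρ lam f → ∀ (x : M) (r : ℝ),
      0 < r → 0 ≤ doubling f x r := fun lam f hlam hf x r hr =>
    fin_dbl_nonneg.{u, v} M ι U φ ρ hatl lam f hlam (fun i => ⟨hf.smooth i, hf.eq i⟩) hf.ne x r hr
  have key : ∀ α : ℝ, 1 ≤ α → α < 2 → ∃ A : ℝ, 0 < A ∧ ∀ (lam : ℝ) (f : M → ℝ), 0 < lam →
      IsEigenfunction U φ ρ lam f → ∀ (κ : Type) [Fintype κ] (x : κ → M), Admissible f lam C C₁ C₂ x →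
        powerMean f lam C α x ≤ A := by
    intro α hα1 hα2
    obtain ⟨A, hA0, hA⟩ := hZ α hα1 hα2 M ι U φ ρ hatl (fun i z hz => (h.density_pos i z hz).le)
      C C₁ C₂ hC hC₁ hC₂
    refine ⟨A, hA0, fun lam f hlam hf κ _ x hx => ?_⟩
    have h1 := hA lam f κ x hlam (fun i => ⟨hf.smooth i, hf.eq i⟩) hf.ne hx.mult hx.lower
    have h2 : ∀ i, max (dbl f (x i) (C / Real.sqrt lam)) 0 = doubling f (x i) (C / Real.sqrt lam) :=
      fun i => max_eq_left (hnn lam f hlam hf _ _ (by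
        have := Real.sqrt_pos.2 hlam
        positivity))
    simp only [h2] at h1
    exact h1
  have hcardpos : ∀ (lam : ℝ) (f : M → ℝ), 0 < lam → ∀ (κ : Type) [Fintype κ] (x : κ → M),
      Admissible f lam C C₁ C₂ x → (0 : ℝ) < Fintype.card κ := fun lam f hlam κ _ x hx =>
    lt_of_lt_of_le (by positivity) hx.lower
  have hd0 : ∀ (lam : ℝ) (f : M → ℝ), 0 < lam → IsEigenfunction U φ ρ lam f → ∀ x : M,
      0 ≤ doubling f x (C / Real.sqrt lam) := fun lam f hlam hf x => hnn lam f hlam hf x _ (by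
    have := Real.sqrt_pos.2 hlam
    positivity)
  refine ⟨fun p hp hp2 => ?_, fun p ε hp hε => ?_⟩
  · rcases le_or_gt 1 p with h1 | h1
    · obtain ⟨A, -, hA⟩ := key p h1 hp2
      exact ⟨A, hA⟩
    · obtain ⟨A, -, hA⟩ := key 1 le_rfl (by norm_num)
      refine ⟨1 + A, fun lam f hlam hf κ _ x hx => ?_⟩
      exact powers_lt_one (fun i => doubling f (x i) (C / Real.sqrt lam))
        (fun i => hd0 lam f hlam hf _) hp h1
        (by exact_mod_cast hcardpos lam f hlam κ x hx) (hA lam f hlam hf κ x hx)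
  · obtain ⟨q, hq1, hq2, hpq⟩ := exp_choice hp hε
    obtain ⟨A, hA0, hA⟩ := key q hq1 hq2
    refine ⟨A * (A * C₂) ^ (p / q - 1), fun lam f hlam hf κ _ x hx => ?_⟩
    have h2 := powers_ge_two (fun i => doubling f (x i) (C / Real.sqrt lam))
      (fun i => hd0 lam f hlam hf _) (p := p) hq1 (by linarith) hA0.le hC₂.le hlam
      (hcardpos lam f hlam κ x hx) hx.upper (hA lam f hlam hf κ x hx)
    refine h2.trans ?_
    have h3 : 0 ≤ A * (A * C₂) ^ (p / q - 1) := by positivity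
    refine mul_le_mul_of_nonneg_left ?_ h3
    have h4 : 0 ≤ p / q - 1 := by
      rw [sub_nonneg, le_div_iff₀ (by linarith)]
      linarith
    calc lam ^ (p / q - 1) ≤ (1 + lam) ^ (p / q - 1) := Real.rpow_le_rpow hlam.le (by linarith) h4
      _ ≤ (1 + lam) ^ (p / 2 - 1 + ε) :=
          Real.rpow_le_rpow_of_exponent_le (by linarith) (by linarith)

theorem manifold_bounds (hZ : ∀ α : ℝ, 1 ≤ α → α < 2 → Z5p.{u, u} α) (E : Type v)
    [NormedAddCommGroup E] [NormedSpace ℝ E] (b : Module.Basis (Fin 2) ℝ E)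
    (M : Type u) [MetricSpace M] [ChartedSpace E M] [IsManifold 𝓘(ℝ, E) ∞ M]
    [RiemannianBundle (fun x : M => TangentSpace 𝓘(ℝ, E) x)]
    [IsContMDiffRiemannianBundle 𝓘(ℝ, E) ∞ E (fun x : M => TangentSpace 𝓘(ℝ, E) x)]
    [IsRiemannianManifold 𝓘(ℝ, E) M] [CompactSpace M] [ConnectedSpace M] :
    PowerMeanBounds (M := M) (IsEigenfunctionOn b) := by
  obtain ⟨U, φ, ρ, hR, -, hE⟩ := Pool.Agent.Q63.ISE.atlas b M
  have h := isothermal_bounds hZ M M U φ ρ ⟨hR.dom, hR.inj, hR.cont,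
    hR.opn, hR.cover, hR.pos, hR.dens, hR.trans, hR.geod⟩
  have hEig : ∀ (lam : ℝ) (f : M → ℝ), IsEigenfunctionOn b lam f → IsEigenfunction U φ ρ lam f := by
    intro lam f hf
    have h := hE lam f ⟨hf.smooth, hf.eq⟩
    exact ⟨fun i => (h i).1, fun i => (h i).2, hf.ne⟩
  intro C C₁ C₂ hC hC₁ hC₂
  obtain ⟨h1, h2⟩ := h C C₁ C₂ hC hC₁ hC₂
  refine ⟨fun p hp hp2 => ?_, fun p ε hp hε => ?_⟩
  · obtain ⟨A, hA⟩ := h1 p hp hp2
    exact ⟨A, fun lam f hlam hf => hA lam f hlam (hEig lam f hf)⟩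
  · obtain ⟨A, hA⟩ := h2 p ε hp hε
    exact ⟨A, fun lam f hlam hf => hA lam f hlam (hEig lam f hf)⟩

/-- the sphere -/
theorem sphere_sharp (w1 : W1) (w2 : W2) (w3 : W3) (w4 : W4) : SphereSharp := by
  have hne : ∀ l, ∃ x, har l x ≠ 0 := fun l => (w4 l).2
  refine ⟨⟨w3.dom, w3.inj, w3.cont, w3.opn, w3.cover, w3.pos, w3.dens, w3.trans, w3.geod⟩,
    fun l => ⟨fun i => ((w4 l).1 i).1, fun i => ((w4 l).1 i).2, (w4 l).2⟩, ?_, ?_⟩
  · obtain ⟨C, C₁, C₂, hC, hC₁, hC₂, h⟩ := w2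
    refine ⟨C, C₁, C₂, hC, hC₁, hC₂, fun l hl => ?_⟩
    obtain ⟨n, x, h1, h2, h3, h4, h5⟩ := h l hl
    exact ⟨n, x, ⟨h1, by rw [Fintype.card_fin]; exact h2, by rw [Fintype.card_fin]; exact h3, h4, h5⟩⟩
  · intro C C₁ C₂ hC hC₁ hC₂
    constructor
    · obtain ⟨c, hc, l₀, h⟩ := w1 C C₂ 2 hC hC₂ le_rfl
      refine ⟨c / 3, by positivity, max l₀ 2, fun l hl κ _ x hx => ?_⟩
      have hl0 : l₀ ≤ l := (le_max_left _ _).trans hl
      have hl2 : 2 ≤ l := (le_max_right _ _).trans hl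
      have h1 := h l hl0 κ x hx.cover hx.upper hx.zero
      rw [if_pos rfl] at h1
      refine le_trans ?_ h1
      have hl2' : (2 : ℝ) ≤ l := by exact_mod_cast hl2
      have h2 : ev l ≤ (l : ℝ) ^ 3 := by
        unfold ev
        nlinarith [mul_nonneg (show (0:ℝ) ≤ l by linarith) (show (0:ℝ) ≤ (l:ℝ) - 2 by linarith)]
      have h3 : 0 < ev l := by unfold ev; positivity
      have h4 := Real.log_le_log h3 h2
      rw [Real.log_pow] at h4
      push_cast at h4
      calc c / 3 * Real.log (ev l) ≤ c / 3 * (3 * Real.log l) :=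
            mul_le_mul_of_nonneg_left h4 (by positivity)
        _ = c * Real.log l := by ring
    · intro p hp
      obtain ⟨c, hc, l₀, h⟩ := w1 C C₂ p hC hC₂ hp
      refine ⟨c / 2 ^ (p / 2 - 1), by positivity, max l₀ 3, fun l hl κ _ x hx => ?_⟩
      have hl0 : l₀ ≤ l := (le_max_left _ _).trans hl
      have hl3 : 3 ≤ l := (le_max_right _ _).trans hl
      have hl3' : (3 : ℝ) ≤ l := by exact_mod_cast hl3
      have h1 := h l hl0 κ x hx.cover hx.upper hx.zero
      refine le_trans ?_ h1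
      have h2 : ev l ≤ 2 * (l : ℝ) ^ 2 := by
        unfold ev
        nlinarith
      have h3 : 0 < ev l := by unfold ev; positivity
      have h4 : ev l ^ (p / 2 - 1) ≤ 2 ^ (p / 2 - 1) * (l : ℝ) ^ (p - 2) := by
        have h5 := Real.rpow_le_rpow h3.le h2 (show 0 ≤ p / 2 - 1 by linarith)
        rw [Real.mul_rpow (by norm_num) (by positivity), ← Real.rpow_natCast, ← Real.rpow_mul
          (by positivity)] at h5
        refine h5.trans (le_of_eq ?_)
        congr 2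
        push_cast
        ring
      have h6 : (l : ℝ) ^ (p - 2) ≤ if p = 2 then Real.log l else (l : ℝ) ^ (p - 2) := by
        split_ifs with hp2
        · rw [hp2, sub_self, Real.rpow_zero]
          rw [Real.le_log_iff_exp_le (by linarith)]
          have := Real.exp_one_lt_d9
          linarith
        · exact le_rfl
      have h7 : (0 : ℝ) < 2 ^ (p / 2 - 1) := by positivity
      calc c / 2 ^ (p / 2 - 1) * ev l ^ (p / 2 - 1)
          ≤ c / 2 ^ (p / 2 - 1) * (2 ^ (p / 2 - 1) * (l : ℝ) ^ (p - 2)) :=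
            mul_le_mul_of_nonneg_left h4 (by positivity)
        _ = c * (l : ℝ) ^ (p - 2) := by field_simp
        _ ≤ _ := mul_le_mul_of_nonneg_left h6 hc.le

end Pool.Agent.H303.NP
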