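import Pool.Graph.R_pool_sql_team_seeded_3997aac3.Q73.AD.StmG
import Pool.Graph.R_pool_sql_team_seeded_3997aac3.Q73.AD.StmR

/-!
# The round sphere with its geodesic distance, statements
-/

set_option autoImplicit false
open MeasureTheory Filter Topology Complex Metric
open scoped ContDiff ComplexConjugate

namespace Pool.Agent.H303.NP

open Pool.Agent.Q73.NL Pool.Agent.Q73.AD

noncomputable section

/-- the Euclidean space of dimension three -/
abbrev E3 : Type := EuclideanSpace ℝ (Fin 3)

/-- the round unit sphere (with the geodesic distance, see the instance below) -/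
def GS : Type := Metric.sphere (0 : E3) 1

/-- a point of the sphere as a unit vector -/
def GS.v (x : GS) : E3 := x.1

lemma GS.norm_v (x : GS) : ‖x.v‖ = 1 := by
  have h := x.2
  rw [mem_sphere_zero_iff_norm] at h
  exact h

lemma GS.ext_v {x y : GS} (h : x.v = y.v) : x = y := Subtype.ext h

/-- the geodesic distance of two points is the angle between them -/
instance : MetricSpace GS where
  dist x y := InnerProductGeometry.angle x.v y.v
  dist_self x := InnerProductGeometry.angle_self (by
    intro h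
    have := x.norm_v
    rw [h, norm_zero] at this
    exact zero_ne_one this)
  dist_comm x y := InnerProductGeometry.angle_comm _ _
  dist_triangle x y z := InnerProductGeometry.angle_le_angle_add_angle x.v y.v z.v
  eq_of_dist_eq_zero := by
    intro x y h
    obtain ⟨-, r, hr, h2⟩ := InnerProductGeometry.angle_eq_zero_iff.1 h
    have h3 := y.norm_v
    rw [h2, norm_smul, x.norm_v, mul_one, Real.norm_of_nonneg hr.le] at h3
    rw [h3, one_smul] at h2
    exact GS.ext_v h2.symm

lemma GS.dist_eq (x y : GS) : dist x y = InnerProductGeometry.angle x.v y.v := rfl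

/-- the identity from the sphere with the subspace topology -/
def GS.of (x : Metric.sphere (0 : E3) 1) : GS := x

lemma GS.of_surj : Function.Surjective GS.of := fun x => ⟨x, rfl⟩

lemma GS.of_cont : Continuous GS.of := by
  rw [continuous_iff_continuousAt]
  intro x
  rw [ContinuousAt, tendsto_iff_dist_tendsto_zero]
  have h1 : ContinuousAt (fun y : Metric.sphere (0 : E3) 1 => InnerProductGeometry.angle (y : E3) (x : E3)) x := by
    have hx : (x : E3) ≠ 0 := by
      intro h
      have := x.2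
      rw [mem_sphere_zero_iff_norm, h, norm_zero] at this
      exact zero_ne_one this
    have h2 := InnerProductGeometry.continuousAt_angle (x := ((x : E3), (x : E3))) hx hx
    exact ContinuousAt.comp (g := fun y : E3 × E3 => InnerProductGeometry.angle y.1 y.2)
      (f := fun y : Metric.sphere (0 : E3) 1 => ((y : E3), (x : E3))) h2
      (continuousAt_subtype_val.prodMk continuousAt_const)
  have h3 := h1.tendsto
  have h4 : InnerProductGeometry.angle (x : E3) (x : E3) = 0 := by
    apply InnerProductGeometry.angle_self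
    intro h
    have := x.2
    rw [mem_sphere_zero_iff_norm, h, norm_zero] at this
    exact zero_ne_one this
  simp only [h4] at h3
  exact h3

instance : CompactSpace GS := by
  have : CompactSpace (Metric.sphere (0 : E3) 1) := isCompact_iff_compactSpace.1 (isCompact_sphere _ _)
  exact GS.of_surj.compactSpace GS.of_cont

instance : ConnectedSpace GS := by
  have h : IsConnected (Metric.sphere (0 : E3) 1) := by
    apply isConnected_sphere _ _ zero_le_one
    rw [← Module.finrank_eq_rank, finrank_euclideanSpace, Fintype.card_fin]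
    norm_num
  have : ConnectedSpace (Metric.sphere (0 : E3) 1) := isConnected_iff_connectedSpace.1 h
  exact GS.of_surj.connectedSpace GS.of_cont

/-- the restriction of the harmonic polynomial `Re (x₀ + i x₁)^l` -/
def har (l : ℕ) (x : GS) : ℝ := ((((x.v 0 : ℝ) : ℂ) + ((x.v 1 : ℝ) : ℂ) * I) ^ l).re

/-- the eigenvalue -/
def ev (l : ℕ) : ℝ := (l : ℝ) * (l + 1)

/-- lower bound of the power means -/
def W1 : Prop := ∀ C C₂ p : ℝ, 0 < C → 0 < C₂ → 2 ≤ p → ∃ c : ℝ, 0 < c ∧ ∃ l₀ : ℕ, ∀ l : ℕ, l₀ ≤ l →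
  ∀ (κ : Type) [Fintype κ] (x : κ → GS),
    (∀ y : GS, ∃ i, y ∈ Metric.ball (x i) (C / Real.sqrt (ev l))) →
    ((Fintype.card κ : ℝ) ≤ C₂ * ev l) → (∀ i, har l (x i) = 0) →
    c * (if p = 2 then Real.log l else (l : ℝ) ^ (p - 2)) ≤
      (∑ i, dbl (har l) (x i) (C / Real.sqrt (ev l)) ^ p) / Fintype.card κ

/-- existence of admissible coverings -/
def W2 : Prop := ∃ C C₁ C₂ : ℝ, 0 < C ∧ 0 < C₁ ∧ 0 < C₂ ∧ ∀ l : ℕ, 1 ≤ l →
  ∃ (n : ℕ) (x : Fin n → GS),
    (∀ y : GS, ∃ i, y ∈ Metric.ball (x i) (C / Real.sqrt (ev l))) ∧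
    C₂⁻¹ * ev l ≤ n ∧ (n : ℝ) ≤ C₂ * ev l ∧
    (∀ y : GS, ({i | y ∈ Metric.ball (x i) (C / Real.sqrt (ev l))}.ncard : ℝ) ≤ C₁) ∧
    ∀ i, har l (x i) = 0

/-- the two stereographic charts (from the two poles `(0, 0, ±1)`) as vectors -/
def stv (b : Bool) (z : ℂ) : E3 :=
  !₂[2 * z.re / (1 + ‖z‖ ^ 2), 2 * z.im / (1 + ‖z‖ ^ 2),
    (if b then ‖z‖ ^ 2 - 1 else 1 - ‖z‖ ^ 2) / (1 + ‖z‖ ^ 2)]

lemma stv_norm (b : Bool) (z : ℂ) : ‖stv b z‖ = 1 := by
  have h0 : 0 < 1 + ‖z‖ ^ 2 := by positivity
  have h1 : ‖z‖ ^ 2 = z.re ^ 2 + z.im ^ 2 := by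
    rw [Complex.sq_norm, Complex.normSq_apply]; ring
  have h2 : ‖stv b z‖ ^ 2 = 1 := by
    rw [EuclideanSpace.norm_sq_eq, Fin.sum_univ_three]
    simp only [stv, Real.norm_eq_abs, sq_abs]
    cases b <;> simp <;> field_simp <;> rw [h1] <;> ring
  have h3 : 0 ≤ ‖stv b z‖ := norm_nonneg _
  nlinarith

/-- the two stereographic charts -/
def stc (b : Bool) (z : ℂ) : GS := ⟨stv b z, by rw [mem_sphere_zero_iff_norm]; exact stv_norm b z⟩

lemma stc_v (b : Bool) (z : ℂ) : (stc b z).v = stv b z := rfl

/-- the domains of the charts -/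
def stU (_ : Bool) : Set ℂ := Set.univ

/-- the conformal factors -/
def stρ (_ : Bool) (z : ℂ) : ℝ := 4 / (1 + ‖z‖ ^ 2) ^ 2

/-- the charts describe the round sphere -/
def W3 : Prop := Riem stU stc stρ

/-- the functions `har l` are eigenfunctions with eigenvalue `l (l + 1)` -/
def W4 : Prop := ∀ l : ℕ, Eig stU stc stρ (ev l) (har l) ∧ (∃ x, har l x ≠ 0)

end

end Pool.Agent.H303.NP
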