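import Pool.Agent.H303.NP.Sph

/-!
# The round sphere: lower bound of the power means (helper331)
-/

set_option autoImplicit false
open MeasureTheory Filter Topology Complex Metric
open scoped ContDiff ComplexConjugate

namespace Pool.Agent.H303.NP

open Pool.Agent.Q73.NL Pool.Agent.Q73.AD

noncomputable section

namespace Tw1

/-! ## Polar coordinates -/

lemma inner3 (x y : E3) : inner ℝ x y = x 0 * y 0 + x 1 * y 1 + x 2 * y 2 := by
  rw [PiLp.inner_apply, Fin.sum_univ_three]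
  simp [mul_comm]

lemma dist_arccos (x y : GS) : dist x y = Real.arccos (inner ℝ x.v y.v) := by
  rw [GS.dist_eq, InnerProductGeometry.angle, x.norm_v, y.norm_v, mul_one, div_one]

lemma sq_sum (x : GS) : x.v 0 ^ 2 + x.v 1 ^ 2 + x.v 2 ^ 2 = 1 := by
  have h := x.norm_v
  have h2 : ‖x.v‖ ^ 2 = 1 := by rw [h, one_pow]
  rw [EuclideanSpace.norm_sq_eq, Fin.sum_univ_three] at h2
  simpa [Real.norm_eq_abs, sq_abs] using h2

/-- a point of the sphere given by coordinates -/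
def mk3 (a b c : ℝ) (h : a ^ 2 + b ^ 2 + c ^ 2 = 1) : GS := ⟨!₂[a, b, c], by
  rw [mem_sphere_zero_iff_norm]
  have h2 : ‖(!₂[a, b, c] : E3)‖ ^ 2 = 1 := by
    rw [EuclideanSpace.norm_sq_eq, Fin.sum_univ_three]
    simpa [Real.norm_eq_abs, sq_abs] using h
  have h3 : 0 ≤ ‖(!₂[a, b, c] : E3)‖ := norm_nonneg _
  nlinarith⟩

lemma mk3_v0 (a b c : ℝ) (h : a ^ 2 + b ^ 2 + c ^ 2 = 1) : (mk3 a b c h).v 0 = a := rfl
lemma mk3_v1 (a b c : ℝ) (h : a ^ 2 + b ^ 2 + c ^ 2 = 1) : (mk3 a b c h).v 1 = b := rfl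
lemma mk3_v2 (a b c : ℝ) (h : a ^ 2 + b ^ 2 + c ^ 2 = 1) : (mk3 a b c h).v 2 = c := rfl

lemma ext3 {x y : GS} (h0 : x.v 0 = y.v 0) (h1 : x.v 1 = y.v 1) (h2 : x.v 2 = y.v 2) : x = y := by
  apply GS.ext_v
  ext i
  fin_cases i
  · exact h0
  · exact h1
  · exact h2

/-- polar coordinates -/
def pt (s φ : ℝ) : GS := mk3 (Real.sin s * Real.cos φ) (Real.sin s * Real.sin φ) (Real.cos s) (by
  have h1 := Real.sin_sq_add_cos_sq s
  have h2 := Real.sin_sq_add_cos_sq φ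
  linear_combination h1 + Real.sin s ^ 2 * h2)

/-- the angle at the pole -/
def sN (x : GS) : ℝ := Real.arccos (x.v 2)

lemma v2_mem (x : GS) : -1 ≤ x.v 2 ∧ x.v 2 ≤ 1 := by
  have h := sq_sum x
  constructor <;> nlinarith [sq_nonneg (x.v 0), sq_nonneg (x.v 1)]

lemma cos_sN (x : GS) : Real.cos (sN x) = x.v 2 := Real.cos_arccos (v2_mem x).1 (v2_mem x).2

lemma sN_nonneg (x : GS) : 0 ≤ sN x := Real.arccos_nonneg _

lemma sN_eq_dist (x : GS) : sN x = dist x (pt 0 0) := by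
  rw [dist_arccos, inner3]
  unfold pt
  rw [mk3_v0, mk3_v1, mk3_v2]
  simp [sN]

lemma abs_sN_sub (x y : GS) : |sN x - sN y| ≤ dist x y := by
  rw [sN_eq_dist, sN_eq_dist]
  exact abs_dist_sub_le x y _

/-- the first two coordinates as a complex number -/
def ze (x : GS) : ℂ := ((x.v 0 : ℝ) : ℂ) + ((x.v 1 : ℝ) : ℂ) * I

lemma sin_sN (x : GS) : Real.sin (sN x) = ‖ze x‖ := by
  rw [sN, Real.sin_arccos, ze, Complex.norm_add_mul_I]
  congr 1
  linarith [sq_sum x]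

lemma eq_pt (x : GS) : x = pt (sN x) (Complex.arg (ze x)) := by
  apply ext3
  · unfold pt
    rw [mk3_v0, sin_sN, Complex.norm_mul_cos_arg]
    simp [ze]
  · unfold pt
    rw [mk3_v1, sin_sN, Complex.norm_mul_sin_arg]
    simp [ze]
  · unfold pt
    rw [mk3_v2, cos_sN]

lemma har_pt (l : ℕ) (s φ : ℝ) : har l (pt s φ) = Real.sin s ^ l * Real.cos (l * φ) := by
  unfold har pt
  rw [mk3_v0, mk3_v1]
  have h1 : (((Real.sin s * Real.cos φ : ℝ) : ℂ) + ((Real.sin s * Real.sin φ : ℝ) : ℂ) * I) =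
      ((Real.sin s : ℝ) : ℂ) * (Complex.cos (φ : ℂ) + Complex.sin (φ : ℂ) * I) := by
    push_cast
    ring
  rw [h1, mul_pow, Complex.cos_add_sin_mul_I_pow, ← Complex.ofReal_pow, Complex.re_ofReal_mul]
  congr 1
  have h2 : (l : ℂ) * (φ : ℂ) = ((l * φ : ℝ) : ℂ) := by
    push_cast
    rfl
  rw [h2, Complex.add_re, Complex.mul_re, Complex.I_re, Complex.I_im, Complex.cos_ofReal_re,
    Complex.sin_ofReal_im]
  ring

lemma abs_har_le (l : ℕ) (x : GS) : |har l x| ≤ Real.sin (sN x) ^ l := by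
  have h0 : 0 ≤ Real.sin (sN x) := by
    rw [sin_sN]
    exact norm_nonneg _
  rw [eq_pt x, har_pt, ← eq_pt x, abs_mul, abs_pow, abs_of_nonneg h0]
  exact mul_le_of_le_one_right (pow_nonneg h0 l) (Real.abs_cos_le_one _)

lemma abs_har_le_one (l : ℕ) (x : GS) : |har l x| ≤ 1 := by
  refine (abs_har_le l x).trans (pow_le_one₀ ?_ (Real.sin_le_one _))
  rw [sin_sN]
  exact norm_nonneg _

lemma dist_merid {s s' φ : ℝ} (h1 : s ≤ s') (h2 : s' - s ≤ Real.pi) :
    dist (pt s φ) (pt s' φ) = s' - s := by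
  rw [dist_arccos, inner3]
  unfold pt
  rw [mk3_v0, mk3_v1, mk3_v2, mk3_v0, mk3_v1, mk3_v2]
  have h3 : Real.sin s * Real.cos φ * (Real.sin s' * Real.cos φ) +
      Real.sin s * Real.sin φ * (Real.sin s' * Real.sin φ) + Real.cos s * Real.cos s' =
      Real.cos (s' - s) := by
    rw [Real.cos_sub]
    linear_combination (Real.sin s * Real.sin s') * Real.sin_sq_add_cos_sq φ
  rw [h3, Real.arccos_cos (by linarith) h2]

lemma dist_lat {s φ φ' : ℝ} (h1 : φ ≤ φ') (h2 : φ' - φ ≤ Real.pi) :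
    dist (pt s φ) (pt s φ') ≤ φ' - φ := by
  rw [dist_arccos, inner3]
  unfold pt
  rw [mk3_v0, mk3_v1, mk3_v2, mk3_v0, mk3_v1, mk3_v2]
  have h3 : Real.sin s * Real.cos φ * (Real.sin s * Real.cos φ') +
      Real.sin s * Real.sin φ * (Real.sin s * Real.sin φ') + Real.cos s * Real.cos s =
      Real.sin s ^ 2 * Real.cos (φ' - φ) + Real.cos s ^ 2 := by
    rw [Real.cos_sub]
    ring
  have h4 : Real.cos (φ' - φ) ≤ Real.sin s ^ 2 * Real.cos (φ' - φ) + Real.cos s ^ 2 := by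
    have h5 := Real.sin_sq_add_cos_sq s
    have h6 : 0 ≤ Real.cos s ^ 2 * (1 - Real.cos (φ' - φ)) :=
      mul_nonneg (sq_nonneg _) (by linarith [Real.cos_le_one (φ' - φ)])
    have h7 : Real.cos (φ' - φ) = (Real.sin s ^ 2 + Real.cos s ^ 2) * Real.cos (φ' - φ) := by
      rw [h5, one_mul]
    linarith [add_mul (Real.sin s ^ 2) (Real.cos s ^ 2) (Real.cos (φ' - φ)),
      mul_sub (Real.cos s ^ 2) 1 (Real.cos (φ' - φ))]
  rw [h3]
  refine (Real.arccos_le_arccos h4).trans ?_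
  rw [Real.arccos_cos (by linarith) h2]

lemma chord (x y : GS) : (x.v 0 - y.v 0) ^ 2 + (x.v 1 - y.v 1) ^ 2 ≤ dist x y ^ 2 := by
  have h1 : Real.cos (dist x y) = x.v 0 * y.v 0 + x.v 1 * y.v 1 + x.v 2 * y.v 2 := by
    rw [← inner3, dist_arccos, Real.cos_arccos]
    · have h := abs_real_inner_le_norm x.v y.v
      rw [x.norm_v, y.norm_v, mul_one] at h
      exact (abs_le.1 h).1
    · have h := abs_real_inner_le_norm x.v y.v
      rw [x.norm_v, y.norm_v, mul_one] at h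
      exact (abs_le.1 h).2
  have h2 := Real.one_sub_sq_div_two_le_cos (x := dist x y)
  have h3 := sq_sum x
  have h4 := sq_sum y
  nlinarith [sq_nonneg (x.v 2 - y.v 2)]

/-! ## The sup of the harmonic -/

lemma sn_le'' {f : GS → ℝ} {E : Set GS} {c : ℝ} (hc : 0 ≤ c) (h : ∀ x ∈ E, |f x| ≤ c) :
    sn f E ≤ c := by
  apply Real.sSup_le _ hc
  rintro _ ⟨x, hx, rfl⟩
  exact h x hx

lemma le_sn {f : GS → ℝ} {E : Set GS} (hb : ∀ x, |f x| ≤ 1) {y : GS} (hy : y ∈ E) :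
    |f y| ≤ sn f E := by
  apply le_csSup
  · refine ⟨1, ?_⟩
    rintro _ ⟨x, -, rfl⟩
    exact hb x
  · exact ⟨y, hy, rfl⟩

lemma sn_nonneg'' (f : GS → ℝ) (E : Set GS) : 0 ≤ sn f E := by
  apply Real.sSup_nonneg
  rintro _ ⟨x, -, rfl⟩
  exact abs_nonneg _

lemma dbl_nonneg (l : ℕ) (x : GS) {r : ℝ} (hr : 0 < r) : 0 ≤ dbl (har l) x r := by
  unfold dbl
  rcases (sn_nonneg'' (har l) (ball x r)).eq_or_lt with h | h
  · rw [← h, div_zero, Real.logb_zero]
  · apply Real.logb_nonneg one_lt_two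
    rw [one_le_div h]
    apply sn_le'' (sn_nonneg'' _ _)
    intro y hy
    exact le_sn (abs_har_le_one l) (ball_subset_ball (by linarith) hy)

/-! ## The lower bound of the doubling index -/

lemma log_ratio {s r : ℝ} (hr : 0 < r) (hrs : r ≤ s) (hs : s ≤ 1 / 4) :
    r / (16 * s) ≤ Real.log (Real.sin (s + 3 * r / 2) / Real.sin (s + r)) := by
  have hs0 : 0 < s := hr.trans_le hrs
  have hpi := Real.pi_gt_three
  have ht0 : 0 < Real.sin (s + r) := Real.sin_pos_of_pos_of_lt_pi (by linarith) (by linarith)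
  have ht1 : Real.sin (s + r) ≤ s + r := Real.sin_le (by linarith)
  have h1 : Real.sin (s + 3 * r / 2) - Real.sin (s + r) =
      2 * Real.sin (r / 4) * Real.cos (s + 5 * r / 4) := by
    rw [Real.sin_sub_sin]
    congr 2
    · congr 1
      ring
    · ring_nf
  have h2 : r / 4 - (r / 4) ^ 3 / 6 < Real.sin (r / 4) := Real.sin_gt_sub_cube (by positivity)
  have h3 : 1 - (s + 5 * r / 4) ^ 2 / 2 ≤ Real.cos (s + 5 * r / 4) := Real.one_sub_sq_div_two_le_cos
  have h4 : (3 : ℝ) / 4 ≤ Real.cos (s + 5 * r / 4) := by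
    have h5 : s + 5 * r / 4 ≤ 9 / 16 := by linarith
    have h6 : 0 ≤ s + 5 * r / 4 := by positivity
    nlinarith
  have h5 : r * (6 / 25) ≤ Real.sin (r / 4) := by
    have h6 : r ^ 2 ≤ 1 / 16 := by nlinarith
    have h7 : (r / 4) ^ 3 / 6 = r * r ^ 2 / 384 := by ring
    have h8 : r * r ^ 2 ≤ r * (1 / 16) := mul_le_mul_of_nonneg_left h6 hr.le
    rw [h7] at h2
    linarith
  have h6 : r / 4 ≤ Real.sin (s + 3 * r / 2) - Real.sin (s + r) := by
    rw [h1]
    have h7 : r * (6 / 25) * (3 / 4) ≤ Real.sin (r / 4) * Real.cos (s + 5 * r / 4) :=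
      mul_le_mul h5 h4 (by norm_num) (le_trans (by positivity) h5)
    nlinarith
  have h7 : 1 + r / (8 * s) ≤ Real.sin (s + 3 * r / 2) / Real.sin (s + r) := by
    rw [le_div_iff₀ ht0]
    have h8 : r / (8 * s) * Real.sin (s + r) ≤ r / (8 * s) * (2 * s) :=
      mul_le_mul_of_nonneg_left (by linarith) (by positivity)
    have h9 : r / (8 * s) * (2 * s) = r / 4 := by
      field_simp
      ring
    rw [add_mul, one_mul]
    linarith
  have hv0 : 0 < r / (8 * s) := by positivity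
  have hv1 : r / (8 * s) ≤ 1 := by
    rw [div_le_one (by positivity)]
    linarith
  have h8 : Real.log (1 + r / (8 * s)) ≤ Real.log (Real.sin (s + 3 * r / 2) / Real.sin (s + r)) :=
    Real.log_le_log (by positivity) h7
  refine le_trans ?_ h8
  refine le_trans ?_ (Real.one_sub_inv_le_log_of_pos (by positivity))
  have h9 : r / (16 * s) = r / (8 * s) / 2 := by
    field_simp
    ring
  rw [h9]
  set v := r / (8 * s)
  have h10 : 1 - (1 + v)⁻¹ = v / (1 + v) := by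
    field_simp
    ring
  rw [h10]
  exact div_le_div_of_nonneg_left hv0.le (by linarith) (by linarith)

lemma sqrt_ev {l : ℕ} (hl : 1 ≤ l) : (l : ℝ) ≤ Real.sqrt (ev l) ∧ Real.sqrt (ev l) ≤ 3 / 2 * l := by
  have hl1 : (1 : ℝ) ≤ l := by exact_mod_cast hl
  constructor
  · apply Real.le_sqrt_of_sq_le
    unfold ev
    nlinarith
  · rw [Real.sqrt_le_left (by positivity)]
    unfold ev
    nlinarith

lemma dbl_ge {C : ℝ} (hC : 0 < C) : ∃ s₁ : ℝ, 0 < s₁ ∧ ∀ (l : ℕ) (x : GS), 1 ≤ l → har l x = 0 →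
    C / Real.sqrt (ev l) ≤ sN x → sN x ≤ s₁ →
      C / (64 * sN x) ≤ dbl (har l) x (C / Real.sqrt (ev l)) := by
  have hpi := Real.pi_gt_three
  obtain ⟨c₁, hc₁, hc₁4, hc₁C⟩ : ∃ c₁ : ℝ, 0 < c₁ ∧ c₁ ≤ 1 / 4 ∧ c₁ * C ≤ 1 := by
    refine ⟨min (1 / 4) (1 / C), lt_min (by norm_num) (by positivity), min_le_left _ _, ?_⟩
    have h := min_le_right (1 / 4 : ℝ) (1 / C)
    rwa [le_div_iff₀ hC] at h
  obtain ⟨c₂, hc₂⟩ : ∃ c₂ : ℝ, c₂ = 2 / Real.pi * (2 / 3 * (c₁ * C)) := ⟨_, rfl⟩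
  have hc₂0 : 0 < c₂ := by
    rw [hc₂]
    positivity
  obtain ⟨D, hD⟩ : ∃ D : ℝ, D = |Real.log c₂| / Real.log 2 := ⟨_, rfl⟩
  have hlog2 : 0 < Real.log 2 := Real.log_pos one_lt_two
  have hlog2' : Real.log 2 ≤ 1 := by
    have := Real.log_two_lt_d9
    linarith
  have hD0 : 0 ≤ D := by
    rw [hD]
    positivity
  refine ⟨min (1 / 4) (C / (64 * (D + 1))), lt_min (by norm_num) (by positivity), ?_⟩
  intro l x hl hx hrs hs
  obtain ⟨hq1, hq2⟩ := sqrt_ev hl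
  have hl1 : (1 : ℝ) ≤ l := by exact_mod_cast hl
  set q := Real.sqrt (ev l) with hq
  have hq0 : 0 < q := by linarith
  obtain ⟨s, hs_def⟩ : ∃ s, s = sN x := ⟨_, rfl⟩
  rw [← hs_def] at hrs hs ⊢
  obtain ⟨r, hr_def⟩ : ∃ r, r = C / q := ⟨_, rfl⟩
  rw [← hr_def] at hrs ⊢
  have hr : 0 < r := by
    rw [hr_def]
    positivity
  have hs0 : 0 < s := hr.trans_le hrs
  have hs4 : s ≤ 1 / 4 := hs.trans (min_le_left _ _)
  have hsD : s * (64 * (D + 1)) ≤ C := by
    have h := hs.trans (min_le_right _ _)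
    rwa [le_div_iff₀ (by positivity)] at h
  have hlr : 2 / 3 * C ≤ l * r := by
    rw [hr_def, mul_div_assoc', le_div_iff₀ hq0]
    have h10 := mul_le_mul_of_nonneg_left hq2 (by positivity : 0 ≤ 2 / 3 * C)
    have h11 : 2 / 3 * C * (3 / 2 * l) = l * C := by ring
    rw [h11] at h10
    exact h10
  have hlr' : l * r ≤ C := by
    rw [hr_def, mul_div_assoc', div_le_iff₀ hq0, mul_comm]
    exact mul_le_mul_of_nonneg_left hq1 hC.le
  obtain ⟨δ, hδ⟩ : ∃ δ, δ = c₁ * r := ⟨_, rfl⟩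
  have hδ0 : 0 < δ := by
    rw [hδ]
    positivity
  have hδr : δ ≤ r / 4 := by
    rw [hδ]
    have h10 := mul_le_mul_of_nonneg_right hc₁4 hr.le
    linarith
  have hlδ : l * δ ≤ 1 := by
    have h1 : l * δ = c₁ * (l * r) := by
      rw [hδ]
      ring
    rw [h1]
    exact (mul_le_mul_of_nonneg_left hlr' hc₁.le).trans hc₁C
  have hlδ' : 2 / 3 * (c₁ * C) ≤ l * δ := by
    have h1 : l * δ = c₁ * (l * r) := by
      rw [hδ]
      ring
    rw [h1]
    have h2 := mul_le_mul_of_nonneg_left hlr hc₁.le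
    linarith
  have hsin : c₂ ≤ Real.sin (l * δ) := by
    have h1 := Real.mul_le_sin (x := l * δ) (by positivity) (by linarith)
    refine le_trans ?_ h1
    rw [hc₂]
    exact mul_le_mul_of_nonneg_left hlδ' (by positivity)
  -- the angle
  obtain ⟨φ, hφ⟩ : ∃ φ, φ = Complex.arg (ze x) := ⟨_, rfl⟩
  have hxp : x = pt s φ := by
    rw [hs_def, hφ]
    exact eq_pt x
  have hsins : 0 < Real.sin s := Real.sin_pos_of_pos_of_lt_pi hs0 (by linarith)
  have hcos : Real.cos (l * φ) = 0 := by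
    rw [hxp, har_pt] at hx
    exact (mul_eq_zero.1 hx).resolve_left (pow_pos hsins l).ne'
  have hval : ∀ s' : ℝ, 0 ≤ Real.sin s' → Real.sin s' ^ l * c₂ ≤ |har l (pt s' (φ + δ))| := by
    intro s' hs'
    rw [har_pt, abs_mul, abs_pow, abs_of_nonneg hs']
    apply mul_le_mul_of_nonneg_left _ (pow_nonneg hs' l)
    have h1 : (l : ℝ) * (φ + δ) = l * φ + l * δ := by ring
    rw [h1, Real.cos_add, hcos, zero_mul, zero_sub, abs_neg, abs_mul]
    have h2 : |Real.sin (l * φ)| = 1 := by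
      have h3 := Real.sin_sq_add_cos_sq (l * φ)
      rw [hcos] at h3
      have h4 : |Real.sin (l * φ)| ^ 2 = 1 := by
        rw [sq_abs]
        linarith
      have h5 := abs_nonneg (Real.sin (l * φ))
      nlinarith
    rw [h2, one_mul]
    exact hsin.trans (le_abs_self _)
  -- the points
  have hy0 : pt s (φ + δ) ∈ ball x r := by
    rw [mem_ball, hxp, dist_comm]
    have h1 := dist_lat (s := s) (φ := φ) (φ' := φ + δ) (by linarith) (by linarith)
    linarith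
  have hy1 : pt (s + 3 * r / 2) (φ + δ) ∈ ball x (2 * r) := by
    rw [mem_ball, hxp, dist_comm]
    have h1 := dist_lat (s := s + 3 * r / 2) (φ := φ) (φ' := φ + δ) (by linarith) (by linarith)
    have h2 := dist_merid (s := s) (s' := s + 3 * r / 2) (φ := φ) (by linarith) (by linarith)
    have h3 := dist_triangle (pt s φ) (pt (s + 3 * r / 2) φ) (pt (s + 3 * r / 2) (φ + δ))
    linarith
  have hsin1 : 0 < Real.sin (s + 3 * r / 2) :=
    Real.sin_pos_of_pos_of_lt_pi (by linarith) (by linarith)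
  have hsin2 : 0 < Real.sin (s + r) :=
    Real.sin_pos_of_pos_of_lt_pi (by linarith) (by linarith)
  have hsn0 : 0 < sn (har l) (ball x r) :=
    lt_of_lt_of_le (by positivity) ((hval s hsins.le).trans (le_sn (abs_har_le_one l) hy0))
  have hsn1 : Real.sin (s + 3 * r / 2) ^ l * c₂ ≤ sn (har l) (ball x (2 * r)) :=
    (hval _ hsin1.le).trans (le_sn (abs_har_le_one l) hy1)
  have hsn2 : sn (har l) (ball x r) ≤ Real.sin (s + r) ^ l := by
    apply sn_le'' (by positivity)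
    intro y hy
    refine (abs_har_le l y).trans (pow_le_pow_left₀ ?_ ?_ l)
    · rw [sin_sN]
      exact norm_nonneg _
    · have h1 := abs_sN_sub y x
      rw [← hs_def] at h1
      have h2 := (le_abs_self _).trans h1
      rw [mem_ball] at hy
      apply Real.sin_le_sin_of_le_of_le_pi_div_two
      · have := sN_nonneg y
        linarith
      · linarith
      · linarith
  -- the ratio
  set Q := Real.sin (s + 3 * r / 2) / Real.sin (s + r) with hQ
  have hQ0 : 0 < Q := by positivity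
  have hratio : c₂ * Q ^ l ≤ sn (har l) (ball x (2 * r)) / sn (har l) (ball x r) := by
    rw [le_div_iff₀ hsn0]
    have h1 : c₂ * Q ^ l * sn (har l) (ball x r) ≤ c₂ * Q ^ l * Real.sin (s + r) ^ l :=
      mul_le_mul_of_nonneg_left hsn2 (by positivity)
    have h2 : c₂ * Q ^ l * Real.sin (s + r) ^ l = Real.sin (s + 3 * r / 2) ^ l * c₂ := by
      rw [mul_assoc, ← mul_pow, hQ, div_mul_cancel₀ _ hsin2.ne']
      ring
    rw [h2] at h1
    exact h1.trans hsn1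
  have hlogQ : r / (16 * s) ≤ Real.log Q := log_ratio hr hrs hs4
  have hlogQ0 : 0 ≤ Real.log Q := le_trans (by positivity) hlogQ
  unfold dbl
  have h1 : Real.logb 2 (c₂ * Q ^ l) ≤
      Real.logb 2 (sn (har l) (ball x (2 * r)) / sn (har l) (ball x r)) :=
    Real.logb_le_logb_of_le one_lt_two (by positivity) hratio
  refine le_trans ?_ h1
  have h2 : Real.logb 2 (c₂ * Q ^ l) = Real.log c₂ / Real.log 2 + l * Real.log Q / Real.log 2 := by
    rw [Real.logb, Real.log_mul hc₂0.ne' (by positivity), Real.log_pow]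
    ring
  rw [h2]
  have h3 : -D ≤ Real.log c₂ / Real.log 2 := by
    rw [hD, ← neg_div]
    exact div_le_div_of_nonneg_right (neg_abs_le _) hlog2.le
  have h4 : l * Real.log Q ≤ l * Real.log Q / Real.log 2 := by
    rw [le_div_iff₀ hlog2]
    exact mul_le_of_le_one_right (by positivity) hlog2'
  have h5 : C / (24 * s) ≤ l * Real.log Q := by
    have h6 : l * (r / (16 * s)) ≤ l * Real.log Q := mul_le_mul_of_nonneg_left hlogQ (by positivity)
    refine le_trans ?_ h6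
    rw [mul_div_assoc', div_le_div_iff₀ (by positivity) (by positivity)]
    have h10 := mul_le_mul_of_nonneg_right hlr (by positivity : 0 ≤ 24 * s)
    have h11 : 2 / 3 * C * (24 * s) = C * (16 * s) := by ring
    rw [h11] at h10
    exact h10
  have h6 : D ≤ C / (64 * s) := by
    rw [le_div_iff₀ (by positivity)]
    have h10 : s * (64 * (D + 1)) = D * (64 * s) + 64 * s := by ring
    rw [h10] at hsD
    linarith
  have h7 : C / (24 * s) = C / s / 24 := by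
    field_simp
  have h8 : C / (64 * s) = C / s / 64 := by
    field_simp
  have h9 : 0 < C / s := by positivity
  rw [h7] at h5
  rw [h8] at h6 ⊢
  linarith

/-! ## Counting -/

/-- grid points -/
def gp (u v : ℝ) : GS := if h : u ^ 2 + v ^ 2 ≤ 1 then
    mk3 u v (Real.sqrt (1 - (u ^ 2 + v ^ 2))) (by
      rw [Real.sq_sqrt (by linarith)]
      ring)
  else pt 0 0

lemma gp_v0 {u v : ℝ} (h : u ^ 2 + v ^ 2 ≤ 1) : (gp u v).v 0 = u := by
  rw [gp, dif_pos h, mk3_v0]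

lemma gp_v1 {u v : ℝ} (h : u ^ 2 + v ^ 2 ≤ 1) : (gp u v).v 1 = v := by
  rw [gp, dif_pos h, mk3_v1]

lemma gp_v2 {u v : ℝ} (h : u ^ 2 + v ^ 2 ≤ 1) : 0 ≤ (gp u v).v 2 := by
  rw [gp, dif_pos h, mk3_v2]
  exact Real.sqrt_nonneg _

lemma sN_gp {u v : ℝ} (hu : 0 ≤ u) (hv : 0 ≤ v) (hvu : v ≤ u) (hu1 : u ≤ 1 / 2) :
    u ^ 2 + v ^ 2 ≤ 1 ∧ u ≤ sN (gp u v) ∧ sN (gp u v) ≤ 12 / 5 * u := by
  have hpi := Real.pi_gt_three
  have hpi2 := Real.pi_lt_d2
  have h : u ^ 2 + v ^ 2 ≤ 1 := by nlinarith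
  have h1 : Real.sin (sN (gp u v)) = Real.sqrt (u ^ 2 + v ^ 2) := by
    rw [sin_sN, ze, Complex.norm_add_mul_I, gp_v0 h, gp_v1 h]
  have h2 : sN (gp u v) ≤ Real.pi / 2 := by
    unfold sN
    rw [Real.arccos_le_pi_div_two]
    exact gp_v2 h
  have h3 := sN_nonneg (gp u v)
  refine ⟨h, ?_, ?_⟩
  · have h4 : u ≤ Real.sqrt (u ^ 2 + v ^ 2) := Real.le_sqrt_of_sq_le (by nlinarith)
    rw [← h1] at h4
    exact h4.trans (Real.sin_le h3)
  · have h4 : Real.sqrt (u ^ 2 + v ^ 2) ≤ 3 / 2 * u := by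
      rw [Real.sqrt_le_left (by positivity)]
      nlinarith
    have h5 := Real.mul_le_sin h3 h2
    rw [h1] at h5
    have h6 : 2 / Real.pi * sN (gp u v) ≤ 3 / 2 * u := h5.trans h4
    rw [div_mul_eq_mul_div, div_le_iff₀ (by positivity)] at h6
    have h7 : 3 / 2 * u * Real.pi ≤ 3 / 2 * u * 3.15 :=
      mul_le_mul_of_nonneg_left hpi2.le (by positivity)
    linarith

lemma key {C : ℝ} (hC : 0 < C) {s₁ : ℝ} (hs₁ : s₁ ≤ 1 / 2)
    (hdbl : ∀ (l : ℕ) (x : GS), 1 ≤ l → har l x = 0 → C / Real.sqrt (ev l) ≤ sN x → sN x ≤ s₁ →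
      C / (64 * sN x) ≤ dbl (har l) x (C / Real.sqrt (ev l))) {p : ℝ} (hp : 0 ≤ p)
    {l : ℕ} (hl : 1 ≤ l) {κ : Type} [Fintype κ] (x : κ → GS)
    (hcov : ∀ y : GS, ∃ i, y ∈ Metric.ball (x i) (C / Real.sqrt (ev l)))
    (hzero : ∀ i, har l (x i) = 0) (M : ℕ) (hM : 9 * (C / Real.sqrt (ev l)) * M ≤ s₁) :
    ∑ a ∈ Finset.range M, ((a : ℝ) + 1) * (C / (576 * (C / Real.sqrt (ev l)) * (a + 1))) ^ p ≤
      ∑ i, dbl (har l) (x i) (C / Real.sqrt (ev l)) ^ p := by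
  classical
  have hq0 : 0 < Real.sqrt (ev l) := by
    have h1 := (sqrt_ev hl).1
    have hl1 : (1 : ℝ) ≤ l := by exact_mod_cast hl
    linarith
  obtain ⟨r, hr⟩ : ∃ r, r = C / Real.sqrt (ev l) := ⟨_, rfl⟩
  have hr0 : 0 < r := by
    rw [hr]
    positivity
  rw [← hr] at hcov hM ⊢
  choose i hi using hcov
  let P : (Σ _ : ℕ, ℕ) → GS := fun j => gp (3 * r * ((j.1 : ℝ) + 1)) (3 * r * (j.2 : ℝ))
  let J : Finset (Σ _ : ℕ, ℕ) := (Finset.range M).sigma fun a => Finset.range (a + 1)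
  have hJ : ∀ j ∈ J, (j.1 : ℝ) + 1 ≤ M ∧ (j.2 : ℝ) ≤ (j.1 : ℝ) + 1 := by
    intro j hj
    rw [Finset.mem_sigma, Finset.mem_range, Finset.mem_range] at hj
    constructor
    · exact_mod_cast hj.1
    · exact_mod_cast hj.2.le
  have hP : ∀ j ∈ J, (3 * r * ((j.1 : ℝ) + 1)) ^ 2 + (3 * r * (j.2 : ℝ)) ^ 2 ≤ 1 ∧
      3 * r * ((j.1 : ℝ) + 1) ≤ sN (P j) ∧ sN (P j) ≤ 12 / 5 * (3 * r * ((j.1 : ℝ) + 1)) := by
    intro j hj
    obtain ⟨h1, h2⟩ := hJ j hj
    have h3 : r * ((j.1 : ℝ) + 1) ≤ r * M := mul_le_mul_of_nonneg_left h1 hr0.le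
    have h4 : 3 * r * (j.2 : ℝ) ≤ 3 * r * ((j.1 : ℝ) + 1) :=
      mul_le_mul_of_nonneg_left h2 (by positivity)
    exact sN_gp (by positivity) (by positivity) h4 (by linarith)
  have hinj : Set.InjOn (fun j => i (P j)) (J : Set (Σ _ : ℕ, ℕ)) := by
    intro j hj j' hj' hjj
    have hj := Finset.mem_coe.1 hj
    have hj' := Finset.mem_coe.1 hj'
    have hjj' : i (P j) = i (P j') := hjj
    have h1 : dist (P j) (P j') < 2 * r := by
      have h2 := hi (P j)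
      have h3 := hi (P j')
      rw [mem_ball] at h2 h3
      rw [hjj'] at h2
      have h4 := dist_triangle_right (P j) (P j') (x (i (P j')))
      linarith
    have h2 := chord (P j) (P j')
    have h3 : dist (P j) (P j') ^ 2 < (2 * r) ^ 2 := by
      have := dist_nonneg (x := P j) (y := P j')
      exact pow_lt_pow_left₀ h1 this two_ne_zero
    have e0 : (P j).v 0 = 3 * r * ((j.1 : ℝ) + 1) := gp_v0 (hP j hj).1
    have e1 : (P j).v 1 = 3 * r * (j.2 : ℝ) := gp_v1 (hP j hj).1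
    have e0' : (P j').v 0 = 3 * r * ((j'.1 : ℝ) + 1) := gp_v0 (hP j' hj').1
    have e1' : (P j').v 1 = 3 * r * (j'.2 : ℝ) := gp_v1 (hP j' hj').1
    rw [e0, e1, e0', e1'] at h2
    have h4 : (3 * r) ^ 2 * (((j.1 : ℝ) - j'.1) ^ 2 + ((j.2 : ℝ) - j'.2) ^ 2) < (2 * r) ^ 2 := by
      refine lt_of_le_of_lt (le_of_eq ?_) (h2.trans_lt h3)
      ring
    have h5 : ((j.1 : ℝ) - j'.1) ^ 2 + ((j.2 : ℝ) - j'.2) ^ 2 < 1 := by
      by_contra hc
      push Not at hc
      have h6 := mul_le_mul_of_nonneg_left hc (sq_nonneg (3 * r))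
      have h7 : 0 < r ^ 2 := by positivity
      have h8 : (3 * r) ^ 2 * 1 = 9 * r ^ 2 := by ring
      have h9 : (2 * r) ^ 2 = 4 * r ^ 2 := by ring
      rw [h8] at h6
      rw [h9] at h4
      linarith
    have h6 : ((j.1 : ℤ) - j'.1) ^ 2 + ((j.2 : ℤ) - j'.2) ^ 2 < 1 := by exact_mod_cast h5
    have h7 : ((j.1 : ℤ) - j'.1) ^ 2 = 0 := by
      have := sq_nonneg ((j.1 : ℤ) - j'.1)
      have := sq_nonneg ((j.2 : ℤ) - j'.2)
      omega
    have h8 : ((j.2 : ℤ) - j'.2) ^ 2 = 0 := by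
      have := sq_nonneg ((j.1 : ℤ) - j'.1)
      have := sq_nonneg ((j.2 : ℤ) - j'.2)
      omega
    have h9 : j.1 = j'.1 := by
      have := pow_eq_zero_iff (two_ne_zero) |>.1 h7
      omega
    have h10 : j.2 = j'.2 := by
      have := pow_eq_zero_iff (two_ne_zero) |>.1 h8
      omega
    exact Sigma.ext h9 (heq_of_eq h10)
  have hdn : ∀ k : κ, 0 ≤ dbl (har l) (x k) r ^ p := fun k => Real.rpow_nonneg (dbl_nonneg l _ hr0) _
  have hsum : ∑ j ∈ J, dbl (har l) (x (i (P j))) r ^ p ≤ ∑ k, dbl (har l) (x k) r ^ p := by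
    rw [← Finset.sum_image (f := fun k => dbl (har l) (x k) r ^ p) (g := fun j => i (P j)) hinj]
    exact Finset.sum_le_sum_of_subset_of_nonneg (Finset.subset_univ _) fun k _ _ => hdn k
  refine le_trans ?_ hsum
  rw [Finset.sum_sigma]
  apply Finset.sum_le_sum
  intro a ha
  have h1 : ∑ b ∈ Finset.range (a + 1), (C / (576 * r * (a + 1))) ^ p =
      ((a : ℝ) + 1) * (C / (576 * r * (a + 1))) ^ p := by
    rw [Finset.sum_const, Finset.card_range, nsmul_eq_mul]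
    push_cast
    rfl
  rw [← h1]
  apply Finset.sum_le_sum
  intro b hb
  have hjJ : (⟨a, b⟩ : Σ _ : ℕ, ℕ) ∈ J := Finset.mem_sigma.2 ⟨ha, hb⟩
  obtain ⟨h2, h3⟩ := hJ _ hjJ
  obtain ⟨-, h4, h5⟩ := hP _ hjJ
  have h6 := hi (P ⟨a, b⟩)
  rw [mem_ball] at h6
  have h7 := abs_le.1 (abs_sN_sub (P ⟨a, b⟩) (x (i (P ⟨a, b⟩))))
  have ha0 : (0 : ℝ) ≤ a := Nat.cast_nonneg a
  have h8 : 0 ≤ r * a := by positivity
  have h2' : r * ((a : ℝ) + 1) ≤ r * M := mul_le_mul_of_nonneg_left h2 hr0.le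
  have h4' : 3 * r * ((a : ℝ) + 1) ≤ sN (P ⟨a, b⟩) := h4
  have h5' : sN (P ⟨a, b⟩) ≤ 12 / 5 * (3 * r * ((a : ℝ) + 1)) := h5
  have h9 : r ≤ sN (x (i (P ⟨a, b⟩))) := by
    have : 3 * r * ((a : ℝ) + 1) = 3 * (r * a) + 3 * r := by ring
    linarith [h7.2]
  have h10 : sN (x (i (P ⟨a, b⟩))) ≤ 9 * (r * ((a : ℝ) + 1)) := by
    have : 3 * r * ((a : ℝ) + 1) = 3 * (r * ((a : ℝ) + 1)) := by ring
    have h11 : r ≤ r * ((a : ℝ) + 1) := by linarith [mul_add r (a : ℝ) 1]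
    linarith [h7.1]
  have h11 : sN (x (i (P ⟨a, b⟩))) ≤ s₁ := by linarith
  have h12 := hdbl l (x (i (P ⟨a, b⟩))) hl (hzero _) (by rw [← hr]; exact h9) h11
  rw [← hr] at h12
  apply Real.rpow_le_rpow (by positivity) _ hp
  refine le_trans ?_ h12
  apply div_le_div_of_nonneg_left hC.le
  · linarith
  · linarith

end Tw1

open Tw1

theorem tw1 : W1 := by
  intro C C₂ p hC hC₂ hp
  obtain ⟨s₀, hs₀, hdbl₀⟩ := dbl_ge hC
  obtain ⟨s₁, hs₁, hs₁2, hdbl⟩ : ∃ s₁ : ℝ, 0 < s₁ ∧ s₁ ≤ 1 / 2 ∧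
      ∀ (l : ℕ) (x : GS), 1 ≤ l → har l x = 0 → C / Real.sqrt (ev l) ≤ sN x → sN x ≤ s₁ →
      C / (64 * sN x) ≤ dbl (har l) x (C / Real.sqrt (ev l)) :=
    ⟨min s₀ (1 / 2), lt_min hs₀ (by norm_num), min_le_right _ _, fun l x h1 h2 h3 h4 =>
      hdbl₀ l x h1 h2 h3 (h4.trans (min_le_left _ _))⟩
  have hcardpos : ∀ (κ : Type) [Fintype κ] (x : κ → GS) (r : ℝ),
      (∀ y : GS, ∃ i, y ∈ Metric.ball (x i) r) → (0 : ℝ) < Fintype.card κ := by
    intro κ _ x r h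
    obtain ⟨i, -⟩ := h (pt 0 0)
    exact_mod_cast Fintype.card_pos_iff.2 ⟨i⟩
  by_cases hp2 : p = 2
  · subst hp2
    obtain ⟨l₁, hl₁⟩ := exists_nat_ge (max 1 ((s₁ / (9 * C))⁻¹ ^ 2))
    refine ⟨1 / (2 * 576 ^ 2 * C₂), by positivity, l₁, ?_⟩
    intro l hl κ _ x hcov hcard hzero
    have hl₁' : max 1 ((s₁ / (9 * C))⁻¹ ^ 2) ≤ (l : ℝ) := hl₁.trans (by exact_mod_cast hl)
    have hl1 : (1 : ℝ) ≤ l := (le_max_left _ _).trans hl₁'
    have hl2 : (s₁ / (9 * C))⁻¹ ^ 2 ≤ (l : ℝ) := (le_max_right _ _).trans hl₁'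
    have hl1' : 1 ≤ l := by exact_mod_cast hl1
    obtain ⟨hq1, hq2⟩ := sqrt_ev hl1'
    have hq0 : 0 < Real.sqrt (ev l) := by linarith
    have hev : 0 < ev l := by
      unfold ev
      positivity
    have hcp := hcardpos κ x _ hcov
    rw [if_pos rfl]
    obtain ⟨M, hM⟩ : ∃ M : ℕ, M = ⌊s₁ / (9 * (C / Real.sqrt (ev l)))⌋₊ := ⟨_, rfl⟩
    have hM1 : 9 * (C / Real.sqrt (ev l)) * M ≤ s₁ := by
      have h1 : (M : ℝ) ≤ s₁ / (9 * (C / Real.sqrt (ev l))) := by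
        rw [hM]
        exact Nat.floor_le (by positivity)
      rw [le_div_iff₀ (by positivity)] at h1
      linarith
    have hM2 : s₁ / (9 * C) * l ≤ (M : ℝ) + 1 := by
      have h1 : s₁ / (9 * (C / Real.sqrt (ev l))) < (M : ℝ) + 1 := by
        rw [hM]
        exact Nat.lt_floor_add_one _
      have h2 : s₁ / (9 * (C / Real.sqrt (ev l))) = s₁ / (9 * C) * Real.sqrt (ev l) := by
        field_simp
      rw [h2] at h1
      have h3 : s₁ / (9 * C) * l ≤ s₁ / (9 * C) * Real.sqrt (ev l) :=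
        mul_le_mul_of_nonneg_left hq1 (by positivity)
      linarith
    have hkey := key hC hs₁2 hdbl (p := 2) (by norm_num) hl1' x hcov hzero M hM1
    have hterm : ∀ a ∈ Finset.range M, ((a : ℝ) + 1) *
        (C / (576 * (C / Real.sqrt (ev l)) * (a + 1))) ^ (2 : ℝ) =
        ev l / 576 ^ 2 * ((a : ℝ) + 1)⁻¹ := by
      intro a _
      rw [Real.rpow_two]
      have h1 : C / (576 * (C / Real.sqrt (ev l)) * (a + 1)) =
          Real.sqrt (ev l) / (576 * ((a : ℝ) + 1)) := by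
        field_simp
      rw [h1, div_pow, Real.sq_sqrt hev.le]
      field_simp
    rw [Finset.sum_congr rfl hterm, ← Finset.mul_sum] at hkey
    have hharm : Real.log ((M : ℝ) + 1) ≤ ∑ a ∈ Finset.range M, ((a : ℝ) + 1)⁻¹ := by
      have h1 := log_add_one_le_harmonic M
      unfold harmonic at h1
      push_cast at h1
      exact h1
    have hlog : 1 / 2 * Real.log l ≤ Real.log ((M : ℝ) + 1) := by
      have h1 : Real.log (s₁ / (9 * C) * l) ≤ Real.log ((M : ℝ) + 1) :=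
        Real.log_le_log (by positivity) hM2
      rw [Real.log_mul (by positivity) (by positivity)] at h1
      have h2 : Real.log ((s₁ / (9 * C))⁻¹ ^ 2) ≤ Real.log l := Real.log_le_log (by positivity) hl2
      rw [Real.log_pow, Real.log_inv] at h2
      push_cast at h2
      linarith
    rw [le_div_iff₀ hcp]
    refine le_trans ?_ hkey
    have h3 : 0 ≤ Real.log l := Real.log_nonneg hl1
    have h4 : 1 / (2 * 576 ^ 2 * C₂) * Real.log l * (Fintype.card κ : ℝ) ≤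
        1 / (2 * 576 ^ 2 * C₂) * Real.log l * (C₂ * ev l) :=
      mul_le_mul_of_nonneg_left hcard (by positivity)
    refine h4.trans ?_
    have h5 : 1 / (2 * 576 ^ 2 * C₂) * Real.log l * (C₂ * ev l) =
        ev l / 576 ^ 2 * (1 / 2 * Real.log l) := by
      field_simp
    rw [h5]
    exact mul_le_mul_of_nonneg_left (hlog.trans hharm) (by positivity)
  · obtain ⟨l₁, hl₁⟩ := exists_nat_ge (max 1 (9 * C / s₁))
    refine ⟨1 / (2 * C₂ * 576 ^ p), by positivity, l₁, ?_⟩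
    intro l hl κ _ x hcov hcard hzero
    have hl₁' : max 1 (9 * C / s₁) ≤ (l : ℝ) := hl₁.trans (by exact_mod_cast hl)
    have hl1 : (1 : ℝ) ≤ l := (le_max_left _ _).trans hl₁'
    have hl2 : 9 * C / s₁ ≤ (l : ℝ) := (le_max_right _ _).trans hl₁'
    have hl1' : 1 ≤ l := by exact_mod_cast hl1
    obtain ⟨hq1, hq2⟩ := sqrt_ev hl1'
    have hq0 : 0 < Real.sqrt (ev l) := by linarith
    have hcp := hcardpos κ x _ hcov
    have hl0 : (0 : ℝ) < l := by linarith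
    rw [if_neg hp2]
    have hM1 : 9 * (C / Real.sqrt (ev l)) * ((1 : ℕ) : ℝ) ≤ s₁ := by
      rw [Nat.cast_one, mul_one, mul_div_assoc', div_le_iff₀ hq0]
      rw [div_le_iff₀ hs₁] at hl2
      have h1 := mul_le_mul_of_nonneg_left hq1 hs₁.le
      linarith
    have hkey := key hC hs₁2 hdbl (p := p) (by linarith) hl1' x hcov hzero 1 hM1
    rw [Finset.sum_range_one, Nat.cast_zero, zero_add, one_mul, mul_one] at hkey
    rw [le_div_iff₀ hcp]
    refine le_trans ?_ hkey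
    have h1 : C / (576 * (C / Real.sqrt (ev l))) = Real.sqrt (ev l) / 576 := by
      field_simp
    rw [h1]
    have h2 : ((l : ℝ) / 576) ^ p ≤ (Real.sqrt (ev l) / 576) ^ p :=
      Real.rpow_le_rpow (by positivity) (by linarith) (by linarith)
    refine le_trans ?_ h2
    rw [Real.div_rpow hl0.le (by norm_num)]
    have h3 : (l : ℝ) ^ p = (l : ℝ) ^ (p - 2) * (l : ℝ) ^ 2 := by
      rw [← Real.rpow_two, ← Real.rpow_add hl0]
      congr 1
      ring
    have h4 : (Fintype.card κ : ℝ) ≤ C₂ * (2 * (l : ℝ) ^ 2) := by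
      refine hcard.trans (mul_le_mul_of_nonneg_left ?_ hC₂.le)
      unfold ev
      nlinarith
    have h5 : 0 < (l : ℝ) ^ (p - 2) := Real.rpow_pos_of_pos hl0 _
    have h6 : (0 : ℝ) < 576 ^ p := Real.rpow_pos_of_pos (by norm_num) _
    have h7 : 1 / (2 * C₂ * 576 ^ p) * (l : ℝ) ^ (p - 2) * (Fintype.card κ : ℝ) ≤
        1 / (2 * C₂ * 576 ^ p) * (l : ℝ) ^ (p - 2) * (C₂ * (2 * (l : ℝ) ^ 2)) :=
      mul_le_mul_of_nonneg_left h4 (by positivity)
    refine h7.trans (le_of_eq ?_)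
    rw [h3]
    field_simp

end

end Pool.Agent.H303.NP
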