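import Pool.Agent.H303.NP.Sph

/-!
# Existence of admissible coverings of the round sphere by discs centred at zeros of `har l`
-/

set_option autoImplicit false
open MeasureTheory Filter Topology Complex Metric
open scoped ContDiff ComplexConjugate

namespace Pool.Agent.H303.NP.W2_

open Pool.Agent.H303.NP

noncomputable section

/-- chord and angle -/
lemma chord (x y : E3) (hx : ‖x‖ = 1) (hy : ‖y‖ = 1) :
    ‖x - y‖ = 2 * Real.sin (InnerProductGeometry.angle x y / 2) := by
  have h1 : Real.cos (InnerProductGeometry.angle x y) = inner ℝ x y := by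
    rw [InnerProductGeometry.cos_angle, hx, hy]; ring
  have h2 : ‖x - y‖ ^ 2 = 2 - 2 * inner ℝ x y := by
    rw [norm_sub_sq_real, hx, hy]; ring
  have h3 : Real.cos (InnerProductGeometry.angle x y) = 1 - 2 * Real.sin (InnerProductGeometry.angle x y / 2) ^ 2 := by
    have := Real.cos_two_mul (InnerProductGeometry.angle x y / 2)
    rw [mul_div_cancel₀ _ (two_ne_zero)] at this
    rw [this, Real.cos_sq']; ring
  have h4 : 0 ≤ Real.sin (InnerProductGeometry.angle x y / 2) :=
    Real.sin_nonneg_of_nonneg_of_le_pi (by have := InnerProductGeometry.angle_nonneg x y; linarith)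
      (by have := InnerProductGeometry.angle_le_pi x y; have := Real.pi_pos; linarith)
  have h5 : ‖x - y‖ ^ 2 = (2 * Real.sin (InnerProductGeometry.angle x y / 2)) ^ 2 := by
    rw [h2, ← h1, h3]; ring
  exact (pow_left_inj₀ (norm_nonneg _) (by positivity) two_ne_zero).1 h5

lemma chord_le (x y : E3) (hx : ‖x‖ = 1) (hy : ‖y‖ = 1) : ‖x - y‖ ≤ InnerProductGeometry.angle x y := by
  rw [chord x y hx hy]
  have h0 := InnerProductGeometry.angle_nonneg x y
  have := Real.sin_le (x := InnerProductGeometry.angle x y / 2) (by linarith)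
  linarith

lemma angle_le (x y : E3) (hx : ‖x‖ = 1) (hy : ‖y‖ = 1) :
    InnerProductGeometry.angle x y ≤ Real.pi / 2 * ‖x - y‖ := by
  rw [chord x y hx hy]
  have h0 := InnerProductGeometry.angle_nonneg x y
  have h1 := InnerProductGeometry.angle_le_pi x y
  have := Real.mul_le_sin (x := InnerProductGeometry.angle x y / 2) (by linarith) (by linarith)
  have hp := Real.pi_pos
  calc InnerProductGeometry.angle x y = Real.pi / 2 * (2 * (2 / Real.pi * (InnerProductGeometry.angle x y / 2))) := by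
        field_simp
    _ ≤ _ := by
        apply mul_le_mul_of_nonneg_left _ (by positivity)
        linarith

/-- packing of the unit sphere: volume of a shell -/
lemma shell (S : Finset E3) (ρ : ℝ) (h0 : 0 < ρ) (h1 : ρ < 1) (hS : ∀ c ∈ S, ‖c‖ = 1)
    (hsep : ∀ c ∈ S, ∀ d ∈ S, c ≠ d → 2 * ρ ≤ ‖c - d‖) :
    (S.card : ℝ) * ρ ^ 3 ≤ (1 + ρ) ^ 3 - (1 - ρ) ^ 3 := by
  have hfr : Module.finrank ℝ E3 = 3 := by simp
  set V : ENNReal := volume (ball (0 : E3) 1) with hV
  have hV0 : V ≠ 0 := (measure_ball_pos volume (0 : E3) one_pos).ne'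
  have hVt : V ≠ ⊤ := measure_ball_lt_top.ne
  have hvol : ∀ (c : E3) (s : ℝ), 0 ≤ s → volume (ball c s) = ENNReal.ofReal (s ^ 3) * V := by
    intro c s hs
    rw [Measure.addHaar_ball volume c hs, hfr]
  have hdisj : (S : Set E3).PairwiseDisjoint (fun c => ball c ρ) := by
    intro c hc d hd hcd
    apply ball_disjoint_ball
    rw [dist_eq_norm]
    linarith [hsep c hc d hd hcd]
  have hU : volume (⋃ c ∈ S, ball c ρ) = (S.card : ENNReal) * (ENNReal.ofReal (ρ ^ 3) * V) := by
    rw [measure_biUnion_finset hdisj (fun c _ => measurableSet_ball)]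
    rw [Finset.sum_congr rfl (fun c _ => hvol c ρ h0.le), Finset.sum_const, nsmul_eq_mul]
  have hd2 : Disjoint (⋃ c ∈ S, ball c ρ) (ball (0 : E3) (1 - ρ)) := by
    rw [Set.disjoint_left]
    intro p hp hp2
    simp only [Set.mem_iUnion, exists_prop] at hp
    obtain ⟨c, hc, hpc⟩ := hp
    rw [mem_ball_zero_iff] at hp2
    rw [mem_ball, dist_eq_norm] at hpc
    have := hS c hc
    have h3 : ‖c‖ ≤ ‖p‖ + ‖p - c‖ := by
      have := norm_sub_norm_le c p
      rw [norm_sub_rev] at this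
      linarith
    linarith
  have hsub : (⋃ c ∈ S, ball c ρ) ∪ ball (0 : E3) (1 - ρ) ⊆ ball (0 : E3) (1 + ρ) := by
    rintro p (hp | hp)
    · simp only [Set.mem_iUnion, exists_prop] at hp
      obtain ⟨c, hc, hpc⟩ := hp
      rw [mem_ball, dist_eq_norm] at hpc
      rw [mem_ball_zero_iff]
      have := hS c hc
      have h3 : ‖p‖ ≤ ‖c‖ + ‖p - c‖ := by
        have := norm_sub_norm_le p c
        linarith
      linarith
    · exact ball_subset_ball (by linarith) hp
  have hm := measure_mono (μ := volume) hsub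
  rw [measure_union hd2 measurableSet_ball, hU, hvol 0 (1 - ρ) (by linarith), hvol 0 (1 + ρ) (by linarith),
    ← mul_assoc, ← add_mul, ENNReal.mul_le_mul_iff_left hV0 hVt] at hm
  have hm2 := ENNReal.toReal_mono ENNReal.ofReal_ne_top hm
  rw [ENNReal.toReal_add (ENNReal.mul_ne_top (ENNReal.natCast_ne_top _) ENNReal.ofReal_ne_top) ENNReal.ofReal_ne_top,
    ENNReal.toReal_mul, ENNReal.toReal_natCast, ENNReal.toReal_ofReal (by positivity),
    ENNReal.toReal_ofReal (pow_nonneg (by linarith) _), ENNReal.toReal_ofReal (by positivity)] at hm2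
  linarith

/-- number of discs of radius `r` in the plane covering the unit disc -/
lemma area {ι : Type} [Fintype ι] (w : ι → ℂ) (r : ℝ) (h0 : 0 < r) (h : ∀ z : ℂ, ‖z‖ < 1 → ∃ i, ‖z - w i‖ < r) :
    1 ≤ (Fintype.card ι : ℝ) * r ^ 2 := by
  have hsub : ball (0 : ℂ) 1 ⊆ ⋃ i, ball (w i) r := by
    intro z hz
    rw [mem_ball_zero_iff] at hz
    obtain ⟨i, hi⟩ := h z hz
    exact Set.mem_iUnion.2 ⟨i, by rw [mem_ball, dist_eq_norm]; exact hi⟩
  have h1 := (measure_mono (μ := volume) hsub).trans (measure_iUnion_le _)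
  rw [tsum_fintype] at h1
  simp only [Complex.volume_ball, Finset.sum_const, nsmul_eq_mul, Finset.card_univ] at h1
  rw [← mul_assoc, ENNReal.mul_le_mul_iff_left (by simp [NNReal.pi_ne_zero]) (by simp)] at h1
  have h2 := ENNReal.toReal_mono (by
    apply ENNReal.mul_ne_top (ENNReal.natCast_ne_top _) (ENNReal.pow_ne_top ENNReal.ofReal_ne_top)) h1
  rw [ENNReal.toReal_mul, ENNReal.toReal_natCast, ENNReal.toReal_pow, ENNReal.toReal_pow,
    ENNReal.toReal_ofReal h0.le, ENNReal.toReal_ofReal zero_le_one] at h2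
  linarith

/-- maximal finite sets -/
lemma exists_max {α : Type} (P : Finset α → Prop) (N : ℕ) (h0 : P ∅) (hb : ∀ S, P S → S.card ≤ N) :
    ∃ S, P S ∧ ∀ T, P T → T.card ≤ S.card := by
  classical
  let A : Set ℕ := {k | ∃ S, P S ∧ S.card = k}
  have hA : A.Nonempty := ⟨0, ∅, h0, rfl⟩
  have hB : BddAbove A := ⟨N, by rintro k ⟨S, hS, rfl⟩; exact hb S hS⟩
  obtain ⟨S, hS, hc⟩ := Nat.sSup_mem hA hB
  exact ⟨S, hS, fun T hT => hc ▸ le_csSup hB ⟨T, hT, rfl⟩⟩

lemma ev_pos (l : ℕ) (hl : 1 ≤ l) : 0 < ev l := by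
  have : (1 : ℝ) ≤ l := by exact_mod_cast hl
  unfold ev; positivity

lemma sqrt_ev_le (l : ℕ) (hl : 1 ≤ l) : Real.sqrt (ev l) ≤ (3 / 2) * l := by
  have h1 : (1 : ℝ) ≤ l := by exact_mod_cast hl
  rw [Real.sqrt_le_left (by positivity)]
  unfold ev
  nlinarith

lemma sqrt_ev_ge (l : ℕ) (hl : 1 ≤ l) : (7 / 5 : ℝ) ≤ Real.sqrt (ev l) := by
  have h1 : (1 : ℝ) ≤ l := by exact_mod_cast hl
  apply Real.le_sqrt_of_sq_le
  unfold ev
  nlinarith

/-- zeros of `har l` near every point -/
lemma zero_near (l : ℕ) (hl : 1 ≤ l) (y : GS) : ∃ z : GS, har l z = 0 ∧ dist y z ≤ (5 / 2) / l := by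
  have hl1 : (1 : ℝ) ≤ l := by exact_mod_cast hl
  have hl0 : (0 : ℝ) < l := by linarith
  set w : ℂ := ((y.v 0 : ℝ) : ℂ) + ((y.v 1 : ℝ) : ℂ) * I with hw
  have hre : w.re = y.v 0 := by simp [hw]
  have him : w.im = y.v 1 := by simp [hw]
  set θ : ℝ := arg w with hθ
  set k : ℤ := ⌊(l : ℝ) * θ / Real.pi⌋ with hk
  set θ' : ℝ := ((k : ℝ) * Real.pi + Real.pi / 2) / l with hθ'
  have hpi := Real.pi_pos
  have hcos : Real.cos (l * θ') = 0 := by
    rw [hθ', mul_div_cancel₀ _ hl0.ne', Real.cos_add_pi_div_two, Real.sin_int_mul_pi, neg_zero]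
  have hk1 : (k : ℝ) * Real.pi ≤ l * θ := by
    have := Int.floor_le ((l : ℝ) * θ / Real.pi)
    rw [← hk, le_div_iff₀ hpi] at this
    exact this
  have hk2 : (l : ℝ) * θ < ((k : ℝ) + 1) * Real.pi := by
    have := Int.lt_floor_add_one ((l : ℝ) * θ / Real.pi)
    rw [← hk, div_lt_iff₀ hpi] at this
    exact this
  have hθd : |θ - θ'| ≤ Real.pi / 2 / l := by
    have e : θ - θ' = (l * θ - ((k : ℝ) * Real.pi + Real.pi / 2)) / l := by
      rw [hθ']; field_simp
    rw [e, abs_div, abs_of_pos hl0]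
    apply div_le_div_of_nonneg_right _ hl0.le
    rw [abs_le]
    constructor <;> nlinarith
  have hnw : ‖w‖ ^ 2 = (y.v 0) ^ 2 + (y.v 1) ^ 2 := by
    rw [Complex.sq_norm, Complex.normSq_apply, hre, him]; ring
  have hny : (y.v 0) ^ 2 + (y.v 1) ^ 2 + (y.v 2) ^ 2 = 1 := by
    have h := EuclideanSpace.norm_sq_eq y.v
    rw [y.norm_v, Fin.sum_univ_three] at h
    simp only [Real.norm_eq_abs, sq_abs] at h
    linarith
  have hw1 : ‖w‖ ≤ 1 := by
    have : ‖w‖ ^ 2 ≤ 1 := by rw [hnw]; nlinarith [sq_nonneg (y.v 2)]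
    nlinarith [norm_nonneg w]
  have h0 : y.v 0 = ‖w‖ * Real.cos θ := by
    rw [← hre]; exact (Complex.norm_mul_cos_arg w).symm
  have h1 : y.v 1 = ‖w‖ * Real.sin θ := by
    rw [← him]; exact (Complex.norm_mul_sin_arg w).symm
  let zv : E3 := !₂[‖w‖ * Real.cos θ', ‖w‖ * Real.sin θ', y.v 2]
  have hz0 : zv 0 = ‖w‖ * Real.cos θ' := rfl
  have hz1 : zv 1 = ‖w‖ * Real.sin θ' := rfl
  have hz2 : zv 2 = y.v 2 := rfl
  have hzn : ‖zv‖ = 1 := by
    have h := EuclideanSpace.norm_sq_eq zv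
    rw [Fin.sum_univ_three] at h
    simp only [Real.norm_eq_abs, sq_abs, hz0, hz1, hz2] at h
    have h2 : ‖zv‖ ^ 2 = 1 := by
      rw [h]
      have := Real.sin_sq_add_cos_sq θ'
      nlinarith
    nlinarith [norm_nonneg zv]
  refine ⟨⟨zv, by rw [mem_sphere_zero_iff_norm]; exact hzn⟩, ?_, ?_⟩
  · have e : (((zv 0 : ℝ) : ℂ) + ((zv 1 : ℝ) : ℂ) * I) ^ l = ((‖w‖ ^ l : ℝ) : ℂ) * (Complex.cos (l * θ') + Complex.sin (l * θ') * I) := by
      rw [hz0, hz1]
      rw [← Complex.cos_add_sin_mul_I_pow]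
      push_cast
      rw [← mul_pow]
      congr 1
      ring
    show ((((zv 0 : ℝ) : ℂ) + ((zv 1 : ℝ) : ℂ) * I) ^ l).re = 0
    rw [e]
    have e2 : Complex.cos (l * θ') = ((Real.cos (l * θ') : ℝ) : ℂ) := by push_cast; rfl
    have e3 : Complex.sin (l * θ') = ((Real.sin (l * θ') : ℝ) : ℂ) := by push_cast; rfl
    rw [e2, e3, hcos, Complex.re_ofReal_mul, Complex.add_re, Complex.ofReal_re, Complex.re_ofReal_mul, Complex.I_re]
    ring
  · show InnerProductGeometry.angle y.v zv ≤ _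
    have hd : ‖y.v - zv‖ ≤ Real.pi / 2 / l := by
      have h := EuclideanSpace.norm_sq_eq (y.v - zv)
      rw [Fin.sum_univ_three] at h
      simp only [Real.norm_eq_abs, sq_abs, PiLp.sub_apply, hz0, hz1, hz2, sub_self] at h
      rw [h0, h1] at h
      have hc := Real.one_sub_sq_div_two_le_cos (x := θ - θ')
      have hc2 : Real.cos (θ - θ') = Real.cos θ * Real.cos θ' + Real.sin θ * Real.sin θ' := Real.cos_sub θ θ'
      have s1 := Real.sin_sq_add_cos_sq θ
      have s2 := Real.sin_sq_add_cos_sq θ'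
      have e : ‖y.v - zv‖ ^ 2 = ‖w‖ ^ 2 * (2 - 2 * Real.cos (θ - θ')) := by
        rw [h, hc2]
        linear_combination (‖w‖ ^ 2) * s1 + (‖w‖ ^ 2) * s2
      have h2 : ‖y.v - zv‖ ^ 2 ≤ |θ - θ'| ^ 2 := by
        rw [e, sq_abs]
        have hw2 : ‖w‖ ^ 2 ≤ 1 := by nlinarith [norm_nonneg w]
        have h3 : 2 - 2 * Real.cos (θ - θ') ≤ (θ - θ') ^ 2 := by linarith
        have h4 : 0 ≤ 2 - 2 * Real.cos (θ - θ') := by linarith [Real.cos_le_one (θ - θ')]
        nlinarith [sq_nonneg ‖w‖]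
      exact ((pow_le_pow_iff_left₀ (norm_nonneg _) (abs_nonneg _) two_ne_zero).1 h2).trans hθd
    calc InnerProductGeometry.angle y.v zv ≤ Real.pi / 2 * ‖y.v - zv‖ := angle_le _ _ y.norm_v hzn
      _ ≤ Real.pi / 2 * (Real.pi / 2 / l) := mul_le_mul_of_nonneg_left hd (by positivity)
      _ = (Real.pi ^ 2 / 4) / l := by ring
      _ ≤ (5 / 2) / l := by
          apply div_le_div_of_nonneg_right _ hl0.le
          have := Real.pi_lt_d2
          nlinarith

/-- the multiplicity of the covering -/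
lemma mult (S : Finset GS) (r : ℝ) (h0 : 0 < r) (hS : ∀ c ∈ S, ∀ d ∈ S, c ≠ d → 4 / 5 * r ≤ dist c d) (y : GS)
    (hy : ∀ c ∈ S, dist y c < r) : S.card ≤ 125 := by
  classical
  let f : GS → E3 := fun c => (2 / r) • (c.v - y.v)
  have hfn : ∀ c ∈ S, ‖f c‖ ≤ 2 := by
    intro c hc
    simp only [f]
    rw [norm_smul, Real.norm_of_nonneg (by positivity)]
    have h1 := chord_le c.v y.v c.norm_v y.norm_v
    have h2 : InnerProductGeometry.angle c.v y.v < r := by
      have := hy c hc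
      rw [dist_comm] at this
      exact this
    calc 2 / r * ‖c.v - y.v‖ ≤ 2 / r * r := mul_le_mul_of_nonneg_left (h1.trans h2.le) (by positivity)
      _ = 2 := by field_simp
  have hfs : ∀ c ∈ S, ∀ d ∈ S, c ≠ d → 1 ≤ ‖f c - f d‖ := by
    intro c hc d hd hcd
    simp only [f]
    rw [← smul_sub, sub_sub_sub_cancel_right, norm_smul, Real.norm_of_nonneg (by positivity)]
    have h1 := angle_le c.v d.v c.norm_v d.norm_v
    have h2 : 4 / 5 * r ≤ InnerProductGeometry.angle c.v d.v := hS c hc d hd hcd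
    have hpi := Real.pi_lt_d2
    have hp0 := Real.pi_pos
    have h3 : r / 2 ≤ ‖c.v - d.v‖ := by
      by_contra hcon
      push Not at hcon
      have : Real.pi / 2 * ‖c.v - d.v‖ ≤ Real.pi / 2 * (r / 2) := mul_le_mul_of_nonneg_left hcon.le (by positivity)
      nlinarith
    calc (1 : ℝ) = 2 / r * (r / 2) := by field_simp
      _ ≤ _ := mul_le_mul_of_nonneg_left h3 (by positivity)
  have hinj : Set.InjOn f S := by
    intro c hc d hd hcd
    by_contra hne
    have := hfs c hc d hd hne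
    rw [hcd, sub_self, norm_zero] at this
    linarith
  have h := Besicovitch.card_le_of_separated (S.image f)
    (by
      intro c hc
      obtain ⟨a, ha, rfl⟩ := Finset.mem_image.1 hc
      exact hfn a ha)
    (by
      intro c hc d hd hcd
      obtain ⟨a, ha, rfl⟩ := Finset.mem_image.1 hc
      obtain ⟨b, hb, rfl⟩ := Finset.mem_image.1 hd
      exact hfs a ha b hb (fun e => hcd (by rw [e])))
  rw [Finset.card_image_of_injOn hinj] at h
  have hfr : Module.finrank ℝ E3 = 3 := by simp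
  rw [hfr] at h
  norm_num at h
  exact h

/-- number of separated points -/
lemma number (S : Finset GS) (r : ℝ) (h0 : 0 < r) (hr : r < 15) (hS : ∀ c ∈ S, ∀ d ∈ S, c ≠ d → 4 / 5 * r ≤ dist c d) :
    (S.card : ℝ) ≤ 6 * (15 / r) ^ 2 + 2 := by
  classical
  have hinj : Function.Injective GS.v := fun a b h => GS.ext_v h
  have h := shell (S.image GS.v) (r / 15) (by positivity) (by linarith)
    (by
      intro c hc
      obtain ⟨a, ha, rfl⟩ := Finset.mem_image.1 hc
      exact a.norm_v)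
    (by
      intro c hc d hd hcd
      obtain ⟨a, ha, rfl⟩ := Finset.mem_image.1 hc
      obtain ⟨b, hb, rfl⟩ := Finset.mem_image.1 hd
      have hab : a ≠ b := fun e => hcd (by rw [e])
      have h1 := angle_le a.v b.v a.norm_v b.norm_v
      have h2 : 4 / 5 * r ≤ InnerProductGeometry.angle a.v b.v := hS a ha b hb hab
      have hpi := Real.pi_lt_d2
      have hp0 := Real.pi_pos
      by_contra hcon
      push Not at hcon
      have : Real.pi / 2 * ‖a.v - b.v‖ ≤ Real.pi / 2 * (2 * (r / 15)) := mul_le_mul_of_nonneg_left hcon.le (by positivity)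
      nlinarith)
  rw [Finset.card_image_of_injective _ hinj] at h
  have e : (1 + r / 15) ^ 3 - (1 - r / 15) ^ 3 = (6 * (15 / r) ^ 2 + 2) * (r / 15) ^ 3 := by
    field_simp
    ring
  rw [e] at h
  exact le_of_mul_le_mul_right h (by positivity)

end

end Pool.Agent.H303.NP.W2_

namespace Pool.Agent.H303.NP

open W2_ in
theorem tw2 : W2 := by
  classical
  refine ⟨20, 125, 400, by norm_num, by norm_num, by norm_num, ?_⟩
  intro l hl
  have hl1 : (1 : ℝ) ≤ l := by exact_mod_cast hl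
  have hl0 : (0 : ℝ) < l := by linarith
  have hev := ev_pos l hl
  have hs0 : 0 < Real.sqrt (ev l) := Real.sqrt_pos.2 hev
  have hsq : Real.sqrt (ev l) ^ 2 = ev l := Real.sq_sqrt hev.le
  set r : ℝ := 20 / Real.sqrt (ev l) with hr
  have hr0 : 0 < r := by positivity
  have hr1 : r < 15 := by
    rw [hr, div_lt_iff₀ hs0]
    linarith [sqrt_ev_ge l hl]
  have hr2 : (5 / 2) / l < r / 5 := by
    rw [hr, div_div, div_div, div_lt_div_iff₀ (by positivity) (by positivity)]
    nlinarith [sqrt_ev_le l hl]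
  have hrr : r ^ 2 = 400 / ev l := by
    rw [hr, div_pow, hsq]; norm_num
  let P : Finset GS → Prop := fun S => (∀ c ∈ S, har l c = 0) ∧ ∀ c ∈ S, ∀ d ∈ S, c ≠ d → 4 / 5 * r ≤ dist c d
  have hb : ∀ S, P S → (S.card : ℝ) ≤ 6 * (15 / r) ^ 2 + 2 := fun S hS => number S r hr0 hr1 hS.2
  obtain ⟨S, hS, hmax⟩ := exists_max P ⌊6 * (15 / r) ^ 2 + 2⌋₊ (by simp [P]) (fun S hS => Nat.le_floor (hb S hS))
  have hcov : ∀ y : GS, ∃ c ∈ S, dist y c < r := by
    intro y
    obtain ⟨z, hz, hyz⟩ := zero_near l hl y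
    by_contra hcon
    push Not at hcon
    have hfar : ∀ c ∈ S, 4 / 5 * r < dist z c := by
      intro c hc
      have h1 := hcon c hc
      have h2 := dist_triangle y z c
      linarith
    have hzS : z ∉ S := by
      intro hzS
      have := hfar z hzS
      rw [dist_self] at this
      linarith
    have hP : P (insert z S) := by
      constructor
      · intro c hc
        rcases Finset.mem_insert.1 hc with rfl | hc
        · exact hz
        · exact hS.1 c hc
      · intro c hc d hd hcd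
        rcases Finset.mem_insert.1 hc with hc' | hc' <;> rcases Finset.mem_insert.1 hd with hd' | hd'
        · exact absurd (hc'.trans hd'.symm) hcd
        · rw [hc']; exact (hfar d hd').le
        · rw [hd', dist_comm]; exact (hfar c hc').le
        · exact hS.2 c hc' d hd' hcd
    have := hmax _ hP
    rw [Finset.card_insert_of_notMem hzS] at this
    omega
  refine ⟨S.card, fun i => (S.equivFin.symm i : GS), ?_, ?_, ?_, ?_, ?_⟩
  · intro y
    obtain ⟨c, hc, hd⟩ := hcov y
    refine ⟨S.equivFin ⟨c, hc⟩, ?_⟩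
    show y ∈ Metric.ball ((S.equivFin.symm (S.equivFin ⟨c, hc⟩) : S) : GS) r
    rw [Equiv.symm_apply_apply, mem_ball]
    exact hd
  · have h := area (fun c : S => (((c : GS).v 0 : ℝ) : ℂ) + (((c : GS).v 1 : ℝ) : ℂ) * I) r hr0 (by
      intro z hz
      have hz2 : ‖z‖ ^ 2 < 1 := by nlinarith [norm_nonneg z]
      have hz3 : ‖z‖ ^ 2 = z.re ^ 2 + z.im ^ 2 := by
        rw [Complex.sq_norm, Complex.normSq_apply]; ring
      let yv : E3 := !₂[z.re, z.im, Real.sqrt (1 - ‖z‖ ^ 2)]
      have hy0 : yv 0 = z.re := rfl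
      have hy1 : yv 1 = z.im := rfl
      have hy2 : yv 2 = Real.sqrt (1 - ‖z‖ ^ 2) := rfl
      have hyn : ‖yv‖ = 1 := by
        have h := EuclideanSpace.norm_sq_eq yv
        rw [Fin.sum_univ_three] at h
        simp only [Real.norm_eq_abs, sq_abs, hy0, hy1, hy2] at h
        rw [Real.sq_sqrt (by linarith)] at h
        have h2 : ‖yv‖ ^ 2 = 1 := by rw [h, hz3]; ring
        nlinarith [norm_nonneg yv]
      let y : GS := ⟨yv, by rw [mem_sphere_zero_iff_norm]; exact hyn⟩
      obtain ⟨c, hc, hd⟩ := hcov y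
      refine ⟨⟨c, hc⟩, ?_⟩
      have h1 : ‖yv - c.v‖ < r := (chord_le yv c.v hyn c.norm_v).trans_lt hd
      refine lt_of_le_of_lt ?_ h1
      have h2 := EuclideanSpace.norm_sq_eq (yv - c.v)
      rw [Fin.sum_univ_three] at h2
      simp only [Real.norm_eq_abs, sq_abs, PiLp.sub_apply, hy0, hy1, hy2] at h2
      have h3 : ‖z - (((c.v 0 : ℝ) : ℂ) + ((c.v 1 : ℝ) : ℂ) * I)‖ ^ 2 = (z.re - c.v 0) ^ 2 + (z.im - c.v 1) ^ 2 := by
        rw [Complex.sq_norm, Complex.normSq_apply]
        simp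
        ring
      have h4 : ‖z - (((c.v 0 : ℝ) : ℂ) + ((c.v 1 : ℝ) : ℂ) * I)‖ ^ 2 ≤ ‖yv - c.v‖ ^ 2 := by
        rw [h2, h3]
        nlinarith [sq_nonneg (Real.sqrt (1 - ‖z‖ ^ 2) - c.v 2)]
      exact (pow_le_pow_iff_left₀ (norm_nonneg _) (norm_nonneg _) two_ne_zero).1 h4)
    rw [Fintype.card_coe, hrr] at h
    have h2 : ev l ≤ (S.card : ℝ) * 400 := by
      calc ev l = 1 * ev l := (one_mul _).symm
        _ ≤ ((S.card : ℝ) * (400 / ev l)) * ev l := mul_le_mul_of_nonneg_right h hev.le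
        _ = (S.card : ℝ) * 400 := by field_simp
    linarith
  · have h := hb S hS
    have e : (15 / r) ^ 2 = 225 / 400 * ev l := by
      rw [div_pow, hrr]
      field_simp
      norm_num
    rw [e] at h
    have : 2 ≤ ev l := by unfold ev; nlinarith
    linarith
  · intro y
    let T : Finset GS := S.filter (fun c => dist y c < r)
    have hT : T.card ≤ 125 := mult T r hr0
      (fun c hc d hd hcd => hS.2 c (Finset.mem_filter.1 hc).1 d (Finset.mem_filter.1 hd).1 hcd) y
      (fun c hc => (Finset.mem_filter.1 hc).2)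
    have hle : ({i | y ∈ Metric.ball ((fun i => (S.equivFin.symm i : GS)) i) r} : Set (Fin S.card)).ncard ≤ T.card := by
      rw [← Set.ncard_coe_finset T]
      apply Set.ncard_le_ncard_of_injOn (fun i => ((S.equivFin.symm i : S) : GS))
      · intro i hi
        have hi : dist y ((S.equivFin.symm i : S) : GS) < r := hi
        rw [Finset.mem_coe, Finset.mem_filter]
        exact ⟨(S.equivFin.symm i).2, hi⟩
      · intro i _ j _ hij
        exact S.equivFin.symm.injective (Subtype.ext hij)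
    exact_mod_cast hle.trans hT
  · intro i
    exact hS.1 _ (S.equivFin.symm i).2

end Pool.Agent.H303.NP
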