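import Pool.Agent.H303.NP.Sph

/-!
# W3: the stereographic charts describe the round sphere (subtask by helper284)
-/

set_option autoImplicit false
open MeasureTheory Filter Topology Complex Metric
open scoped ContDiff ComplexConjugate RealInnerProductSpace

namespace Pool.Agent.H303.NP

namespace W3x

open Pool.Agent.Q73.NL Pool.Agent.Q73.AD

noncomputable section

/-! ## part W3a.lean -/


/-- the sign of the chart -/
def sg (b : Bool) : ℝ := if b then 1 else -1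

lemma sg_sq (b : Bool) : sg b ^ 2 = 1 := by
  cases b <;> simp [sg]

lemma nsq (z : ℂ) : ‖z‖ ^ 2 = z.re ^ 2 + z.im ^ 2 := by
  rw [Complex.sq_norm, Complex.normSq_apply]
  ring

lemma stv0 (b : Bool) (z : ℂ) : stv b z 0 = 2 * z.re / (1 + ‖z‖ ^ 2) := rfl

lemma stv1 (b : Bool) (z : ℂ) : stv b z 1 = 2 * z.im / (1 + ‖z‖ ^ 2) := rfl

lemma stv2 (b : Bool) (z : ℂ) : stv b z 2 = sg b * (‖z‖ ^ 2 - 1) / (1 + ‖z‖ ^ 2) := by
  have h : stv b z 2 = (if b then ‖z‖ ^ 2 - 1 else 1 - ‖z‖ ^ 2) / (1 + ‖z‖ ^ 2) := rfl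
  rw [h]
  cases b
  · simp [sg]
  · simp [sg]

/-- the chordal distance -/
lemma chord (b : Bool) (z w : ℂ) :
    ‖stv b z - stv b w‖ ^ 2 = 4 * ‖z - w‖ ^ 2 / ((1 + ‖z‖ ^ 2) * (1 + ‖w‖ ^ 2)) := by
  have h1 : 0 < 1 + ‖z‖ ^ 2 := by positivity
  have h2 : 0 < 1 + ‖w‖ ^ 2 := by positivity
  rw [EuclideanSpace.norm_sq_eq, Fin.sum_univ_three]
  simp only [PiLp.sub_apply, Real.norm_eq_abs, sq_abs, stv0, stv1, stv2]
  have h3 := sg_sq b
  have e1 : ‖z - w‖ ^ 2 = (z.re - w.re) ^ 2 + (z.im - w.im) ^ 2 := by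
    rw [nsq, Complex.sub_re, Complex.sub_im]
  have e2 : (sg b * (‖z‖ ^ 2 - 1) / (1 + ‖z‖ ^ 2) - sg b * (‖w‖ ^ 2 - 1) / (1 + ‖w‖ ^ 2)) ^ 2 =
      ((‖z‖ ^ 2 - 1) / (1 + ‖z‖ ^ 2) - (‖w‖ ^ 2 - 1) / (1 + ‖w‖ ^ 2)) ^ 2 := by
    have e3 : (sg b * (‖z‖ ^ 2 - 1) / (1 + ‖z‖ ^ 2) - sg b * (‖w‖ ^ 2 - 1) / (1 + ‖w‖ ^ 2)) =
        sg b * ((‖z‖ ^ 2 - 1) / (1 + ‖z‖ ^ 2) - (‖w‖ ^ 2 - 1) / (1 + ‖w‖ ^ 2)) := by ring
    rw [e3, mul_pow, h3, one_mul]
  rw [e2, e1]
  have h4 := nsq z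
  have h5 := nsq w
  rw [h4] at h1 ⊢
  rw [h5] at h2 ⊢
  field_simp
  ring

/-- the factor -/
def KK (z w : ℂ) : ℝ := 2 / √((1 + ‖z‖ ^ 2) * (1 + ‖w‖ ^ 2))

lemma KK_pos (z w : ℂ) : 0 < KK z w := by
  unfold KK
  positivity

lemma chord' (b : Bool) (z w : ℂ) : ‖stv b z - stv b w‖ = KK z w * ‖z - w‖ := by
  have h1 := chord b z w
  have h2 : (KK z w * ‖z - w‖) ^ 2 = 4 * ‖z - w‖ ^ 2 / ((1 + ‖z‖ ^ 2) * (1 + ‖w‖ ^ 2)) := by
    unfold KK
    rw [mul_pow, div_pow, Real.sq_sqrt (by positivity)]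
    ring
  rw [← h2] at h1
  exact (sq_eq_sq₀ (norm_nonneg _) (mul_nonneg (KK_pos z w).le (norm_nonneg _))).1 h1

lemma KK_self (z : ℂ) (b : Bool) : KK z z = √(stρ b z) := by
  unfold KK stρ
  rw [Real.sqrt_div (by norm_num : (0 : ℝ) ≤ 4), ← pow_two]
  congr 1
  rw [show (4 : ℝ) = 2 ^ 2 by norm_num, Real.sqrt_sq (by norm_num)]

lemma KK_cont (w : ℂ) : Continuous (fun z => KK z w) := by
  unfold KK
  refine continuous_const.div (Real.continuous_sqrt.comp ?_) (fun z => ?_)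
  · exact (continuous_const.add (continuous_norm.pow 2)).mul continuous_const
  · positivity

/-- chord and angle -/
lemma chord_angle (x y : GS) : ‖x.v - y.v‖ = 2 * Real.sin (dist x y / 2) := by
  have ha0 : 0 ≤ dist x y := dist_nonneg
  have ha1 : dist x y ≤ Real.pi := InnerProductGeometry.angle_le_pi _ _
  have h1 : ‖x.v - y.v‖ ^ 2 = 2 - 2 * Real.cos (dist x y) := by
    rw [norm_sub_sq_real, x.norm_v, y.norm_v, GS.dist_eq]
    have h2 := InnerProductGeometry.cos_angle_mul_norm_mul_norm x.v y.v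
    rw [x.norm_v, y.norm_v, mul_one, mul_one] at h2
    rw [h2]
    ring
  have h3 : (2 * Real.sin (dist x y / 2)) ^ 2 = 2 - 2 * Real.cos (dist x y) := by
    have h4 : Real.cos (dist x y) = Real.cos (2 * (dist x y / 2)) := by
      congr 1
      ring
    rw [h4, Real.cos_two_mul]
    have h5 := Real.sin_sq_add_cos_sq (dist x y / 2)
    nlinarith
  rw [← h3] at h1
  refine (sq_eq_sq₀ (norm_nonneg _) ?_).1 h1
  have := Real.sin_nonneg_of_nonneg_of_le_pi (x := dist x y / 2) (by linarith) (by linarith)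
  linarith

lemma chord_le (x y : GS) : ‖x.v - y.v‖ ≤ dist x y := by
  rw [chord_angle]
  have := Real.sin_le (x := dist x y / 2) (by linarith [dist_nonneg (x := x) (y := y)])
  linarith

lemma angle_le_chord (x y : GS) : dist x y ≤ ‖x.v - y.v‖ * (1 + ‖x.v - y.v‖ ^ 2) := by
  obtain ⟨a, ha⟩ : ∃ a, a = dist x y := ⟨_, rfl⟩
  have ha0 : 0 ≤ dist x y := dist_nonneg
  have ha1 : dist x y ≤ Real.pi := InnerProductGeometry.angle_le_pi _ _
  rw [chord_angle]
  rw [← ha] at ha0 ha1 ⊢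
  rcases ha0.eq_or_lt with h0 | h0
  · rw [← h0]
    simp
  have h1 := Real.mul_le_sin (x := a / 2) (by linarith) (by linarith)
  have h2 := Real.sin_gt_sub_cube (x := a / 2) (by linarith)
  have hpi := Real.pi_pos
  have hpi4 : Real.pi ≤ 4 := Real.pi_le_four
  have h3 : a ≤ 4 * Real.sin (a / 2) := by
    have h4 : a / Real.pi ≤ Real.sin (a / 2) := by
      have h5 : 2 / Real.pi * (a / 2) = a / Real.pi := by ring
      rwa [h5] at h1
    have h6 : a / 4 ≤ a / Real.pi := div_le_div_of_nonneg_left h0.le hpi hpi4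
    linarith
  have h7 : a ^ 3 ≤ (4 * Real.sin (a / 2)) ^ 3 := pow_le_pow_left₀ h0.le h3 3
  nlinarith


/-! ## part W3b.lean -/


lemma v_cont : Continuous (fun x : GS => x.v) := by
  refine LipschitzWith.continuous (K := 1) (LipschitzWith.of_dist_le_mul fun x y => ?_)
  rw [NNReal.coe_one, one_mul, dist_eq_norm]
  exact chord_le x y

/-- the inverse of the charts -/
def inv (b : Bool) (v : E3) : ℂ := ((v 0 : ℝ) + (v 1 : ℝ) * I) / ((1 - sg b * v 2 : ℝ) : ℂ)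

lemma den_stv (b : Bool) (z : ℂ) : 1 - sg b * stv b z 2 = 2 / (1 + ‖z‖ ^ 2) := by
  rw [stv2]
  have h1 : (1 + ‖z‖ ^ 2 : ℝ) ≠ 0 := by positivity
  have h2 : sg b * (sg b * (‖z‖ ^ 2 - 1) / (1 + ‖z‖ ^ 2)) =
      sg b ^ 2 * ((‖z‖ ^ 2 - 1) / (1 + ‖z‖ ^ 2)) := by ring
  rw [h2, sg_sq, one_mul]
  field_simp
  ring

lemma inv_stv (b : Bool) (z : ℂ) : inv b (stv b z) = z := by
  unfold inv
  rw [den_stv, stv0, stv1]
  have h1 : (1 + ‖z‖ ^ 2 : ℝ) ≠ 0 := by positivity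
  have h2 : ((2 / (1 + ‖z‖ ^ 2) : ℝ) : ℂ) ≠ 0 := by
    exact_mod_cast (by positivity : (2 / (1 + ‖z‖ ^ 2) : ℝ) ≠ 0)
  rw [div_eq_iff h2]
  have h3 : 2 * z.re / (1 + ‖z‖ ^ 2) = z.re * (2 / (1 + ‖z‖ ^ 2)) := by ring
  have h4 : 2 * z.im / (1 + ‖z‖ ^ 2) = z.im * (2 / (1 + ‖z‖ ^ 2)) := by ring
  rw [h3, h4, Complex.ofReal_mul, Complex.ofReal_mul]
  have h5 : ∀ t : ℂ, (z.re : ℂ) * t + (z.im : ℂ) * t * I = (z.re + z.im * I) * t := by
    intro t
    ring
  rw [h5, Complex.re_add_im]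

lemma nsq_inv (b : Bool) {v : E3} (hv : ‖v‖ = 1) (hd : 1 - sg b * v 2 ≠ 0) :
    ‖inv b v‖ ^ 2 = (1 + sg b * v 2) / (1 - sg b * v 2) := by
  unfold inv
  rw [norm_div, div_pow, Complex.norm_real, Real.norm_eq_abs, sq_abs, nsq]
  have h1 : (((v 0 : ℝ) : ℂ) + ((v 1 : ℝ) : ℂ) * I).re = v 0 := by simp
  have h2 : (((v 0 : ℝ) : ℂ) + ((v 1 : ℝ) : ℂ) * I).im = v 1 := by simp
  rw [h1, h2]
  have h3 : v 0 ^ 2 + v 1 ^ 2 + v 2 ^ 2 = 1 := by
    have h4 := EuclideanSpace.norm_sq_eq v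
    rw [hv, Fin.sum_univ_three] at h4
    simp only [Real.norm_eq_abs, sq_abs] at h4
    linarith
  have h5 := sg_sq b
  have h6 : v 0 ^ 2 + v 1 ^ 2 = (1 + sg b * v 2) * (1 - sg b * v 2) := by
    have h7 : (1 + sg b * v 2) * (1 - sg b * v 2) = 1 - sg b ^ 2 * v 2 ^ 2 := by ring
    rw [h7, h5]
    linarith
  rw [h6]
  field_simp

lemma stv_inv (b : Bool) {v : E3} (hv : ‖v‖ = 1) (hd : 1 - sg b * v 2 ≠ 0) :
    stv b (inv b v) = v := by
  have h1 := nsq_inv b hv hd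
  have h2 : 1 + ‖inv b v‖ ^ 2 = 2 / (1 - sg b * v 2) := by
    rw [h1]
    field_simp
    ring
  have hre : (inv b v).re = v 0 / (1 - sg b * v 2) := by
    unfold inv
    rw [Complex.div_ofReal_re]
    simp
  have him : (inv b v).im = v 1 / (1 - sg b * v 2) := by
    unfold inv
    rw [Complex.div_ofReal_im]
    simp
  have h5 := sg_sq b
  have c0 : stv b (inv b v) 0 = v 0 := by
    rw [stv0, h2, hre]
    field_simp
  have c1 : stv b (inv b v) 1 = v 1 := by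
    rw [stv1, h2, him]
    field_simp
  have c2 : stv b (inv b v) 2 = v 2 := by
    rw [stv2, h2, h1]
    have h6 : sg b * ((1 + sg b * v 2) / (1 - sg b * v 2) - 1) / (2 / (1 - sg b * v 2)) =
        sg b ^ 2 * v 2 := by
      field_simp
      ring
    rw [h6, h5, one_mul]
  ext i
  fin_cases i
  · exact c0
  · exact c1
  · exact c2

lemma stc_inv (b : Bool) {x : GS} (hd : 1 - sg b * x.v 2 ≠ 0) : stc b (inv b x.v) = x :=
  GS.ext_v (stv_inv b x.norm_v hd)

lemma stc_inj (b : Bool) : Function.Injective (stc b) := by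
  intro z w h
  have h1 : stv b z = stv b w := congrArg GS.v h
  rw [← inv_stv b z, h1, inv_stv]

lemma stv_cont (b : Bool) : Continuous (stv b) := by
  rw [continuous_iff_continuousAt]
  intro w
  rw [ContinuousAt, tendsto_iff_dist_tendsto_zero]
  simp only [dist_eq_norm, chord']
  have h1 : Continuous (fun z => KK z w * ‖z - w‖) :=
    (KK_cont w).mul (continuous_norm.comp (continuous_id.sub continuous_const))
  have h2 := h1.tendsto w
  rwa [sub_self, norm_zero, mul_zero] at h2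

lemma stc_cont (b : Bool) : Continuous (stc b) :=
  GS.of_cont.comp (Continuous.subtype_mk (stv_cont b) _)

lemma coord_cont (i : Fin 3) : Continuous (fun v : E3 => v i) :=
  (EuclideanSpace.proj (𝕜 := ℝ) i).continuous

lemma inv_cont (b : Bool) : ContinuousOn (inv b) {v | 1 - sg b * v 2 ≠ 0} := by
  unfold inv
  refine ContinuousOn.div ?_ ?_ ?_
  · refine Continuous.continuousOn ?_
    exact (Complex.continuous_ofReal.comp (coord_cont 0)).add
      ((Complex.continuous_ofReal.comp (coord_cont 1)).mul continuous_const)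
  · refine Continuous.continuousOn ?_
    exact Complex.continuous_ofReal.comp (continuous_const.sub (continuous_const.mul (coord_cont 2)))
  · intro v hv
    exact_mod_cast hv

lemma stc_open (b : Bool) {S : Set ℂ} (hS : IsOpen S) : IsOpen (stc b '' S) := by
  have h1 : IsOpen {x : GS | 1 - sg b * x.v 2 ≠ 0} :=
    isOpen_ne_fun (continuous_const.sub (continuous_const.mul ((coord_cont 2).comp v_cont)))
      continuous_const
  have h2 : ContinuousOn (fun x : GS => inv b x.v) {x : GS | 1 - sg b * x.v 2 ≠ 0} :=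
    (inv_cont b).comp v_cont.continuousOn (fun x hx => hx)
  have h3 := h2.isOpen_inter_preimage h1 hS
  have h4 : stc b '' S = {x : GS | 1 - sg b * x.v 2 ≠ 0} ∩ (fun x : GS => inv b x.v) ⁻¹' S := by
    ext x
    constructor
    · rintro ⟨z, hz, rfl⟩
      refine ⟨?_, ?_⟩
      · show 1 - sg b * stv b z 2 ≠ 0
        rw [den_stv]
        positivity
      · show inv b (stv b z) ∈ S
        rw [inv_stv]
        exact hz
    · rintro ⟨hx, hxS⟩
      exact ⟨inv b x.v, hxS, stc_inv b hx⟩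
  rw [h4]
  exact h3

lemma cover (x : GS) : ∃ b, x ∈ stc b '' stU b := by
  by_cases h : x.v 2 ≤ 0
  · refine ⟨true, inv true x.v, Set.mem_univ _, stc_inv true ?_⟩
    have h1 : sg true = 1 := rfl
    rw [h1]
    intro h2
    linarith
  · push Not at h
    refine ⟨false, inv false x.v, Set.mem_univ _, stc_inv false ?_⟩
    have h1 : sg false = -1 := rfl
    rw [h1]
    intro h2
    linarith

lemma dens : ContDiff ℝ 1 (fun z : ℂ => 4 / (1 + ‖z‖ ^ 2) ^ 2) := by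
  have h1 : ContDiff ℝ 1 (fun z : ℂ => ‖z‖ ^ 2) := contDiff_norm_sq ℝ
  refine contDiff_const.div ((contDiff_const.add h1).pow 2) (fun z => ?_)
  positivity

/-- the transition map -/
lemma stv_tr (b : Bool) {z : ℂ} (hz : z ≠ 0) : stv (!b) (conj z)⁻¹ = stv b z := by
  have hn : ‖(conj z)⁻¹‖ ^ 2 = (‖z‖ ^ 2)⁻¹ := by
    rw [norm_inv, Complex.norm_conj, inv_pow]
  have h0 : ‖z‖ ^ 2 ≠ 0 := pow_ne_zero _ (norm_ne_zero_iff.2 hz)
  have hre : ((conj z)⁻¹).re = z.re / ‖z‖ ^ 2 := by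
    rw [Complex.inv_re, Complex.conj_re, Complex.normSq_conj, Complex.normSq_eq_norm_sq]
  have him : ((conj z)⁻¹).im = z.im / ‖z‖ ^ 2 := by
    rw [Complex.inv_im, Complex.conj_im, Complex.normSq_conj, Complex.normSq_eq_norm_sq, neg_neg]
  have hsg : sg (!b) = -sg b := by
    cases b <;> simp [sg]
  have h1 : (1 + ‖z‖ ^ 2 : ℝ) ≠ 0 := by positivity
  have h2 : (1 + (‖z‖ ^ 2)⁻¹ : ℝ) ≠ 0 := by positivity
  have c0 : stv (!b) (conj z)⁻¹ 0 = stv b z 0 := by
    rw [stv0, stv0, hn, hre]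
    field_simp
    ring
  have c1 : stv (!b) (conj z)⁻¹ 1 = stv b z 1 := by
    rw [stv1, stv1, hn, him]
    field_simp
    ring
  have c2 : stv (!b) (conj z)⁻¹ 2 = stv b z 2 := by
    rw [stv2, stv2, hn, hsg]
    field_simp
    ring
  ext i
  fin_cases i
  · exact c0
  · exact c1
  · exact c2

lemma stc_tr (b : Bool) {z : ℂ} (hz : z ≠ 0) : stc (!b) (conj z)⁻¹ = stc b z :=
  GS.ext_v (stv_tr b hz)

lemma trans_ne (b : Bool) {z w : ℂ} (h : stc b z = stc (!b) w) : z ≠ 0 ∧ w = (conj z)⁻¹ := by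
  have hz : z ≠ 0 := by
    rintro rfl
    have h1 : stv b 0 2 = stv (!b) w 2 := congrArg (fun x : GS => x.v 2) h
    have h2 := den_stv (!b) w
    have hsg : sg (!b) = -sg b := by
      cases b <;> simp [sg]
    rw [← h1, stv2, hsg] at h2
    have h3 := sg_sq b
    have h4 : 1 - -sg b * (sg b * (‖(0 : ℂ)‖ ^ 2 - 1) / (1 + ‖(0 : ℂ)‖ ^ 2)) = 1 - sg b ^ 2 := by
      rw [norm_zero]
      ring
    rw [h4, h3, sub_self] at h2
    have h5 : 0 < 2 / (1 + ‖w‖ ^ 2) := by positivity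
    linarith
  refine ⟨hz, ?_⟩
  rw [← stc_tr b hz] at h
  exact (stc_inj (!b) h).symm

lemma hasFDeriv_tr {z : ℂ} (hz : z ≠ 0) :
    ∃ L : ℂ →L[ℝ] ℂ, HasFDerivAt (fun x : ℂ => (conj x)⁻¹) L z ∧ ∀ v, ‖L v‖ = ‖v‖ / ‖z‖ ^ 2 := by
  have hcz : conj z ≠ 0 := by
    rw [Ne, map_eq_zero]
    exact hz
  have h1 : HasFDerivAt (fun x : ℂ => x⁻¹) ((ContinuousLinearMap.smulRight (1 : ℂ →L[ℂ] ℂ)
      (-((conj z) ^ 2)⁻¹)).restrictScalars ℝ) (conj z) :=
    ((hasDerivAt_inv hcz).hasFDerivAt).restrictScalars ℝ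
  have h2 : HasFDerivAt (fun x : ℂ => conj x) (Complex.conjCLE : ℂ →L[ℝ] ℂ) z :=
    Complex.conjCLE.hasFDerivAt
  refine ⟨_, h1.comp z h2, fun v => ?_⟩
  have h3 : (((ContinuousLinearMap.smulRight (1 : ℂ →L[ℂ] ℂ)
      (-((conj z) ^ 2)⁻¹)).restrictScalars ℝ).comp (Complex.conjCLE : ℂ →L[ℝ] ℂ)) v =
      conj v * (-((conj z) ^ 2)⁻¹) := rfl
  rw [h3, norm_mul, norm_neg, norm_inv, norm_pow, Complex.norm_conj, Complex.norm_conj]
  rfl

lemma trans (i j : Bool) (z w : ℂ) (h : stc i z = stc j w) : ∃ τ : ℂ → ℂ, τ z = w ∧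
    (∀ᶠ z' in 𝓝 z, τ z' ∈ stU j ∧ stc j (τ z') = stc i z') ∧ DifferentiableAt ℝ τ z ∧
    ∀ v : ℂ, stρ j w * ‖fderiv ℝ τ z v‖ ^ 2 = stρ i z * ‖v‖ ^ 2 := by
  by_cases hij : j = i
  · subst hij
    have hzw := stc_inj j h
    subst hzw
    refine ⟨id, rfl, Eventually.of_forall fun z' => ⟨Set.mem_univ _, rfl⟩, differentiableAt_id, ?_⟩
    intro v
    rw [fderiv_id]
    rfl
  · have hj : j = !i := by
      cases i <;> cases j <;> simp at hij ⊢
    subst hj
    obtain ⟨hz, hw⟩ := trans_ne i h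
    obtain ⟨L, hL, hLn⟩ := hasFDeriv_tr hz
    refine ⟨fun x => (conj x)⁻¹, hw.symm, ?_, hL.differentiableAt, fun v => ?_⟩
    · filter_upwards [isOpen_ne.mem_nhds hz] with z' hz'
      exact ⟨Set.mem_univ _, stc_tr i hz'⟩
    · rw [hL.fderiv, hLn, hw]
      unfold stρ
      have hn : ‖(conj z)⁻¹‖ ^ 2 = (‖z‖ ^ 2)⁻¹ := by
        rw [norm_inv, Complex.norm_conj, inv_pow]
      have h0 : ‖z‖ ≠ 0 := norm_ne_zero_iff.2 hz
      have h1 : (1 + ‖z‖ ^ 2 : ℝ) ≠ 0 := by positivity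
      have h2 : (1 + (‖z‖ ^ 2)⁻¹ : ℝ) ≠ 0 := by positivity
      rw [hn]
      field_simp
      ring


/-! ## part W3c.lean -/


/-- the speed of a curve in a chart -/
lemma chord_slope (b : Bool) {γ : ℝ → ℂ} {γ' : ℂ} {t : ℝ} (h : HasDerivAt γ γ' t) :
    Tendsto (fun z => ‖stv b (γ t) - stv b (γ z)‖ / |z - t|) (𝓝[≠] t)
      (𝓝 (√(stρ b (γ t)) * ‖γ'‖)) := by
  have h1 : Tendsto (fun z => ‖slope γ t z‖) (𝓝[≠] t) (𝓝 ‖γ'‖) := h.tendsto_slope.norm
  have h2 : Tendsto (fun z => KK (γ z) (γ t)) (𝓝[≠] t) (𝓝 (KK (γ t) (γ t))) :=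
    (((KK_cont (γ t)).tendsto _).comp h.continuousAt.tendsto).mono_left nhdsWithin_le_nhds
  have h3 := h2.mul h1
  rw [KK_self _ b] at h3
  refine h3.congr fun z => ?_
  rw [slope_def_module, norm_smul, norm_inv, Real.norm_eq_abs, norm_sub_rev (stv b (γ t)), chord']
  ring

/-- continuity of the speed -/
lemma speed_cont (b : Bool) {γ : ℝ → ℂ} (h : ContDiff ℝ 1 γ) :
    Continuous (fun t => √(stρ b (γ t)) * ‖deriv γ t‖) := by
  have h1 : Continuous (stρ b) := dens.continuous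
  have h2 : Continuous (deriv γ) := h.continuous_deriv le_rfl
  exact (Real.continuous_sqrt.comp (h1.comp h.continuous)).mul (continuous_norm.comp h2)

/-- the lower bound for the length of one piece -/
lemma length_ge (b : Bool) {γ : ℝ → ℂ} (h : ContDiff ℝ 1 γ) :
    dist (stc b (γ 0)) (stc b (γ 1)) ≤
      ∫ t in (0 : ℝ)..1, Real.sqrt (stρ b (γ t)) * ‖deriv γ t‖ := by
  obtain ⟨F, hF⟩ : ∃ F : ℝ → ℝ, F = fun t => √(stρ b (γ t)) * ‖deriv γ t‖ := ⟨_, rfl⟩
  have hFc : Continuous F := by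
    rw [hF]
    exact speed_cont b h
  have hder : ∀ t, HasDerivAt (fun s => ∫ τ in (0 : ℝ)..s, F τ) (F t) t := fun t =>
    (hFc.integral_hasStrictDerivAt 0 t).hasDerivAt
  have hfc : Continuous (fun t => dist (stc b (γ 0)) (stc b (γ t))) :=
    continuous_const.dist ((stc_cont b).comp h.continuous)
  have key := image_le_of_liminf_slope_right_le_deriv_boundary
    (f := fun t => dist (stc b (γ 0)) (stc b (γ t))) (a := 0) (b := 1)
    hfc.continuousOn (B := fun s => ∫ τ in (0 : ℝ)..s, F τ) (B' := F) ?_ ?_ ?_ ?_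
    (x := 1) ⟨zero_le_one, le_rfl⟩
  · rw [hF] at key
    exact key
  · simp
  · exact fun t _ => (hder t).continuousAt.continuousWithinAt
  · exact fun t _ => (hder t).hasDerivWithinAt
  · intro t _ r hr
    refine Eventually.frequently ?_
    have hγ : HasDerivAt γ (deriv γ t) t :=
      (h.differentiable one_ne_zero t).hasDerivAt
    have h1 := chord_slope b hγ
    have h2 : Tendsto (fun z => ‖stv b (γ t) - stv b (γ z)‖) (𝓝[≠] t) (𝓝 0) := by
      have h3 : Continuous (fun z => ‖stv b (γ t) - stv b (γ z)‖) :=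
        continuous_norm.comp (continuous_const.sub ((stv_cont b).comp h.continuous))
      have h4 := h3.tendsto t
      rw [sub_self, norm_zero] at h4
      exact h4.mono_left nhdsWithin_le_nhds
    have h3 : Tendsto (fun z => ‖stv b (γ t) - stv b (γ z)‖ / |z - t| *
        (1 + ‖stv b (γ t) - stv b (γ z)‖ ^ 2)) (𝓝[≠] t) (𝓝 (F t)) := by
      have h4 := h1.mul ((h2.pow 2).const_add 1)
      have h5 : √(stρ b (γ t)) * ‖deriv γ t‖ * (1 + 0 ^ 2) = F t := by
        rw [hF]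
        ring
      rw [h5] at h4
      exact h4
    have h6 : ∀ᶠ z in 𝓝[>] t, ‖stv b (γ t) - stv b (γ z)‖ / |z - t| *
        (1 + ‖stv b (γ t) - stv b (γ z)‖ ^ 2) < r :=
      (h3.mono_left (nhdsWithin_mono t fun z hz => ne_of_gt hz)).eventually (gt_mem_nhds hr)
    filter_upwards [h6, self_mem_nhdsWithin] with z hz hzt
    have hzt' : 0 < z - t := sub_pos.2 hzt
    refine lt_of_le_of_lt ?_ hz
    rw [slope_def_field, div_mul_eq_mul_div, abs_of_pos hzt']
    refine div_le_div_of_nonneg_right ?_ hzt'.le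
    have h7 := dist_triangle (stc b (γ 0)) (stc b (γ t)) (stc b (γ z))
    have h8 := angle_le_chord (stc b (γ t)) (stc b (γ z))
    rw [stc_v, stc_v] at h8
    linarith

/-- all lengths are at least the distance -/
lemma lengths_ge {x y : GS} {l : ℝ} (hl : l ∈ Lengths stU stc stρ x y) : dist x y ≤ l := by
  obtain ⟨n, i, γ, P, h0, hn, hk, rfl⟩ := hl
  rw [← h0, ← hn]
  refine (dist_le_range_sum_dist P n).trans (Finset.sum_le_sum fun k hkn => ?_)
  obtain ⟨h1, -, h3, h4⟩ := hk k (Finset.mem_range.1 hkn)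
  rw [← h3, ← h4]
  exact length_ge (i k) h1


/-! ## part W3.lean -/


/-- an orthonormal pair -/
structure Orth (x u : E3) : Prop where
  nx : ‖x‖ = 1
  nu : ‖u‖ = 1
  ip : ⟪x, u⟫ = 0

lemma inner3 (x y : E3) : ⟪x, y⟫ = x 0 * y 0 + x 1 * y 1 + x 2 * y 2 := by
  rw [PiLp.inner_apply, Fin.sum_univ_three]
  simp only [RCLike.inner_apply, conj_trivial]
  ring

lemma exists_orth (x : E3) (hx : ‖x‖ = 1) : ∃ u, Orth x u := by
  have h1 : x 0 ^ 2 + x 1 ^ 2 + x 2 ^ 2 = 1 := by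
    have h4 := EuclideanSpace.norm_sq_eq x
    rw [hx, Fin.sum_univ_three] at h4
    simp only [Real.norm_eq_abs, sq_abs] at h4
    linarith
  by_cases h : x 0 ^ 2 + x 1 ^ 2 = 0
  · refine ⟨!₂[1, 0, 0], hx, ?_, ?_⟩
    · have h2 : ‖(!₂[1, 0, 0] : E3)‖ ^ 2 = 1 := by
        rw [EuclideanSpace.norm_sq_eq, Fin.sum_univ_three]
        simp
      nlinarith [norm_nonneg (!₂[1, 0, 0] : E3)]
    · have h3 : x 0 = 0 := by nlinarith [sq_nonneg (x 0), sq_nonneg (x 1)]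
      rw [inner3, h3]
      simp
  · have h0 : 0 < x 0 ^ 2 + x 1 ^ 2 := lt_of_le_of_ne (by positivity) (Ne.symm h)
    obtain ⟨r, hr, hr2⟩ : ∃ r : ℝ, 0 < r ∧ r ^ 2 = x 0 ^ 2 + x 1 ^ 2 :=
      ⟨√(x 0 ^ 2 + x 1 ^ 2), Real.sqrt_pos.2 h0, Real.sq_sqrt h0.le⟩
    refine ⟨!₂[-(x 1 / r), x 0 / r, 0], hx, ?_, ?_⟩
    · have h2 : ‖(!₂[-(x 1 / r), x 0 / r, 0] : E3)‖ ^ 2 = 1 := by
        rw [EuclideanSpace.norm_sq_eq, Fin.sum_univ_three]
        have e0 : (!₂[-(x 1 / r), x 0 / r, 0] : E3) 0 = -(x 1 / r) := rfl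
        have e1 : (!₂[-(x 1 / r), x 0 / r, 0] : E3) 1 = x 0 / r := rfl
        have e2 : (!₂[-(x 1 / r), x 0 / r, 0] : E3) 2 = 0 := rfl
        rw [e0, e1, e2]
        simp only [Real.norm_eq_abs, sq_abs]
        field_simp
        rw [hr2]
        ring
      nlinarith [norm_nonneg (!₂[-(x 1 / r), x 0 / r, 0] : E3)]
    · have e0 : (!₂[-(x 1 / r), x 0 / r, 0] : E3) 0 = -(x 1 / r) := rfl
      have e1 : (!₂[-(x 1 / r), x 0 / r, 0] : E3) 1 = x 0 / r := rfl
      have e2 : (!₂[-(x 1 / r), x 0 / r, 0] : E3) 2 = 0 := rfl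
      rw [inner3, e0, e1, e2]
      ring

/-- the great circle through two points -/
lemma exists_circle (x y : GS) : ∃ u, Orth x.v u ∧
    y.v = Real.cos (dist x y) • x.v + Real.sin (dist x y) • u := by
  obtain ⟨L, hL⟩ : ∃ L, L = dist x y := ⟨_, rfl⟩
  have hL0 : 0 ≤ L := hL ▸ dist_nonneg
  have hL1 : L ≤ Real.pi := hL ▸ InnerProductGeometry.angle_le_pi _ _
  have hin : ⟪x.v, y.v⟫ = Real.cos L := by
    have h2 := InnerProductGeometry.cos_angle_mul_norm_mul_norm x.v y.v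
    rw [x.norm_v, y.norm_v, mul_one, mul_one] at h2
    rw [← h2, hL, GS.dist_eq]
  rw [← hL]
  have hnorm : ‖y.v - Real.cos L • x.v‖ ^ 2 = Real.sin L ^ 2 := by
    rw [norm_sub_sq_real, y.norm_v, norm_smul, x.norm_v, inner_smul_right, real_inner_comm, hin,
      mul_one, Real.norm_eq_abs, sq_abs]
    have := Real.sin_sq_add_cos_sq L
    nlinarith
  have hsn : 0 ≤ Real.sin L := Real.sin_nonneg_of_nonneg_of_le_pi hL0 hL1
  by_cases hs : Real.sin L = 0
  · obtain ⟨u, hu⟩ := exists_orth x.v x.norm_v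
    refine ⟨u, hu, ?_⟩
    rw [hs, zero_smul, add_zero]
    rw [hs, zero_pow two_ne_zero, sq_eq_zero_iff, norm_eq_zero, sub_eq_zero] at hnorm
    exact hnorm
  · have hs0 : 0 < Real.sin L := lt_of_le_of_ne hsn (Ne.symm hs)
    have hn1 : ‖y.v - Real.cos L • x.v‖ = Real.sin L :=
      (sq_eq_sq₀ (norm_nonneg _) hsn).1 hnorm
    refine ⟨(Real.sin L)⁻¹ • (y.v - Real.cos L • x.v), ⟨x.norm_v, ?_, ?_⟩, ?_⟩
    · rw [norm_smul, hn1, Real.norm_eq_abs, abs_inv, abs_of_pos hs0, inv_mul_cancel₀ hs]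
    · rw [inner_smul_right, inner_sub_right, inner_smul_right, hin, real_inner_self_eq_norm_sq,
        x.norm_v]
      ring
    · rw [smul_smul, mul_inv_cancel₀ hs, one_smul, add_sub_cancel]

/-- the great circle -/
def cr (x u : E3) (t : ℝ) : E3 := Real.cos t • x + Real.sin t • u

lemma cr_apply (x u : E3) (t : ℝ) (i : Fin 3) :
    cr x u t i = Real.cos t * x i + Real.sin t * u i := rfl

lemma norm_comb {x u : E3} (h : Orth x u) (a b : ℝ) : ‖a • x + b • u‖ ^ 2 = a ^ 2 + b ^ 2 := by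
  rw [norm_add_sq_real, norm_smul, norm_smul, h.nx, h.nu, inner_smul_left, inner_smul_right, h.ip]
  simp

lemma cr_norm {x u : E3} (h : Orth x u) (t : ℝ) : ‖cr x u t‖ = 1 := by
  have h1 : ‖cr x u t‖ ^ 2 = 1 := by
    unfold cr
    rw [norm_comb h, Real.cos_sq_add_sin_sq]
  nlinarith [norm_nonneg (cr x u t)]

lemma cr_sub {x u : E3} (h : Orth x u) (s t : ℝ) :
    ‖cr x u s - cr x u t‖ ^ 2 = (2 * Real.sin ((t - s) / 2)) ^ 2 := by
  have h1 : cr x u s - cr x u t = (Real.cos s - Real.cos t) • x + (Real.sin s - Real.sin t) • u := by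
    unfold cr
    module
  rw [h1, norm_comb h]
  have h2 : Real.cos (t - s) = 1 - 2 * Real.sin ((t - s) / 2) ^ 2 := by
    have h3 : Real.cos (t - s) = Real.cos (2 * ((t - s) / 2)) := by
      congr 1
      ring
    rw [h3, Real.cos_two_mul]
    have := Real.sin_sq_add_cos_sq ((t - s) / 2)
    linarith
  rw [Real.cos_sub] at h2
  have h4 := Real.sin_sq_add_cos_sq s
  have h5 := Real.sin_sq_add_cos_sq t
  nlinarith

lemma cr_inner {x u : E3} (h : Orth x u) (s t : ℝ) :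
    ⟪cr x u s, cr x u t⟫ = Real.cos (s - t) := by
  have h1 : ⟪u, x⟫ = 0 := by rw [real_inner_comm]; exact h.ip
  unfold cr
  simp only [inner_add_left, inner_add_right, inner_smul_left, inner_smul_right, h.ip, h1,
    real_inner_self_eq_norm_sq, h.nx, h.nu, conj_trivial]
  rw [Real.cos_sub]
  ring

/-- on a short arc one of the charts can be used -/
lemma exists_chart {x u : E3} (h : Orth x u) (t₀ L : ℝ) (hL1 : L ≤ Real.pi / 2) :
    ∃ b, ∀ t, t₀ ≤ t → t ≤ t₀ + L → 1 - sg b * cr x u t 2 ≠ 0 := by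
  by_cases hb : ∀ t, t₀ ≤ t → t ≤ t₀ + L → 1 - sg true * cr x u t 2 ≠ 0
  · exact ⟨true, hb⟩
  · push Not at hb
    obtain ⟨s, hs0, hs1, hs⟩ := hb
    refine ⟨false, fun t ht0 ht1 => ?_⟩
    have e1 : sg true = 1 := rfl
    have e2 : sg false = -1 := rfl
    rw [e1, one_mul] at hs
    rw [e2]
    have h2 : cr x u s 2 = 1 := by linarith
    have h3 := EuclideanSpace.norm_sq_eq (cr x u s)
    rw [cr_norm h, Fin.sum_univ_three] at h3
    simp only [Real.norm_eq_abs, sq_abs] at h3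
    rw [h2] at h3
    have h4 : cr x u s 0 = 0 := by nlinarith [sq_nonneg (cr x u s 0), sq_nonneg (cr x u s 1)]
    have h5 : cr x u s 1 = 0 := by nlinarith [sq_nonneg (cr x u s 0), sq_nonneg (cr x u s 1)]
    have h6 := cr_inner h t s
    rw [inner3, h2, h4, h5, mul_zero, mul_zero, mul_one, zero_add, zero_add] at h6
    have h7 : 0 ≤ Real.cos (t - s) :=
      Real.cos_nonneg_of_mem_Icc ⟨by linarith, by linarith⟩
    rw [h6]
    intro h8
    linarith

/-- the parameter -/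
def th (t₀ L τ : ℝ) : ℝ := t₀ + L * ((1 - Real.cos (Real.pi * τ)) / 2)

/-- its derivative -/
def th' (L τ : ℝ) : ℝ := L * (Real.sin (Real.pi * τ) * Real.pi / 2)

lemma th_deriv (t₀ L τ : ℝ) : HasDerivAt (th t₀ L) (th' L τ) τ := by
  have h1 : HasDerivAt (fun τ : ℝ => Real.pi * τ) Real.pi τ := by
    have := (hasDerivAt_id τ).const_mul Real.pi
    rwa [mul_one] at this
  have h2 := (((h1.cos.const_sub 1).div_const 2).const_mul L).const_add t₀
  refine h2.congr_deriv ?_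
  unfold th'
  ring

lemma th_mem {t₀ L : ℝ} (hL : 0 ≤ L) (τ : ℝ) : t₀ ≤ th t₀ L τ ∧ th t₀ L τ ≤ t₀ + L := by
  unfold th
  have h1 := Real.cos_le_one (Real.pi * τ)
  have h2 := Real.neg_one_le_cos (Real.pi * τ)
  have h3 : 0 ≤ L * ((1 - Real.cos (Real.pi * τ)) / 2) := mul_nonneg hL (by linarith)
  have h4 : L * ((1 - Real.cos (Real.pi * τ)) / 2) ≤ L * 1 :=
    mul_le_mul_of_nonneg_left (by linarith) hL
  constructor <;> linarith

lemma th_zero (t₀ L : ℝ) : th t₀ L 0 = t₀ := by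
  unfold th
  simp

lemma th_one (t₀ L : ℝ) : th t₀ L 1 = t₀ + L := by
  unfold th
  rw [mul_one, Real.cos_pi]
  ring

lemma th_smooth (t₀ L : ℝ) : ContDiff ℝ 1 (th t₀ L) := by
  unfold th
  exact contDiff_const.add (contDiff_const.mul ((contDiff_const.sub
    (Real.contDiff_cos.comp (contDiff_const.mul contDiff_id))).div_const 2))

/-- the lift of an arc -/
lemma exists_piece {x u : E3} (h : Orth x u) (t₀ L : ℝ) (hL0 : 0 ≤ L) (hL1 : L ≤ Real.pi / 2) :
    ∃ (b : Bool) (γ : ℝ → ℂ), ContDiff ℝ 1 γ ∧ stv b (γ 0) = cr x u t₀ ∧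
      stv b (γ 1) = cr x u (t₀ + L) ∧
      ∫ t in (0 : ℝ)..1, Real.sqrt (stρ b (γ t)) * ‖deriv γ t‖ = L := by
  obtain ⟨b, hb⟩ := exists_chart h t₀ L hL1
  have hden : ∀ τ, 1 - sg b * cr x u (th t₀ L τ) 2 ≠ 0 := fun τ =>
    hb _ (th_mem hL0 τ).1 (th_mem hL0 τ).2
  obtain ⟨γ, hγ⟩ : ∃ γ : ℝ → ℂ, γ = fun τ => inv b (cr x u (th t₀ L τ)) := ⟨_, rfl⟩
  have hst : ∀ τ, stv b (γ τ) = cr x u (th t₀ L τ) := by
    intro τ
    rw [hγ]
    exact stv_inv b (cr_norm h _) (hden τ)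
  have hco : ∀ i : Fin 3, ContDiff ℝ 1 (fun τ => cr x u (th t₀ L τ) i) := by
    intro i
    have h1 : (fun τ => cr x u (th t₀ L τ) i) =
        fun τ => Real.cos (th t₀ L τ) * x i + Real.sin (th t₀ L τ) * u i := rfl
    rw [h1]
    exact ((Real.contDiff_cos.comp (th_smooth t₀ L)).mul contDiff_const).add
      ((Real.contDiff_sin.comp (th_smooth t₀ L)).mul contDiff_const)
  have hofr : ContDiff ℝ 1 (fun r : ℝ => (r : ℂ)) := Complex.ofRealCLM.contDiff (n := 1)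
  have hnum : ContDiff ℝ 1 (fun τ : ℝ => ((cr x u (th t₀ L τ) 0 : ℝ) : ℂ) +
      ((cr x u (th t₀ L τ) 1 : ℝ) : ℂ) * Complex.I) := by
    have h1 : ContDiff ℝ 1 (fun τ : ℝ => ((cr x u (th t₀ L τ) 0 : ℝ) : ℂ)) := hofr.comp (hco 0)
    have h2 : ContDiff ℝ 1 (fun τ : ℝ => ((cr x u (th t₀ L τ) 1 : ℝ) : ℂ)) := hofr.comp (hco 1)
    have h3 : ContDiff ℝ 1 (fun _ : ℝ => Complex.I) := contDiff_const
    exact h1.add (h2.mul h3)
  have hdn : ContDiff ℝ 1 (fun τ : ℝ => ((1 - sg b * cr x u (th t₀ L τ) 2 : ℝ) : ℂ)) := by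
    have h1 : ContDiff ℝ 1 (fun _ : ℝ => (1 : ℝ)) := contDiff_const
    have h2 : ContDiff ℝ 1 (fun _ : ℝ => sg b) := contDiff_const
    exact hofr.comp (h1.sub (h2.mul (hco 2)))
  have hγc : ContDiff ℝ 1 γ := by
    rw [hγ]
    have h0 : ∀ τ : ℝ, ((1 - sg b * cr x u (th t₀ L τ) 2 : ℝ) : ℂ) ≠ 0 := fun τ =>
      Complex.ofReal_ne_zero.2 (hden τ)
    have h1 : ContDiff ℝ 1 (fun τ : ℝ => ((1 - sg b * cr x u (th t₀ L τ) 2 : ℝ) : ℂ)⁻¹) :=
      hdn.inv h0
    have h2 := hnum.mul h1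
    unfold inv
    simp only [div_eq_mul_inv]
    exact h2
  refine ⟨b, γ, hγc, ?_, ?_, ?_⟩
  · rw [hst, th_zero]
  · rw [hst, th_one]
  · have hspeed : ∀ τ ∈ Set.uIcc (0 : ℝ) 1, √(stρ b (γ τ)) * ‖deriv γ τ‖ = th' L τ := by
      intro τ hτ
      rw [Set.uIcc_of_le zero_le_one] at hτ
      have hd : HasDerivAt γ (deriv γ τ) τ := (hγc.differentiable one_ne_zero τ).hasDerivAt
      have h1 := (chord_slope b hd).pow 2
      have h2 : HasDerivAt (fun z => 2 * Real.sin ((th t₀ L z - th t₀ L τ) / 2)) (th' L τ) τ := by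
        have h3 := ((((th_deriv t₀ L τ).sub_const (th t₀ L τ)).div_const 2).sin).const_mul 2
        refine h3.congr_deriv ?_
        rw [sub_self, zero_div, Real.cos_zero]
        ring
      have h3 := h2.tendsto_slope.pow 2
      have h4 : (fun z => (slope (fun z => 2 * Real.sin ((th t₀ L z - th t₀ L τ) / 2)) τ z) ^ 2) =
          fun z => (‖stv b (γ τ) - stv b (γ z)‖ / |z - τ|) ^ 2 := by
        funext z
        rw [div_pow, hst, hst, cr_sub h, slope_def_field, sub_self, zero_div, Real.sin_zero,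
          mul_zero, sub_zero, div_pow, sq_abs]
      rw [h4] at h3
      have h5 := tendsto_nhds_unique h1 h3
      refine (sq_eq_sq₀ (mul_nonneg (Real.sqrt_nonneg _) (norm_nonneg _)) ?_).1 h5
      unfold th'
      have h6 : 0 ≤ Real.sin (Real.pi * τ) :=
        Real.sin_nonneg_of_nonneg_of_le_pi (mul_nonneg Real.pi_pos.le hτ.1)
          (mul_le_of_le_one_right Real.pi_pos.le hτ.2)
      have := Real.pi_pos
      positivity
    rw [intervalIntegral.integral_congr hspeed,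
      intervalIntegral.integral_eq_sub_of_hasDerivAt (fun τ _ => th_deriv t₀ L τ) ?_, th_one,
      th_zero, add_sub_cancel_left]
    refine Continuous.intervalIntegrable ?_ _ _
    unfold th'
    fun_prop

/-- the distance is a length -/
lemma mem_lengths (x y : GS) : dist x y ∈ Lengths stU stc stρ x y := by
  by_cases hxy : x = y
  · refine ⟨0, fun _ => true, fun _ _ => 0, fun _ => x, rfl, hxy, ?_, ?_⟩
    · intro k hk
      exact absurd hk (Nat.not_lt_zero k)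
    · rw [hxy, dist_self]
      simp
  · obtain ⟨u, hu, hy⟩ := exists_circle x y
    obtain ⟨L, hL⟩ : ∃ L, L = dist x y := ⟨_, rfl⟩
    have hL0 : 0 ≤ L := hL ▸ dist_nonneg
    have hL1 : L ≤ Real.pi := hL ▸ InnerProductGeometry.angle_le_pi _ _
    rw [← hL] at hy ⊢
    have hp : ∀ k : ℕ, ∃ (b : Bool) (γ : ℝ → ℂ), ContDiff ℝ 1 γ ∧
        stv b (γ 0) = cr x.v u (k * (L / 2)) ∧ stv b (γ 1) = cr x.v u (k * (L / 2) + L / 2) ∧
        ∫ t in (0 : ℝ)..1, Real.sqrt (stρ b (γ t)) * ‖deriv γ t‖ = L / 2 := fun k =>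
      exists_piece hu _ _ (by linarith) (by linarith)
    choose b γ h1 h2 h3 h4 using hp
    refine ⟨2, b, γ, fun k => ⟨cr x.v u (k * (L / 2)), ?_⟩, ?_, ?_, ?_, ?_⟩
    · rw [mem_sphere_zero_iff_norm]
      exact cr_norm hu _
    · refine GS.ext_v ?_
      show cr x.v u ((0 : ℕ) * (L / 2)) = x.v
      unfold cr
      rw [Nat.cast_zero, zero_mul, Real.cos_zero, Real.sin_zero, one_smul, zero_smul, add_zero]
    · refine GS.ext_v ?_
      show cr x.v u ((2 : ℕ) * (L / 2)) = y.v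
      have h5 : ((2 : ℕ) : ℝ) * (L / 2) = L := by
        push_cast
        ring
      rw [h5, hy]
      rfl
    · intro k _
      refine ⟨h1 k, fun t _ => Set.mem_univ _, GS.ext_v (h2 k), GS.ext_v ?_⟩
      show stv (b k) (γ k 1) = cr x.v u ((k + 1 : ℕ) * (L / 2))
      rw [h3 k]
      congr 1
      push_cast
      ring
    · rw [Finset.sum_range_succ, Finset.sum_range_one]
      have h5 := h4 0
      have h6 := h4 1
      rw [h5, h6]
      ring

end

end W3x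

open W3x in
/-- **W3.** the stereographic charts describe the round sphere -/
theorem tw3 : W3 := by
  refine ⟨fun _ => isOpen_univ, fun b => (stc_inj b).injOn, fun b => (stc_cont b).continuousOn,
    fun b S hS _ => stc_open b hS, cover, fun b z _ => ?_, fun b => dens.contDiffOn,
    fun i j z _ w _ h => trans i j z w h, fun x y => ?_⟩
  · unfold stρ
    positivity
  · refine le_antisymm ?_ ?_
    · exact le_csInf ⟨_, mem_lengths x y⟩ fun l hl => lengths_ge hl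
    · exact csInf_le ⟨dist x y, fun l hl => lengths_ge hl⟩ (mem_lengths x y)

end Pool.Agent.H303.NP
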