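import Pool.Agent.H303.NP.Sph
import Pool.Graph.R_pool_sql_team_seeded_3997aac3.Q73.AD.TA4

/-!
# W4: the functions `har l` are eigenfunctions (helper376)
-/

set_option autoImplicit false
open MeasureTheory Filter Topology Complex Metric
open scoped ContDiff ComplexConjugate

namespace Pool.Agent.H303.NP

open Pool.Agent.Q73.NL Pool.Agent.Q73.AD

namespace W4L

/-- `1 + ‖z‖ ^ 2` -/
def s (z : ℂ) : ℝ := 1 + z.re ^ 2 + z.im ^ 2

lemma s_pos (z : ℂ) : 0 < s z := by
  unfold s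
  positivity

lemma s_eq (z : ℂ) : 1 + ‖z‖ ^ 2 = s z := by
  rw [Complex.sq_norm, Complex.normSq_apply, s]
  ring

lemma cd_s : ContDiff ℝ ∞ s := by
  have h1 : ContDiff ℝ ∞ fun z : ℂ => z.re := Complex.reCLM.contDiff
  have h2 : ContDiff ℝ ∞ fun z : ℂ => z.im := Complex.imCLM.contDiff
  exact (contDiff_const.add (h1.pow 2)).add (h2.pow 2)

lemma fd_s (z e : ℂ) : fderiv ℝ s z e = 2 * (z.re * e.re + z.im * e.im) := by
  have h1 : HasFDerivAt (fun z : ℂ => z.re) Complex.reCLM z := Complex.reCLM.hasFDerivAt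
  have h2 : HasFDerivAt (fun z : ℂ => z.im) Complex.imCLM z := Complex.imCLM.hasFDerivAt
  have h3 := ((hasFDerivAt_const (1 : ℝ) z).add (h1.pow 2)).add (h2.pow 2)
  have h4 : fderiv ℝ s z = _ := h3.fderiv
  rw [h4]
  simp
  ring

/-- powers of `1 / s` -/
noncomputable def G (n : ℕ) (z : ℂ) : ℝ := (s z)⁻¹ ^ n

lemma cd_G (n : ℕ) : ContDiff ℝ ∞ (G n) := (cd_s.inv fun z => (s_pos z).ne').pow n

lemma fd_G (n : ℕ) (z e : ℂ) :
    fderiv ℝ (G n) z e = -(n * G (n + 1) z * (2 * (z.re * e.re + z.im * e.im))) := by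
  have hs : HasFDerivAt s (fderiv ℝ s z) z := (cd_s.differentiable (by simp) z).hasFDerivAt
  have h1 : HasDerivAt (fun t : ℝ => t⁻¹ ^ n) (-(n * (s z)⁻¹ ^ (n + 1))) (s z) := by
    have h2 := (hasDerivAt_inv (s_pos z).ne').pow n
    refine h2.congr_deriv ?_
    cases n with
    | zero => simp
    | succ n =>
      rw [Nat.add_sub_cancel, ← inv_pow]
      ring
  have h3 := h1.comp_hasFDerivAt z hs
  have h4 : fderiv ℝ (G n) z = (-(n * (s z)⁻¹ ^ (n + 1))) • fderiv ℝ s z := h3.fderiv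
  rw [h4]
  simp only [_root_.smul_apply, smul_eq_mul, fd_s]
  unfold G
  ring

lemma lap_G (n : ℕ) (z : ℂ) :
    lap (G n) z = 4 * (s z - 1) * (n * (n + 1) * G (n + 2) z) - 4 * (n * G (n + 1) z) := by
  have hx : dx (G n) = fun z => -(2 * n) * (G (n + 1) z * z.re) := by
    funext z
    unfold dx
    rw [fd_G]
    simp
    ring
  have hy : dy (G n) = fun z => -(2 * n) * (G (n + 1) z * z.im) := by
    funext z
    unfold dy
    rw [fd_G]
    simp
    ring
  have hd : DifferentiableAt ℝ (G (n + 1)) z := (cd_G (n + 1)).differentiable (by simp) z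
  have h1 : HasFDerivAt (fun z : ℂ => z.re) Complex.reCLM z := Complex.reCLM.hasFDerivAt
  have h2 : HasFDerivAt (fun z : ℂ => z.im) Complex.imCLM z := Complex.imCLM.hasFDerivAt
  have h3 : dx (dx (G n)) z = -(2 * n) * (fderiv ℝ (G (n + 1)) z 1 * z.re + G (n + 1) z * 1) := by
    rw [hx]
    unfold dx
    have hm : DifferentiableAt ℝ (fun z => G (n + 1) z * z.re) z := hd.mul h1.differentiableAt
    rw [fderiv_const_mul hm]
    rw [_root_.smul_apply, fd_mul 1 hd h1.differentiableAt, h1.fderiv]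
    simp
  have h4 : dy (dy (G n)) z = -(2 * n) * (fderiv ℝ (G (n + 1)) z I * z.im + G (n + 1) z * 1) := by
    rw [hy]
    unfold dy
    have hm : DifferentiableAt ℝ (fun z => G (n + 1) z * z.im) z := hd.mul h2.differentiableAt
    rw [fderiv_const_mul hm]
    rw [_root_.smul_apply, fd_mul I hd h2.differentiableAt, h2.fderiv]
    simp
  unfold lap
  rw [h3, h4, fd_G, fd_G]
  simp only [Complex.one_re, Complex.one_im, Complex.I_re, Complex.I_im]
  push_cast
  have hs : s z - 1 = z.re ^ 2 + z.im ^ 2 := by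
    unfold s
    ring
  rw [hs]
  ring

/-- the real part of the power -/
def h (n : ℕ) (z : ℂ) : ℝ := (z ^ n).re

lemma cd_h (n : ℕ) : ContDiff ℝ ∞ (h n) := by
  have h1 : ContDiff ℝ ∞ fun z : ℂ => z ^ n := contDiff_id.pow n
  exact Complex.reCLM.contDiff.comp h1

lemma fd_pow (c : ℂ) (n : ℕ) (z e : ℂ) :
    fderiv ℝ (fun z => (c * z ^ n).re) z e = (c * (n * z ^ (n - 1) * e)).re := by
  have h1 : HasDerivAt (fun z : ℂ => c * z ^ n) (c * (n * z ^ (n - 1))) z :=
    (hasDerivAt_pow n z).const_mul c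
  have h2 := Complex.reCLM.hasFDerivAt.comp z (h1.hasFDerivAt.restrictScalars ℝ)
  have h3 : fderiv ℝ (fun z => (c * z ^ n).re) z = _ := h2.fderiv
  rw [h3]
  simp only [ContinuousLinearMap.comp_apply, ContinuousLinearMap.coe_restrictScalars',
    ContinuousLinearMap.toSpanSingleton_apply, smul_eq_mul, Complex.reCLM_apply]
  congr 1
  ring

lemma fd_h (n : ℕ) (z e : ℂ) : fderiv ℝ (h n) z e = ((n : ℂ) * z ^ (n - 1) * e).re := by
  have h1 := fd_pow 1 n z e
  simp only [one_mul] at h1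
  exact h1

lemma lap_h (n : ℕ) (z : ℂ) : lap (h n) z = 0 := by
  have hx : dx (h n) = fun z => ((n : ℂ) * z ^ (n - 1)).re := by
    funext z
    unfold dx
    rw [fd_h, mul_one]
  have hy : dy (h n) = fun z => (((n : ℂ) * I) * z ^ (n - 1)).re := by
    funext z
    unfold dy
    rw [fd_h]
    congr 1
    ring
  unfold lap
  rw [hx, hy]
  unfold dx dy
  rw [fd_pow, fd_pow]
  have h1 : (n : ℂ) * I * (((n - 1 : ℕ) : ℂ) * z ^ (n - 1 - 1) * I) =
      -((n : ℂ) * (((n - 1 : ℕ) : ℂ) * z ^ (n - 1 - 1) * 1)) := by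
    linear_combination (n : ℂ) * ((n - 1 : ℕ) : ℂ) * z ^ (n - 1 - 1) * Complex.I_mul_I
  rw [h1, Complex.neg_re]
  ring

lemma euler (n : ℕ) (z : ℂ) : z.re * dx (h n) z + z.im * dy (h n) z = n * h n z := by
  unfold dx dy
  rw [fd_h, fd_h, mul_one]
  cases n with
  | zero => simp
  | succ n =>
    rw [Nat.add_sub_cancel]
    unfold h
    rw [pow_succ]
    simp only [Complex.mul_re, Complex.mul_im, Complex.I_re, Complex.I_im, Complex.natCast_re,
      Complex.natCast_im]
    ring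

lemma main_eq (l : ℕ) (z : ℂ) :
    lap (fun z => G l z * h l z) z + (l : ℝ) * (l + 1) * (4 * G 2 z) * (G l z * h l z) = 0 := by
  rw [lap_mul (cd_G l).contDiffAt (cd_h l).contDiffAt, lap_h, lap_G]
  have h1 : dx (G l) z = -(l * G (l + 1) z * (2 * z.re)) := by
    unfold dx
    rw [fd_G]
    simp
  have h2 : dy (G l) z = -(l * G (l + 1) z * (2 * z.im)) := by
    unfold dy
    rw [fd_G]
    simp
  have h3 := euler l z
  have hs : G (l + 1) z = s z * G (l + 2) z := by
    unfold G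
    have hne := (s_pos z).ne'
    calc (s z)⁻¹ ^ (l + 1) = (s z)⁻¹ ^ (l + 1) * (s z * (s z)⁻¹) := by
          rw [mul_inv_cancel₀ hne, mul_one]
      _ = s z * (s z)⁻¹ ^ (l + 2) := by ring
  have hs2 : G 2 z * G l z = G (l + 2) z := by
    unfold G
    rw [← pow_add, add_comm]
  rw [h1, h2]
  have e1 : 2 * (-(l * G (l + 1) z * (2 * z.re)) * dx (h l) z +
      -(l * G (l + 1) z * (2 * z.im)) * dy (h l) z) =
      -(4 * l * G (l + 1) z) * (z.re * dx (h l) z + z.im * dy (h l) z) := by ring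
  rw [e1, h3, mul_zero, add_zero]
  have e2 : (l : ℝ) * (l + 1) * (4 * G 2 z) * (G l z * h l z) =
      4 * l * (l + 1) * (G 2 z * G l z) * h l z := by ring
  rw [e2, hs2, hs]
  ring

lemma har_eq (l : ℕ) (b : Bool) (z : ℂ) : har l (stc b z) = 2 ^ l * (G l z * h l z) := by
  unfold har
  rw [stc_v]
  have h0 : stv b z 0 = 2 * z.re / (1 + ‖z‖ ^ 2) := rfl
  have h1 : stv b z 1 = 2 * z.im / (1 + ‖z‖ ^ 2) := rfl
  rw [h0, h1, s_eq]
  have h2 : (((2 * z.re / s z : ℝ) : ℂ) + ((2 * z.im / s z : ℝ) : ℂ) * I) =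
      ((2 * (s z)⁻¹ : ℝ) : ℂ) * z := by
    apply Complex.ext
    · simp
      ring
    · simp
      ring
  rw [h2, mul_pow, ← Complex.ofReal_pow, Complex.re_ofReal_mul, mul_pow]
  unfold G h
  ring

end W4L

open W4L in
theorem tw4 : W4 := by
  intro l
  refine ⟨fun b => ⟨?_, fun z _ => ?_⟩, ⟨stc true 1, ?_⟩⟩
  · have h1 : (fun z => har l (stc b z)) = fun z => 2 ^ l * (G l z * h l z) :=
      funext fun z => har_eq l b z
    rw [h1]
    exact (contDiff_const.mul ((cd_G l).mul (cd_h l))).contDiffOn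
  · have h1 : (fun z => har l (stc b z)) = fun z => 2 ^ l * (G l z * h l z) :=
      funext fun z => har_eq l b z
    rw [h1, har_eq]
    have h2 : lap (fun z => 2 ^ l * (G l z * h l z)) z = 2 ^ l * lap (fun z => G l z * h l z) z := by
      have hd : ContDiffAt ℝ ∞ (fun z => G l z * h l z) z :=
        ((cd_G l).mul (cd_h l)).contDiffAt
      rw [lap_mul (f := fun _ => (2 : ℝ) ^ l) contDiffAt_const hd]
      obtain ⟨e1, e2, e3⟩ := ev_const (f := fun _ : ℂ => (2 : ℝ) ^ l) (z := z) (c := 2 ^ l)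
        (Eventually.of_forall fun _ => rfl)
      rw [e1, e2, e3]
      ring
    rw [h2]
    have h3 := main_eq l z
    have h4 : stρ b z = 4 * G 2 z := by
      unfold stρ G
      rw [s_eq, inv_pow]
      ring
    rw [h4]
    unfold ev
    linear_combination (2 : ℝ) ^ l * h3
  · rw [har_eq]
    unfold G h s
    norm_num

end Pool.Agent.H303.NP
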